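import Pool.Agent.W331.CR.Stm2

/-! CR-BSFIX: in the relation h y h⁻¹ = y ^ N the element h has a fixed point. -/

set_option autoImplicit false

open Set Filter Topology

namespace Pool.Agent.W331.CR

namespace BSfix

lemma sign_of_ne (F : ℝ ≃o ℝ) (p q : ℝ) (hF : ∀ x ∈ Ioo p q, F x ≠ x) :
    (∀ x ∈ Ioo p q, x < F x) ∨ (∀ x ∈ Ioo p q, F x < x) := by
  by_contra hcon
  push Not at hcon
  obtain ⟨⟨a, ha, ha'⟩, ⟨b, hb, hb'⟩⟩ := hcon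
  obtain ⟨c, hc, hc'⟩ := isPreconnected_Ioo.intermediate_value₂ ha hb
    F.continuous.continuousOn continuousOn_id ha' hb'
  exact hF c hc hc'

lemma inv_apply (w : ℝ ≃o ℝ) (x : ℝ) : w ((w⁻¹ : ℝ ≃o ℝ) x) = x := w.apply_symm_apply x

lemma inv_apply' (w : ℝ ≃o ℝ) (x : ℝ) : (w⁻¹ : ℝ ≃o ℝ) (w x) = x := w.symm_apply_apply x

lemma seq_left (w : ℝ ≃o ℝ) (p q : ℝ) (hp : w p = p) (hw : ∀ t ∈ Ioo p q, t < w t) (x : ℝ)
    (hx : x ∈ Ioo p q) :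
    (∀ k : ℕ, ((w⁻¹ : ℝ ≃o ℝ) ^ k) x ∈ Ioo p q) ∧
      Tendsto (fun k : ℕ => ((w⁻¹ : ℝ ≃o ℝ) ^ k) x) atTop (𝓝 p) := by
  have hp' : (w⁻¹ : ℝ ≃o ℝ) p = p := by
    apply w.injective
    rw [inv_apply, hp]
  have hlt : ∀ t ∈ Ioo p q, (w⁻¹ : ℝ ≃o ℝ) t < t := by
    intro t ht
    have h1 := (w⁻¹ : ℝ ≃o ℝ).strictMono (hw t ht)
    rwa [inv_apply'] at h1
  have hs : ∀ k : ℕ, ((w⁻¹ : ℝ ≃o ℝ) ^ (k + 1)) x = (w⁻¹ : ℝ ≃o ℝ) (((w⁻¹ : ℝ ≃o ℝ) ^ k) x) := by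
    intro k
    rw [pow_succ', RelIso.mul_apply]
  have hmem : ∀ k : ℕ, ((w⁻¹ : ℝ ≃o ℝ) ^ k) x ∈ Ioo p q := by
    intro k
    induction k with
    | zero => exact hx
    | succ k ih =>
      rw [hs]
      refine ⟨?_, lt_trans (hlt _ ih) ih.2⟩
      have h1 := (w⁻¹ : ℝ ≃o ℝ).strictMono ih.1
      rwa [hp'] at h1
  refine ⟨hmem, ?_⟩
  have hanti : Antitone (fun k : ℕ => ((w⁻¹ : ℝ ≃o ℝ) ^ k) x) := by
    refine antitone_nat_of_succ_le fun k => ?_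
    rw [hs]
    exact (hlt _ (hmem k)).le
  have hbdd : BddBelow (range fun k : ℕ => ((w⁻¹ : ℝ ≃o ℝ) ^ k) x) :=
    ⟨p, by rintro _ ⟨k, rfl⟩; exact (hmem k).1.le⟩
  have hlim := tendsto_atTop_ciInf hanti hbdd
  set l : ℝ := ⨅ k : ℕ, ((w⁻¹ : ℝ ≃o ℝ) ^ k) x with hl
  have hpl : p ≤ l := le_ciInf fun k => (hmem k).1.le
  have hlx : l ≤ x := ciInf_le hbdd 0
  have h1 : Tendsto (fun k : ℕ => (w⁻¹ : ℝ ≃o ℝ) (((w⁻¹ : ℝ ≃o ℝ) ^ k) x)) atTop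
      (𝓝 ((w⁻¹ : ℝ ≃o ℝ) l)) := ((w⁻¹ : ℝ ≃o ℝ).continuous.tendsto l).comp hlim
  have h2 : Tendsto (fun k : ℕ => (w⁻¹ : ℝ ≃o ℝ) (((w⁻¹ : ℝ ≃o ℝ) ^ k) x)) atTop (𝓝 l) := by
    have h3 := (tendsto_add_atTop_iff_nat 1).2 hlim
    refine h3.congr fun k => ?_
    exact hs k
  have h3 := tendsto_nhds_unique h1 h2
  rcases eq_or_lt_of_le hpl with h4 | h4
  · rw [h4]
    exact hlim
  · have h5 := hlt l ⟨h4, lt_of_le_of_lt hlx hx.2⟩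
    rw [h3] at h5
    exact absurd h5 (lt_irrefl _)

lemma seq_right (w : ℝ ≃o ℝ) (p q : ℝ) (hq : w q = q) (hw : ∀ t ∈ Ioo p q, w t < t) (x : ℝ)
    (hx : x ∈ Ioo p q) :
    (∀ k : ℕ, ((w⁻¹ : ℝ ≃o ℝ) ^ k) x ∈ Ioo p q) ∧
      Tendsto (fun k : ℕ => ((w⁻¹ : ℝ ≃o ℝ) ^ k) x) atTop (𝓝 q) := by
  have hq' : (w⁻¹ : ℝ ≃o ℝ) q = q := by
    apply w.injective
    rw [inv_apply, hq]
  have hlt : ∀ t ∈ Ioo p q, t < (w⁻¹ : ℝ ≃o ℝ) t := by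
    intro t ht
    have h1 := (w⁻¹ : ℝ ≃o ℝ).strictMono (hw t ht)
    rwa [inv_apply'] at h1
  have hs : ∀ k : ℕ, ((w⁻¹ : ℝ ≃o ℝ) ^ (k + 1)) x = (w⁻¹ : ℝ ≃o ℝ) (((w⁻¹ : ℝ ≃o ℝ) ^ k) x) := by
    intro k
    rw [pow_succ', RelIso.mul_apply]
  have hmem : ∀ k : ℕ, ((w⁻¹ : ℝ ≃o ℝ) ^ k) x ∈ Ioo p q := by
    intro k
    induction k with
    | zero => exact hx
    | succ k ih =>
      rw [hs]
      refine ⟨lt_trans ih.1 (hlt _ ih), ?_⟩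
      have h1 := (w⁻¹ : ℝ ≃o ℝ).strictMono ih.2
      rwa [hq'] at h1
  refine ⟨hmem, ?_⟩
  have hmono : Monotone (fun k : ℕ => ((w⁻¹ : ℝ ≃o ℝ) ^ k) x) := by
    refine monotone_nat_of_le_succ fun k => ?_
    rw [hs]
    exact (hlt _ (hmem k)).le
  have hbdd : BddAbove (range fun k : ℕ => ((w⁻¹ : ℝ ≃o ℝ) ^ k) x) :=
    ⟨q, by rintro _ ⟨k, rfl⟩; exact (hmem k).2.le⟩
  have hlim := tendsto_atTop_ciSup hmono hbdd
  set l : ℝ := ⨆ k : ℕ, ((w⁻¹ : ℝ ≃o ℝ) ^ k) x with hl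
  have hlq : l ≤ q := ciSup_le fun k => (hmem k).2.le
  have hxl : x ≤ l := le_ciSup hbdd 0
  have h1 : Tendsto (fun k : ℕ => (w⁻¹ : ℝ ≃o ℝ) (((w⁻¹ : ℝ ≃o ℝ) ^ k) x)) atTop
      (𝓝 ((w⁻¹ : ℝ ≃o ℝ) l)) := ((w⁻¹ : ℝ ≃o ℝ).continuous.tendsto l).comp hlim
  have h2 : Tendsto (fun k : ℕ => (w⁻¹ : ℝ ≃o ℝ) (((w⁻¹ : ℝ ≃o ℝ) ^ k) x)) atTop (𝓝 l) := by
    have h3 := (tendsto_add_atTop_iff_nat 1).2 hlim
    refine h3.congr fun k => ?_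
    exact hs k
  have h3 := tendsto_nhds_unique h1 h2
  rcases eq_or_lt_of_le hlq with h4 | h4
  · rw [← h4]
    exact hlim
  · have h5 := hlt l ⟨lt_of_lt_of_le hx.1 hxl, h4⟩
    rw [h3] at h5
    exact absurd h5 (lt_irrefl _)

/-- algebra of the relation -/
lemma alg {G : Type*} [Group G] (h w : G) (N : ℕ) (hN : 2 ≤ N) (hr : h * w * h⁻¹ = w ^ N) (k : ℕ) :
    (w ^ (N * k)) * h * (w⁻¹) ^ (N * k) = h * (w⁻¹) ^ ((N - 1) * k) := by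
  have h1 : h * w ^ k * h⁻¹ = w ^ (N * k) := by
    rw [← conj_pow, hr, ← pow_mul]
  have h2 : w ^ (N * k) * h = h * w ^ k := by
    rw [← h1]
    group
  have h3 : N * k = k + (N - 1) * k := by
    obtain ⟨M, rfl⟩ : ∃ M, N = M + 1 := ⟨N - 1, by omega⟩
    rw [Nat.add_sub_cancel]
    ring
  rw [h2, h3, pow_add, ← mul_assoc, mul_assoc h, inv_pow w k, mul_inv_cancel, mul_one]

lemma caseA (h w : ℝ ≃o ℝ) (N : ℕ) (hN : 2 ≤ N) (hr : h * w * h⁻¹ = w ^ N) (p q : ℝ) (hpq : p < q)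
    (hp : w p = p) (hw : ∀ t ∈ Ioo p q, t < w t) (hhp : h p = p)
    (hh : ∀ t ∈ Ioo p q, t < h t) : False := by
  obtain ⟨x, hx⟩ := exists_between hpq
  obtain ⟨h1, h2⟩ := seq_left w p q hp hw x hx
  have h3 : ∀ k : ℕ, x < h (((w⁻¹ : ℝ ≃o ℝ) ^ ((N - 1) * k)) x) := by
    intro k
    have h4 := hh _ (h1 (N * k))
    have h5 := (w ^ (N * k) : ℝ ≃o ℝ).strictMono h4
    have h6 : (w ^ (N * k) : ℝ ≃o ℝ) (((w⁻¹ : ℝ ≃o ℝ) ^ (N * k)) x) = x := by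
      rw [← RelIso.mul_apply, inv_pow, mul_inv_cancel]
      rfl
    rw [h6] at h5
    have h7 := congrArg (fun F : ℝ ≃o ℝ => F x) (alg h w N hN hr k)
    simp only [RelIso.mul_apply] at h7
    rw [← h7]
    exact h5
  have h4 : Tendsto (fun k : ℕ => (N - 1) * k) atTop atTop :=
    tendsto_id.const_mul_atTop' (by omega)
  have h5 : Tendsto (fun k : ℕ => h (((w⁻¹ : ℝ ≃o ℝ) ^ ((N - 1) * k)) x)) atTop (𝓝 (h p)) :=
    (h.continuous.tendsto p).comp (h2.comp h4)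
  have h6 := ge_of_tendsto' h5 fun k => (h3 k).le
  rw [hhp] at h6
  exact absurd hx.1 (not_lt.2 h6)

lemma caseB (h w : ℝ ≃o ℝ) (N : ℕ) (hN : 2 ≤ N) (hr : h * w * h⁻¹ = w ^ N) (p q : ℝ) (hpq : p < q)
    (hq : w q = q) (hw : ∀ t ∈ Ioo p q, w t < t) (hhq : h q = q)
    (hh : ∀ t ∈ Ioo p q, h t < t) : False := by
  obtain ⟨x, hx⟩ := exists_between hpq
  obtain ⟨h1, h2⟩ := seq_right w p q hq hw x hx
  have h3 : ∀ k : ℕ, h (((w⁻¹ : ℝ ≃o ℝ) ^ ((N - 1) * k)) x) < x := by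
    intro k
    have h4 := hh _ (h1 (N * k))
    have h5 := (w ^ (N * k) : ℝ ≃o ℝ).strictMono h4
    have h6 : (w ^ (N * k) : ℝ ≃o ℝ) (((w⁻¹ : ℝ ≃o ℝ) ^ (N * k)) x) = x := by
      rw [← RelIso.mul_apply, inv_pow, mul_inv_cancel]
      rfl
    rw [h6] at h5
    have h7 := congrArg (fun F : ℝ ≃o ℝ => F x) (alg h w N hN hr k)
    simp only [RelIso.mul_apply] at h7
    rw [← h7]
    exact h5
  have h4 : Tendsto (fun k : ℕ => (N - 1) * k) atTop atTop :=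
    tendsto_id.const_mul_atTop' (by omega)
  have h5 : Tendsto (fun k : ℕ => h (((w⁻¹ : ℝ ≃o ℝ) ^ ((N - 1) * k)) x)) atTop (𝓝 (h q)) :=
    (h.continuous.tendsto q).comp (h2.comp h4)
  have h6 := le_of_tendsto' h5 fun k => (h3 k).le
  rw [hhq] at h6
  exact absurd hx.2 (not_lt.2 h6)

end BSfix

open BSfix

theorem s_bsfix : S_bsfix := by
  intro h y N hN hr p q hy hhp hhq
  by_contra hcon
  push Not at hcon
  have hri : h * y⁻¹ * h⁻¹ = (y⁻¹) ^ N := by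
    rw [inv_pow, ← hr]
    group
  have hip : (y⁻¹ : ℝ ≃o ℝ) p = p := by
    apply y.injective
    rw [inv_apply, hy.left]
  have hiq : (y⁻¹ : ℝ ≃o ℝ) q = q := by
    apply y.injective
    rw [inv_apply, hy.right]
  rcases sign_of_ne y p q hy.ne with h1 | h1
  · have h1' : ∀ t ∈ Ioo p q, (y⁻¹ : ℝ ≃o ℝ) t < t := by
      intro t ht
      have h2 := (y⁻¹ : ℝ ≃o ℝ).strictMono (h1 t ht)
      rwa [inv_apply'] at h2
    rcases sign_of_ne h p q hcon with h2 | h2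
    · exact caseA h y N hN hr p q hy.lt hy.left h1 hhp h2
    · exact caseB h y⁻¹ N hN hri p q hy.lt hiq h1' hhq h2
  · have h1' : ∀ t ∈ Ioo p q, t < (y⁻¹ : ℝ ≃o ℝ) t := by
      intro t ht
      have h2 := (y⁻¹ : ℝ ≃o ℝ).strictMono (h1 t ht)
      rwa [inv_apply'] at h2
    rcases sign_of_ne h p q hcon with h2 | h2
    · exact caseA h y⁻¹ N hN hri p q hy.lt hip h1' hhp h2
    · exact caseB h y N hN hr p q hy.lt hy.right h1 hhq h2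

end Pool.Agent.W331.CR
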