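import Pool.Agent.W331.CR.Stm2

/-! The relations of the first group hold in the combinatorial group. -/

set_option autoImplicit false

open Set Filter Topology Function
open scoped ContDiff

namespace Pool.Agent.W331.CR

namespace Combi

lemma takeW (n : ℕ) (l : List Bool) :
    (List.replicate n false ++ true :: l).takeWhile (fun x => !x) = List.replicate n false := by
  induction n with
  | zero => simp
  | succ n ih => simp [List.replicate_succ, ih]

lemma vw_form (j i : ℕ) (hi : 1 ≤ i) : ∃ l : List Bool,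
    vw j i = List.replicate (Nat.factorial j) false ++ true :: l := by
  obtain ⟨i, rfl⟩ : ∃ k, i = k + 1 := ⟨i - 1, by omega⟩
  obtain ⟨n, hn⟩ : ∃ n, Nat.factorial j = n + 1 :=
    ⟨Nat.factorial j - 1, by have := Nat.factorial_pos j; omega⟩
  refine ⟨List.replicate n true ++ (List.replicate i (List.replicate (Nat.factorial j) false ++
    List.replicate (Nat.factorial j) true)).flatten, ?_⟩
  unfold vw
  rw [List.replicate_succ, List.flatten_cons, List.append_assoc]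
  congr 1
  rw [hn, List.replicate_succ, List.cons_append]

lemma vw_len (j i : ℕ) : (vw j i).length = i * (2 * Nat.factorial j) := by
  unfold vw
  simp [List.length_flatten]
  left
  ring

lemma vw_inj (j i j' i' : ℕ) (hj : 1 ≤ j) (hi : 1 ≤ i) (hj' : 1 ≤ j') (hi' : 1 ≤ i')
    (h : vw j i = vw j' i') : j = j' ∧ i = i' := by
  obtain ⟨l, hl⟩ := vw_form j i hi
  obtain ⟨l', hl'⟩ := vw_form j' i' hi'
  have h1 : List.replicate (Nat.factorial j) false = List.replicate (Nat.factorial j') false := by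
    have k1 := takeW (Nat.factorial j) l
    have k2 := takeW (Nat.factorial j') l'
    rw [← hl] at k1
    rw [← hl'] at k2
    rw [← k1, ← k2, h]
  have h2 : Nat.factorial j = Nat.factorial j' := by
    have := congrArg List.length h1
    simpa using this
  have h3 : j = j' := by
    rcases lt_trichotomy j j' with hlt | heq | hgt
    · have := (Nat.factorial_lt (by omega : 0 < j)).2 hlt
      omega
    · exact heq
    · have := (Nat.factorial_lt (by omega : 0 < j')).2 hgt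
      omega
  subst h3
  refine ⟨rfl, ?_⟩
  have h4 : (vw j i).length = (vw j i').length := by rw [h]
  rw [vw_len, vw_len] at h4
  have h5 := Nat.factorial_pos j
  exact Nat.eq_of_mul_eq_mul_right (by omega) h4

lemma ais (Q : Equiv.Perm (Ix × ℝ)) (x : Ix × ℝ) : Q (Q⁻¹ x) = x := Q.apply_symm_apply x
lemma ias (Q : Equiv.Perm (Ix × ℝ)) (x : Ix × ℝ) : Q⁻¹ (Q x) = x := Q.symm_apply_apply x

/-- `fib` is multiplicative -/
lemma fib_mul (F G : Equiv.Perm ℝ) : fib (F * G) = fib F * fib G := by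
  ext1 ⟨x, t⟩
  simp only [Equiv.Perm.mul_apply]
  unfold fib fw
  by_cases hx : x = Sum.inl []
  · simp [hx]
  · simp [hx]

lemma fib_one : fib 1 = 1 := by
  ext1 ⟨x, t⟩
  unfold fib fw
  simp

lemma fib_inv (F : Equiv.Perm ℝ) : fib F⁻¹ = (fib F)⁻¹ := by
  rw [eq_comm, inv_eq_iff_mul_eq_one, ← fib_mul, mul_inv_cancel, fib_one]

lemma fib_base (F : Equiv.Perm ℝ) (t : ℝ) : fib F (Sum.inl [], t) = (Sum.inl [], F t) := by
  unfold fib fw
  simp

lemma fib_off (F : Equiv.Perm ℝ) (x : Ix) (t : ℝ) (hx : x ≠ Sum.inl []) :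
    fib F (x, t) = (x, t) := by
  unfold fib fw
  simp [hx]

/-- a permutation fixing the basic fibre commutes with the maps of the basic fibre -/
lemma comm_fix (P : Equiv.Perm (Ix × ℝ)) (hP : ∀ t, P (Sum.inl [], t) = (Sum.inl [], t))
    (F : Equiv.Perm ℝ) : Commute P (fib F) := by
  show P * fib F = fib F * P
  ext1 ⟨x, t⟩
  simp only [Equiv.Perm.mul_apply]
  by_cases hx : x = Sum.inl []
  · subst hx
    rw [fib_base, hP, hP, fib_base]
  · rw [fib_off F x t hx]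
    have h1 : (P (x, t)).1 ≠ Sum.inl [] := by
      intro h
      have h2 : P (x, t) = (Sum.inl [], (P (x, t)).2) := Prod.ext h rfl
      rw [← hP (P (x, t)).2] at h2
      have h3 := P.injective h2
      exact hx (congrArg Prod.fst h3)
    have h2 : P (x, t) = ((P (x, t)).1, (P (x, t)).2) := rfl
    rw [h2, fib_off F _ _ h1]

/-- conjugates of fibre maps supported on other fibres -/
lemma comm_conj (Q : Equiv.Perm (Ix × ℝ)) (hQ : ∀ t, (Q⁻¹ (Sum.inl [], t)).1 ≠ Sum.inl [])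
    (F F' : Equiv.Perm ℝ) : Commute (Q * fib F * Q⁻¹) (fib F') := by
  apply comm_fix
  intro t
  simp only [Equiv.Perm.mul_apply]
  have h2 : Q⁻¹ (Sum.inl [], t) = ((Q⁻¹ (Sum.inl [], t)).1, (Q⁻¹ (Sum.inl [], t)).2) := rfl
  rw [h2, fib_off F _ _ (hQ t), ← h2, ais]

lemma gA_apply (x : Ix) (t : ℝ) : gA (x, t) = (aFun x, t) := rfl
lemma gB_apply (x : Ix) (t : ℝ) : gB (x, t) = (bFun x, t) := rfl
lemma gA_inv (x : Ix) (t : ℝ) : gA⁻¹ (x, t) = (aInv x, t) := rfl
lemma gB_inv (x : Ix) (t : ℝ) : gB⁻¹ (x, t) = (bInv x, t) := rfl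

lemma gA_inv_pow (n : ℕ) (t : ℝ) :
    (gA ^ (n + 1))⁻¹ (Sum.inl [], t) = (Sum.inr (Sum.inl (n, none)), t) := by
  rw [← inv_pow]
  induction n with
  | zero => rw [zero_add, pow_one, gA_inv]; rfl
  | succ n ih =>
    rw [pow_succ', Equiv.Perm.mul_apply, ih, gA_inv]; rfl

lemma gB_inv_pow (n : ℕ) (t : ℝ) :
    (gB ^ (n + 1))⁻¹ (Sum.inl [], t) = (Sum.inr (Sum.inr (n, none)), t) := by
  rw [← inv_pow]
  induction n with
  | zero => rw [zero_add, pow_one, gB_inv]; rfl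
  | succ n ih =>
    rw [pow_succ', Equiv.Perm.mul_apply, ih, gB_inv]; rfl

lemma gA_pow (n : ℕ) (u : List Bool) (t : ℝ) :
    (gA ^ n) (Sum.inl u, t) = (Sum.inl (List.replicate n false ++ u), t) := by
  induction n with
  | zero => rfl
  | succ n ih =>
    rw [pow_succ', Equiv.Perm.mul_apply, ih, gA_apply, List.replicate_succ]; rfl

lemma gB_pow (n : ℕ) (u : List Bool) (t : ℝ) :
    (gB ^ n) (Sum.inl u, t) = (Sum.inl (List.replicate n true ++ u), t) := by
  induction n with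
  | zero => rfl
  | succ n ih =>
    rw [pow_succ', Equiv.Perm.mul_apply, ih, gB_apply, List.replicate_succ]; rfl

lemma v_pow (j i : ℕ) (t : ℝ) :
    ((gA ^ (Nat.factorial j) * gB ^ (Nat.factorial j)) ^ i) (Sum.inl [], t) =
      (Sum.inl (vw j i), t) := by
  induction i with
  | zero => simp [vw]
  | succ i ih =>
    rw [pow_succ', Equiv.Perm.mul_apply, ih, Equiv.Perm.mul_apply, gB_pow, gA_pow]
    unfold vw
    rw [List.replicate_succ, List.flatten_cons, List.append_assoc]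

/-- the fibres which are images of the basic fibre by negative powers of `a` -/
def Neg (z : Ix × ℝ) : Prop := ∃ n : ℕ, z.1 = Sum.inr (Sum.inl (n, none))

lemma Neg.a {z : Ix × ℝ} (h : Neg z) : Neg (gA⁻¹ z) := by
  obtain ⟨n, hn⟩ := h
  obtain ⟨x, t⟩ := z
  simp only at hn
  subst hn
  exact ⟨n + 1, by rw [gA_inv]; rfl⟩

lemma Neg.b {z : Ix × ℝ} (h : Neg z) : Neg (gB⁻¹ z) := by
  obtain ⟨n, hn⟩ := h
  obtain ⟨x, t⟩ := z
  simp only at hn
  subst hn
  exact ⟨n, by rw [gB_inv]; rfl⟩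

lemma Neg.powa {z : Ix × ℝ} (h : Neg z) (n : ℕ) : Neg ((gA⁻¹ ^ n) z) := by
  induction n with
  | zero => exact h
  | succ n ih => rw [pow_succ', Equiv.Perm.mul_apply]; exact ih.a

lemma Neg.powb {z : Ix × ℝ} (h : Neg z) (n : ℕ) : Neg ((gB⁻¹ ^ n) z) := by
  induction n with
  | zero => exact h
  | succ n ih => rw [pow_succ', Equiv.Perm.mul_apply]; exact ih.b

lemma v_inv (m : ℕ) (i : ℕ) (t : ℝ) :
    Neg ((((gA ^ (m + 1) * gB ^ (m + 1)) ^ (i + 1))⁻¹) (Sum.inl [], t)) := by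
  rw [← inv_pow]
  induction i with
  | zero =>
    rw [zero_add, pow_one, mul_inv_rev, Equiv.Perm.mul_apply, ← inv_pow, gA_inv_pow]
    exact Neg.powb ⟨m, rfl⟩ _
  | succ i ih =>
    rw [pow_succ', Equiv.Perm.mul_apply, mul_inv_rev, Equiv.Perm.mul_apply, ← inv_pow, ← inv_pow]
    rw [mul_inv_rev, ← inv_pow, ← inv_pow] at ih
    exact (ih.powa _).powb _

lemma y_mul_pow {h : ℝ ≃o ℝ} {y : ℝ → (ℝ ≃o ℝ)} (hf : FlatPair h y) (s : ℝ) (n : ℕ) :
    y s ^ (n + 1) = y ((n + 1 : ℕ) * s) := by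
  induction n with
  | zero => simp
  | succ n ih =>
    rw [pow_succ, ih, ← hf.y_add]
    congr 1
    push_cast
    ring

lemma y_pow_two {h : ℝ ≃o ℝ} {y : ℝ → (ℝ ≃o ℝ)} (hf : FlatPair h y) (n : ℕ) :
    y (1 / 2 ^ n) ^ (2 ^ n) = y 1 := by
  obtain ⟨m, hm⟩ : ∃ m, 2 ^ n = m + 1 := ⟨2 ^ n - 1, by have := Nat.one_le_two_pow (n := n); omega⟩
  rw [hm, y_mul_pow hf, ← hm]
  congr 1
  push_cast
  field_simp

lemma y_comm {h : ℝ ≃o ℝ} {y : ℝ → (ℝ ≃o ℝ)} (hf : FlatPair h y) (s s' : ℝ) :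
    Commute (y s) (y s') := by
  show y s * y s' = y s' * y s
  rw [← hf.y_add, ← hf.y_add, add_comm]

lemma toEquiv_mul (F G : ℝ ≃o ℝ) : (F * G).toEquiv = F.toEquiv * G.toEquiv := rfl
lemma toEquiv_inv (F : ℝ ≃o ℝ) : (F⁻¹).toEquiv = F.toEquiv⁻¹ := rfl

end Combi

open Combi

theorem s_fTau : S_fTau := by
  intro y e
  refine ⟨?_, ?_, ?_⟩
  · intro j i hj hi
    have hx : ∃ p : ℕ × ℕ, 1 ≤ p.1 ∧ 1 ≤ p.2 ∧ (Sum.inl (vw j i) : Ix) = Sum.inl (vw p.1 p.2) :=
      ⟨(j, i), hj, hi, rfl⟩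
    have h1 : fTau y e (Sum.inl (vw j i)) =
        (y (1 / 2 ^ (e hx.choose.1 * hx.choose.2))).toEquiv := by
      unfold fTau
      rw [dif_pos hx]
    obtain ⟨k1, k2, k3⟩ := hx.choose_spec
    obtain ⟨e1, e2⟩ := vw_inj j i _ _ hj hi k1 k2 (Sum.inl_injective k3)
    rw [h1, ← e1, ← e2]
  · intro x hx
    unfold fTau
    rw [dif_neg]
    rintro ⟨p, h1, h2, h3⟩
    exact hx p.1 p.2 h1 h2 h3
  · intro j i j' i' hj hi hj' hi' h
    exact vw_inj j i j' i' hj hi hj' hi' h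

theorem s_rel84 : S_fTau → S_rel84 := by
  intro hT h y hf e
  obtain ⟨hT1, hT2, hT3⟩ := hT y e
  have key : ∀ P : Equiv.Perm (Ix × ℝ), (∀ t, P (Sum.inl [], t) = (Sum.inl [], t)) →
      Commute P (gH h) ∧ Commute P (gY y) := fun P hP => ⟨comm_fix P hP _, comm_fix P hP _⟩
  have key2 : ∀ Q : Equiv.Perm (Ix × ℝ), (∀ t, (Q⁻¹ (Sum.inl [], t)).1 ≠ Sum.inl []) →
      Commute (Q * gY y * Q⁻¹) (gH h) ∧ Commute (Q * gY y * Q⁻¹) (gY y) :=
    fun Q hQ => ⟨comm_conj Q hQ _ _, comm_conj Q hQ _ _⟩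
  refine ⟨{ r0 := ?_, ra := ?_, rb := ?_, wa := ?_, wb := ?_, wv := ?_, rf := ?_ }, ?_⟩
  · unfold gH gY
    rw [← fib_inv, ← fib_mul, ← fib_mul, pow_two, ← fib_mul, ← toEquiv_inv, ← toEquiv_mul,
      ← toEquiv_mul, ← toEquiv_mul, hf.rel, ← hf.y_add]
    norm_num
  · intro j hj
    obtain ⟨n, rfl⟩ : ∃ n, j = n + 1 := ⟨j - 1, by omega⟩
    apply key
    intro t
    rw [Equiv.Perm.mul_apply, Equiv.Perm.mul_apply, gA_inv_pow, gB_apply]
    have : (bFun (Sum.inr (Sum.inl (n, none))), t) = (gA ^ (n + 1))⁻¹ (Sum.inl [], t) := by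
      rw [gA_inv_pow]; rfl
    rw [this, ais]
  · intro j hj
    obtain ⟨n, rfl⟩ : ∃ n, j = n + 1 := ⟨j - 1, by omega⟩
    apply key
    intro t
    rw [Equiv.Perm.mul_apply, Equiv.Perm.mul_apply, gB_inv_pow, gA_apply]
    have : (aFun (Sum.inr (Sum.inr (n, none))), t) = (gB ^ (n + 1))⁻¹ (Sum.inl [], t) := by
      rw [gB_inv_pow]; rfl
    rw [this, ais]
  · intro j hj
    obtain ⟨n, rfl⟩ : ∃ n, j = n + 1 := ⟨j - 1, by omega⟩
    apply key2
    intro t
    rw [gA_inv_pow]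
    simp
  · intro j hj
    obtain ⟨n, rfl⟩ : ∃ n, j = n + 1 := ⟨j - 1, by omega⟩
    apply key2
    intro t
    rw [gB_inv_pow]
    simp
  · intro j i hj hi v hv
    obtain ⟨m, hm⟩ : ∃ m, Nat.factorial j = m + 1 :=
      ⟨Nat.factorial j - 1, by have := Nat.factorial_pos j; omega⟩
    obtain ⟨n, rfl⟩ : ∃ n, i = n + 1 := ⟨i - 1, by omega⟩
    apply key2
    intro t
    rw [hv, hm]
    obtain ⟨k, hk⟩ := v_inv m n t
    rw [hk]
    simp
  · intro j i hj hi v F hv hF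
    have hFt : ∀ t, F (Sum.inl [], t) = (Sum.inl [], y (1 / 2 ^ (e j * i)) t) := by
      intro t
      rw [hF, Equiv.Perm.mul_apply, Equiv.Perm.mul_apply]
      have h1 : v (Sum.inl [], t) = (Sum.inl (vw j i), t) := by rw [hv, v_pow]
      have h2 : gF y e (Sum.inl (vw j i), t) =
          (Sum.inl (vw j i), y (1 / 2 ^ (e j * i)) t) := by
        unfold gF fw
        rw [Equiv.prodShear_apply]
        simp only [Equiv.refl_apply]
        rw [hT1 j i hj hi]
        rfl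
      have h3 : v (Sum.inl [], y (1 / 2 ^ (e j * i)) t) =
          (Sum.inl (vw j i), y (1 / 2 ^ (e j * i)) t) := by rw [hv, v_pow]
      rw [h1, h2, ← h3, ias]
    have hFn : ∀ (n : ℕ) (t : ℝ), (F ^ n) (Sum.inl [], t) =
        (Sum.inl [], (y (1 / 2 ^ (e j * i)) ^ n) t) := by
      intro n
      induction n with
      | zero => intro t; rfl
      | succ n ih =>
        intro t
        rw [pow_succ, Equiv.Perm.mul_apply, hFt, ih, pow_succ, RelIso.mul_apply]
    have hfix : ∀ t, (F ^ (2 ^ (e j * i)) * (gY y)⁻¹) (Sum.inl [], t) = (Sum.inl [], t) := by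
      intro t
      unfold gY
      rw [← fib_inv, Equiv.Perm.mul_apply, fib_base, hFn, y_pow_two hf]
      congr 1
      exact (y 1).apply_symm_apply t
    refine ⟨(key _ hfix).1, (key _ hfix).2, ?_⟩
    have hfix2 : ∀ t, (F * (fib (y (1 / 2 ^ (e j * i))).toEquiv)⁻¹) (Sum.inl [], t) =
        (Sum.inl [], t) := by
      intro t
      rw [← fib_inv, Equiv.Perm.mul_apply, fib_base, hFt]
      congr 1
      exact (y (1 / 2 ^ (e j * i))).apply_symm_apply t
    have c1 := (key _ hfix2).2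
    have c2 : Commute (fib (y (1 / 2 ^ (e j * i))).toEquiv) (gY y) := by
      unfold gY
      show fib _ * fib _ = fib _ * fib _
      rw [← fib_mul, ← fib_mul, ← toEquiv_mul, ← toEquiv_mul, (y_comm hf _ _).eq]
    have c3 := c1.mul_left c2
    rwa [inv_mul_cancel_right] at c3
  · intro h1
    have h2 : gY y (Sum.inl [], 1 / 2) = (Sum.inl [], 1 / 2) := by rw [h1]; rfl
    unfold gY at h2
    rw [fib_base] at h2
    exact hf.y_ne 1 one_ne_zero (1 / 2) ⟨by norm_num, by norm_num⟩ (congrArg Prod.snd h2)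

end Pool.Agent.W331.CR
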