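import Pool.Agent.W331.CR.Stm

/-! Components of the support of homeomorphisms of the line (CR-COMP). -/

set_option autoImplicit false

open Set Filter Topology

namespace Pool.Agent.W331.CR

namespace Comp

variable {F z : ℝ ≃o ℝ} {p q t : ℝ}

lemma inv_apply_self (F : ℝ ≃o ℝ) (x : ℝ) : (F⁻¹ : ℝ ≃o ℝ) (F x) = x := F.symm_apply_apply x

lemma apply_inv_self (F : ℝ ≃o ℝ) (x : ℝ) : F ((F⁻¹ : ℝ ≃o ℝ) x) = x := F.apply_symm_apply x

lemma cont (F : ℝ ≃o ℝ) : Continuous F := F.continuous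

lemma pow_succ_apply (F : ℝ ≃o ℝ) (n : ℕ) (x : ℝ) : (F ^ (n + 1)) x = (F ^ n) (F x) := by
  rw [pow_succ, RelIso.mul_apply]

lemma pow_succ_apply' (F : ℝ ≃o ℝ) (n : ℕ) (x : ℝ) : (F ^ (n + 1)) x = F ((F ^ n) x) := by
  rw [pow_succ', RelIso.mul_apply]

lemma pow_add_apply (F : ℝ ≃o ℝ) (m n : ℕ) (x : ℝ) : (F ^ (m + n)) x = (F ^ m) ((F ^ n) x) := by
  rw [pow_add, RelIso.mul_apply]

lemma pow_zero_apply (F : ℝ ≃o ℝ) (x : ℝ) : (F ^ 0) x = x := rfl

lemma inv_fix (h : F t = t) : (F⁻¹ : ℝ ≃o ℝ) t = t := by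
  conv_lhs => rw [← h]
  exact inv_apply_self F t

lemma pow_fix (h : F t = t) (n : ℕ) : (F ^ n) t = t := by
  induction n with
  | zero => rfl
  | succ n ih => rw [pow_succ_apply, h, ih]

lemma zpow_fix (h : F t = t) (n : ℤ) : (F ^ n) t = t := by
  cases n with
  | ofNat n => rw [Int.ofNat_eq_natCast, zpow_natCast]; exact pow_fix h n
  | negSucc n => rw [zpow_negSucc]; exact inv_fix (pow_fix h _)

lemma commute_apply (h : Commute z F) (x : ℝ) : z (F x) = F (z x) := by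
  have := congrArg (fun G : ℝ ≃o ℝ => G x) h.eq
  simpa [RelIso.mul_apply] using this

/-- (a) -/
lemma mem_Ioo (h : IsComp F p q) {x : ℝ} (hx : x ∈ Ioo p q) : F x ∈ Ioo p q := by
  have h1 := F.strictMono hx.1
  have h2 := F.strictMono hx.2
  rw [h.left] at h1
  rw [h.right] at h2
  exact ⟨h1, h2⟩

lemma mem_Icc (h : IsComp F p q) {x : ℝ} (hx : x ∈ Icc p q) : F x ∈ Icc p q := by
  have h1 := F.monotone hx.1
  have h2 := F.monotone hx.2
  rw [h.left] at h1
  rw [h.right] at h2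
  exact ⟨h1, h2⟩

/-- (f) -/
lemma inv (h : IsComp F p q) : IsComp F⁻¹ p q := by
  refine ⟨h.lt, inv_fix h.left, inv_fix h.right, fun x hx he => ?_⟩
  have : F x = x := by
    conv_lhs => rw [← he]
    exact apply_inv_self F x
  exact h.ne x hx this

lemma inv_mem_Ioo (h : IsComp F p q) {x : ℝ} (hx : x ∈ Ioo p q) :
    (F⁻¹ : ℝ ≃o ℝ) x ∈ Ioo p q := mem_Ioo (inv h) hx

lemma inv_mem_Icc (h : IsComp F p q) {x : ℝ} (hx : x ∈ Icc p q) :
    (F⁻¹ : ℝ ≃o ℝ) x ∈ Icc p q := mem_Icc (inv h) hx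

lemma mem_Ioo_iff (h : IsComp F p q) (x : ℝ) : F x ∈ Ioo p q ↔ x ∈ Ioo p q := by
  refine ⟨fun hx => ?_, mem_Ioo h⟩
  have := inv_mem_Ioo h hx
  rwa [inv_apply_self] at this

lemma mem_Icc_iff (h : IsComp F p q) (x : ℝ) : F x ∈ Icc p q ↔ x ∈ Icc p q := by
  refine ⟨fun hx => ?_, mem_Icc h⟩
  have := inv_mem_Icc h hx
  rwa [inv_apply_self] at this

lemma pow_mem_Ioo (h : IsComp F p q) {x : ℝ} (hx : x ∈ Ioo p q) (n : ℕ) :
    (F ^ n) x ∈ Ioo p q := by
  induction n with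
  | zero => exact hx
  | succ n ih => rw [pow_succ_apply']; exact mem_Ioo h ih

lemma pow_mem_Icc (h : IsComp F p q) {x : ℝ} (hx : x ∈ Icc p q) (n : ℕ) :
    (F ^ n) x ∈ Icc p q := by
  induction n with
  | zero => exact hx
  | succ n ih => rw [pow_succ_apply']; exact mem_Icc h ih

lemma zpow_mem_Ioo (h : IsComp F p q) {x : ℝ} (hx : x ∈ Ioo p q) (n : ℤ) :
    (F ^ n) x ∈ Ioo p q := by
  cases n with
  | ofNat n => rw [Int.ofNat_eq_natCast, zpow_natCast]; exact pow_mem_Ioo h hx n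
  | negSucc n =>
    rw [zpow_negSucc, ← inv_pow]; exact pow_mem_Ioo (inv h) hx _

lemma zpow_mem_Icc (h : IsComp F p q) {x : ℝ} (hx : x ∈ Icc p q) (n : ℤ) :
    (F ^ n) x ∈ Icc p q := by
  cases n with
  | ofNat n => rw [Int.ofNat_eq_natCast, zpow_natCast]; exact pow_mem_Icc h hx n
  | negSucc n =>
    rw [zpow_negSucc, ← inv_pow]; exact pow_mem_Icc (inv h) hx _

/-- (b) -/
lemma dir (h : IsComp F p q) :
    (∀ t ∈ Ioo p q, t < F t) ∨ (∀ t ∈ Ioo p q, F t < t) := by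
  by_contra hcon
  push Not at hcon
  obtain ⟨⟨a, ha, ha'⟩, ⟨b, hb, hb'⟩⟩ := hcon
  obtain ⟨c, hc, hc'⟩ := isPreconnected_Ioo.intermediate_value₂ ha hb
    (cont F).continuousOn continuousOn_id ha' hb'
  exact h.ne c hc hc'

/-- (b'), one moved point decides the direction -/
lemma dir_lt (h : IsComp F p q) {x : ℝ} (hx : x ∈ Ioo p q) (hlt : x < F x) :
    ∀ t ∈ Ioo p q, t < F t := by
  rcases dir h with h1 | h1
  · exact h1
  · exact absurd (h1 x hx) (not_lt.2 hlt.le)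

lemma dir_gt (h : IsComp F p q) {x : ℝ} (hx : x ∈ Ioo p q) (hlt : F x < x) :
    ∀ t ∈ Ioo p q, F t < t := by
  rcases dir h with h1 | h1
  · exact absurd (h1 x hx) (not_lt.2 hlt.le)
  · exact h1

/-- a fixed point is not inside a component -/
lemma fix_notMem (h : IsComp F p q) (ht : F t = t) : t ∉ Ioo p q := fun hx => h.ne t hx ht

/-- a fixed point less than `q` is at most `p` -/
lemma fix_le (h : IsComp F p q) (ht : F t = t) (hlt : t < q) : t ≤ p := by
  by_contra hc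
  exact fix_notMem h ht ⟨not_le.1 hc, hlt⟩

lemma le_fix (h : IsComp F p q) (ht : F t = t) (hlt : p < t) : q ≤ t := by
  by_contra hc
  exact fix_notMem h ht ⟨hlt, not_le.1 hc⟩

/-- (c) -/
lemma eq_of_mem {p' q' : ℝ} (h : IsComp F p q) (h' : IsComp F p' q') (ht : t ∈ Ioo p q)
    (ht' : t ∈ Ioo p' q') : p = p' ∧ q = q' := by
  constructor
  · exact le_antisymm (fix_le h' h.left (ht.1.trans ht'.2)) (fix_le h h'.left (ht'.1.trans ht.2))
  · exact le_antisymm (le_fix h h'.right (ht.1.trans ht'.2)) (le_fix h' h.right (ht'.1.trans ht.2))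

lemma eq_or_disjoint {p' q' : ℝ} (h : IsComp F p q) (h' : IsComp F p' q') :
    (p = p' ∧ q = q') ∨ Disjoint (Ioo p q) (Ioo p' q') := by
  by_cases hd : Disjoint (Ioo p q) (Ioo p' q')
  · exact Or.inr hd
  · rw [Set.not_disjoint_iff] at hd
    obtain ⟨t, ht, ht'⟩ := hd
    exact Or.inl (eq_of_mem h h' ht ht')

/-- (d) -/
lemma map_comm (hc : Commute z F) (h : IsComp F p q) : IsComp F (z p) (z q) := by
  refine ⟨z.strictMono h.lt, ?_, ?_, ?_⟩
  · rw [← commute_apply hc, h.left]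
  · rw [← commute_apply hc, h.right]
  · intro x hx he
    have h1 : (z⁻¹ : ℝ ≃o ℝ) x ∈ Ioo p q := by
      have a1 := (z⁻¹ : ℝ ≃o ℝ).strictMono hx.1
      have a2 := (z⁻¹ : ℝ ≃o ℝ).strictMono hx.2
      rw [inv_apply_self] at a1 a2
      exact ⟨a1, a2⟩
    have h2 : F ((z⁻¹ : ℝ ≃o ℝ) x) = (z⁻¹ : ℝ ≃o ℝ) x := by
      rw [← commute_apply hc.inv_left, he]
    exact h.ne _ h1 h2

lemma map_pow (hc : Commute z F) (h : IsComp F p q) (n : ℕ) :
    IsComp F ((z ^ n) p) ((z ^ n) q) := map_comm (hc.pow_left n) h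

lemma map_zpow (hc : Commute z F) (h : IsComp F p q) (n : ℤ) :
    IsComp F ((z ^ n) p) ((z ^ n) q) := map_comm (hc.zpow_left n) h

/-- conjugates -/
lemma conj (h : IsComp F p q) (z : ℝ ≃o ℝ) : IsComp (z * F * z⁻¹) (z p) (z q) := by
  refine ⟨z.strictMono h.lt, ?_, ?_, ?_⟩
  · rw [RelIso.mul_apply, RelIso.mul_apply, inv_apply_self, h.left]
  · rw [RelIso.mul_apply, RelIso.mul_apply, inv_apply_self, h.right]
  · intro x hx he
    have h1 : (z⁻¹ : ℝ ≃o ℝ) x ∈ Ioo p q := by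
      have a1 := (z⁻¹ : ℝ ≃o ℝ).strictMono hx.1
      have a2 := (z⁻¹ : ℝ ≃o ℝ).strictMono hx.2
      rw [inv_apply_self] at a1 a2
      exact ⟨a1, a2⟩
    rw [RelIso.mul_apply, RelIso.mul_apply] at he
    have h2 : F ((z⁻¹ : ℝ ≃o ℝ) x) = (z⁻¹ : ℝ ≃o ℝ) x := by
      apply z.injective
      rw [he, apply_inv_self]
    exact h.ne _ h1 h2

/-- (i) -/
lemma tr_pow_apply (n : ℕ) (x : ℝ) : (tr ^ n) x = x + n := by
  induction n with
  | zero => simp [pow_zero_apply]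
  | succ n ih => rw [pow_succ_apply', ih, tr_apply]; push_cast; ring

lemma tr_inv_apply (x : ℝ) : (tr⁻¹ : ℝ ≃o ℝ) x = x - 1 := by
  apply tr.injective
  rw [apply_inv_self, tr_apply]
  ring

lemma tr_zpow_apply (m : ℤ) (x : ℝ) : (tr ^ m) x = x + m := by
  cases m with
  | ofNat n => rw [Int.ofNat_eq_natCast, zpow_natCast, tr_pow_apply]; simp
  | negSucc n =>
    rw [zpow_negSucc]
    apply (tr ^ (n + 1)).injective
    rw [apply_inv_self, tr_pow_apply]
    push_cast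
    ring

lemma commute_tr (h : ∀ x, F (x + 1) = F x + 1) : Commute tr F := by
  refine OrderIso.ext (funext fun x => ?_)
  change tr (F x) = F (tr x)
  rw [tr_apply, tr_apply, h]

lemma commute_trz (h : ∀ x, F (x + 1) = F x + 1) (m : ℤ) : Commute (tr ^ m) F :=
  (commute_tr h).zpow_left m

lemma per_int (h : ∀ x, F (x + 1) = F x + 1) (m : ℤ) (x : ℝ) : F (x + m) = F x + m := by
  have := commute_apply (commute_trz h m) x
  rw [tr_zpow_apply, tr_zpow_apply] at this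
  exact this.symm

lemma per_of_commute_tr (h : Commute tr F) (x : ℝ) : F (x + 1) = F x + 1 := by
  have := commute_apply h x
  rw [tr_apply, tr_apply] at this
  exact this.symm

/-- (e) -/
lemma shift (h : ∀ x, F (x + 1) = F x + 1) (hc : IsComp F p q) (m : ℤ) :
    IsComp F (p + m) (q + m) := by
  have := map_comm (commute_trz h m) hc
  rwa [tr_zpow_apply, tr_zpow_apply] at this

lemma len_le (h : ∀ x, F (x + 1) = F x + 1) (hc : IsComp F p q) : q ≤ p + 1 := by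
  refine le_fix hc ?_ (by linarith)
  rw [h, hc.left]

/-- (f) -/
lemma lt_pow (h : t < F t) {n : ℕ} (hn : 1 ≤ n) : t < (F ^ n) t := by
  induction n, hn using Nat.le_induction with
  | base => rwa [pow_one]
  | succ n _ ih =>
    rw [pow_succ_apply]
    exact ih.trans ((F ^ n).strictMono h)

lemma pow_lt (h : F t < t) {n : ℕ} (hn : 1 ≤ n) : (F ^ n) t < t := by
  induction n, hn using Nat.le_induction with
  | base => rwa [pow_one]
  | succ n _ ih =>
    rw [pow_succ_apply]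
    exact ((F ^ n).strictMono h).trans ih

lemma fix_of_pow {n : ℕ} (hn : 1 ≤ n) (h : (F ^ n) t = t) : F t = t := by
  rcases lt_trichotomy (F t) t with h1 | h1 | h1
  · exact absurd h (pow_lt h1 hn).ne
  · exact h1
  · exact absurd h (lt_pow h1 hn).ne'

lemma pow (h : IsComp F p q) {n : ℕ} (hn : 1 ≤ n) : IsComp (F ^ n) p q :=
  ⟨h.lt, pow_fix h.left n, pow_fix h.right n, fun x hx he => h.ne x hx (fix_of_pow hn he)⟩

lemma of_pow {n : ℕ} (hn : 1 ≤ n) (h : IsComp (F ^ n) p q) : IsComp F p q :=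
  ⟨h.lt, fix_of_pow hn h.left, fix_of_pow hn h.right, fun x hx he => h.ne x hx (pow_fix he n)⟩

lemma zpow (h : IsComp F p q) {n : ℤ} (hn : n ≠ 0) : IsComp (F ^ n) p q := by
  cases n with
  | ofNat n =>
    rw [Int.ofNat_eq_natCast, zpow_natCast]
    refine pow h (Nat.one_le_iff_ne_zero.2 fun h0 => hn ?_)
    rw [h0]; rfl
  | negSucc n => rw [zpow_negSucc]; exact inv (pow h (Nat.succ_pos n))

/-- (g) -/
lemma subset_U {U : Set ℝ} {H : Subgroup (ℝ ≃o ℝ)} (hS : Setup U H) (hF : F ∈ H)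
    (h : IsComp F p q) : Ioo p q ⊆ U := by
  intro x hx
  by_contra hU
  exact h.ne x hx ((hS.nice F hF).fixE ⟨p, h.left⟩ x hU)

/-- (h) -/
lemma abs_lt_one (h : ∀ x, F (x + 1) = F x + 1) {x0 : ℝ} (h0 : F x0 = x0) (t : ℝ) :
    |F t - t| < 1 := by
  set n : ℤ := ⌊t - x0⌋
  have h1 : x0 + n ≤ t := by linarith [Int.floor_le (t - x0)]
  have h2 : t < x0 + n + 1 := by linarith [Int.lt_floor_add_one (t - x0)]
  have h3 : F (x0 + n) = x0 + n := by rw [per_int h, h0]
  have h4 : F (x0 + n + 1) = x0 + n + 1 := by rw [h, h3]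
  have h5 := F.monotone h1
  have h6 := F.strictMono h2
  rw [h3] at h5
  rw [h4] at h6
  rw [abs_lt]
  constructor <;> linarith

lemma int_eq_zero (h : ∀ x, F (x + 1) = F x + 1) {x0 : ℝ} (h0 : F x0 = x0) {t : ℝ} {l : ℤ}
    (ht : F t = t + l) : l = 0 := by
  have h1 := abs_lt_one h h0 t
  rw [ht, add_sub_cancel_left, abs_lt] at h1
  have h2 : (-1 : ℤ) < l := by exact_mod_cast h1.1
  have h3 : l < (1 : ℤ) := by exact_mod_cast h1.2
  omega

lemma per_one : ∀ x, (1 : ℝ ≃o ℝ) (x + 1) = (1 : ℝ ≃o ℝ) x + 1 := fun _ => rfl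

lemma per_mul {G : ℝ ≃o ℝ} (hF : ∀ x, F (x + 1) = F x + 1) (hG : ∀ x, G (x + 1) = G x + 1) :
    ∀ x, (F * G) (x + 1) = (F * G) x + 1 := fun x => by
  rw [RelIso.mul_apply, RelIso.mul_apply, hG, hF]

lemma per_tr : ∀ x, tr (x + 1) = tr x + 1 := fun _ => rfl

lemma per_pow (hF : ∀ x, F (x + 1) = F x + 1) (n : ℕ) : ∀ x, (F ^ n) (x + 1) = (F ^ n) x + 1 :=
  per_of_commute_tr ((commute_tr hF).pow_right n)

lemma per_zpow (hF : ∀ x, F (x + 1) = F x + 1) (n : ℤ) : ∀ x, (F ^ n) (x + 1) = (F ^ n) x + 1 :=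
  per_of_commute_tr ((commute_tr hF).zpow_right n)

end Comp

open Comp

theorem s_comp : S_comp := by
  intro F hF ⟨x0, hx0⟩ x hx
  have hcl : IsClosed {t : ℝ | F t = t} := isClosed_eq (cont F) continuous_id
  set n : ℤ := ⌊x - x0⌋
  have h1 : x0 + n ≤ x := by linarith [Int.floor_le (x - x0)]
  have h2 : x ≤ x0 + (n + 1 : ℤ) := by
    push_cast; linarith [Int.lt_floor_add_one (x - x0)]
  have f1 : F (x0 + n) = x0 + n := by rw [per_int hF, hx0]
  have f2 : F (x0 + (n + 1 : ℤ)) = x0 + (n + 1 : ℤ) := by rw [per_int hF, hx0]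
  set A : Set ℝ := {t | F t = t} ∩ Iic x with hA
  set B : Set ℝ := {t | F t = t} ∩ Ici x with hB
  have hAc : IsClosed A := hcl.inter isClosed_Iic
  have hBc : IsClosed B := hcl.inter isClosed_Ici
  have hAn : A.Nonempty := ⟨_, f1, h1⟩
  have hBn : B.Nonempty := ⟨_, f2, h2⟩
  have hAb : BddAbove A := ⟨x, fun t ht => ht.2⟩
  have hBb : BddBelow B := ⟨x, fun t ht => ht.2⟩
  have hp := hAc.csSup_mem hAn hAb
  have hq := hBc.csInf_mem hBn hBb
  have hpx : sSup A < x := lt_of_le_of_ne hp.2 fun he => hx (by rw [← he]; exact hp.1)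
  have hqx : x < sInf B := lt_of_le_of_ne hq.2 fun he => hx (by rw [he]; exact hq.1)
  refine ⟨sSup A, sInf B, ⟨hpx.trans hqx, hp.1, hq.1, ?_⟩, hpx, hqx⟩
  intro t ht he
  rcases le_total t x with h | h
  · exact absurd (le_csSup hAb ⟨he, h⟩) (not_le.2 ht.1)
  · exact absurd (csInf_le hBb ⟨he, h⟩) (not_le.2 ht.2)

theorem s_push : S_push := by
  intro z p q hz x hx
  constructor
  · intro hlt c hc
    have hmono : Monotone fun n : ℕ => (z ^ n) x := by
      refine monotone_nat_of_le_succ fun n => ?_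
      rw [pow_succ_apply]
      exact (z ^ n).monotone hlt.le
    have hbd : BddAbove (range fun n : ℕ => (z ^ n) x) :=
      ⟨q, by rintro _ ⟨n, rfl⟩; exact (pow_mem_Ioo hz hx n).2.le⟩
    have hT := tendsto_atTop_ciSup hmono hbd
    set L := ⨆ n : ℕ, (z ^ n) x
    have hT2 : Tendsto (fun n : ℕ => (z ^ (n + 1)) x) atTop (𝓝 L) :=
      hT.comp (tendsto_add_atTop_nat 1)
    have hT3 : Tendsto (fun n : ℕ => (z ^ (n + 1)) x) atTop (𝓝 (z L)) := by
      have := ((cont z).tendsto L).comp hT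
      refine this.congr fun n => ?_
      rw [pow_succ_apply']; rfl
    have hL : z L = L := tendsto_nhds_unique hT3 hT2
    have hxL : x ≤ L := le_ciSup hbd 0
    have hqL : q ≤ L := le_fix hz hL (hx.1.trans_le hxL)
    have := hT.eventually (lt_mem_nhds (hc.trans_le hqL))
    exact eventually_atTop.1 this
  · intro hlt c hc
    have hmono : Antitone fun n : ℕ => (z ^ n) x := by
      refine antitone_nat_of_succ_le fun n => ?_
      rw [pow_succ_apply]
      exact (z ^ n).monotone hlt.le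
    have hbd : BddBelow (range fun n : ℕ => (z ^ n) x) :=
      ⟨p, by rintro _ ⟨n, rfl⟩; exact (pow_mem_Ioo hz hx n).1.le⟩
    have hT := tendsto_atTop_ciInf hmono hbd
    set L := ⨅ n : ℕ, (z ^ n) x
    have hT2 : Tendsto (fun n : ℕ => (z ^ (n + 1)) x) atTop (𝓝 L) :=
      hT.comp (tendsto_add_atTop_nat 1)
    have hT3 : Tendsto (fun n : ℕ => (z ^ (n + 1)) x) atTop (𝓝 (z L)) := by
      have := ((cont z).tendsto L).comp hT
      refine this.congr fun n => ?_
      rw [pow_succ_apply']; rfl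
    have hL : z L = L := tendsto_nhds_unique hT3 hT2
    have hxL : L ≤ x := ciInf_le hbd 0
    have hqL : L ≤ p := fix_le hz hL (hxL.trans_lt hx.2)
    have := hT.eventually (gt_mem_nhds (hqL.trans_lt hc))
    exact eventually_atTop.1 this

end Pool.Agent.W331.CR
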