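import Pool.Agent.W331.CR.Stm2

/-! CR-CONJ: conjugates by a coordinate -/

set_option autoImplicit false

open Set Filter Topology Function
open scoped ContDiff

namespace Pool.Agent.W331.CR

namespace Conj

variable {κ : ℝ → ℝ} {α β : ℝ}

lemma smono (hκ : IsCoord κ α β) : StrictMono κ := strictMono_of_deriv_pos hκ.pos

lemma inj (hκ : IsCoord κ α β) : Injective κ := (smono hκ).injective

/-- the inverse of the coordinate -/
lemma exists_inv (hκ : IsCoord κ α β) : ∃ l : ℝ → ℝ, (∀ t, l (κ t) = t) ∧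
    (∀ x ∈ Ioo α β, κ (l x) = x) ∧ ∀ x ∈ Ioo α β, ContDiffAt ℝ ∞ l x := by
  have hoc : (range κ).OrdConnected := by rw [hκ.rng]; exact ordConnected_Ioo
  have he : IsOpenEmbedding κ :=
    ⟨(smono hκ).isEmbedding_of_ordConnected hoc, by rw [hκ.rng]; exact isOpen_Ioo⟩
  obtain ⟨e, he1⟩ : ∃ e : OpenPartialHomeomorph ℝ ℝ, e = he.toOpenPartialHomeomorph κ := ⟨_, rfl⟩
  have hce : (e : ℝ → ℝ) = κ := by rw [he1]; rfl
  have hs : e.source = univ := by rw [he1]; rfl
  have ht : e.target = range κ := by rw [he1]; simp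
  refine ⟨e.symm, ?_, ?_, ?_⟩
  · intro t
    have := e.left_inv (show t ∈ e.source by rw [hs]; trivial)
    rwa [hce] at this
  · intro x hx
    have := e.right_inv (show x ∈ e.target by rw [ht, hκ.rng]; exact hx)
    rwa [hce] at this
  · intro x hx
    refine e.contDiffAt_symm_deriv (f₀' := deriv κ (e.symm x)) (hκ.pos _).ne'
      (by rw [ht, hκ.rng]; exact hx) ?_ ?_
    · rw [hce]
      exact (hκ.sm.differentiable (by simp) _).hasDerivAt
    · rw [hce]
      exact hκ.sm.contDiffAt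

lemma mem_Ioo (hκ : IsCoord κ α β) (t : ℝ) : κ t ∈ Ioo α β := by
  rw [← hκ.rng]; exact mem_range_self t

open Classical in
theorem s_conj_aux (hκ : IsCoord κ α β) (F : ℝ ≃o ℝ) : ∃ G : ℝ ≃o ℝ, IsConj κ F G := by
  obtain ⟨l, hl1, hl2, -⟩ := exists_inv hκ
  obtain ⟨g, hg⟩ : ∃ g : ℝ → ℝ, g = fun x => if x ∈ Ioo α β then κ (F (l x)) else x := ⟨_, rfl⟩
  have hin : ∀ x ∈ Ioo α β, g x = κ (F (l x)) := by
    intro x hx; rw [hg]; simp only; rw [if_pos hx]
  have hout : ∀ x, x ∉ Ioo α β → g x = x := by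
    intro x hx; rw [hg]; simp only; rw [if_neg hx]
  have hmono : StrictMono g := by
    intro x y hxy
    by_cases hx : x ∈ Ioo α β
    · by_cases hy : y ∈ Ioo α β
      · rw [hin x hx, hin y hy]
        apply smono hκ
        apply F.strictMono
        apply (smono hκ).lt_iff_lt.1
        rwa [hl2 x hx, hl2 y hy]
      · rw [hin x hx, hout y hy]
        have h1 := mem_Ioo hκ (F (l x))
        have h2 : β ≤ y := by
          by_contra h
          exact hy ⟨hx.1.trans hxy, not_le.1 h⟩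
        exact h1.2.trans_le h2
    · by_cases hy : y ∈ Ioo α β
      · rw [hin y hy, hout x hx]
        have h1 := mem_Ioo hκ (F (l y))
        have h2 : x ≤ α := by
          by_contra h
          exact hx ⟨not_le.1 h, hxy.trans hy.2⟩
        exact h2.trans_lt h1.1
      · rw [hout x hx, hout y hy]; exact hxy
  have hinside : ∀ t, g (κ t) = κ (F t) := by
    intro t
    rw [hin _ (mem_Ioo hκ t), hl1]
  have hsurj : Surjective g := by
    intro y
    by_cases hy : y ∈ Ioo α β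
    · refine ⟨κ (F.symm (l y)), ?_⟩
      rw [hinside, F.apply_symm_apply, hl2 y hy]
    · exact ⟨y, hout y hy⟩
  refine ⟨StrictMono.orderIsoOfSurjective g hmono hsurj, ?_, ?_⟩
  · intro t; exact hinside t
  · intro x hx
    rw [hκ.rng] at hx
    exact hout x hx

/-- near a point outside the image of a compact set the conjugate is the identity -/
lemma conj_out (_hκ : IsCoord κ α β) {F G : ℝ ≃o ℝ} (hG : IsConj κ F G) {A B : ℝ}
    (hF : ∀ x, x ∉ Icc A B → F x = x) {x : ℝ} (hx : x ∉ κ '' Icc A B) : G x = x := by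
  by_cases h : x ∈ range κ
  · obtain ⟨t, rfl⟩ := h
    rw [hG.inside, hF t (fun ht => hx ⟨t, ht, rfl⟩)]
  · exact hG.outside x h

lemma compl_nhds (hκ : IsCoord κ α β) (A B : ℝ) {x : ℝ} (hx : x ∉ κ '' Icc A B) :
    (κ '' Icc A B)ᶜ ∈ 𝓝 x :=
  (isCompact_Icc.image hκ.sm.continuous).isClosed.isOpen_compl.mem_nhds hx

lemma conj_contDiff (hκ : IsCoord κ α β) {F G : ℝ ≃o ℝ} (hG : IsConj κ F G)
    (r : WithTop ℕ∞) (hr : r ≤ ∞) (hF : ContDiff ℝ r F)
    (hs : ∃ A B : ℝ, ∀ x, x ∉ Icc A B → F x = x) : ContDiff ℝ r G := by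
  obtain ⟨l, hl1, hl2, hl3⟩ := exists_inv hκ
  obtain ⟨A, B, hAB⟩ := hs
  rw [contDiff_iff_contDiffAt]
  intro x
  by_cases hx : x ∈ Ioo α β
  · have h1 : ContDiffAt ℝ r (fun x => κ (F (l x))) x :=
      (hκ.sm.of_le hr).contDiffAt.comp x (hF.contDiffAt.comp x ((hl3 x hx).of_le hr))
    refine h1.congr_of_eventuallyEq ?_
    filter_upwards [isOpen_Ioo.mem_nhds hx] with y hy
    rw [← hG.inside, hl2 y hy]
  · have hx' : x ∉ κ '' Icc A B := by
      rintro ⟨t, -, rfl⟩
      exact hx (mem_Ioo hκ t)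
    refine contDiffAt_id.congr_of_eventuallyEq ?_
    filter_upwards [compl_nhds hκ A B hx'] with y hy
    exact conj_out hκ hG hAB hy

end Conj

open Conj

theorem s_conj : S_conj := by
  intro κ α β hκ F
  obtain ⟨G, hG⟩ := s_conj_aux hκ F
  exact ⟨G, hG, fun r hr hF hs => conj_contDiff hκ hG r hr hF hs⟩

namespace Conj

/-! ### Flow -/

/-- derivative with respect to the second variable -/
noncomputable def D2 (g : ℝ × ℝ → ℝ) (p : ℝ × ℝ) : ℝ := fderiv ℝ g p (0, 1)

lemma D2_smooth {g : ℝ × ℝ → ℝ} (hg : ContDiff ℝ ∞ g) : ContDiff ℝ ∞ (D2 g) := by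
  have h1 : ContDiff ℝ ∞ (fderiv ℝ g) := hg.fderiv_right (by simp)
  exact h1.clm_apply contDiff_const

lemma D2_eq {g : ℝ × ℝ → ℝ} (hg : ContDiff ℝ ∞ g) (s x : ℝ) :
    deriv (fun x => g (s, x)) x = D2 g (s, x) := by
  have h1 : HasFDerivAt g (fderiv ℝ g (s, x)) (s, x) := (hg.differentiable (by simp) _).hasFDerivAt
  have h2 : HasDerivAt (fun x : ℝ => ((s, x) : ℝ × ℝ)) (0, 1) x :=
    (hasDerivAt_const x s).prodMk (hasDerivAt_id x)
  exact (h1.comp_hasDerivAt x h2).deriv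

lemma D2_iter (r : ℕ) : ∀ {g : ℝ × ℝ → ℝ}, ContDiff ℝ ∞ g → ContDiff ℝ ∞ (D2^[r] g) ∧
    ∀ s x : ℝ, iteratedDeriv r (fun x => g (s, x)) x = (D2^[r] g) (s, x) := by
  induction r with
  | zero => intro g hg; exact ⟨hg, fun s x => by simp⟩
  | succ r ih =>
    intro g hg
    obtain ⟨h1, h2⟩ := ih (D2_smooth hg)
    refine ⟨h1, fun s x => ?_⟩
    rw [iteratedDeriv_succ']
    have e : deriv (fun x => g (s, x)) = fun x => D2 g (s, x) := funext fun x => D2_eq hg s x
    rw [e, h2]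
    rfl

end Conj

theorem s_conjflow : S_conjflow := by
  classical
  intro h y hfp κ α β hκ k
  obtain ⟨l, hl1, hl2, hl3⟩ := exists_inv hκ
  obtain ⟨g, hg⟩ : ∃ g : ℝ × ℝ → ℝ,
      g = fun p => if p.2 ∈ Ioo α β then κ (y p.1 (l p.2)) - p.2 else 0 := ⟨_, rfl⟩
  have hsupp : ∀ s x, x ∉ Icc (0:ℝ) 1 → y s x = x := fun s x hx =>
    hfp.y_supp s x (fun hx' => hx (Ioo_subset_Icc_self hx'))
  have hgG : ∀ (s : ℝ) (G : ℝ ≃o ℝ), IsConj κ (y s) G → ∀ x, G x - x = g (s, x) := by
    intro s G hG x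
    rw [hg]
    simp only
    split_ifs with hx
    · rw [← hG.inside, hl2 x hx]
    · rw [hG.outside x (by rw [hκ.rng]; exact hx), sub_self]
  have hgout : ∀ p : ℝ × ℝ, p.2 ∉ κ '' Icc (0:ℝ) 1 → g p = 0 := by
    intro p hp
    obtain ⟨G, hG⟩ := s_conj_aux hκ (y p.1)
    have h1 := hgG p.1 G hG p.2
    rw [conj_out hκ hG (hsupp p.1) hp, sub_self] at h1
    exact h1.symm
  have hgs : ContDiff ℝ ∞ g := by
    rw [contDiff_iff_contDiffAt]
    rintro ⟨s, x⟩
    by_cases hx : x ∈ Ioo α β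
    · have h1 : ContDiffAt ℝ ∞ (fun p : ℝ × ℝ => κ (y p.1 (l p.2)) - p.2) (s, x) := by
        have hlp : ContDiffAt ℝ ∞ (fun p : ℝ × ℝ => l p.2) (s, x) :=
          (hl3 x hx).comp (s, x) contDiffAt_snd
        have h2 : ContDiffAt ℝ ∞ (fun p : ℝ × ℝ => y p.1 (l p.2)) (s, x) := by
          have h3 : ContDiffAt ℝ ∞ (fun p : ℝ × ℝ => ((p.1, l p.2) : ℝ × ℝ)) (s, x) :=
            contDiffAt_fst.prodMk hlp
          exact hfp.y_sm.contDiffAt.comp (s, x) h3
        exact (hκ.sm.contDiffAt.comp (s, x) h2).sub contDiffAt_snd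
      refine h1.congr_of_eventuallyEq ?_
      have h4 : {p : ℝ × ℝ | p.2 ∈ Ioo α β} ∈ 𝓝 ((s, x) : ℝ × ℝ) :=
        (isOpen_Ioo.preimage continuous_snd).mem_nhds hx
      filter_upwards [h4] with p hp
      rw [hg]
      simp only
      rw [if_pos hp]
    · have hx' : x ∉ κ '' Icc (0:ℝ) 1 := by
        rintro ⟨t, -, rfl⟩
        exact hx (mem_Ioo hκ t)
      refine (contDiffAt_const (c := (0:ℝ))).congr_of_eventuallyEq ?_
      have h4 : {p : ℝ × ℝ | p.2 ∈ (κ '' Icc (0:ℝ) 1)ᶜ} ∈ 𝓝 ((s, x) : ℝ × ℝ) :=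
        ((isCompact_Icc.image hκ.sm.continuous).isClosed.isOpen_compl.preimage
          continuous_snd).mem_nhds hx'
      filter_upwards [h4] with p hp
      exact hgout p hp
  have hy0 : ∀ x, y 0 x = x := by
    have h1 := hfp.y_add 0 0
    rw [add_zero] at h1
    have h2 : y 0 = 1 := by
      have := mul_eq_left.1 h1.symm
      exact this
    intro x
    rw [h2]; rfl
  have hg0 : ∀ x, g (0, x) = 0 := by
    intro x
    obtain ⟨G, hG⟩ := s_conj_aux hκ (y 0)
    have h1 := hgG 0 G hG x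
    rw [← h1]
    by_cases hx : x ∈ range κ
    · obtain ⟨t, rfl⟩ := hx
      rw [hG.inside, hy0, sub_self]
    · rw [hG.outside x hx, sub_self]
  -- bound for each order
  have hb : ∀ r : ℕ, ∃ C : ℝ, 0 ≤ C ∧ ∀ s x : ℝ, |s| ≤ 1 →
      |iteratedDeriv r (fun x => g (s, x)) x| ≤ C * |s| := by
    intro r
    obtain ⟨h1, h2⟩ := D2_iter r hgs
    obtain ⟨gr, hgr⟩ : ∃ gr : ℝ × ℝ → ℝ, gr = D2^[r] g := ⟨_, rfl⟩
    rw [← hgr] at h1
    have hK : IsCompact (Icc (-1:ℝ) 1 ×ˢ Icc α β) := isCompact_Icc.prod isCompact_Icc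
    have hcont : Continuous (fderiv ℝ gr) := h1.continuous_fderiv (by simp)
    obtain ⟨C, hC⟩ := hK.exists_bound_of_continuousOn hcont.continuousOn
    refine ⟨max C 0, le_max_right _ _, ?_⟩
    intro s x hs
    rw [h2, ← hgr]
    by_cases hx : x ∈ Icc α β
    · have hz : gr (0, x) = 0 := by
        rw [hgr, ← h2]
        have e : (fun x => g (0, x)) = fun _ => (0:ℝ) := funext hg0
        rw [e]
        simp
      have hconv : Convex ℝ (Icc (-1:ℝ) 1 ×ˢ Icc α β) := (convex_Icc _ _).prod (convex_Icc _ _)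
      have h3 := hconv.norm_image_sub_le_of_norm_fderiv_le (𝕜 := ℝ) (f := gr) (C := max C 0)
        (x := ((0, x) : ℝ × ℝ)) (y := (s, x))
        (fun p _ => h1.differentiable (by simp) p)
        (fun p hp => (hC p hp).trans (le_max_left _ _))
        ⟨⟨by norm_num, by norm_num⟩, hx⟩ ⟨abs_le.1 hs, hx⟩
      rw [hz, sub_zero] at h3
      have e : ‖((s, x) : ℝ × ℝ) - (0, x)‖ = |s| := by
        rw [Prod.mk_sub_mk, sub_self, sub_zero, Prod.norm_mk]
        simp
      rw [e] at h3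
      exact h3
    · have h4 : iteratedDeriv r (fun x => g (s, x)) x = 0 := by
        have h5 : (fun x => g (s, x)) =ᶠ[𝓝 x] fun _ => (0:ℝ) := by
          filter_upwards [isClosed_Icc.isOpen_compl.mem_nhds hx] with z hz
          apply hgout
          rintro ⟨t, -, ht⟩
          apply hz
          rw [← show κ t = z from ht]
          exact Ioo_subset_Icc_self (mem_Ioo hκ t)
        rw [h5.iteratedDeriv_eq]
        simp
      rw [hgr, ← h2, h4, abs_zero]
      positivity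
  choose C hC0 hC using hb
  refine ⟨1 + ∑ r ∈ Finset.range (k + 1), C r, ?_, ?_⟩
  · have := Finset.sum_nonneg (s := Finset.range (k + 1)) (fun r _ => hC0 r)
    linarith
  · intro s hs G hG r hr x
    have e : (fun x => G x - x) = fun x => g (s, x) := funext (hgG s G hG)
    rw [e]
    refine (hC r s x hs).trans (mul_le_mul_of_nonneg_right ?_ (abs_nonneg s))
    have := Finset.single_le_sum (s := Finset.range (k + 1)) (f := C) (fun r _ => hC0 r)
      (Finset.mem_range.2 (Nat.lt_succ_of_le hr))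
    linarith

namespace Conj

/-! ### The class of functions with locally Lipschitz derivative of order `k` -/

/-- `f` is `C^k` near `x` with Lipschitz `k`-th derivative -/
def CL : ℕ → (ℝ → ℝ) → ℝ → Prop
  | 0, f, x => ∃ K, ∃ t ∈ 𝓝 x, LipschitzOnWith K f t
  | k + 1, f, x => (∀ᶠ y in 𝓝 x, DifferentiableAt ℝ f y) ∧ CL k (deriv f) x

lemma CL.congr : ∀ {k : ℕ} {f g : ℝ → ℝ} {x : ℝ}, CL k f x → f =ᶠ[𝓝 x] g → CL k g x := by
  intro k
  induction k with
  | zero =>
    rintro f g x ⟨K, t, ht, hL⟩ hfg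
    refine ⟨K, t ∩ {y | f y = g y}, inter_mem ht hfg, ?_⟩
    intro y hy z hz
    have h1 : f y = g y := hy.2
    have h2 : f z = g z := hz.2
    rw [← h1, ← h2]
    exact hL hy.1 hz.1
  | succ k ih =>
    rintro f g x ⟨h1, h2⟩ hfg
    refine ⟨?_, ih h2 hfg.deriv⟩
    filter_upwards [h1, hfg.eventuallyEq_nhds] with y hy hy2
    exact hy.congr_of_eventuallyEq hy2.symm

lemma CL.zero_bdd {f : ℝ → ℝ} {x : ℝ} (h : CL 0 f x) : ∃ C : NNReal, ∀ᶠ y in 𝓝 x, ‖f y‖₊ ≤ C := by
  obtain ⟨K, t, ht, hL⟩ := h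
  refine ⟨‖f x‖₊ + K, ?_⟩
  filter_upwards [ht, Metric.ball_mem_nhds x one_pos] with y hy hy2
  have h1 := hL.dist_le_mul y hy x (mem_of_mem_nhds ht)
  rw [Metric.mem_ball] at hy2
  have h2 : ‖f y‖ ≤ ‖f x‖ + K := by
    have h3 : ‖f y‖ ≤ ‖f x‖ + ‖f y - f x‖ := by
      have : f y = f x + (f y - f x) := by ring
      calc ‖f y‖ = ‖f x + (f y - f x)‖ := by rw [← this]
        _ ≤ _ := norm_add_le _ _
    rw [Real.dist_eq] at h1
    have h4 : (K:ℝ) * dist y x ≤ K * 1 := mul_le_mul_of_nonneg_left hy2.le K.2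
    rw [Real.norm_eq_abs (f y - f x)] at h3
    linarith
  exact_mod_cast h2

lemma CL.to_zero_of_succ {f : ℝ → ℝ} {x : ℝ} (hd : ∀ᶠ y in 𝓝 x, DifferentiableAt ℝ f y)
    (h : CL 0 (deriv f) x) : CL 0 f x := by
  obtain ⟨C, hC⟩ := h.zero_bdd
  obtain ⟨ε, hε, hball⟩ := Metric.eventually_nhds_iff_ball.1 (hd.and hC)
  refine ⟨C, Metric.ball x ε, Metric.ball_mem_nhds x hε, ?_⟩
  exact (convex_ball x ε).lipschitzOnWith_of_nnnorm_deriv_le (fun y hy => (hball y hy).1)
    (fun y hy => (hball y hy).2)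

lemma CL.zero : ∀ {k : ℕ} {f : ℝ → ℝ} {x : ℝ}, CL k f x → CL 0 f x := by
  intro k
  induction k with
  | zero => intro f x h; exact h
  | succ k ih => intro f x h; exact CL.to_zero_of_succ h.1 (ih h.2)

lemma CL.pred : ∀ {k : ℕ} {f : ℝ → ℝ} {x : ℝ}, CL (k + 1) f x → CL k f x := by
  intro k
  induction k with
  | zero => intro f x h; exact h.zero
  | succ k ih => intro f x h; exact ⟨h.1, ih h.2⟩

lemma CL.cont {f : ℝ → ℝ} {x : ℝ} (h : CL 0 f x) : ContinuousAt f x := by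
  obtain ⟨K, t, ht, hL⟩ := h
  exact hL.continuousOn.continuousAt ht

lemma CL.add : ∀ {k : ℕ} {f g : ℝ → ℝ} {x : ℝ}, CL k f x → CL k g x → CL k (fun y => f y + g y) x := by
  intro k
  induction k with
  | zero =>
    rintro f g x ⟨K, t, ht, hK⟩ ⟨K', t', ht', hK'⟩
    exact ⟨K + K', t ∩ t', inter_mem ht ht',
      (hK.mono inter_subset_left).add (hK'.mono inter_subset_right)⟩
  | succ k ih =>
    rintro f g x ⟨h1, h2⟩ ⟨h3, h4⟩
    refine ⟨?_, ?_⟩
    · filter_upwards [h1, h3] with y hy hy'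
      exact hy.add hy'
    · refine (ih h2 h4).congr ?_
      filter_upwards [h1, h3] with y hy hy'
      exact (deriv_fun_add hy hy').symm

lemma CL.mul : ∀ {k : ℕ} {f g : ℝ → ℝ} {x : ℝ}, CL k f x → CL k g x → CL k (fun y => f y * g y) x := by
  intro k
  induction k with
  | zero =>
    intro f g x hf hg
    obtain ⟨C, hC⟩ := hf.zero_bdd
    obtain ⟨C', hC'⟩ := hg.zero_bdd
    obtain ⟨K, t, ht, hK⟩ := hf
    obtain ⟨K', t', ht', hK'⟩ := hg
    refine ⟨K * C' + C * K', (t ∩ t') ∩ ({y | ‖f y‖₊ ≤ C} ∩ {y | ‖g y‖₊ ≤ C'}),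
      inter_mem (inter_mem ht ht') (inter_mem hC hC'), ?_⟩
    apply LipschitzOnWith.of_dist_le_mul
    intro y hy z hz
    have h1 := hK.dist_le_mul y hy.1.1 z hz.1.1
    have h2 := hK'.dist_le_mul y hy.1.2 z hz.1.2
    have h3 : |f y| ≤ C := by
      have := hy.2.1
      simp only [Set.mem_ofPred_eq] at this
      exact_mod_cast this
    have h4 : |g z| ≤ C' := by
      have := hz.2.2
      simp only [Set.mem_ofPred_eq] at this
      exact_mod_cast this
    rw [Real.dist_eq] at h1 h2 ⊢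
    have e : f y * g y - f z * g z = (f y - f z) * g z + f y * (g y - g z) := by ring
    rw [e]
    have hd : (0:ℝ) ≤ dist y z := dist_nonneg
    calc |(f y - f z) * g z + f y * (g y - g z)|
        ≤ |(f y - f z) * g z| + |f y * (g y - g z)| := abs_add_le _ _
      _ = |f y - f z| * |g z| + |f y| * |g y - g z| := by rw [abs_mul, abs_mul]
      _ ≤ (K * dist y z) * C' + C * (K' * dist y z) := by gcongr
      _ = ((K * C' + C * K' : NNReal) : ℝ) * dist y z := by push_cast; ring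
  | succ k ih =>
    intro f g x hf hg
    refine ⟨?_, ?_⟩
    · filter_upwards [hf.1, hg.1] with y hy hy'
      exact hy.mul hy'
    · refine ((ih hf.2 hg.pred).add (ih hf.pred hg.2)).congr ?_
      filter_upwards [hf.1, hg.1] with y hy hy'
      exact (deriv_fun_mul hy hy').symm

lemma CL.comp : ∀ {k : ℕ} {f g : ℝ → ℝ} {x : ℝ}, CL k f (g x) → CL k g x →
    CL k (fun y => f (g y)) x := by
  intro k
  induction k with
  | zero =>
    intro f g x hf hg
    have hc := hg.cont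
    obtain ⟨K, t, ht, hK⟩ := hf
    obtain ⟨K', t', ht', hK'⟩ := hg
    refine ⟨K * K', t' ∩ g ⁻¹' t, inter_mem ht' (hc ht), ?_⟩
    exact hK.comp (hK'.mono inter_subset_left) (fun y hy => hy.2)
  | succ k ih =>
    intro f g x hf hg
    have hc : ContinuousAt g x := hg.zero.cont
    have hev : ∀ᶠ y in 𝓝 x, DifferentiableAt ℝ f (g y) := hc.eventually hf.1
    refine ⟨?_, ?_⟩
    · filter_upwards [hev, hg.1] with y hy hy'
      exact hy.comp y hy'
    · refine ((ih hf.2 hg.pred).mul hg.2).congr ?_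
      filter_upwards [hev, hg.1] with y hy hy'
      exact (deriv_comp y hy hy').symm

lemma CL.of_contDiffAt : ∀ {k : ℕ} {f : ℝ → ℝ} {x : ℝ}, ContDiffAt ℝ ∞ f x → CL k f x := by
  intro k
  induction k with
  | zero =>
    intro f x h
    exact (h.of_le (by simp)).exists_lipschitzOnWith
  | succ k ih =>
    intro f x h
    refine ⟨?_, ?_⟩
    · have h1 : ContDiffAt ℝ 1 f x := h.of_le (by simp)
      have h2 := h1.eventually (by simp)
      filter_upwards [h2] with y hy
      exact hy.differentiableAt (by simp)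
    · apply ih
      have h1 : ContDiffAt ℝ ∞ (fderiv ℝ f) x := h.fderiv_right (by simp)
      have h2 : ContDiffAt ℝ ∞ (fun y => fderiv ℝ f y 1) x := h1.clm_apply contDiffAt_const
      exact h2.congr_of_eventuallyEq (Eventually.of_forall fun y => rfl)

lemma CL.of_global : ∀ {k : ℕ} {f : ℝ → ℝ}, ContDiff ℝ k f →
    (∃ K, LipschitzWith K (iteratedDeriv k f)) → ∀ x, CL k f x := by
  intro k
  induction k with
  | zero =>
    rintro f - ⟨K, hK⟩ x
    rw [iteratedDeriv_zero] at hK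
    exact ⟨K, univ, univ_mem, hK.lipschitzOnWith⟩
  | succ k ih =>
    rintro f hf ⟨K, hK⟩ x
    have h1 : ContDiff ℝ ((k : WithTop ℕ∞) + 1) f := by exact_mod_cast hf
    rw [contDiff_succ_iff_deriv] at h1
    rw [iteratedDeriv_succ'] at hK
    exact ⟨Eventually.of_forall fun y => h1.1 y, ih h1.2.2 ⟨K, hK⟩ x⟩

lemma CL.loc : ∀ {k : ℕ} {f : ℝ → ℝ} {x : ℝ}, CL k f x →
    ∃ K, ∃ t ∈ 𝓝 x, LipschitzOnWith K (iteratedDeriv k f) t := by
  intro k
  induction k with
  | zero => intro f x h; rw [iteratedDeriv_zero]; exact h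
  | succ k ih =>
    intro f x h
    rw [iteratedDeriv_succ']
    exact ih h.2

/-- a locally Lipschitz function which is constant outside an interval is Lipschitz -/
lemma lip_of_loc {H : ℝ → ℝ} (hloc : ∀ x, ∃ K, ∃ t ∈ 𝓝 x, LipschitzOnWith K H t) {α β c : ℝ}
    (hab : α ≤ β) (hl : ∀ x, x ∉ Ioo α β → H x = c) : ∃ K, LipschitzWith K H := by
  have h1 : LocallyLipschitzOn (Icc α β) H := by
    intro x hx
    obtain ⟨K, t, ht, hK⟩ := hloc x
    exact ⟨K, t, mem_nhdsWithin_of_mem_nhds ht, hK⟩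
  obtain ⟨K, hK⟩ := h1.exists_lipschitzOnWith_of_compact isCompact_Icc
  refine ⟨K, ?_⟩
  have e : ∀ x, H x = H (projIcc α β hab x) := by
    intro x
    by_cases hx : x ∈ Ioo α β
    · rw [projIcc_of_mem hab (Ioo_subset_Icc_self hx)]
    · rw [hl x hx]
      rw [Set.mem_Ioo, not_and_or, not_lt, not_lt] at hx
      rcases hx with hx | hx
      · rw [projIcc_of_le_left hab hx, hl α (by simp)]
      · rw [projIcc_of_right_le hab hx, hl β (by simp)]
  apply LipschitzWith.of_dist_le_mul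
  intro x y
  rw [e x, e y]
  refine (hK.dist_le_mul _ (projIcc α β hab x).2 _ (projIcc α β hab y).2).trans ?_
  apply mul_le_mul_of_nonneg_left _ K.2
  have h2 := (LipschitzWith.projIcc hab).dist_le_mul x y
  rw [NNReal.coe_one, one_mul] at h2
  exact h2

end Conj

theorem s_conjlip : S_conjlip := by
  intro κ α β hκ F G hG hs k hk hF hL
  obtain ⟨l, hl1, hl2, hl3⟩ := exists_inv hκ
  obtain ⟨A, B, hAB⟩ := hs
  have hCF := CL.of_global hF hL
  have hloc : ∀ x, CL k (G : ℝ → ℝ) x := by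
    intro x
    by_cases hx : x ∈ Ioo α β
    · have h1 : CL k (fun x => F (l x)) x := CL.comp (hCF _) (CL.of_contDiffAt (hl3 x hx))
      have h2 : CL k (fun x => κ (F (l x))) x := CL.comp (CL.of_contDiffAt hκ.sm.contDiffAt) h1
      refine h2.congr ?_
      filter_upwards [isOpen_Ioo.mem_nhds hx] with y hy
      rw [← hG.inside, hl2 y hy]
    · have hx' : x ∉ κ '' Icc A B := by
        rintro ⟨t, -, rfl⟩
        exact hx (Conj.mem_Ioo hκ t)
      refine CL.congr (f := fun y => y) (CL.of_contDiffAt contDiffAt_id) ?_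
      filter_upwards [compl_nhds hκ A B hx'] with y hy
      exact (conj_out hκ hG hAB hy).symm
  have hαβ : α < β := by
    have := Conj.mem_Ioo hκ 0
    exact this.1.trans this.2
  have hc : ∀ x y : ℝ, iteratedDeriv k (fun y : ℝ => y) x = iteratedDeriv k (fun y : ℝ => y) y := by
    intro x y
    obtain ⟨m, rfl⟩ : ∃ m, k = m + 1 := ⟨k - 1, by omega⟩
    rw [iteratedDeriv_succ']
    have e : deriv (fun y : ℝ => y) = fun _ => (1:ℝ) := by
      funext z; exact deriv_id z
    rw [e, iteratedDeriv_const, iteratedDeriv_const]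
  apply lip_of_loc (fun x => (hloc x).loc) (c := iteratedDeriv k (fun y : ℝ => y) 0) hαβ.le
  intro x hx
  rw [← hc x 0]
  apply EventuallyEq.iteratedDeriv_eq
  have hx' : x ∉ κ '' Icc A B := by
    rintro ⟨t, -, rfl⟩
    exact hx (Conj.mem_Ioo hκ t)
  filter_upwards [compl_nhds hκ A B hx'] with y hy
  exact conj_out hκ hG hAB hy

end Pool.Agent.W331.CR
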