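import Pool.Agent.W331.CR.Dist

/-! Powers of a nice homeomorphism contract compact subsets of a component of its support. -/

set_option autoImplicit false

open Set Filter Topology

namespace Pool.Agent.W331.CR

namespace Contr

lemma lag (f : ℕ → ℝ) (L N : ℕ) : ∑ n ∈ Finset.range N, (f (n + L) - f n) =
    ∑ i ∈ Finset.range L, (f (N + i) - f i) := by
  rw [Finset.sum_sub_distrib, Finset.sum_sub_distrib]
  have h1 := Finset.sum_range_add f N L
  have h2 := Finset.sum_range_add f L N
  rw [add_comm L N] at h2
  have h3 : ∑ n ∈ Finset.range N, f (n + L) = ∑ n ∈ Finset.range N, f (L + n) :=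
    Finset.sum_congr rfl (fun n _ => by rw [add_comm])
  rw [h3]
  linarith

end Contr

open _root_.Pool.Agent.W331.CR.Dist _root_.Pool.Agent.W331.CR.Contr in
theorem s_contr : S_contr := by
  intro U H hS z hz p q hc c d hpc hcd hdq ε hε
  have hsub : Ioo p q ⊆ U := comp_subset hS hz hc
  have hlt := hc.lt
  set c' := (p + c) / 2 with hc'
  set d' := (d + q) / 2 with hd'
  have hc1 : p < c' := by rw [hc']; linarith
  have hc2 : c' < c := by rw [hc']; linarith
  have hd1 : d < d' := by rw [hd']; linarith
  have hd2 : d' < q := by rw [hd']; linarith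
  have hcI : c' ∈ Ioo p q := ⟨hc1, by linarith⟩
  have hdI : d' ∈ Ioo p q := ⟨by linarith, hd2⟩
  have hsub' : Ioo c' d' ⊆ U := fun u hu => hsub ⟨hc1.trans hu.1, hu.2.trans hd2⟩
  rcases lt_or_gt_of_ne (hc.ne _ hcI) with hdir | hdir
  · -- moves to the left
    have hpush := push_left hc hdI (dir' hc hcI hdI hdir)
    obtain ⟨L, hL⟩ := (hpush.eventually (gt_mem_nhds hc1)).exists
    apply contract hS hz hc2 hcd hd1 hsub' (Λ := L * (q - p)) _ ε hε
    intro N
    have h1 : ∀ n ∈ Finset.range N, (z ^ n) d' - (z ^ n) c' ≤
        (fun n => -(z ^ n) d') (n + L) - (fun n => -(z ^ n) d') n := by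
      intro n _
      have : (z ^ (n + L)) d' ≤ (z ^ n) c' := by
        rw [pow_add_apply]
        exact (z ^ n).monotone hL.le
      simp only
      linarith
    refine (Finset.sum_le_sum h1).trans ?_
    rw [lag (fun n => -(z ^ n) d') L N]
    calc ∑ i ∈ Finset.range L, ((fun n => -(z ^ n) d') (N + i) - (fun n => -(z ^ n) d') i) ≤
        ∑ i ∈ Finset.range L, (q - p) := by
          apply Finset.sum_le_sum
          intro i _
          have h2 := comp_mem hc (N + i) hdI
          have h3 := comp_mem hc i hdI
          simp only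
          linarith [h2.1, h3.2]
      _ = L * (q - p) := by rw [Finset.sum_const, Finset.card_range, nsmul_eq_mul]
  · -- moves to the right
    have hpush := push_right hc hcI hdir
    obtain ⟨L, hL⟩ := (hpush.eventually (lt_mem_nhds hd2)).exists
    apply contract hS hz hc2 hcd hd1 hsub' (Λ := L * (q - p)) _ ε hε
    intro N
    have h1 : ∀ n ∈ Finset.range N, (z ^ n) d' - (z ^ n) c' ≤
        (fun n => (z ^ n) c') (n + L) - (fun n => (z ^ n) c') n := by
      intro n _
      have : (z ^ n) d' ≤ (z ^ (n + L)) c' := by
        rw [pow_add_apply]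
        exact (z ^ n).monotone hL.le
      simp only
      linarith
    refine (Finset.sum_le_sum h1).trans ?_
    rw [lag (fun n => (z ^ n) c') L N]
    calc ∑ i ∈ Finset.range L, ((fun n => (z ^ n) c') (N + i) - (fun n => (z ^ n) c') i) ≤
        ∑ i ∈ Finset.range L, (q - p) := by
          apply Finset.sum_le_sum
          intro i _
          have h2 := comp_mem hc (N + i) hcI
          have h3 := comp_mem hc i hcI
          simp only
          linarith [h2.2, h3.1]
      _ = L * (q - p) := by rw [Finset.sum_const, Finset.card_range, nsmul_eq_mul]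

end Pool.Agent.W331.CR
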