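import Pool.Agent.W331.CR.Stm

/-! CR-DP: elements commuting with the Baumslag-Solitar pair are of finite order modulo one on the
components of the support of `y`. -/

set_option autoImplicit false

open Set Filter Topology

namespace Pool.Agent.W331.CR

namespace DP

theorem pow_fix {F : ℝ ≃o ℝ} {x : ℝ} (h : F x = x) (n : ℕ) : (F ^ n) x = x := by
  induction n with
  | zero => rfl
  | succ n ih => rw [pow_succ, RelIso.mul_apply, h, ih]

theorem le_pow {F : ℝ ≃o ℝ} {x : ℝ} (h : x ≤ F x) (n : ℕ) : x ≤ (F ^ n) x := by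
  induction n with
  | zero => exact le_refl _
  | succ n ih =>
    rw [pow_succ', RelIso.mul_apply]
    exact h.trans (F.monotone ih)

theorem pow_le {F : ℝ ≃o ℝ} {x : ℝ} (h : F x ≤ x) (n : ℕ) : (F ^ n) x ≤ x := by
  induction n with
  | zero => exact le_refl _
  | succ n ih =>
    rw [pow_succ', RelIso.mul_apply]
    exact (F.monotone ih).trans h

theorem pow_ne {F : ℝ ≃o ℝ} {x : ℝ} (h : F x ≠ x) {n : ℕ} (hn : 1 ≤ n) : (F ^ n) x ≠ x := by
  obtain ⟨m, rfl⟩ : ∃ m, n = m + 1 := ⟨n - 1, by omega⟩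
  rw [pow_succ', RelIso.mul_apply]
  rcases lt_or_gt_of_ne h with h1 | h1
  · exact ((F.monotone (pow_le h1.le m)).trans_lt h1).ne
  · exact (h1.trans_le (F.monotone (le_pow h1.le m))).ne'

theorem fix_of_pow {F : ℝ ≃o ℝ} {x : ℝ} {n : ℕ} (hn : 1 ≤ n) (h : (F ^ n) x = x) : F x = x := by
  by_contra hne
  exact pow_ne hne hn h

theorem tr_pow (n : ℕ) (x : ℝ) : (tr ^ n) x = x + n := by
  induction n with
  | zero => simp
  | succ n ih =>
    rw [pow_succ', RelIso.mul_apply, ih, tr_apply]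
    push_cast
    ring

theorem inv_app {F : ℝ ≃o ℝ} {x y : ℝ} (h : F y = x) : F⁻¹ x = y := by
  rw [← h]
  exact F.symm_apply_apply y

theorem tr_zpow (m : ℤ) (x : ℝ) : (tr ^ m) x = x + m := by
  rcases m with n | n
  · rw [Int.ofNat_eq_natCast, zpow_natCast, tr_pow]
    simp
  · rw [zpow_negSucc]
    apply inv_app
    rw [tr_pow]
    push_cast
    ring

theorem tr_comm {F : ℝ ≃o ℝ} (h : ∀ x, F (x + 1) = F x + 1) : Commute tr F := by
  apply RelIso.ext
  intro x
  rw [RelIso.mul_apply, RelIso.mul_apply, tr_apply, tr_apply, h]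

theorem inner (hk : S_kprime) {U : Set ℝ} {H : Subgroup (ℝ ≃o ℝ)} (hS : Setup U H) {z y : ℝ ≃o ℝ}
    (hz : z ∈ H) (hy : y ∈ H) (hc : Commute z y) {c d p q : ℝ} (hcd : IsComp y c d)
    (hp : z p = p) (hq : z q = q) (hpc : p ≤ c) (hdq : d ≤ q) (hpq : q ≤ p + 1) :
    z c = c ∧ z d = d := by
  obtain ⟨n, hn, m, h1, h2⟩ := hk U H hS z y hz hy hc c d hcd
  have h3 : p ≤ (z ^ n) c := by
    have := (z ^ n).monotone hpc
    rwa [pow_fix hp] at this
  have h4 : (z ^ n) d ≤ q := by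
    have := (z ^ n).monotone hdq
    rwa [pow_fix hq] at this
  have h5 := hcd.lt
  have hm : m = 0 := by
    rw [h1] at h3
    rw [h2] at h4
    by_contra hne
    rcases lt_or_gt_of_ne hne with h | h
    · have : (m : ℝ) ≤ -1 := by exact_mod_cast (by omega : m ≤ -1)
      linarith
    · have : (1 : ℝ) ≤ m := by exact_mod_cast h
      linarith
  rw [hm, Int.cast_zero, add_zero] at h1 h2
  exact ⟨fix_of_pow hn h1, fix_of_pow hn h2⟩

/-- a component of `Z` which contains a point of `(p,q)` is contained in `(p,q)` -/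
theorem sub {Z : ℝ ≃o ℝ} {p q c d x : ℝ} (hp : Z p = p) (hq : Z q = q) (h : IsComp Z c d)
    (hx : x ∈ Ioo p q) (hxc : x ∈ Ioo c d) : p ≤ c ∧ d ≤ q := by
  constructor
  · by_contra hne
    push Not at hne
    exact h.ne p ⟨hne, hx.1.trans hxc.2⟩ hp
  · by_contra hne
    push Not at hne
    exact h.ne q ⟨hxc.1.trans hx.2, hne⟩ hq

end DP

open DP in
theorem s_dp : S_kprime → S_bsfix → S_comp → S_dp := by
  intro hk hb hcomp U H hS h y z hh hy hz hbs hzh hzy p q hpq
  obtain ⟨n, hn, m, h1, h2⟩ := hk U H hS z y hz hy hzy p q hpq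
  have hper : ∀ F ∈ H, ∀ x, F (x + 1) = F x + 1 := fun F hF => (hS.nice F hF).per
  have hlen : q ≤ p + 1 := by
    by_contra hne
    push Not at hne
    apply hpq.ne (p + 1) ⟨by linarith, hne⟩
    rw [hper y hy, hpq.left]
  have htr : ∀ F ∈ H, Commute tr F := fun F hF => tr_comm (hper F hF)
  set Z : ℝ ≃o ℝ := tr ^ (-m) * z ^ n with hZ
  have hZH : Z ∈ H := H.mul_mem (H.zpow_mem hS.tr_mem _) (H.pow_mem hz _)
  have hZapp : ∀ x, Z x = (z ^ n) x - m := by
    intro x
    rw [hZ, RelIso.mul_apply, tr_zpow]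
    push_cast
    ring
  have hZp : Z p = p := by rw [hZapp, h1]; ring
  have hZq : Z q = q := by rw [hZapp, h2]; ring
  have hZh : Commute Z h := ((htr h hh).zpow_left _).mul_left (hzh.pow_left _)
  have hZy : Commute Z y := ((htr y hy).zpow_left _).mul_left (hzy.pow_left _)
  have claim : ∀ x ∈ Icc p q, Z x = x := by
    intro x hx
    by_contra hne
    have hxp : x ≠ p := fun e => hne (by rw [e, hZp])
    have hxq : x ≠ q := fun e => hne (by rw [e, hZq])
    have hxo : x ∈ Ioo p q := ⟨lt_of_le_of_ne hx.1 (Ne.symm hxp), lt_of_le_of_ne hx.2 hxq⟩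
    obtain ⟨c, d, hcd, hxcd⟩ := hcomp Z (hper Z hZH) ⟨p, hZp⟩ x hne
    obtain ⟨hpc, hdq⟩ := sub hZp hZq hcd hxo hxcd
    obtain ⟨yc, yd⟩ := inner hk hS hy hZH hZy.symm hcd hpq.left hpq.right hpc hdq hlen
    have hcp : c = p := by
      by_contra hne'
      exact hpq.ne c ⟨lt_of_le_of_ne hpc (Ne.symm hne'), hcd.lt.trans_le hdq⟩ yc
    have hdq' : d = q := by
      by_contra hne'
      exact hpq.ne d ⟨hpc.trans_lt hcd.lt, lt_of_le_of_ne hdq hne'⟩ yd
    subst hcp hdq'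
    -- now `Z` has no fixed point in `(c,d)`
    obtain ⟨k, hk1, l, e1, e2⟩ := hk U H hS h Z hh hZH hZh.symm c d hcd
    set Hh : ℝ ≃o ℝ := tr ^ (-l) * h ^ k with hHh
    have hHhH : Hh ∈ H := H.mul_mem (H.zpow_mem hS.tr_mem _) (H.pow_mem hh _)
    have hHapp : ∀ x, Hh x = (h ^ k) x - l := by
      intro x
      rw [hHh, RelIso.mul_apply, tr_zpow]
      push_cast
      ring
    have hHp : Hh c = c := by rw [hHapp, e1]; ring
    have hHq : Hh d = d := by rw [hHapp, e2]; ring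
    have hHZ : Commute Hh Z := ((htr Z hZH).zpow_left _).mul_left (hZh.symm.pow_left _)
    have hpow : h ^ k * y * (h ^ k)⁻¹ = y ^ (2 ^ k) := by
      clear e1 e2 hHhH hHapp hHp hHq hHZ hk1
      clear hHh
      clear Hh
      induction k with
      | zero => simp
      | succ k ih =>
        rw [pow_succ', mul_inv_rev]
        calc h * h ^ k * y * ((h ^ k)⁻¹ * h⁻¹) = h * (h ^ k * y * (h ^ k)⁻¹) * h⁻¹ := by group
          _ = h * y ^ (2 ^ k) * h⁻¹ := by rw [ih]
          _ = (h * y * h⁻¹) ^ (2 ^ k) := by rw [conj_pow]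
          _ = y ^ (2 ^ (k + 1)) := by rw [hbs, ← pow_mul, pow_succ, mul_comm]
    have hHy : Hh * y * Hh⁻¹ = y ^ (2 ^ k) := by
      rw [← hpow, hHh, mul_inv_rev]
      have hc1 : Commute (tr ^ (-l)) (h ^ k * y * (h ^ k)⁻¹) := by
        apply Commute.zpow_left
        exact htr _ (H.mul_mem (H.mul_mem (H.pow_mem hh _) hy) (H.inv_mem (H.pow_mem hh _)))
      calc tr ^ (-l) * h ^ k * y * ((h ^ k)⁻¹ * (tr ^ (-l))⁻¹)
          = tr ^ (-l) * (h ^ k * y * (h ^ k)⁻¹) * (tr ^ (-l))⁻¹ := by group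
        _ = h ^ k * y * (h ^ k)⁻¹ := by rw [hc1.eq, mul_inv_cancel_right]
    have h2k : 2 ≤ 2 ^ k := by
      calc 2 = 2 ^ 1 := by norm_num
        _ ≤ 2 ^ k := Nat.pow_le_pow_right (by norm_num) hk1
    obtain ⟨x0, hx0, hx0f⟩ := hb Hh y (2 ^ k) h2k hHy c d hpq hHp hHq
    by_cases hid : ∀ t ∈ Ioo c d, Hh t = t
    · have hyx0 : y x0 ∈ Ioo c d := by
        constructor
        · have := y.strictMono hx0.1
          rwa [hpq.left] at this
        · have := y.strictMono hx0.2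
          rwa [hpq.right] at this
      have e3 : (y ^ (2 ^ k)) x0 = y x0 := by
        rw [← hHy, RelIso.mul_apply, RelIso.mul_apply, inv_app hx0f, hid _ hyx0]
      have e4 : (y ^ (2 ^ k - 1)) (y x0) = y x0 := by
        rw [← RelIso.mul_apply, ← pow_succ, Nat.sub_add_cancel (by omega), e3]
      have e5 : y (y x0) = y x0 := fix_of_pow (by omega) e4
      exact hpq.ne _ hyx0 e5
    · push Not at hid
      obtain ⟨x1, hx1, hx1n⟩ := hid
      obtain ⟨c', d', hcd', hx1cd⟩ := hcomp Hh (hper Hh hHhH) ⟨c, hHp⟩ x1 hx1n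
      obtain ⟨hpc', hdq'⟩ := sub hHp hHq hcd' hx1 hx1cd
      obtain ⟨zc, zd⟩ := inner hk hS hZH hHhH hHZ.symm hcd' hZp hZq hpc' hdq' hlen
      have hx0n : x0 ∉ Ioo c' d' := fun hmem => hcd'.ne x0 hmem hx0f
      have h5 := hcd'.lt
      rcases le_or_gt x0 c' with h6 | h6
      · exact hcd.ne c' ⟨hx0.1.trans_le h6, h5.trans_le hdq'⟩ zc
      · have h7 : d' ≤ x0 := by
          by_contra hne'
          push Not at hne'
          exact hx0n ⟨h6, hne'⟩
        exact hcd.ne d' ⟨hpc'.trans_lt h5, h7.trans_lt hx0.2⟩ zd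
  refine ⟨n, hn, m, fun x hx => ?_⟩
  have := claim x hx
  rw [hZapp] at this
  linarith

end Pool.Agent.W331.CR
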