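import Pool.Agent.W331.CR.Glue

/-! The element `f` of the second group (by helper646). -/

set_option autoImplicit false

open Set Filter Topology
open scoped ContDiff NNReal

namespace Pool.Agent.W331.CR

namespace F02

/-- derivatives in the second variable are jointly smooth -/
lemma joint (Φ : ℝ × ℝ → ℝ) (hΦ : ContDiff ℝ ∞ Φ) (r : ℕ) :
    ContDiff ℝ ∞ (fun p : ℝ × ℝ => iteratedDeriv r (fun x => Φ (p.1, x)) p.2) := by
  induction r with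
  | zero =>
    simp only [iteratedDeriv_zero]
    exact hΦ
  | succ r ih =>
    set P : ℝ × ℝ → ℝ := fun p => iteratedDeriv r (fun x => Φ (p.1, x)) p.2 with hP
    have h1 : ContDiff ℝ ∞ (fderiv ℝ P) := ih.fderiv_right (by simp)
    have h2 : ContDiff ℝ ∞ (fun p : ℝ × ℝ => fderiv ℝ P p (0, 1)) := h1.clm_apply contDiff_const
    have e : (fun p : ℝ × ℝ => iteratedDeriv (r + 1) (fun x => Φ (p.1, x)) p.2) =
        fun p : ℝ × ℝ => fderiv ℝ P p (0, 1) := by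
      funext p
      rw [iteratedDeriv_succ]
      have h3 : HasDerivAt (fun x : ℝ => ((p.1, x) : ℝ × ℝ)) (0, 1) p.2 :=
        (hasDerivAt_const _ _).prodMk (hasDerivAt_id _)
      have h4 : HasFDerivAt P (fderiv ℝ P p) (p.1, p.2) :=
        ((ih.differentiable (by simp)) p).hasFDerivAt
      have h5 := h4.comp_hasDerivAt p.2 h3
      exact h5.deriv
    rw [e]
    exact h2

/-- linear bounds in the first variable for the derivatives in the second variable -/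
lemma linb (Φ : ℝ × ℝ → ℝ) (hΦ : ContDiff ℝ ∞ Φ) (h0 : ∀ x, Φ (0, x) = 0) (r : ℕ) :
    ∃ C : ℝ, 0 < C ∧ ∀ s : ℝ, |s| ≤ 1 → ∀ x ∈ Icc (0 : ℝ) 1,
      |iteratedDeriv r (fun x => Φ (s, x)) x| ≤ C * |s| := by
  set P : ℝ × ℝ → ℝ := fun p => iteratedDeriv r (fun x => Φ (p.1, x)) p.2 with hP
  have hPs : ContDiff ℝ ∞ P := joint Φ hΦ r
  have hc : Continuous (fderiv ℝ P) := hPs.continuous_fderiv (by simp)
  obtain ⟨C, hC⟩ := ((isCompact_Icc (a := (-1 : ℝ)) (b := 1)).prod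
    (isCompact_Icc (a := (0 : ℝ)) (b := 1))).exists_bound_of_continuousOn hc.continuousOn
  have hC0 : 0 ≤ C := (norm_nonneg _).trans
    (hC (0, 0) ⟨⟨by norm_num, by norm_num⟩, ⟨le_refl _, by norm_num⟩⟩)
  refine ⟨C + 1, by linarith, ?_⟩
  intro s hs x hx
  have key := Convex.norm_image_sub_le_of_norm_fderiv_le (𝕜 := ℝ) (f := P) (C := C)
    (s := Icc (-1 : ℝ) 1 ×ˢ Icc (0 : ℝ) 1) (x := (0, x)) (y := (s, x))
    (fun z _ => (hPs.differentiable (by simp)) z) (fun z hz => hC z hz)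
    ((convex_Icc _ _).prod (convex_Icc _ _))
    ⟨⟨by norm_num, by norm_num⟩, hx⟩ ⟨abs_le.1 hs, hx⟩
  have e0 : P (0, x) = 0 := by
    simp only [hP]
    have : (fun x => Φ (0, x)) = fun _ => (0 : ℝ) := funext h0
    rw [this]
    simp
  have e1 : ‖((s, x) : ℝ × ℝ) - (0, x)‖ = |s| := by
    rw [Prod.mk_sub_mk, Prod.norm_def]
    simp
  rw [e0, sub_zero, e1, Real.norm_eq_abs] at key
  refine key.trans ?_
  have := abs_nonneg s
  nlinarith

/-- derivatives of a function supported in the unit interval vanish outside the open interval -/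
lemma supp0 (D : ℝ → ℝ) (hD : ContDiff ℝ ∞ D) (h : ∀ x, x ∉ Ioo (0 : ℝ) 1 → D x = 0) (r : ℕ)
    (x : ℝ) (hx : x ∉ Ioo (0 : ℝ) 1) : iteratedDeriv r D x = 0 := by
  have hcont : Continuous (iteratedDeriv r D) :=
    hD.continuous_iteratedDeriv r (by exact_mod_cast le_top)
  have hcl : IsClosed {x | iteratedDeriv r D x = 0} := isClosed_eq hcont continuous_const
  have hz : ∀ x, (D =ᶠ[𝓝 x] fun _ => 0) → iteratedDeriv r D x = 0 := by
    intro x hx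
    rw [Filter.EventuallyEq.iteratedDeriv_eq r hx]
    simp
  by_cases h0 : x ≤ 0
  · have h1 : closure (Iio (0 : ℝ)) ⊆ {x | iteratedDeriv r D x = 0} := by
      apply closure_minimal _ hcl
      intro z hz'
      apply hz
      filter_upwards [Iio_mem_nhds hz'] with w hw
      exact h w fun hh => absurd hh.1 (not_lt.2 (le_of_lt hw))
    rw [closure_Iio] at h1
    exact h1 h0
  · have h1 : closure (Ioi (1 : ℝ)) ⊆ {x | iteratedDeriv r D x = 0} := by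
      apply closure_minimal _ hcl
      intro z hz'
      apply hz
      filter_upwards [Ioi_mem_nhds hz'] with w hw
      exact h w fun hh => absurd hh.2 (not_lt.2 (le_of_lt hw))
    rw [closure_Ioi] at h1
    apply h1
    push Not at h0
    by_contra hcon
    exact hx ⟨h0, lt_of_not_ge hcon⟩

/-- the affine order isomorphism `x ↦ 4 * 2 ^ i * x - 5 / 2` -/
noncomputable def Af (i : ℕ) : ℝ ≃o ℝ :=
  (OrderIso.mulLeft₀ (4 * 2 ^ i : ℝ) (by positivity)).trans (OrderIso.addRight (-(5 / 2) : ℝ))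

lemma Af_apply (i : ℕ) (x : ℝ) : Af i x = 4 * 2 ^ i * x - 5 / 2 := by
  simp [Af, sub_eq_add_neg]

lemma Af_symm (i : ℕ) (x : ℝ) : (Af i).symm x = (5 / 8 + x / 4) / 2 ^ i := by
  apply (Af i).injective
  rw [OrderIso.apply_symm_apply, Af_apply]
  field_simp
  ring

/-- the conjugated map -/
noncomputable def Fc (Y : ℝ ≃o ℝ) (i : ℕ) : ℝ ≃o ℝ := (Af i).trans (Y.trans (Af i).symm)

lemma Fc_apply (Y : ℝ ≃o ℝ) (i : ℕ) (x : ℝ) : Fc Y i x = (5 / 8 + Y (Af i x) / 4) / 2 ^ i := by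
  show (Af i).symm (Y (Af i x)) = _
  rw [Af_symm]

lemma Fc_sub (Y : ℝ ≃o ℝ) (i : ℕ) (x : ℝ) :
    Fc Y i x - x = (4 * 2 ^ i : ℝ)⁻¹ * (Y (4 * 2 ^ i * x - 5 / 2) - (4 * 2 ^ i * x - 5 / 2)) := by
  rw [Fc_apply, Af_apply]
  field_simp
  ring

lemma Fc_inv (Y : ℝ ≃o ℝ) (i : ℕ) : (Fc Y i)⁻¹ = Fc Y⁻¹ i := rfl

lemma Fc_deriv (Y : ℝ ≃o ℝ) (hY : ContDiff ℝ ∞ Y) (i r : ℕ) (x : ℝ) :
    iteratedDeriv r (fun x => Fc Y i x - x) x =
      (4 * 2 ^ i : ℝ)⁻¹ * ((4 * 2 ^ i) ^ r *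
        iteratedDeriv r (fun z => Y z - z) (4 * 2 ^ i * x - 5 / 2)) := by
  have hD : ContDiff ℝ ∞ (fun z => Y z - z) := hY.sub contDiff_id
  have hD2 : ContDiff ℝ ∞ (fun z => Y (z - 5 / 2) - (z - 5 / 2)) :=
    hD.comp (contDiff_id.sub contDiff_const)
  have e : (fun x => Fc Y i x - x) = fun x => (4 * 2 ^ i : ℝ)⁻¹ *
      (fun z => Y (z - 5 / 2) - (z - 5 / 2)) (4 * 2 ^ i * x) := by
    funext x
    exact Fc_sub Y i x
  rw [e, iteratedDeriv_const_mul_field]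
  congr 1
  have h1 := congrFun (iteratedDeriv_comp_const_mul (n := r)
    (hD2.of_le (by exact_mod_cast le_top)) (4 * 2 ^ i : ℝ)) x
  have h2 : iteratedDeriv r (fun z => Y (z - 5 / 2) - (z - 5 / 2)) (4 * 2 ^ i * x) =
      iteratedDeriv r (fun z => Y z - z) (4 * 2 ^ i * x - 5 / 2) := by
    exact congrFun (iteratedDeriv_comp_sub_const r (fun z => Y z - z) (5 / 2)) (4 * 2 ^ i * x)
  rw [← h2]
  exact h1

lemma y_zero {h : ℝ ≃o ℝ} {y : ℝ → (ℝ ≃o ℝ)} (hP : FlatPair h y) : y 0 = 1 := by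
  have h1 := hP.y_add 0 0
  rw [add_zero] at h1
  exact (mul_eq_left.1 h1.symm)

lemma y_neg {h : ℝ ≃o ℝ} {y : ℝ → (ℝ ≃o ℝ)} (hP : FlatPair h y) (s : ℝ) : y (-s) = (y s)⁻¹ := by
  have h1 := hP.y_add s (-s)
  rw [add_neg_cancel, y_zero hP] at h1
  exact eq_inv_of_mul_eq_one_right h1.symm

/-- linear bounds for the flow of a flat pair -/
lemma hb {h : ℝ ≃o ℝ} {y : ℝ → (ℝ ≃o ℝ)} (hP : FlatPair h y) (k : ℕ) :
    ∃ C : ℝ, 0 < C ∧ ∀ r : ℕ, r ≤ k → ∀ s : ℝ, |s| ≤ 1 → ∀ z : ℝ,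
      |iteratedDeriv r (fun z => y s z - z) z| ≤ C * |s| := by
  set Φ : ℝ × ℝ → ℝ := fun p => y p.1 p.2 - p.2 with hΦ
  have hΦs : ContDiff ℝ ∞ Φ := hP.y_sm.sub contDiff_snd
  have h0 : ∀ x, Φ (0, x) = 0 := by
    intro x
    simp only [hΦ]
    rw [y_zero hP]
    show x - x = 0
    ring
  have h1 := fun r => linb Φ hΦs h0 r
  choose C hC0 hC using h1
  have hsum0 : 0 < ∑ r ∈ Finset.range (k + 1), C r :=
    Finset.sum_pos (fun r _ => hC0 r) ⟨0, by simp⟩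
  refine ⟨∑ r ∈ Finset.range (k + 1), C r, hsum0, ?_⟩
  intro r hr s hs z
  have hys : ContDiff ℝ ∞ (fun z => y s z - z) := by
    have : ContDiff ℝ ∞ (fun z : ℝ => Φ (s, z)) := hΦs.comp (contDiff_const.prodMk contDiff_id)
    exact this
  by_cases hz : z ∈ Ioo (0 : ℝ) 1
  · refine (hC r s hs z (Ioo_subset_Icc_self hz)).trans ?_
    apply mul_le_mul_of_nonneg_right _ (abs_nonneg s)
    exact Finset.single_le_sum (f := C) (fun r _ => (hC0 r).le)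
      (Finset.mem_range.2 (Nat.lt_succ_of_le hr))
  · rw [supp0 _ hys (fun x hx => by rw [hP.y_supp s x hx, sub_self]) r z hz, abs_zero]
    have := abs_nonneg s
    positivity

lemma mem_iff (n : ℕ) (x : ℝ) :
    x ∈ Ioo ((5 / 8 : ℝ) / 2 ^ n) ((7 / 8 : ℝ) / 2 ^ n) ↔ 4 * 2 ^ n * x - 5 / 2 ∈ Ioo (0 : ℝ) 1 := by
  have hp : (0 : ℝ) < 2 ^ n := by positivity
  rw [mem_Ioo, mem_Ioo, div_lt_iff₀ hp, lt_div_iff₀ hp]
  have e : 4 * 2 ^ n * x = 4 * (x * 2 ^ n) := by ring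
  rw [e]
  constructor
  · rintro ⟨h1, h2⟩
    constructor <;> linarith
  · rintro ⟨h1, h2⟩
    constructor <;> linarith

lemma disj (i j : ℕ) (hij : i ≠ j) :
    Disjoint (Ioo ((5 / 8 : ℝ) / 2 ^ (i + 1)) ((7 / 8 : ℝ) / 2 ^ (i + 1)))
      (Ioo ((5 / 8 : ℝ) / 2 ^ (j + 1)) ((7 / 8 : ℝ) / 2 ^ (j + 1))) := by
  have key : ∀ i j : ℕ, i < j →
      Disjoint (Ioo ((5 / 8 : ℝ) / 2 ^ (i + 1)) ((7 / 8 : ℝ) / 2 ^ (i + 1)))
      (Ioo ((5 / 8 : ℝ) / 2 ^ (j + 1)) ((7 / 8 : ℝ) / 2 ^ (j + 1))) := by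
    intro i j h
    rw [Set.disjoint_left]
    rintro x ⟨h1, -⟩ ⟨-, h2⟩
    have h3 : (7 / 8 : ℝ) / 2 ^ (j + 1) ≤ (7 / 8 : ℝ) / 2 ^ (i + 1 + 1) := by
      apply div_le_div_of_nonneg_left (by norm_num) (by positivity)
      exact pow_le_pow_right₀ (by norm_num) (by omega)
    have h4 : (7 / 8 : ℝ) / 2 ^ (i + 1 + 1) < (5 / 8 : ℝ) / 2 ^ (i + 1) := by
      rw [pow_succ (2 : ℝ) (i + 1), div_lt_div_iff₀ (by positivity) (by positivity)]
      have : (0 : ℝ) < 2 ^ (i + 1) := by positivity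
      nlinarith
    linarith
  rcases lt_or_gt_of_ne hij with h | h
  · exact key i j h
  · exact (key j i h).symm

set_option maxHeartbeats 1600000 in
lemma build {h : ℝ ≃o ℝ} {y : ℝ → (ℝ ≃o ℝ)} (hP : FlatPair h y) (k : ℕ) (hk : 1 ≤ k) (σ : ℝ)
    (hσ : |σ| = 1) :
    ∃ G : ℝ ≃o ℝ, ContDiff ℝ k G ∧
      (∀ x, G x = Glue.gl (fun n => (5 / 8 : ℝ) / 2 ^ (n + 1)) (fun n => (7 / 8 : ℝ) / 2 ^ (n + 1))
        (fun n => Fc (y (σ / 2 ^ (k * (n + 1)))) (n + 1)) x) ∧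
      (∀ x, (G⁻¹ : ℝ ≃o ℝ) x = Glue.gl (fun n => (5 / 8 : ℝ) / 2 ^ (n + 1))
        (fun n => (7 / 8 : ℝ) / 2 ^ (n + 1))
        (fun n => (Fc (y (σ / 2 ^ (k * (n + 1)))) (n + 1))⁻¹) x) ∧
      ∃ K, LipschitzWith K (iteratedDeriv k (G : ℝ → ℝ)) := by
  obtain ⟨C, hC0, hC⟩ := hb hP (k + 1)
  have hs1 : ∀ n : ℕ, |σ / 2 ^ (k * (n + 1))| = 1 / 2 ^ (k * (n + 1)) := by
    intro n
    rw [abs_div, hσ, abs_of_pos (by positivity)]
  have hs1' : ∀ n : ℕ, |σ / 2 ^ (k * (n + 1))| ≤ 1 := by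
    intro n
    rw [hs1, div_le_one (by positivity)]
    exact one_le_pow₀ (by norm_num)
  have hys : ∀ s, ContDiff ℝ ∞ (y s) := fun s => hP.y_sm.comp (contDiff_const.prodMk contDiff_id)
  have hFs : ∀ n : ℕ, ContDiff ℝ ∞ (Fc (y (σ / 2 ^ (k * (n + 1)))) (n + 1)) := by
    intro n
    have e : ((Fc (y (σ / 2 ^ (k * (n + 1)))) (n + 1)) : ℝ → ℝ) = fun x =>
        (5 / 8 + y (σ / 2 ^ (k * (n + 1))) (4 * 2 ^ (n + 1) * x - 5 / 2) / 4) / 2 ^ (n + 1) := by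
      funext x
      rw [Fc_apply, Af_apply]
    rw [e]
    have h1 : ContDiff ℝ ∞ (fun x : ℝ => (4 * 2 ^ (n + 1) * x - 5 / 2 : ℝ)) :=
      (contDiff_const.mul contDiff_id).sub contDiff_const
    exact (contDiff_const.add (((hys _).comp h1).div_const _)).div_const _
  have hFsupp : ∀ n : ℕ, ∀ x, x ∉ Ioo ((5 / 8 : ℝ) / 2 ^ (n + 1)) ((7 / 8 : ℝ) / 2 ^ (n + 1)) →
      Fc (y (σ / 2 ^ (k * (n + 1)))) (n + 1) x = x := by
    intro n x hx
    rw [mem_iff] at hx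
    have h1 := Fc_sub (y (σ / 2 ^ (k * (n + 1)))) (n + 1) x
    rw [hP.y_supp _ _ hx, sub_self, mul_zero] at h1
    linarith
  -- bounds of the derivatives
  have hbd : ∀ (n r : ℕ), r ≤ k + 1 → ∀ x,
      |iteratedDeriv r (fun x => Fc (y (σ / 2 ^ (k * (n + 1)))) (n + 1) x - x) x| ≤
        (4 * 2 ^ (n + 1) : ℝ)⁻¹ * ((4 * 2 ^ (n + 1)) ^ r * (C * (1 / 2 ^ (k * (n + 1))))) := by
    intro n r hr x
    rw [Fc_deriv _ (hys _), abs_mul, abs_mul, abs_of_pos (by positivity : (0:ℝ) < (4 * 2 ^ (n + 1) : ℝ)⁻¹),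
      abs_of_pos (by positivity : (0:ℝ) < (4 * 2 ^ (n + 1) : ℝ) ^ r)]
    have h1 := hC r hr _ (hs1' n) (4 * 2 ^ (n + 1) * x - 5 / 2)
    rw [hs1] at h1
    gcongr
  have hbk : ∀ (n r : ℕ), r ≤ k → ∀ x,
      |iteratedDeriv r (fun x => Fc (y (σ / 2 ^ (k * (n + 1)))) (n + 1) x - x) x| ≤
        4 ^ k * C * (1 / 2) ^ (n + 1) := by
    intro n r hr x
    refine (hbd n r (by omega) x).trans ?_
    have h1 : (4 * 2 ^ (n + 1) : ℝ) ^ r ≤ (4 * 2 ^ (n + 1) : ℝ) ^ k := by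
      apply pow_le_pow_right₀ _ hr
      have : (1 : ℝ) ≤ 2 ^ (n + 1) := one_le_pow₀ (by norm_num)
      linarith
    calc (4 * 2 ^ (n + 1) : ℝ)⁻¹ * ((4 * 2 ^ (n + 1)) ^ r * (C * (1 / 2 ^ (k * (n + 1)))))
        ≤ (4 * 2 ^ (n + 1) : ℝ)⁻¹ * ((4 * 2 ^ (n + 1)) ^ k * (C * (1 / 2 ^ (k * (n + 1))))) := by
          gcongr
      _ = (1 / 4) * (4 ^ k * C * (1 / 2) ^ (n + 1)) := by
          rw [mul_pow, ← pow_mul, mul_comm (n + 1) k, one_div_pow]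
          field_simp
      _ ≤ 4 ^ k * C * (1 / 2) ^ (n + 1) := by
          have : 0 < 4 ^ k * C * (1 / 2 : ℝ) ^ (n + 1) := by positivity
          linarith
  have hbk1 : ∀ n : ℕ, ∀ x,
      |iteratedDeriv (k + 1) (fun x => Fc (y (σ / 2 ^ (k * (n + 1)))) (n + 1) x - x) x| ≤
        4 ^ k * C := by
    intro n x
    refine (hbd n (k + 1) le_rfl x).trans (le_of_eq ?_)
    have e1 : (4 * 2 ^ (n + 1) : ℝ) ^ (k + 1) = 4 ^ k * 2 ^ (k * (n + 1)) * (4 * 2 ^ (n + 1)) := by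
      rw [pow_succ (4 * 2 ^ (n + 1) : ℝ) k, mul_pow, ← pow_mul, mul_comm (n + 1) k]
    rw [e1]
    field_simp
  have hsumm : Summable (fun n : ℕ => 4 ^ k * C * (1 / 2 : ℝ) ^ (n + 1)) := by
    apply Summable.mul_left
    exact (summable_geometric_of_lt_one (by norm_num) (by norm_num)).comp_injective
      (add_left_injective 1)
  obtain ⟨G, hG1, hG2, hG3, hG4⟩ := Glue.full (ι := ℕ)
    (c := fun n => (5 / 8 : ℝ) / 2 ^ (n + 1)) (d := fun n => (7 / 8 : ℝ) / 2 ^ (n + 1))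
    (F := fun n => Fc (y (σ / 2 ^ (k * (n + 1)))) (n + 1)) k _ disj hFsupp hFs hsumm
    (fun n r hr x => hbk n r hr x)
  refine ⟨G, hG1, hG2, hG3, ?_⟩
  -- the Lipschitz bound
  set hn : ℕ → ℝ → ℝ := fun n => iteratedDeriv k
    (fun x => Fc (y (σ / 2 ^ (k * (n + 1)))) (n + 1) x - x) with hhn
  have hDs : ∀ n : ℕ, ContDiff ℝ ∞ (fun x => Fc (y (σ / 2 ^ (k * (n + 1)))) (n + 1) x - x) :=
    fun n => (hFs n).sub contDiff_id
  have hnlip : ∀ n x x', |hn n x - hn n x'| ≤ 4 ^ k * C * |x - x'| := by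
    intro n x x'
    have hdiff : Differentiable ℝ (hn n) :=
      (hDs n).differentiable_iteratedDeriv k (by exact_mod_cast ENat.natCast_lt_top k)
    have h1 := Convex.norm_image_sub_le_of_norm_deriv_le (f := hn n) (C := 4 ^ k * C)
      (s := univ) (x := x') (y := x) (fun z _ => hdiff z) (fun z _ => by
        rw [hhn, ← iteratedDeriv_succ, Real.norm_eq_abs]
        exact hbk1 n z) convex_univ (mem_univ _) (mem_univ _)
    exact h1
  have hnsupp : ∀ n x, x ∉ Ioo ((5 / 8 : ℝ) / 2 ^ (n + 1)) ((7 / 8 : ℝ) / 2 ^ (n + 1)) →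
      hn n x = 0 := by
    intro n x hx
    rw [mem_iff] at hx
    simp only [hhn]
    have hsm : ContDiff ℝ ∞ (fun z => y (σ / 2 ^ (k * (n + 1))) z - z) := (hys _).sub contDiff_id
    rw [Fc_deriv _ (hys _), supp0 _ hsm
      (fun z hz => by rw [hP.y_supp _ z hz, sub_self]) k _ hx]
    simp
  set H : ℝ → ℝ := iteratedDeriv k (fun x => G x - x) with hH
  have hH1 : ∀ x, H x = ∑' n, hn n x := fun x => hG4 k le_rfl x
  have hHin : ∀ n x, x ∈ Ioo ((5 / 8 : ℝ) / 2 ^ (n + 1)) ((7 / 8 : ℝ) / 2 ^ (n + 1)) →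
      H x = hn n x := by
    intro n x hx
    rw [hH1, tsum_eq_single n]
    intro m hm
    exact hnsupp m x fun h' => Set.disjoint_left.1 (disj m n hm) h' hx
  have hHout : ∀ x, (∀ n : ℕ, x ∉ Ioo ((5 / 8 : ℝ) / 2 ^ (n + 1)) ((7 / 8 : ℝ) / 2 ^ (n + 1))) →
      H x = 0 := by
    intro x hx
    rw [hH1]
    have : (fun n => hn n x) = fun _ => 0 := funext fun n => hnsupp n x (hx n)
    rw [this, tsum_zero]
  have hhalf : ∀ x x', (∀ n : ℕ, ¬ (x ∈ Ioo ((5 / 8 : ℝ) / 2 ^ (n + 1)) ((7 / 8 : ℝ) / 2 ^ (n + 1)) ∧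
      x' ∈ Ioo ((5 / 8 : ℝ) / 2 ^ (n + 1)) ((7 / 8 : ℝ) / 2 ^ (n + 1)))) →
      |H x| ≤ 4 ^ k * C * |x - x'| := by
    intro x x' hno
    by_cases hx : ∃ n : ℕ, x ∈ Ioo ((5 / 8 : ℝ) / 2 ^ (n + 1)) ((7 / 8 : ℝ) / 2 ^ (n + 1))
    · obtain ⟨n, hn'⟩ := hx
      rw [hHin n x hn']
      have h2 : hn n x' = 0 := hnsupp n x' fun h' => hno n ⟨hn', h'⟩
      have h3 := hnlip n x x'
      rw [h2, sub_zero] at h3
      exact h3
    · push Not at hx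
      rw [hHout x hx, abs_zero]
      positivity
  have hHlip : ∀ x x', |H x - H x'| ≤ 2 * (4 ^ k * C) * |x - x'| := by
    intro x x'
    have hpos : 0 ≤ 4 ^ k * C * |x - x'| := by positivity
    by_cases hb' : ∃ n : ℕ, x ∈ Ioo ((5 / 8 : ℝ) / 2 ^ (n + 1)) ((7 / 8 : ℝ) / 2 ^ (n + 1)) ∧
      x' ∈ Ioo ((5 / 8 : ℝ) / 2 ^ (n + 1)) ((7 / 8 : ℝ) / 2 ^ (n + 1))
    · obtain ⟨n, h1, h2⟩ := hb'
      rw [hHin n x h1, hHin n x' h2]
      refine (hnlip n x x').trans ?_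
      linarith
    · push Not at hb'
      have h1 := hhalf x x' fun n hn' => hb' n hn'.1 hn'.2
      have h2 := hhalf x' x fun n hn' => hb' n hn'.2 hn'.1
      rw [abs_sub_comm x' x] at h2
      have h3 := abs_sub (H x) (H x')
      linarith
  have hidl : ∃ c : ℝ, ∀ x, iteratedDeriv k (fun x : ℝ => x) x = c := by
    obtain ⟨m, rfl⟩ : ∃ m, k = m + 1 := ⟨k - 1, by omega⟩
    refine ⟨iteratedDeriv m (fun _ : ℝ => (1 : ℝ)) 0, fun x => ?_⟩
    rw [iteratedDeriv_succ']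
    have : deriv (fun x : ℝ => x) = fun _ => (1 : ℝ) := by
      funext z
      exact deriv_id z
    rw [this]
    simp only [iteratedDeriv_const]
  obtain ⟨c, hc⟩ := hidl
  have hGH : ∀ x, iteratedDeriv k (G : ℝ → ℝ) x = H x + c := by
    intro x
    have e : (G : ℝ → ℝ) = (fun x => G x - x) + fun x => x := by
      funext z
      simp
    have h1 : iteratedDeriv k ((fun x => G x - x) + fun x => x) x =
        iteratedDeriv k (fun x => G x - x) x + iteratedDeriv k (fun x => x) x :=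
      iteratedDeriv_add (hG1.sub contDiff_id).contDiffAt contDiff_id.contDiffAt
    rw [hc] at h1
    rw [← h1]
    congr 1
  refine ⟨Real.toNNReal (2 * (4 ^ k * C)), LipschitzWith.of_dist_le_mul fun x x' => ?_⟩
  rw [Real.dist_eq, Real.dist_eq, hGH, hGH, Real.coe_toNNReal _ (by positivity)]
  have e : H x + c - (H x' + c) = H x - H x' := by ring
  rw [e]
  exact hHlip x x'

end F02

theorem s_f02 : S_f02 := by
  intro h y hP k hk
  obtain ⟨G, hG1, hG2, hG3, hG4⟩ := F02.build hP k hk 1 (by norm_num)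
  obtain ⟨G', hG'1, hG'2, -, hG'4⟩ := F02.build hP k hk (-1) (by norm_num)
  have hinv : ((G⁻¹ : ℝ ≃o ℝ) : ℝ → ℝ) = G' := by
    funext x
    rw [hG3, hG'2]
    have : (fun n : ℕ => (F02.Fc (y (1 / 2 ^ (k * (n + 1)))) (n + 1))⁻¹) =
        fun n : ℕ => F02.Fc (y (-1 / 2 ^ (k * (n + 1)))) (n + 1) := by
      funext n
      rw [F02.Fc_inv, ← F02.y_neg hP, neg_div]
    rw [this]
  refine ⟨G, ?_, ?_, hG1, ?_, hG4, ?_⟩
  · intro i hi x hx
    obtain ⟨n, rfl⟩ : ∃ n, i = n + 1 := ⟨i - 1, by omega⟩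
    have h1 : 4 * 2 ^ (n + 1) * ((5 / 8 + x / 4) / 2 ^ (n + 1)) - 5 / 2 = x := by
      field_simp
      ring
    have h2 : (5 / 8 + x / 4) / 2 ^ (n + 1) ∈
        Ioo ((5 / 8 : ℝ) / 2 ^ (n + 1)) ((7 / 8 : ℝ) / 2 ^ (n + 1)) := by
      rw [F02.mem_iff, h1]
      exact hx
    rw [hG2, Glue.gl_in F02.disj h2, F02.Fc_apply, F02.Af_apply, h1]
  · intro x hx
    rw [hG2, Glue.gl_out]
    intro n hn
    apply hx (n + 1) (by omega)
    have hp : (0 : ℝ) < 2 ^ (n + 1) := by positivity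
    obtain ⟨h1, h2⟩ := hn
    rw [div_lt_iff₀ hp] at h1
    rw [lt_div_iff₀ hp] at h2
    rw [mul_comm]
    exact ⟨h1, h2⟩
  · rw [hinv]
    exact hG'1
  · rw [hinv]
    exact hG'4

end Pool.Agent.W331.CR
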