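import Pool.Agent.W331.CR.Phi

/-! The final contradiction of the first rigidity theorem. -/

set_option autoImplicit false

open Set Filter Topology Asymptotics

namespace Pool.Agent.W331.CR

namespace Fin84

open _root_.Pool.Agent.W331.CR.Dist _root_.Pool.Agent.W331.CR.Phi

/-- Lemma W: if `w y w⁻¹` commutes with `h` and `y`, then `w` maps the support of `y` off itself -/
lemma lemW (hdp : S_dp) (hcomp : S_comp) {U : Set ℝ} {H : Subgroup (ℝ ≃o ℝ)} (hS : Setup U H)
    {h y w : ℝ ≃o ℝ} (hh : h ∈ H) (hy : y ∈ H) (hw : w ∈ H) (hrel : h * y * h⁻¹ = y ^ 2)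
    (h1 : Commute (w * y * w⁻¹) h) (h2 : Commute (w * y * w⁻¹) y) (hfix : ∃ p, y p = p)
    {t : ℝ} (ht : y t ≠ t) : y (w t) = w t := by
  by_contra hne
  have hz : w * y * w⁻¹ ∈ H := H.mul_mem (H.mul_mem hw hy) (H.inv_mem hw)
  obtain ⟨p', q', hc, hmem⟩ := hcomp y (hS.nice y hy).per hfix (w t) hne
  obtain ⟨n, hn, m, hm⟩ := hdp U H hS h y (w * y * w⁻¹) hh hy hz hrel h1 h2 p' q' hc
  have hzap : ∀ s, (w * y * w⁻¹ : ℝ ≃o ℝ) (w s) = w (y s) := by
    intro s
    rw [RelIso.mul_apply, RelIso.mul_apply]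
    congr 2
    exact w.symm_apply_apply s
  obtain ⟨p, hp⟩ := hfix
  have hzfix : (w * y * w⁻¹ : ℝ ≃o ℝ) (w p) = w p := by rw [hzap, hp]
  have hmt := hm (w t) ⟨hmem.1.le, hmem.2.le⟩
  have hm0 : m = 0 := int_zero (hS.nice _ (H.pow_mem hz n)).per (pow_fix hzfix n) hmt
  rw [hm0] at hmt
  have hfx : (w * y * w⁻¹ : ℝ ≃o ℝ) (w t) = w t := fix_of_pow hn (by simpa using hmt)
  rw [hzap] at hfx
  exact ht (w.injective hfx)

end Fin84

open _root_.Pool.Agent.W331.CR.Dist _root_.Pool.Agent.W331.CR.Phi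
  _root_.Pool.Agent.W331.CR.Fin84 in
theorem s_fin84 (hphi : S_phi) (hflat : S_flat) (hdp : S_dp) (hcomp : S_comp) (_hfix : S_fix) :
    S_fin84 := by
  intro U H hS hCM h y f v hh hy hf hv hrel e hF hcv p q x hc hx c d hcd hxK hyxK hpq hvK hvd
  obtain ⟨φ, hφH, hφ⟩ := hphi U H hS h y f v hh hy hf hv hrel (fun i => e * i) hF p q x hc hx
  have hlt : c < d := by
    rcases lt_or_gt_of_ne (hc.ne x hx) with h1 | h1
    · exact lt_of_le_of_lt hyxK.1 (lt_of_lt_of_le h1 hxK.2)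
    · exact lt_of_le_of_lt hxK.1 (lt_of_lt_of_le h1 hyxK.2)
  have hcK : c ∈ Icc c d := ⟨le_refl _, hlt.le⟩
  have hdK : d ∈ Icc c d := ⟨hlt.le, le_refl _⟩
  have hKi : ∀ i : ℕ, ∀ t ∈ Icc c d, (v ^ i) t ∈ Icc c d := by
    intro i
    induction i with
    | zero => intro t ht; simpa using ht
    | succ i ih => intro t ht; rw [pow_succ_apply]; exact hvK _ (ih t ht)
  -- lower bound of the derivative
  obtain ⟨V, hV0, hV⟩ := (hS.nice v hv).lip
  set μ := deriv v c * Real.exp (-(V * (d - c))) with hμ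
  have hvc : 0 < deriv v c := (hS.nice v hv).pos c (hcd hcK)
  have hμ0 : 0 < μ := mul_pos hvc (Real.exp_pos _)
  have hlow : ∀ t ∈ Icc c d, μ ≤ deriv v t := by
    intro t ht
    have h1 := hV c t ht.1 (fun u hu => hcd ⟨hu.1, hu.2.trans ht.2⟩)
    have h2 : V * (t - c) ≤ V * (d - c) := mul_le_mul_of_nonneg_left (by linarith [ht.2]) hV0
    have h3 := (abs_le.1 h1).2
    have hpt : 0 < deriv v t := (hS.nice v hv).pos t (hcd ht)
    have h4 : Real.log (deriv v c) - V * (d - c) ≤ Real.log (deriv v t) := by linarith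
    have h5 := Real.exp_le_exp.2 h4
    rw [Real.exp_log hpt, sub_eq_add_neg, Real.exp_add, Real.exp_log hvc] at h5
    exact h5
  have hstep : ∀ t ∈ Icc c d, ∀ t' ∈ Icc c d, t ≤ t' →
      μ * (t' - t) ≤ v t' - v t ∧ v t' - v t ≤ 1 / 2 * (t' - t) := by
    intro t ht t' ht' htt
    rcases htt.eq_or_lt with rfl | hlt'
    · simp
    · obtain ⟨ξ, hξ1, hξ2⟩ := exists_deriv_eq_slope (v : ℝ ≃o ℝ) hlt' v.continuous.continuousOn
        (fun u hu => ((hS.nice v hv).diff u
          (hcd ⟨ht.1.trans hu.1.le, hu.2.le.trans ht'.2⟩)).differentiableWithinAt)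
      have hξK : ξ ∈ Icc c d := ⟨ht.1.trans hξ1.1.le, hξ1.2.le.trans ht'.2⟩
      have h1 := hlow ξ hξK
      have h2 := hvd ξ hξK
      have hpos : 0 < t' - t := by linarith
      rw [hξ2] at h1 h2
      rw [le_div_iff₀ hpos] at h1
      rw [div_le_iff₀ hpos] at h2
      exact ⟨h1, h2⟩
  have hiter : ∀ i : ℕ, ∀ t ∈ Icc c d, ∀ t' ∈ Icc c d, t ≤ t' →
      μ ^ i * (t' - t) ≤ (v ^ i) t' - (v ^ i) t ∧ (v ^ i) t' - (v ^ i) t ≤ (1 / 2) ^ i * (t' - t) := by
    intro i t ht t' ht' htt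
    induction i with
    | zero => simp
    | succ i ih =>
      obtain ⟨h1, h2⟩ := hstep _ (hKi i t ht) _ (hKi i t' ht') ((v ^ i).monotone htt)
      rw [pow_succ_apply, pow_succ_apply]
      constructor
      · calc μ ^ (i + 1) * (t' - t) = μ * (μ ^ i * (t' - t)) := by ring
          _ ≤ μ * ((v ^ i) t' - (v ^ i) t) := mul_le_mul_of_nonneg_left ih.1 hμ0.le
          _ ≤ _ := h1
      · calc v ((v ^ i) t') - v ((v ^ i) t) ≤ 1 / 2 * ((v ^ i) t' - (v ^ i) t) := h2
          _ ≤ 1 / 2 * ((1 / 2) ^ i * (t' - t)) := by linarith [ih.2]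
          _ = _ := by ring
  -- the fixed point
  obtain ⟨s, hsK, hs⟩ : ∃ s ∈ Icc c d, v s = s := by
    have hcont : ContinuousOn (fun t : ℝ => v t - t) (Icc c d) :=
      (v.continuous.sub continuous_id).continuousOn
    have h0 : (0:ℝ) ∈ Icc (v d - d) (v c - c) := ⟨by linarith [(hvK d hdK).2],
      by linarith [(hvK c hcK).1]⟩
    obtain ⟨s, hs1, hs2⟩ := intermediate_value_Icc' hlt.le hcont h0
    exact ⟨s, hs1, by simp only at hs2; linarith⟩
  have hsi : ∀ i : ℕ, (v ^ i) s = s := pow_fix hs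
  have hdist : ∀ i : ℕ, ∀ t ∈ Icc c d, |(v ^ i) t - s| ≤ (1 / 2) ^ i * (d - c) := by
    intro i t ht
    have hp : (0:ℝ) < (1 / 2) ^ i := by positivity
    rcases le_total t s with hts | hts
    · have h1 := (hiter i t ht s hsK hts).2
      rw [hsi] at h1
      have h2 : (v ^ i) t ≤ s := by
        have := (v ^ i).monotone hts; rwa [hsi] at this
      rw [abs_sub_comm, abs_of_nonneg (by linarith)]
      refine h1.trans (mul_le_mul_of_nonneg_left ?_ hp.le)
      linarith [ht.1, hsK.2]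
    · have h1 := (hiter i s hsK t ht hts).2
      rw [hsi] at h1
      have h2 : s ≤ (v ^ i) t := by
        have := (v ^ i).monotone hts; rwa [hsi] at this
      rw [abs_of_nonneg (by linarith)]
      refine h1.trans (mul_le_mul_of_nonneg_left ?_ hp.le)
      linarith [hsK.1, ht.2]
  have hlim0 : Tendsto (fun i : ℕ => (1 / 2 : ℝ) ^ i * (d - c)) atTop (𝓝 0) := by
    have := (tendsto_pow_atTop_nhds_zero_of_lt_one (r := (1 / 2 : ℝ)) (by norm_num)
      (by norm_num)).mul_const (d - c)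
    rwa [zero_mul] at this
  -- the end point
  have hvne : ∀ t ∈ Ioo p q, ∀ t' ∈ Ioo p q, v t' ≠ t := by
    intro t ht t' ht' heq
    have h1 := hcv 1 le_rfl
    rw [pow_one] at h1
    have := lemW hdp hcomp hS hh hy hv hrel h1.1 h1.2 ⟨p, hc.left⟩ (hc.ne t' ht')
    rw [heq] at this
    exact hc.ne t ht this
  obtain ⟨e0, he0K, he0f, he0v⟩ : ∃ e0 ∈ Icc c d, (∀ i : ℕ, 1 ≤ i → φ ((v ^ i) e0) = (v ^ i) e0) ∧
      v e0 ≠ e0 := by
    rcases hpq with hp | hq
    · refine ⟨p, hp, fun i hi => (hφ i hi).1, fun hvp => ?_⟩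
      have hvq : p < v q := by
        have := v.strictMono hc.lt; rwa [hvp] at this
      set t := (p + min q (v q)) / 2 with ht
      have hm : p < min q (v q) := lt_min hc.lt hvq
      have ht1 : p < t := by rw [ht]; linarith
      have ht2 : t < min q (v q) := by rw [ht]; linarith
      have ht3 : t ∈ Ioo p q := ⟨ht1, ht2.trans_le (min_le_left _ _)⟩
      obtain ⟨t', ht'⟩ := v.surjective t
      apply hvne t ht3 t' ⟨?_, ?_⟩ ht'
      · rw [← v.lt_iff_lt, hvp, ht']; exact ht1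
      · rw [← v.lt_iff_lt, ht']; exact ht2.trans_le (min_le_right _ _)
    · refine ⟨q, hq, fun i hi => (hφ i hi).2.1, fun hvq => ?_⟩
      have hvp : v p < q := by
        have := v.strictMono hc.lt; rwa [hvq] at this
      set t := (q + max p (v p)) / 2 with ht
      have hm : max p (v p) < q := max_lt hc.lt hvp
      have ht1 : t < q := by rw [ht]; linarith
      have ht2 : max p (v p) < t := by rw [ht]; linarith
      have ht3 : t ∈ Ioo p q := ⟨(le_max_left _ _).trans_lt ht2, ht1⟩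
      obtain ⟨t', ht'⟩ := v.surjective t
      apply hvne t ht3 t' ⟨?_, ?_⟩ ht'
      · rw [← v.lt_iff_lt, ht']; exact (le_max_right _ _).trans_lt ht2
      · rw [← v.lt_iff_lt, hvq, ht']; exact ht1
  have he0ne : ∀ i : ℕ, (v ^ i) e0 ≠ s := by
    intro i hi
    have h1 : (v ^ i) e0 = (v ^ i) s := by rw [hi, hsi]
    have h2 := (v ^ i).injective h1
    exact he0v (by rw [h2, hs])
  have hconv : Tendsto (fun i : ℕ => (v ^ i) e0) atTop (𝓝[≠] s) := by
    rw [tendsto_nhdsWithin_iff]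
    refine ⟨?_, Eventually.of_forall he0ne⟩
    rw [tendsto_iff_dist_tendsto_zero]
    refine squeeze_zero (fun _ => dist_nonneg) (fun i => ?_) hlim0
    rw [Real.dist_eq]
    exact hdist i e0 he0K
  have hfreq : ∃ᶠ t in 𝓝[≠] s, (fun t => φ t - t) t = 0 := by
    apply hconv.frequently
    apply Eventually.frequently
    filter_upwards [eventually_ge_atTop 1] with i hi
    rw [he0f i hi, sub_self]
  -- choose the order
  obtain ⟨M, hM⟩ := pow_unbounded_of_one_lt (2 ^ e / μ) (one_lt_two)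
  have hM' : (2:ℝ) ^ e / μ < 2 ^ M := hM
  have hCD : ContDiffAt ℝ (M : ℕ) (fun t => φ t - t) s :=
    (hCM φ hφH s (hcd hsK) M).sub contDiffAt_id
  have ho := hflat M (fun t => φ t - t) s hCD hfreq
  have hob := ho.bound (show (0:ℝ) < 1 by norm_num)
  rw [Metric.eventually_nhds_iff] at hob
  obtain ⟨δ, hδ, hob⟩ := hob
  have hev : ∀ᶠ i : ℕ in atTop, (1 / 2 : ℝ) ^ i * (d - c) < δ := hlim0.eventually (gt_mem_nhds hδ)
  -- the ratio
  set ρ := (2:ℝ) ^ e / (2 ^ M * μ) with hρ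
  have hρ0 : 0 ≤ ρ := by positivity
  have hρ1 : ρ < 1 := by
    rw [hρ, div_lt_one (by positivity)]
    rwa [div_lt_iff₀ hμ0] at hM'
  have hmain : ∀ᶠ i : ℕ in atTop, |y x - x| ≤ 2 * (d - c) ^ M * ρ ^ i := by
    filter_upwards [hev, eventually_ge_atTop 1] with i hi1 hi2
    obtain ⟨t, ht, htb⟩ := (hφ i hi2).2.2
    have hts : |t - s| ≤ (1 / 2) ^ i * (d - c) := by
      have h1 := abs_le.1 (hdist i x hxK)
      have h2 := abs_le.1 (hdist i (y x) hyxK)
      rw [mem_uIcc] at ht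
      rw [abs_le]
      rcases ht with ht | ht
      · constructor <;> linarith [ht.1, ht.2]
      · constructor <;> linarith [ht.1, ht.2]
    have h3 := hob (y := t) (by rw [Real.dist_eq]; exact hts.trans_lt hi1)
    rw [one_mul, Real.norm_eq_abs, Real.norm_eq_abs, abs_pow] at h3
    have h4 : |φ t - t| ≤ ((1 / 2) ^ i * (d - c)) ^ M :=
      h3.trans (pow_le_pow_left₀ (abs_nonneg _) hts M)
    have h5 : μ ^ i * |y x - x| ≤ |(v ^ i) (y x) - (v ^ i) x| := by
      rcases le_total x (y x) with hxy | hxy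
      · rw [abs_of_nonneg (by linarith), abs_of_nonneg (by linarith [(v ^ i).monotone hxy])]
        exact (hiter i x hxK (y x) hyxK hxy).1
      · rw [abs_sub_comm, abs_of_nonneg (by linarith), abs_sub_comm,
          abs_of_nonneg (by linarith [(v ^ i).monotone hxy])]
        exact (hiter i (y x) hyxK x hxK hxy).1
    have h6 : ((2:ℝ) ^ (e * i) + 1) ≤ 2 * 2 ^ (e * i) := by
      have : (1:ℝ) ≤ 2 ^ (e * i) := one_le_pow₀ (by norm_num)
      linarith
    have h7 : μ ^ i * |y x - x| ≤ 2 * 2 ^ (e * i) * ((1 / 2) ^ i * (d - c)) ^ M := by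
      refine h5.trans (htb.trans ?_)
      apply mul_le_mul h6 h4 (abs_nonneg _) (by positivity)
    have hμi : 0 < μ ^ i := by positivity
    have h8 : |y x - x| ≤ (2 * 2 ^ (e * i) * ((1 / 2) ^ i * (d - c)) ^ M) / μ ^ i := by
      rw [le_div_iff₀ hμi]; linarith
    refine h8.trans (le_of_eq ?_)
    clear_value μ
    have h9 : ((1 / 2 : ℝ) ^ i) ^ M = 1 / 2 ^ (M * i) := by
      rw [← pow_mul, one_div, inv_pow, one_div, mul_comm]
    have h10 : ρ ^ i = 2 ^ (e * i) * ((1 / 2 : ℝ) ^ i) ^ M / μ ^ i := by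
      rw [hρ, div_pow, mul_pow, ← pow_mul, ← pow_mul, h9]
      field_simp
    rw [h10, mul_pow]
    ring
  have hlim : Tendsto (fun i : ℕ => 2 * (d - c) ^ M * ρ ^ i) atTop (𝓝 0) := by
    have := (tendsto_pow_atTop_nhds_zero_of_lt_one hρ0 hρ1).const_mul (2 * (d - c) ^ M)
    rwa [mul_zero] at this
  have hle := ge_of_tendsto hlim hmain
  have hpos : 0 < |y x - x| := abs_pos.2 (sub_ne_zero.2 (hc.ne x hx))
  linarith

end Pool.Agent.W331.CR
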