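import Pool.Agent.W331.CR.Stm

/-! Functions with an accumulation of zeros are flat (CR-FLAT). -/

set_option autoImplicit false

open Set Filter Topology Asymptotics

namespace Pool.Agent.W331.CR

theorem s_flat : S_flat := by
  intro n
  induction n with
  | zero =>
    intro g q hg hz
    have hc : ContinuousAt g q := hg.continuousAt
    have h0 : g q = 0 := by
      by_contra hne
      have h1 : ∀ᶠ t in 𝓝 q, g t ≠ 0 := hc.eventually_ne hne
      exact hz (h1.filter_mono nhdsWithin_le_nhds)
    simp only [pow_zero]
    rw [isLittleO_one_iff]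
    have := hc.tendsto
    rwa [h0] at this
  | succ n ih =>
    intro g q hg hz
    have hg0 : ContinuousAt g q := hg.continuousAt
    have h0 : g q = 0 := by
      by_contra hne
      have h1 : ∀ᶠ t in 𝓝 q, g t ≠ 0 := hg0.eventually_ne hne
      exact hz (h1.filter_mono nhdsWithin_le_nhds)
    -- differentiability near q
    have hg1 : ContDiffAt ℝ 1 g q := hg.of_le (by exact_mod_cast Nat.succ_pos n)
    have hdiff : ∀ᶠ t in 𝓝 q, DifferentiableAt ℝ g t := by
      have := hg1.eventually (by simp)
      filter_upwards [this] with t ht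
      exact ht.differentiableAt (by norm_num)
    have hder : ContDiffAt ℝ n (deriv g) q := by
      have h1 : ContDiffAt ℝ n (fderiv ℝ g) q := hg.fderiv_right (by norm_cast)
      have h2 : deriv g = fun t => fderiv ℝ g t 1 := by
        funext t; exact fderiv_apply_one_eq_deriv.symm
      rw [h2]
      exact h1.clm_apply contDiffAt_const
    obtain ⟨δ, hδ, hball⟩ := Metric.eventually_nhds_iff_ball.1 hdiff
    have hzd : ∃ᶠ t in 𝓝[≠] q, deriv g t = 0 := by
      rw [frequently_nhdsWithin_iff] at hz ⊢
      rw [Metric.nhds_basis_ball.frequently_iff] at hz ⊢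
      intro ε hε
      obtain ⟨t, ht, hgt, htq⟩ := hz (min ε δ) (lt_min hε hδ)
      have htq : t ≠ q := htq
      rw [Metric.mem_ball, lt_min_iff] at ht
      -- points between q and t
      have hin : ∀ s ∈ uIcc q t, dist s q ≤ dist t q := by
        intro s hs
        rw [Real.dist_eq, Real.dist_eq]
        exact abs_sub_left_of_mem_uIcc hs
      rcases lt_or_gt_of_ne htq with h | h
      · obtain ⟨s, hs, hs'⟩ := exists_deriv_eq_zero (f := g) h
          (fun x hx => (hball x (by
            rw [Metric.mem_ball]
            exact (hin x (by rw [uIcc_of_ge h.le]; exact hx)).trans_lt ht.2)).continuousAt.continuousWithinAt)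
          (by rw [hgt, h0])
        refine ⟨s, ?_, hs', hs.2.ne⟩
        rw [Metric.mem_ball]
        exact (hin s (by rw [uIcc_of_ge h.le]; exact ⟨hs.1.le, hs.2.le⟩)).trans_lt ht.1
      · obtain ⟨s, hs, hs'⟩ := exists_deriv_eq_zero (f := g) h
          (fun x hx => (hball x (by
            rw [Metric.mem_ball]
            exact (hin x (by rw [uIcc_of_le h.le]; exact hx)).trans_lt ht.2)).continuousAt.continuousWithinAt)
          (by rw [hgt, h0])
        refine ⟨s, ?_, hs', hs.1.ne'⟩
        rw [Metric.mem_ball]
        exact (hin s (by rw [uIcc_of_le h.le]; exact ⟨hs.1.le, hs.2.le⟩)).trans_lt ht.1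
    have hlo := ih (deriv g) q hder hzd
    rw [isLittleO_iff] at hlo ⊢
    intro C hC
    obtain ⟨η, hη, hb2⟩ := Metric.eventually_nhds_iff_ball.1 ((hlo hC).and hdiff)
    filter_upwards [Metric.ball_mem_nhds q hη] with t ht
    have hmv := Convex.norm_image_sub_le_of_norm_deriv_le (f := g) (C := C * |t - q| ^ n)
      (s := Metric.closedBall q |t - q|) (x := q) (y := t)
      (fun s hs => by
        rw [Metric.mem_closedBall, Real.dist_eq] at hs
        rw [Metric.mem_ball, Real.dist_eq] at ht
        exact (hb2 s (by rw [Metric.mem_ball, Real.dist_eq]; exact hs.trans_lt ht)).2)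
      (fun s hs => by
        rw [Metric.mem_closedBall, Real.dist_eq] at hs
        rw [Metric.mem_ball, Real.dist_eq] at ht
        have h1 := (hb2 s (by rw [Metric.mem_ball, Real.dist_eq]; exact hs.trans_lt ht)).1
        refine h1.trans (mul_le_mul_of_nonneg_left ?_ hC.le)
        rw [norm_pow, Real.norm_eq_abs]
        exact pow_le_pow_left₀ (abs_nonneg _) hs n)
      (convex_closedBall _ _) (Metric.mem_closedBall_self (abs_nonneg _))
      (by rw [Metric.mem_closedBall, Real.dist_eq])
    rw [h0, sub_zero] at hmv
    refine hmv.trans (le_of_eq ?_)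
    rw [norm_pow, Real.norm_eq_abs, pow_succ]
    ring

end Pool.Agent.W331.CR
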