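import Pool.Agent.W331.CR.Stm2
import Pool.Agent.W585.Flow

/-! Proof of `S_flataff`: the affine group acts smoothly on the line, flat at `0` and `1`. -/

set_option autoImplicit false

open Set Filter Topology Function
open scoped ContDiff

namespace Pool.Agent.W331.CR

namespace FlatAff

/-- the flat function -/
noncomputable abbrev E (x : ℝ) : ℝ := expNegInvGlue x

lemma E_pos {x : ℝ} (hx : 0 < x) : 0 < E x := expNegInvGlue.pos_of_pos hx
lemma E_zero {x : ℝ} (hx : x ≤ 0) : E x = 0 := expNegInvGlue.zero_of_nonpos hx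
lemma E_nonneg (x : ℝ) : 0 ≤ E x := expNegInvGlue.nonneg x
lemma E_sm : ContDiff ℝ ∞ E := expNegInvGlue.contDiff
lemma E_eq {x : ℝ} (hx : 0 < x) : E x = Real.exp (-x⁻¹) := by
  simp [E, expNegInvGlue, not_le.2 hx]

/-- `1 / A'` where `A = exp (exp (1/x))` (up to sign) -/
noncomputable def P (x : ℝ) : ℝ := x ^ 2 * E x * E (E x)
/-- `A / A'` -/
noncomputable def Q (x : ℝ) : ℝ := x ^ 2 * E x
/-- the function `A` -/
noncomputable def A (x : ℝ) : ℝ := Real.exp (Real.exp x⁻¹)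

lemma P_sm : ContDiff ℝ ∞ P :=
  ((contDiff_id.pow 2).mul E_sm).mul (E_sm.comp E_sm)
lemma Q_sm : ContDiff ℝ ∞ Q := (contDiff_id.pow 2).mul E_sm

lemma P_pos {x : ℝ} (hx : 0 < x) : 0 < P x :=
  mul_pos (mul_pos (by positivity) (E_pos hx)) (E_pos (E_pos hx))
lemma P_zero {x : ℝ} (hx : x ≤ 0) : P x = 0 := by simp [P, E_zero hx]
lemma P_nonneg (x : ℝ) : 0 ≤ P x := by
  rcases le_or_gt x 0 with h | h
  · rw [P_zero h]
  · exact (P_pos h).le
lemma Q_zero {x : ℝ} (hx : x ≤ 0) : Q x = 0 := by simp [Q, E_zero hx]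

lemma A_mul_P {x : ℝ} (hx : 0 < x) : A x * P x = Q x := by
  have h1 : E (E x) = Real.exp (-Real.exp x⁻¹) := by
    rw [E_eq (E_pos hx), E_eq hx]
    congr 2
    rw [Real.exp_neg, inv_inv]
  unfold A P Q
  rw [h1]
  have : Real.exp (Real.exp x⁻¹) * Real.exp (-Real.exp x⁻¹) = 1 := by
    rw [← Real.exp_add]; simp
  linear_combination (x ^ 2 * E x) * this

lemma A_der {x : ℝ} (hx : 0 < x) : HasDerivAt A (-(P x)⁻¹) x := by
  have h1 : HasDerivAt (fun x : ℝ => x⁻¹) (-(x ^ 2)⁻¹) x := hasDerivAt_inv hx.ne'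
  have h2 := (h1.exp).exp
  refine h2.congr_deriv ?_
  have h3 := A_mul_P hx
  have hP := P_pos hx
  have hA : A x = Real.exp (Real.exp x⁻¹) := rfl
  have hE : E x = (Real.exp x⁻¹)⁻¹ := by rw [E_eq hx, Real.exp_neg]
  have h4 : Real.exp (Real.exp x⁻¹) = x ^ 2 * (Real.exp x⁻¹)⁻¹ * (P x)⁻¹ := by
    rw [← hA, eq_mul_inv_iff_mul_eq₀ hP.ne', h3, Q, hE]
  rw [h4]
  have h5 := (Real.exp_pos x⁻¹).ne'
  field_simp

/-- the coordinate function -/
noncomputable def X (x : ℝ) : ℝ := A (1 - x) - A x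
/-- the first vector field -/
noncomputable def Y1 (x : ℝ) : ℝ := P x * P (1 - x) / (P x + P (1 - x))
/-- the second vector field -/
noncomputable def Y2 (x : ℝ) : ℝ := (Q (1 - x) * P x - Q x * P (1 - x)) / (P x + P (1 - x))

lemma den_pos (x : ℝ) : 0 < P x + P (1 - x) := by
  rcases le_or_gt x 0 with h | h
  · exact add_pos_of_nonneg_of_pos (P_nonneg x) (P_pos (by linarith))
  · exact add_pos_of_pos_of_nonneg (P_pos h) (P_nonneg _)

lemma P1_sm : ContDiff ℝ ∞ (fun x : ℝ => P (1 - x)) := P_sm.comp (contDiff_const.sub contDiff_id)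
lemma Q1_sm : ContDiff ℝ ∞ (fun x : ℝ => Q (1 - x)) := Q_sm.comp (contDiff_const.sub contDiff_id)

lemma Y1_sm : ContDiff ℝ ∞ Y1 :=
  (P_sm.mul P1_sm).div (P_sm.add P1_sm) (fun x => (den_pos x).ne')
lemma Y2_sm : ContDiff ℝ ∞ Y2 :=
  ((Q1_sm.mul P_sm).sub (Q_sm.mul P1_sm)).div (P_sm.add P1_sm) (fun x => (den_pos x).ne')

lemma Y1_out {x : ℝ} (hx : x ∉ Ioo (0:ℝ) 1) : Y1 x = 0 := by
  rcases le_or_gt x 0 with h | h
  · simp [Y1, P_zero h]
  · have : 1 - x ≤ 0 := by
      by_contra h'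
      exact hx ⟨h, by linarith⟩
    simp [Y1, P_zero this]

lemma Y2_out {x : ℝ} (hx : x ∉ Ioo (0:ℝ) 1) : Y2 x = 0 := by
  rcases le_or_gt x 0 with h | h
  · simp [Y2, P_zero h, Q_zero h]
  · have : 1 - x ≤ 0 := by
      by_contra h'
      exact hx ⟨h, by linarith⟩
    simp [Y2, P_zero this, Q_zero this]

lemma Y1_pos {x : ℝ} (hx : x ∈ Ioo (0:ℝ) 1) : 0 < Y1 x :=
  div_pos (mul_pos (P_pos hx.1) (P_pos (by linarith [hx.2]))) (den_pos x)

lemma Y2_eq {x : ℝ} (hx : x ∈ Ioo (0:ℝ) 1) : Y2 x = X x * Y1 x := by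
  have h1 := A_mul_P hx.1
  have h2 := A_mul_P (x := 1 - x) (by linarith [hx.2])
  unfold Y2 Y1 X
  rw [← h1, ← h2]
  ring

lemma X_der {x : ℝ} (hx : x ∈ Ioo (0:ℝ) 1) : HasDerivAt X (Y1 x)⁻¹ x := by
  have h1 := A_der hx.1
  have h2 : 0 < 1 - x := by linarith [hx.2]
  have h3 := (A_der h2).comp x ((hasDerivAt_id x).const_sub 1)
  refine (h3.sub h1).congr_deriv ?_
  have hp := P_pos hx.1
  have hq := P_pos h2
  unfold Y1
  field_simp
  ring

lemma X_cont : ContinuousOn X (Ioo 0 1) := fun x hx => (X_der hx).continuousAt.continuousWithinAt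

lemma X_mono : StrictMonoOn X (Ioo 0 1) := by
  apply strictMonoOn_of_deriv_pos (convex_Ioo 0 1) X_cont
  intro x hx
  rw [interior_Ioo] at hx
  rw [(X_der hx).deriv]
  exact inv_pos.2 (Y1_pos hx)

lemma A_pos (x : ℝ) : 0 < A x := Real.exp_pos _

lemma A_anti {x y : ℝ} (hx : 0 < x) (hxy : x ≤ y) : A y ≤ A x := by
  unfold A
  exact Real.exp_le_exp.2 (Real.exp_le_exp.2 (by gcongr))

lemma A_big {x : ℝ} (hx : 0 < x) : x⁻¹ ≤ A x := by
  unfold A
  have h1 := Real.add_one_le_exp x⁻¹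
  have h2 := Real.add_one_le_exp (Real.exp x⁻¹)
  linarith

lemma A_half : ∃ K : ℝ, 0 < K ∧ ∀ x, 1 / 2 ≤ x → A x ≤ K :=
  ⟨A (1/2), A_pos _, fun x hx => A_anti (by norm_num) hx⟩

lemma X_surj (t : ℝ) : ∃ x ∈ Ioo (0:ℝ) 1, X x = t := by
  obtain ⟨K, hK, hA⟩ := A_half
  -- points x₁ close to 0 and x₂ close to 1
  set c : ℝ := 1 / (2 + K + |t|) with hc
  have habs := abs_nonneg t
  have hpos : 0 < 2 + K + |t| := by positivity
  have hc0 : 0 < c := by positivity
  have hc2 : c < 1 / 2 := by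
    rw [hc]; apply one_div_lt_one_div_of_lt (by norm_num); linarith
  have hinv : c⁻¹ = 2 + K + |t| := by rw [hc]; simp
  have h1 : X c ≤ t := by
    have := A_big hc0
    have := hA (1 - c) (by linarith)
    have := neg_abs_le t
    unfold X
    linarith
  have h2 : t ≤ X (1 - c) := by
    have := A_big hc0
    have := hA (1 - c) (by linarith)
    have := le_abs_self t
    unfold X
    rw [show 1 - (1 - c) = c by ring]
    linarith
  have hsub : Icc c (1 - c) ⊆ Ioo (0:ℝ) 1 := fun x hx => ⟨by linarith [hx.1], by linarith [hx.2]⟩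
  obtain ⟨x, hx, hxt⟩ := intermediate_value_Icc (by linarith) (X_cont.mono hsub) ⟨h1, h2⟩
  exact ⟨x, hsub hx, hxt⟩

/-- the coordinate -/
noncomputable def kp (t : ℝ) : ℝ := (X_surj t).choose

lemma kp_mem (t : ℝ) : kp t ∈ Ioo (0:ℝ) 1 := (X_surj t).choose_spec.1
lemma X_kp (t : ℝ) : X (kp t) = t := (X_surj t).choose_spec.2
lemma kp_X {x : ℝ} (hx : x ∈ Ioo (0:ℝ) 1) : kp (X x) = x :=
  X_mono.injOn (kp_mem _) hx (X_kp _)

lemma kp_mono : StrictMono kp := by
  intro s t h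
  rw [← X_mono.lt_iff_lt (kp_mem s) (kp_mem t), X_kp, X_kp]
  exact h

lemma kp_range : range kp = Ioo 0 1 := by
  apply Subset.antisymm
  · rintro _ ⟨t, rfl⟩; exact kp_mem t
  · intro x hx; exact ⟨X x, kp_X hx⟩

lemma kp_cont (t : ℝ) : ContinuousAt kp t := by
  apply continuousAt_of_monotoneOn_of_image_mem_nhds (kp_mono.monotone.monotoneOn univ) univ_mem
  rw [image_univ, kp_range]
  exact isOpen_Ioo.mem_nhds (kp_mem t)

lemma kp_der (t : ℝ) : HasDerivAt kp (Y1 (kp t)) t := by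
  have h1 := X_der (kp_mem t)
  have h2 := HasDerivAt.of_local_left_inverse (kp_cont t) h1
    (inv_ne_zero (Y1_pos (kp_mem t)).ne') (Eventually.of_forall X_kp)
  rwa [inv_inv] at h2

open Classical in
/-- extension of a map of the coordinate line -/
noncomputable def ex (θ : ℝ → ℝ) (x : ℝ) : ℝ := if x ∈ Ioo (0:ℝ) 1 then kp (θ (X x)) else x

lemma ex_in (θ : ℝ → ℝ) {x : ℝ} (hx : x ∈ Ioo (0:ℝ) 1) : ex θ x = kp (θ (X x)) := by
  simp only [ex, if_pos hx]
lemma ex_out (θ : ℝ → ℝ) {x : ℝ} (hx : x ∉ Ioo (0:ℝ) 1) : ex θ x = x := by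
  simp only [ex, if_neg hx]
lemma ex_kp (θ : ℝ → ℝ) (t : ℝ) : ex θ (kp t) = kp (θ t) := by
  rw [ex_in θ (kp_mem t), X_kp]

lemma ex_ex (θ θ' : ℝ → ℝ) (x : ℝ) : ex θ (ex θ' x) = ex (fun t => θ (θ' t)) x := by
  by_cases hx : x ∈ Ioo (0:ℝ) 1
  · rw [ex_in θ' hx, ex_kp, ex_in _ hx]
  · rw [ex_out θ' hx, ex_out _ hx, ex_out _ hx]

lemma ex_id (x : ℝ) : ex (fun t => t) x = x := by
  by_cases hx : x ∈ Ioo (0:ℝ) 1
  · rw [ex_in _ hx, kp_X hx]
  · rw [ex_out _ hx]

lemma ex_mono {θ : ℝ → ℝ} (hθ : StrictMono θ) : StrictMono (ex θ) := by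
  intro x y hxy
  by_cases hx : x ∈ Ioo (0:ℝ) 1 <;> by_cases hy : y ∈ Ioo (0:ℝ) 1
  · rw [ex_in _ hx, ex_in _ hy]
    exact kp_mono (hθ (X_mono hx hy hxy))
  · rw [ex_in _ hx, ex_out _ hy]
    have h1 := (kp_mem (θ (X x))).2
    have : 1 ≤ y := by
      by_contra h'
      exact hy ⟨hx.1.trans hxy, not_le.1 h'⟩
    linarith
  · rw [ex_out _ hx, ex_in _ hy]
    have h1 := (kp_mem (θ (X y))).1
    have : x ≤ 0 := by
      by_contra h'
      exact hx ⟨not_le.1 h', hxy.trans hy.2⟩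
    linarith
  · rw [ex_out _ hx, ex_out _ hy]; exact hxy

/-- the extension as an order isomorphism -/
noncomputable def ext (F : ℝ ≃o ℝ) : ℝ ≃o ℝ :=
  (ex_mono F.strictMono).orderIsoOfRightInverse (ex F) (ex F.symm) (fun x => by
    rw [ex_ex]
    have : (fun t => F (F.symm t)) = fun t => t := funext fun t => F.apply_symm_apply t
    rw [this, ex_id])

lemma ext_apply (F : ℝ ≃o ℝ) (x : ℝ) : ext F x = ex F x := rfl
lemma ext_inv (F : ℝ ≃o ℝ) (x : ℝ) : (ext F)⁻¹ x = ex (F⁻¹ : ℝ ≃o ℝ) x := rfl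

lemma ext_mul (F G : ℝ ≃o ℝ) : ext (F * G) = ext F * ext G := by
  ext x
  rw [RelIso.mul_apply, ext_apply, ext_apply, ext_apply, ex_ex]
  rfl

/-- the translation by `s` -/
def trs (s : ℝ) : ℝ ≃o ℝ := OrderIso.addRight s
lemma trs_apply (s t : ℝ) : trs s t = t + s := rfl
/-- the scaling by `c` -/
noncomputable def scl (c : ℝ) (hc : 0 < c) : ℝ ≃o ℝ := OrderIso.mulLeft₀ c hc
lemma scl_apply (c : ℝ) (hc : 0 < c) (t : ℝ) : scl c hc t = c * t := rfl

/-- joint smoothness of the first flow -/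
lemma flow1 : ContDiff ℝ ∞ (fun z : ℝ × ℝ => ex (fun t => t + z.2) z.1) := by
  refine (Pool.Agent.W585.flow_smooth (V := Y1) Y1_sm (φ := fun x s => ex (fun t => t + s) x)
    ?_ ?_).1
  · intro p
    simp only [add_zero]
    exact ex_id p
  · intro x s
    by_cases hx : x ∈ Ioo (0:ℝ) 1
    · have h1 : (fun s : ℝ => ex (fun t => t + s) x) = fun s => kp (X x + s) :=
        funext fun s => ex_in _ hx
      simp only [h1]
      rw [ex_in _ hx]
      have h2 := (kp_der (X x + s)).comp s ((hasDerivAt_id s).const_add (X x))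
      exact h2.congr_deriv (mul_one _)
    · have h1 : (fun s : ℝ => ex (fun t => t + s) x) = fun s => x :=
        funext fun s => ex_out _ hx
      simp only [h1]
      rw [ex_out _ hx, Y1_out hx]
      exact hasDerivAt_const s x

/-- joint smoothness of the second flow -/
lemma flow2 : ContDiff ℝ ∞ (fun z : ℝ × ℝ => ex (fun t => Real.exp z.2 * t) z.1) := by
  refine (Pool.Agent.W585.flow_smooth (V := Y2) Y2_sm
    (φ := fun x s => ex (fun t => Real.exp s * t) x) ?_ ?_).1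
  · intro p
    simp only [Real.exp_zero, one_mul]
    exact ex_id p
  · intro x s
    by_cases hx : x ∈ Ioo (0:ℝ) 1
    · have h1 : (fun s : ℝ => ex (fun t => Real.exp s * t) x) = fun s => kp (Real.exp s * X x) :=
        funext fun s => ex_in _ hx
      simp only [h1]
      rw [ex_in _ hx, Y2_eq (kp_mem _), X_kp]
      have h2 := (kp_der (Real.exp s * X x)).comp s ((Real.hasDerivAt_exp s).mul_const (X x))
      refine h2.congr_deriv ?_
      ring
    · have h1 : (fun s : ℝ => ex (fun t => Real.exp s * t) x) = fun s => x :=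
        funext fun s => ex_out _ hx
      simp only [h1]
      rw [ex_out _ hx, Y2_out hx]
      exact hasDerivAt_const s x

lemma kp_sm : ContDiff ℝ ∞ kp := by
  have h : kp = (fun z : ℝ × ℝ => ex (fun t => t + z.2) z.1) ∘ (fun t : ℝ => (kp 0, t)) := by
    funext t
    simp only [comp_apply, ex_kp, zero_add]
  rw [h]
  exact flow1.comp (contDiff_const.prodMk contDiff_id)

end FlatAff

open FlatAff in
theorem s_flataff : S_flataff := by
  refine ⟨kp, ⟨kp_sm, fun t => ?_, kp_range⟩, ext (scl 2 two_pos), fun s => ext (trs s), ?_, ?_, ?_⟩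
  · rw [(kp_der t).deriv]; exact Y1_pos (kp_mem t)
  · refine ⟨?_, ?_, ?_, ?_, ?_, ?_, ?_, ?_⟩
    · have h : (ext (scl 2 two_pos) : ℝ → ℝ) =
          (fun z : ℝ × ℝ => ex (fun t => Real.exp z.2 * t) z.1) ∘
            (fun x : ℝ => (x, Real.log 2)) := by
        funext x
        simp only [comp_apply, Real.exp_log two_pos]
        rfl
      rw [h]
      exact flow2.comp (contDiff_id.prodMk contDiff_const)
    · have h : ((ext (scl 2 two_pos))⁻¹ : ℝ ≃o ℝ) =
          ((fun z : ℝ × ℝ => ex (fun t => Real.exp z.2 * t) z.1) ∘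
            (fun x : ℝ => (x, -Real.log 2)) : ℝ → ℝ) := by
        funext x
        simp only [comp_apply, Real.exp_neg, Real.exp_log two_pos]
        rfl
      rw [h]
      exact flow2.comp (contDiff_id.prodMk contDiff_const)
    · have h : (fun p : ℝ × ℝ => ext (trs p.1) p.2) =
          (fun z : ℝ × ℝ => ex (fun t => t + z.2) z.1) ∘ (fun p : ℝ × ℝ => (p.2, p.1)) := by
        funext p
        rfl
      rw [h]
      exact flow1.comp (contDiff_snd.prodMk contDiff_fst)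
    · intro x hx
      exact ex_out _ hx
    · intro s x hx
      exact ex_out _ hx
    · intro s s'
      rw [← ext_mul]
      congr 1
      ext x
      rw [RelIso.mul_apply, trs_apply, trs_apply, trs_apply]
      ring
    · intro s hs x hx h
      rw [ext_apply, ex_in _ hx, trs_apply] at h
      have h2 : kp (X x + s) = kp (X x) := by rw [h, kp_X hx]
      have h3 := kp_mono.injective h2
      exact hs (by linarith)
    · intro s
      rw [mul_inv_eq_iff_eq_mul, ← ext_mul, ← ext_mul]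
      congr 1
      ext x
      rw [RelIso.mul_apply, RelIso.mul_apply, trs_apply, trs_apply, scl_apply, scl_apply]
      ring
  · intro t
    rw [ext_apply, ex_kp, scl_apply]
  · intro s t
    rw [ext_apply, ex_kp, trs_apply]

end Pool.Agent.W331.CR
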