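import Pool.Agent.W331.CR.Stm2

/-! Gluing of infinitely many diffeomorphisms with disjoint supports (by helper646). -/

set_option autoImplicit false

open Set Filter Topology
open scoped ContDiff

namespace Pool.Agent.W331.CR

namespace Glue

/-- the glued function -/
noncomputable def gl {ι : Type} (c d : ι → ℝ) (F : ι → (ℝ ≃o ℝ)) (x : ℝ) : ℝ :=
  open Classical in if h : ∃ i, x ∈ Ioo (c i) (d i) then F h.choose x else x

section

variable {ι : Type} {c d : ι → ℝ} {F : ι → (ℝ ≃o ℝ)}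
  (hd : ∀ i j, i ≠ j → Disjoint (Ioo (c i) (d i)) (Ioo (c j) (d j)))

include hd in
lemma gl_in {i : ι} {x : ℝ} (hx : x ∈ Ioo (c i) (d i)) : gl c d F x = F i x := by
  unfold gl
  have h : ∃ i, x ∈ Ioo (c i) (d i) := ⟨i, hx⟩
  rw [dif_pos h]
  have : h.choose = i := by
    by_contra hne
    exact Set.disjoint_left.1 (hd _ _ hne) h.choose_spec hx
  rw [this]

lemma gl_out {x : ℝ} (hx : ∀ i, x ∉ Ioo (c i) (d i)) : gl c d F x = x := by
  unfold gl
  rw [dif_neg]
  rintro ⟨i, hi⟩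
  exact hx i hi

lemma pres (hs : ∀ i, ∀ x, x ∉ Ioo (c i) (d i) → F i x = x) {i : ι} {x : ℝ}
    (hx : x ∈ Ioo (c i) (d i)) : F i x ∈ Ioo (c i) (d i) := by
  have h1 : F i (c i) = c i := hs i _ (fun h => lt_irrefl _ h.1)
  have h2 : F i (d i) = d i := hs i _ (fun h => lt_irrefl _ h.2)
  refine ⟨?_, ?_⟩
  · rw [← h1]
    exact (F i).strictMono hx.1
  · rw [← h2]
    exact (F i).strictMono hx.2

lemma symm_supp (hs : ∀ i, ∀ x, x ∉ Ioo (c i) (d i) → F i x = x) (i : ι) (x : ℝ)
    (hx : x ∉ Ioo (c i) (d i)) : (F i)⁻¹ x = x := by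
  apply (F i).injective
  rw [hs i x hx]
  exact (F i).apply_symm_apply x

include hd in
lemma gl_gl (hs : ∀ i, ∀ x, x ∉ Ioo (c i) (d i) → F i x = x) (x : ℝ) :
    gl c d F (gl c d (fun i => (F i)⁻¹) x) = x := by
  by_cases h : ∃ i, x ∈ Ioo (c i) (d i)
  · obtain ⟨i, hi⟩ := h
    rw [gl_in hd hi]
    have h2 : (F i)⁻¹ x ∈ Ioo (c i) (d i) :=
      pres (F := fun i => (F i)⁻¹) (fun i x hx => symm_supp hs i x hx) hi
    rw [gl_in hd h2]
    exact (F i).apply_symm_apply x
  · push Not at h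
    rw [gl_out h, gl_out h]

include hd in
lemma gl_mono (hs : ∀ i, ∀ x, x ∉ Ioo (c i) (d i) → F i x = x) : StrictMono (gl c d F) := by
  intro x y hxy
  by_cases h : ∃ i, x ∈ Ioo (c i) (d i)
  · obtain ⟨i, hi⟩ := h
    rw [gl_in hd hi]
    by_cases h' : ∃ j, y ∈ Ioo (c j) (d j)
    · obtain ⟨j, hj⟩ := h'
      rw [gl_in hd hj]
      by_cases hij : i = j
      · subst hij
        exact (F i).strictMono hxy
      · have hle : d i ≤ c j := by
          by_contra hcon
          push Not at hcon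
          have h1 : max (c i) (c j) < min (d i) (d j) := by
            rw [max_lt_iff, lt_min_iff, lt_min_iff]
            exact ⟨⟨hi.1.trans hi.2, (hi.1.trans hxy).trans hj.2⟩, hcon, hj.1.trans hj.2⟩
          obtain ⟨z, hz1, hz2⟩ := exists_between h1
          rw [max_lt_iff] at hz1
          rw [lt_min_iff] at hz2
          exact Set.disjoint_left.1 (hd i j hij) ⟨hz1.1, hz2.1⟩ ⟨hz1.2, hz2.2⟩
        exact ((pres hs hi).2.trans_le hle).trans (pres hs hj).1
    · push Not at h'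
      rw [gl_out h']
      have : d i ≤ y := by
        by_contra hcon
        push Not at hcon
        exact h' i ⟨hi.1.trans hxy, hcon⟩
      exact (pres hs hi).2.trans_le this
  · push Not at h
    rw [gl_out h]
    by_cases h' : ∃ j, y ∈ Ioo (c j) (d j)
    · obtain ⟨j, hj⟩ := h'
      rw [gl_in hd hj]
      have : x ≤ c j := by
        by_contra hcon
        push Not at hcon
        exact h j ⟨hcon, hxy.trans hj.2⟩
      exact this.trans_lt (pres hs hj).1
    · push Not at h'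
      rw [gl_out h']
      exact hxy

include hd in
lemma gl_tsum (hs : ∀ i, ∀ x, x ∉ Ioo (c i) (d i) → F i x = x) (x : ℝ) :
    gl c d F x - x = ∑' i, (F i x - x) := by
  by_cases h : ∃ i, x ∈ Ioo (c i) (d i)
  · obtain ⟨i, hi⟩ := h
    rw [gl_in hd hi, tsum_eq_single i]
    intro j hj
    have : x ∉ Ioo (c j) (d j) := fun hx => Set.disjoint_left.1 (hd j i hj) hx hi
    rw [hs j x this, sub_self]
  · push Not at h
    rw [gl_out h, sub_self]
    have : (fun i => F i x - x) = fun _ => 0 := by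
      funext i
      rw [hs i x (h i), sub_self]
    rw [this, tsum_zero]

/-- full glueing lemma, with the derivatives of the glued map and the formula for the inverse -/
theorem full [Countable ι] (k : ℕ) (B : ι → ℝ)
    (hd : ∀ i j, i ≠ j → Disjoint (Ioo (c i) (d i)) (Ioo (c j) (d j)))
    (hs : ∀ i, ∀ x, x ∉ Ioo (c i) (d i) → F i x = x) (hF : ∀ i, ContDiff ℝ ∞ (F i))
    (hB : Summable B) (hb : ∀ i, Bd k (B i) (fun x => F i x - x)) :
    ∃ G : ℝ ≃o ℝ, ContDiff ℝ k G ∧ (∀ x, G x = gl c d F x) ∧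
      (∀ x, (G⁻¹ : ℝ ≃o ℝ) x = gl c d (fun i => (F i)⁻¹) x) ∧
      ∀ r : ℕ, r ≤ k → ∀ x, iteratedDeriv r (fun x => G x - x) x =
        ∑' i, iteratedDeriv r (fun x => F i x - x) x := by
  have hsurj : Function.Surjective (gl c d F) := fun x => ⟨_, gl_gl hd hs x⟩
  let G : ℝ ≃o ℝ := StrictMono.orderIsoOfSurjective (gl c d F) (gl_mono hd hs) hsurj
  have hG : ∀ x, G x = gl c d F x := fun x => rfl
  have hfs : ∀ i, ContDiff ℝ k (fun x => F i x - x) := fun i =>
    ((hF i).sub contDiff_id).of_le (by exact_mod_cast le_top)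
  have hfs' : ∀ i, ContDiff ℝ ((k : ℕ∞) : WithTop ℕ∞) (fun x => F i x - x) := fun i => by
    exact_mod_cast hfs i
  have hbd : ∀ (r : ℕ) (i : ι) (x : ℝ), (r : ℕ∞) ≤ (k : ℕ∞) →
      ‖iteratedFDeriv ℝ r (fun x => F i x - x) x‖ ≤ B i := by
    intro r i x hr
    rw [norm_iteratedFDeriv_eq_norm_iteratedDeriv, Real.norm_eq_abs]
    exact hb i r (by exact_mod_cast hr) x
  have hsm : ContDiff ℝ ((k : ℕ∞) : WithTop ℕ∞) (fun x => ∑' i, (F i x - x)) :=
    contDiff_tsum hfs' (fun _ _ => hB) hbd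
  have hGs : (fun x => G x - x) = fun x => ∑' i, (F i x - x) := by
    funext x
    rw [hG]
    exact gl_tsum hd hs x
  have hGk : ContDiff ℝ k G := by
    have h1 : ContDiff ℝ k (fun x => (∑' i, (F i x - x)) + x) := by
      have : ContDiff ℝ k (fun x => ∑' i, (F i x - x)) := by exact_mod_cast hsm
      exact this.add contDiff_id
    have h2 : (G : ℝ → ℝ) = fun x => (∑' i, (F i x - x)) + x := by
      funext x
      rw [← congrFun hGs x]
      ring
    rw [h2]
    exact h1
  refine ⟨G, hGk, hG, ?_, ?_⟩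
  · intro x
    apply G.injective
    have e1 : G ((G⁻¹ : ℝ ≃o ℝ) x) = x := G.apply_symm_apply x
    rw [e1, hG, gl_gl hd hs]
  · intro r hr x
    have hr' : ((r : ℕ∞) : ℕ∞) ≤ (k : ℕ∞) := by exact_mod_cast hr
    rw [hGs, iteratedDeriv_eq_iteratedFDeriv]
    have h3 := congrFun (iteratedFDeriv_tsum (𝕜 := ℝ) hfs' (fun _ _ => hB) hbd hr') x
    rw [h3, ContinuousMultilinearMap.tsum_eval]
    · rfl
    · exact Summable.of_norm_bounded hB fun i => hbd r i x hr'

end

end Glue

theorem s_glue : S_glue := by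
  intro k ι _ c d F B hd hs hF hB hb
  obtain ⟨G, hG, hGx, -, -⟩ := Glue.full k B hd hs hF hB hb
  refine ⟨G, hG, ?_, ?_⟩
  · intro i x hx
    rw [hGx, Glue.gl_in hd hx]
  · intro x hx
    rw [hGx, Glue.gl_out hx]

end Pool.Agent.W331.CR
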