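import Pool.Agent.W331.CR.TLip

/-! Growth of the `C^k` norms of the pieces of `f` (`S_growth`, `S_growaff`). -/

set_option autoImplicit false

open Set Filter Topology
open scoped ContDiff

namespace Pool.Agent.W331.CR
namespace GR

open TL

/-- smooth diffeomorphisms of the line -/
def SD : Subgroup (ℝ ≃o ℝ) where
  carrier := {F | ContDiff ℝ ∞ F ∧ ContDiff ℝ ∞ (F⁻¹ : ℝ ≃o ℝ)}
  mul_mem' := by
    rintro F G ⟨h2, h3⟩ ⟨h5, h6⟩
    refine ⟨h2.comp h5, ?_⟩
    rw [mul_inv_rev]; exact h6.comp h3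
  one_mem' := ⟨contDiff_id, contDiff_id⟩
  inv_mem' := by
    rintro F ⟨h2, h3⟩
    exact ⟨h3, by rw [inv_inv]; exact h2⟩

/-- homeomorphisms supported in `[-R,R]` -/
def SP (R : ℝ) : Subgroup (ℝ ≃o ℝ) where
  carrier := {F | ∀ x, x ∉ Icc (-R) R → F x = x}
  mul_mem' := by
    intro F G h1 h4 x hx
    rw [RelIso.mul_apply, h4 x hx, h1 x hx]
  one_mem' := fun _ _ => rfl
  inv_mem' := by
    intro F h1 x hx
    apply F.injective
    rw [h1 x hx]
    exact F.apply_symm_apply x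

lemma a_SD {M : ℕ} {lam : ℝ} {a b : ℝ ≃o ℝ} {L R : ℝ} (hm : Model M lam a b L R) : a ∈ SD :=
  ⟨hm.a_sm, hm.a_sm'⟩

lemma b_SD {M : ℕ} {lam : ℝ} {a b : ℝ ≃o ℝ} {L R : ℝ} (hm : Model M lam a b L R) : b ∈ SD :=
  ⟨hm.b_sm, hm.b_sm'⟩

lemma a_SP {M : ℕ} {lam : ℝ} {a b : ℝ ≃o ℝ} {L R : ℝ} (hm : Model M lam a b L R) : a ∈ SP R := by
  intro x hx
  have h1 := hm.L_pos
  have h2 := hm.L_lt
  by_cases h : x ≤ 0
  · exact hm.a_left x h
  · refine hm.a_right x ?_
    by_contra h3
    exact hx ⟨by linarith, by linarith⟩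

lemma b_SP {M : ℕ} {lam : ℝ} {a b : ℝ ≃o ℝ} {L R : ℝ} (hm : Model M lam a b L R) : b ∈ SP R := by
  intro x hx
  have h1 := hm.L_pos
  have h2 := hm.L_lt
  by_cases h : L ≤ x
  · exact hm.b_right x h
  · refine hm.b_left x ?_
    by_contra h3
    exact hx ⟨by linarith, by linarith⟩

lemma conj_uniq {κ : ℝ → ℝ} {F G G' : ℝ ≃o ℝ} (h : IsConj κ F G) (h' : IsConj κ F G') :
    G = G' := by
  ext x
  by_cases hx : x ∈ range κ
  · obtain ⟨t, rfl⟩ := hx
    rw [h.inside, h'.inside]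
  · rw [h.outside x hx, h'.outside x hx]

lemma conj_inv {κ : ℝ → ℝ} {F G : ℝ ≃o ℝ} (h : IsConj κ F G) : IsConj κ F⁻¹ G⁻¹ := by
  constructor
  · intro t
    apply G.injective
    have e1 : G ((G⁻¹ : ℝ ≃o ℝ) (κ t)) = κ t := G.apply_symm_apply _
    have e2 : F ((F⁻¹ : ℝ ≃o ℝ) t) = t := F.apply_symm_apply _
    rw [e1, h.inside, e2]
  · intro x hx
    apply G.injective
    have e1 : G ((G⁻¹ : ℝ ≃o ℝ) x) = x := G.apply_symm_apply _
    rw [e1, h.outside x hx]

lemma y_smooth {h : ℝ ≃o ℝ} {y : ℝ → (ℝ ≃o ℝ)} (fp : FlatPair h y) (s : ℝ) :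
    ContDiff ℝ ∞ (y s) :=
  fp.y_sm.comp (contDiff_const.prodMk contDiff_id)

lemma y_zero {h : ℝ ≃o ℝ} {y : ℝ → (ℝ ≃o ℝ)} (fp : FlatPair h y) : y 0 = 1 := by
  have := fp.y_add 0 0
  rw [add_zero] at this
  exact (mul_eq_left.1 this.symm)

lemma y_inv {h : ℝ ≃o ℝ} {y : ℝ → (ℝ ≃o ℝ)} (fp : FlatPair h y) (s : ℝ) : (y s)⁻¹ = y (-s) := by
  rw [inv_eq_iff_mul_eq_one, ← fp.y_add, add_neg_cancel, y_zero fp]

/-- conjugates of the flow are smooth diffeomorphisms -/
lemma G_SD (hC : S_conj) {h : ℝ ≃o ℝ} {y : ℝ → (ℝ ≃o ℝ)} (fp : FlatPair h y) {κ : ℝ → ℝ}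
    {α β : ℝ} (hκ : IsCoord κ α β) {s : ℝ} {G : ℝ ≃o ℝ} (hG : IsConj κ (y s) G) : G ∈ SD := by
  have key : ∀ (s : ℝ) (G : ℝ ≃o ℝ), IsConj κ (y s) G → ContDiff ℝ ∞ G := by
    intro s G hG
    obtain ⟨G', h1, h2⟩ := hC κ α β hκ (y s)
    rw [conj_uniq hG h1]
    refine h2 ∞ le_rfl (y_smooth fp s) ⟨0, 1, fun x hx => ?_⟩
    exact fp.y_supp s x (fun hx' => hx (Ioo_subset_Icc_self hx'))
  refine ⟨key s G hG, key (-s) G⁻¹ ?_⟩
  rw [← y_inv fp]
  exact conj_inv hG

/-- growth for a general element -/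
lemma growth_gen (hT : S_T) (hF : S_conjflow) (hC : S_conj) {h : ℝ ≃o ℝ} {y : ℝ → (ℝ ≃o ℝ)}
    (fp : FlatPair h y) {κ : ℝ → ℝ} {α β : ℝ} (hκ : IsCoord κ α β) (k : ℕ) (v : ℝ ≃o ℝ)
    (hv : v ∈ SD) {R : ℝ} (hvR : v ∈ SP R) : ∃ C Q : ℝ, 1 ≤ C ∧ 1 ≤ Q ∧
  ∀ (i : ℕ) (s : ℝ) (G : ℝ ≃o ℝ), IsConj κ (y s) G → |s| * (C * Q ^ i) ≤ 1 →
    Bd k (|s| * (C * Q ^ i)) (fun x => (v ^ i * G * (v ^ i)⁻¹) x - x) := by
  obtain ⟨C, hC0, hCk⟩ := hF h y fp κ α β hκ k
  obtain ⟨Q, hQ1, hQ⟩ := hT v hv.1 hv.2 ⟨-R, R, hvR⟩ k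
  refine ⟨max C 1, Q, le_max_right _ _, hQ1, ?_⟩
  have hC1 : (1:ℝ) ≤ max C 1 := le_max_right _ _
  intro i s G hG
  induction i with
  | zero =>
    intro hs
    rw [pow_zero, mul_one] at hs ⊢
    have hs1 : |s| ≤ 1 := by
      have := abs_nonneg s
      nlinarith
    have e1 := hCk s hs1 G hG
    have e2 : (v ^ 0 * G * (v ^ 0)⁻¹ : ℝ ≃o ℝ) = G := by simp
    rw [e2]
    refine bd_mono e1 le_rfl ?_
    rw [mul_comm]
    exact mul_le_mul_of_nonneg_left (le_max_left _ _) (abs_nonneg _)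
  | succ i ih =>
    intro hs
    have hs0 : |s| * (max C 1 * Q ^ i) ≤ 1 := by
      refine le_trans ?_ hs
      have h1 : Q ^ i ≤ Q ^ (i + 1) := pow_le_pow_right₀ hQ1 (Nat.le_succ i)
      gcongr
    have e1 := ih hs0
    have hH : (v ^ i * G * (v ^ i)⁻¹ : ℝ ≃o ℝ) ∈ SD :=
      SD.mul_mem (SD.mul_mem (SD.pow_mem hv i) (G_SD hC fp hκ hG)) (SD.inv_mem (SD.pow_mem hv i))
    have e2 := hQ _ hH.1 _ hs0 e1
    have e3 : (v ^ (i + 1) * G * (v ^ (i + 1))⁻¹ : ℝ ≃o ℝ) =
        v * (v ^ i * G * (v ^ i)⁻¹) * v⁻¹ := by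
      rw [pow_succ']
      group
    rw [e3]
    refine bd_mono e2 le_rfl (le_of_eq ?_)
    ring

lemma scale (k : ℕ) : ∀ (u : ℝ → ℝ) (A c lam q : ℝ), ContDiff ℝ ∞ u → 0 < lam → lam < 1 →
    Bd k A u → Bd k (|c| * (1 / lam) ^ k * A) (fun x => c * u (q + (x - q) / lam)) := by
  induction k with
  | zero =>
    intro u A c lam q hu hl hl1 h
    rw [bd_zero_iff]
    intro x
    rw [abs_mul, pow_zero, mul_one]
    exact mul_le_mul_of_nonneg_left (bd_val h _) (abs_nonneg _)
  | succ k ih =>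
    intro u A c lam q hu hl hl1 h
    have hA := bd_nonneg h
    have h1l : 1 ≤ 1 / lam := by
      rw [le_div_iff₀ hl]; linarith
    rw [bd_succ_iff]
    refine ⟨fun x => ?_, ?_⟩
    · rw [abs_mul]
      have h1 : |u (q + (x - q) / lam)| ≤ A := bd_val h _
      have h2 : 1 ≤ (1 / lam) ^ (k + 1) := one_le_pow₀ h1l
      calc |c| * |u (q + (x - q) / lam)| ≤ |c| * A :=
            mul_le_mul_of_nonneg_left h1 (abs_nonneg _)
        _ = |c| * 1 * A := by ring
        _ ≤ |c| * (1 / lam) ^ (k + 1) * A := by gcongr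
    · have hd : deriv (fun x => c * u (q + (x - q) / lam)) =
          fun x => (c / lam) * deriv u (q + (x - q) / lam) := by
        funext x
        have h1 : HasDerivAt (fun x => q + (x - q) / lam) (1 / lam) x :=
          (((hasDerivAt_id x).sub_const q).div_const lam).const_add q
        have h2 : HasDerivAt (fun x => u (q + (x - q) / lam))
            (deriv u (q + (x - q) / lam) * (1 / lam)) x :=
          ((smooth_diff hu (q + (x - q) / lam)).hasDerivAt).comp x h1
        rw [(h2.const_mul c).deriv]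
        ring
      rw [hd]
      have e1 := ih (deriv u) A (c / lam) lam q (smooth_deriv hu) hl hl1 (bd_succ_iff.1 h).2
      refine bd_mono e1 le_rfl (le_of_eq ?_)
      rw [abs_div, abs_of_pos hl]
      ring

lemma kap_append (a b : ℝ ≃o ℝ) (u w : List Bool) :
    kap a b (u ++ w) = kap a b u * kap a b w := by
  induction u with
  | nil => simp [kap]
  | cons c u ih =>
    cases c
    · simp only [List.cons_append, kap, ih, mul_assoc]
    · simp only [List.cons_append, kap, ih, mul_assoc]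

lemma kap_false (a b : ℝ ≃o ℝ) (m : ℕ) : kap a b (List.replicate m false) = a ^ m := by
  induction m with
  | zero => simp [kap]
  | succ m ih => rw [List.replicate_succ, kap, ih, pow_succ']

lemma kap_true (a b : ℝ ≃o ℝ) (m : ℕ) : kap a b (List.replicate m true) = b ^ m := by
  induction m with
  | zero => simp [kap]
  | succ m ih => rw [List.replicate_succ, kap, ih, pow_succ']

lemma kap_pow (a b : ℝ ≃o ℝ) (m i : ℕ) :
    kap a b ((List.replicate i (List.replicate m false ++ List.replicate m true)).flatten) =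
      (a ^ m * b ^ m) ^ i := by
  induction i with
  | zero => simp [kap]
  | succ i ih =>
    rw [List.replicate_succ, List.flatten_cons, kap_append, kap_append, ih, kap_false, kap_true,
      pow_succ']

/-- a smooth function vanishing outside a compact interval has bounded derivatives -/
lemma bdd_supp {u : ℝ → ℝ} (hu : ContDiff ℝ ∞ u) {A B : ℝ} (h : ∀ x, x ∉ Icc A B → u x = 0)
    (k : ℕ) : ∃ C : ℝ, Bd k C u := by
  have key : ∀ r : ℕ, ∃ C : ℝ, ∀ x, |iteratedDeriv r u x| ≤ C := by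
    intro r
    have hc : Continuous (iteratedDeriv r u) :=
      hu.continuous_iteratedDeriv r (by exact_mod_cast le_top)
    obtain ⟨C, hC⟩ := (isCompact_Icc (a := A) (b := B)).exists_bound_of_continuousOn
      hc.continuousOn
    refine ⟨max C 0, fun x => ?_⟩
    by_cases hx : x ∈ Icc A B
    · exact (hC x hx).trans (le_max_left _ _)
    · have h1 : u =ᶠ[𝓝 x] fun _ => (0:ℝ) := by
        have h2 : ∀ᶠ y in 𝓝 x, y ∉ Icc A B := isClosed_Icc.isOpen_compl.mem_nhds hx
        filter_upwards [h2] with y hy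
        exact h y hy
      rw [h1.iteratedDeriv_eq]
      refine le_trans ?_ (le_max_right _ _)
      rw [iteratedDeriv_const]
      split_ifs <;> simp
  choose C hC using key
  refine ⟨∑ r ∈ Finset.range (k + 1), |C r|, fun r hr x => ?_⟩
  refine (hC r x).trans ((le_abs_self _).trans ?_)
  exact Finset.single_le_sum (f := fun r => |C r|) (fun i _ => abs_nonneg _)
    (Finset.mem_range.2 (by omega))

end GR

open TL GR

theorem s_growth : S_T → S_conjflow → S_conj → S_growth := by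
  intro hT hF hC h y fp M lam a b L R hm κ hκ k j
  exact growth_gen hT hF hC fp hκ k _
    (SD.mul_mem (SD.pow_mem (a_SD hm) _) (SD.pow_mem (b_SD hm) _))
    ((SP R).mul_mem ((SP R).pow_mem (a_SP hm) _) ((SP R).pow_mem (b_SP hm) _))

theorem s_growaff : S_T → S_conjflow → S_conj → S_nest → S_growaff := by
  intro hT hF hC hN h y fp M lam a b L R hm hl0 hl1 κ hκ k m hm1 hmM hlk E hE
  set v : ℝ ≃o ℝ := a ^ m * b ^ m with hvdef
  have hv : v ∈ SD := SD.mul_mem (SD.pow_mem (a_SD hm) _) (SD.pow_mem (b_SD hm) _)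
  have hvR : v ∈ SP R := (SP R).mul_mem ((SP R).pow_mem (a_SP hm) _) ((SP R).pow_mem (b_SP hm) _)
  obtain ⟨C, Q, hC1, hQ1, hgr⟩ := growth_gen hT hF hC fp hκ k v hv hvR
  obtain ⟨q, hq, w, hw, haff⟩ := hm.aff m hm1 hmM
  rw [← hvdef] at haff
  have hL := hm.L_pos
  have hLR := hm.L_lt
  -- the ends of the basic gap
  have haL : 0 < a L := by
    have h1 : a 0 = 0 := hm.a_left 0 le_rfl
    have h2 : a 0 < a L := a.strictMono hL
    linarith
  have hb0 : b 0 < L := by
    have h1 : b L = L := hm.b_right L le_rfl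
    have h2 : b 0 < b L := b.strictMono hL
    linarith
  have hgap := hm.gap
  have vq : v q = q := by
    have := haff q (by simpa using hw.le)
    simpa using this
  have viq : ∀ i : ℕ, (v ^ i) q = q := by
    intro i
    induction i with
    | zero => rfl
    | succ i ih => rw [pow_succ', RelIso.mul_apply, ih, vq]
  -- shrinking
  obtain ⟨n, hn⟩ := hN M lam a b L R hm w hw
  have hsh : ∀ i : ℕ, n ≤ i → q - w ≤ (v ^ i) 0 ∧ (v ^ i) L ≤ q + w := by
    intro i hi
    have h1 := hn ((List.replicate i (List.replicate m false ++ List.replicate m true)).flatten)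
      (by
        simp only [List.length_flatten, List.map_replicate, List.length_append,
          List.length_replicate, List.sum_replicate, smul_eq_mul]
        nlinarith)
    rw [kap_pow, ← hvdef] at h1
    have h2 : (v ^ i) 0 < q := by
      conv_rhs => rw [← viq i]
      exact (v ^ i).strictMono hq.1
    have h3 : q < (v ^ i) L := by
      conv_lhs => rw [← viq i]
      exact (v ^ i).strictMono hq.2
    constructor <;> linarith
  -- supports
  have hsup : ∀ (i : ℕ) (s : ℝ) (G : ℝ ≃o ℝ), IsConj κ (y s) G → ∀ x,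
      x ∉ Ioo ((v ^ i) 0) ((v ^ i) L) → (v ^ i * G * (v ^ i)⁻¹) x = x := by
    intro i s G hG x hx
    have h1 : ((v ^ i)⁻¹ : ℝ ≃o ℝ) x ∉ range κ := by
      intro h2
      rw [hκ.rng] at h2
      apply hx
      have h3 : (v ^ i) (((v ^ i)⁻¹ : ℝ ≃o ℝ) x) = x := (v ^ i).apply_symm_apply x
      rw [← h3]
      exact ⟨(v ^ i).strictMono (by linarith [h2.1]), (v ^ i).strictMono (by linarith [h2.2])⟩
    simp only [RelIso.mul_apply]
    rw [hG.outside _ h1]
    exact (v ^ i).apply_symm_apply x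
  -- smoothness of the conjugates
  have hHS : ∀ (i : ℕ) (s : ℝ) (G : ℝ ≃o ℝ), IsConj κ (y s) G →
      (v ^ i * G * (v ^ i)⁻¹ : ℝ ≃o ℝ) ∈ SD := fun i s G hG =>
    SD.mul_mem (SD.mul_mem (SD.pow_mem hv i) (G_SD hC fp hκ hG)) (SD.inv_mem (SD.pow_mem hv i))
  -- recursion
  have hrec : ∀ (i : ℕ) (s : ℝ) (G : ℝ ≃o ℝ), n ≤ i → IsConj κ (y s) G → ∀ x,
      (v ^ (i + 1) * G * (v ^ (i + 1))⁻¹) x - x =
        lam * ((v ^ i * G * (v ^ i)⁻¹) (q + (x - q) / lam) - (q + (x - q) / lam)) := by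
    intro i s G hi hG x
    obtain ⟨hs1, hs2⟩ := hsh i hi
    set H : ℝ ≃o ℝ := v ^ i * G * (v ^ i)⁻¹ with hH
    have e3 : (v ^ (i + 1) * G * (v ^ (i + 1))⁻¹ : ℝ ≃o ℝ) = v * H * v⁻¹ := by
      rw [pow_succ', hH]
      group
    rw [e3]
    set z : ℝ := q + (x - q) / lam with hz
    have hzx : q + lam * (z - q) = x := by
      rw [hz]; field_simp; ring
    have hfix : ∀ t, t ∉ Ioo (q - w) (q + w) → H t = t := by
      intro t ht
      refine hsup i s G hG t (fun h1 => ht ⟨by linarith [h1.1], by linarith [h1.2]⟩)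
    by_cases hx : |z - q| ≤ w
    · have hvz : v z = x := by rw [haff z hx, hzx]
      have hvx : (v⁻¹ : ℝ ≃o ℝ) x = z := by
        apply v.injective
        rw [hvz]
        exact v.apply_symm_apply x
      have hz2 := abs_le.1 hx
      have hHz : |H z - q| ≤ w := by
        have h1 : H (q - w) = q - w := hfix _ (fun h => lt_irrefl _ h.1)
        have h2 : H (q + w) = q + w := hfix _ (fun h => lt_irrefl _ h.2)
        have h3 : H (q - w) ≤ H z := H.monotone (by linarith)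
        have h4 : H z ≤ H (q + w) := H.monotone (by linarith)
        rw [abs_le]
        constructor <;> linarith
      simp only [RelIso.mul_apply]
      rw [hvx, haff _ hHz]
      linarith
    · have hHz : H z = z := by
        apply hfix
        intro h1
        apply hx
        rw [abs_le]
        constructor <;> linarith [h1.1, h1.2]
      rw [hHz, sub_self, mul_zero, sub_eq_zero]
      have h1 : H ((v⁻¹ : ℝ ≃o ℝ) x) = (v⁻¹ : ℝ ≃o ℝ) x := by
        apply hfix
        intro h2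
        apply hx
        have h3 := haff ((v⁻¹ : ℝ ≃o ℝ) x) (by
          rw [abs_le]; constructor <;> linarith [h2.1, h2.2])
        have h4 : v ((v⁻¹ : ℝ ≃o ℝ) x) = x := v.apply_symm_apply x
        rw [h4] at h3
        have h5 : z = (v⁻¹ : ℝ ≃o ℝ) x := by
          have h6 : (x - q) / lam = (v⁻¹ : ℝ ≃o ℝ) x - q := by
            rw [div_eq_iff hl0.ne']; linarith
          rw [hz, h6]; ring
        rw [h5, abs_le]
        constructor <;> linarith [h2.1, h2.2]
      simp only [RelIso.mul_apply]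
      rw [h1]
      exact v.apply_symm_apply x
  -- bounds for small indices
  have hsmall : ∀ i : ℕ, ∃ D : ℝ, ∀ (s : ℝ) (G : ℝ ≃o ℝ), |s| = 1 / 2 ^ (E * i) →
      IsConj κ (y s) G → Bd k D (fun x => (v ^ i * G * (v ^ i)⁻¹) x - x) := by
    intro i
    have h1 : ∀ s : ℝ, ∃ D : ℝ, ∀ G : ℝ ≃o ℝ, IsConj κ (y s) G →
        Bd k D (fun x => (v ^ i * G * (v ^ i)⁻¹) x - x) := by
      intro s
      obtain ⟨G', h1, -⟩ := hC κ _ _ hκ (y s)
      have h2 : ContDiff ℝ ∞ (fun x => (v ^ i * G' * (v ^ i)⁻¹) x - x) :=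
        (hHS i s G' h1).1.sub contDiff_id
      obtain ⟨D, hD⟩ := bdd_supp h2 (A := (v ^ i) 0) (B := (v ^ i) L) (fun x hx => by
        rw [hsup i s G' h1 x (fun h => hx (Ioo_subset_Icc_self h)), sub_self]) k
      refine ⟨D, fun G hG => ?_⟩
      rw [conj_uniq hG h1]
      exact hD
    obtain ⟨D1, hD1⟩ := h1 (1 / 2 ^ (E * i))
    obtain ⟨D2, hD2⟩ := h1 (-(1 / 2 ^ (E * i)))
    refine ⟨max D1 D2, fun s G hs hG => ?_⟩
    rcases abs_choice s with h | h
    · rw [h] at hs
      subst hs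
      exact bd_mono (hD1 G hG) le_rfl (le_max_left _ _)
    · rw [h] at hs
      have hs' : s = -(1 / 2 ^ (E * i)) := by linarith
      subst hs'
      exact bd_mono (hD2 G hG) le_rfl (le_max_right _ _)
  choose D hD using hsmall
  -- large indices
  set C' : ℝ := C * Q ^ n with hC'
  have hC'1 : 1 ≤ C' := by
    have : 1 ≤ Q ^ n := one_le_pow₀ hQ1
    nlinarith
  have hstep : ∀ (s : ℝ) (G : ℝ ≃o ℝ), IsConj κ (y s) G → |s| * C' ≤ 1 → ∀ p : ℕ,
      Bd k ((1 / lam ^ k) ^ p * (|s| * C'))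
        (fun x => (v ^ (n + p) * G * (v ^ (n + p))⁻¹) x - x) := by
    intro s G hG hs p
    induction p with
    | zero => simpa using hgr n s G hG hs
    | succ p ih =>
      have h1 : ContDiff ℝ ∞ (fun x => (v ^ (n + p) * G * (v ^ (n + p))⁻¹) x - x) :=
        (hHS (n + p) s G hG).1.sub contDiff_id
      have h2 := scale k _ _ lam lam q h1 hl0 hl1 ih
      have h3 : (fun x => (v ^ (n + (p + 1)) * G * (v ^ (n + (p + 1)))⁻¹) x - x) =
          fun x => lam * ((v ^ (n + p) * G * (v ^ (n + p))⁻¹) (q + (x - q) / lam) -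
            (q + (x - q) / lam)) := by
        funext x
        exact hrec (n + p) s G (by omega) hG x
      rw [h3]
      refine bd_mono h2 le_rfl ?_
      rw [abs_of_pos hl0, pow_succ']
      have h4 : 0 ≤ (1 / lam) ^ k * ((1 / lam ^ k) ^ p * (|s| * C')) := by positivity
      have h5 : (1 / lam) ^ k = 1 / lam ^ k := by rw [div_pow, one_pow]
      calc lam * (1 / lam) ^ k * ((1 / lam ^ k) ^ p * (|s| * C'))
          = lam * ((1 / lam) ^ k * ((1 / lam ^ k) ^ p * (|s| * C'))) := by ring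
        _ ≤ 1 * ((1 / lam) ^ k * ((1 / lam ^ k) ^ p * (|s| * C'))) :=
            mul_le_mul_of_nonneg_right hl1.le h4
        _ = 1 / lam ^ k * (1 / lam ^ k) ^ p * (|s| * C') := by rw [h5]; ring
  -- the index from which `2 ^ (-E i) C' ≤ 1`
  obtain ⟨i1, hi1⟩ := pow_unbounded_of_one_lt C' (one_lt_two)
  set ρ : ℝ := 1 / lam ^ k / 2 with hρ
  have hlkpos : 0 < lam ^ k := pow_pos hl0 k
  have hlkle : lam ^ k ≤ 1 := pow_le_one₀ hl0.le hl1.le
  have hρ0 : 0 ≤ ρ := by positivity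
  have hρ1 : ρ < 1 := by
    rw [hρ, div_div, div_lt_one (by positivity)]
    linarith
  refine ⟨fun i => (if i < max n i1 then |D i| else 0) + C' * ρ ^ i, ?_, ?_⟩
  · refine Summable.add ?_ ((summable_geometric_of_lt_one hρ0 hρ1).mul_left C')
    refine summable_of_ne_finset_zero (s := Finset.range (max n i1)) (fun i hi => ?_)
    rw [if_neg]
    simpa using hi
  · intro i s G hs hG
    by_cases hi : i < max n i1
    · refine bd_mono (hD i s G hs hG) le_rfl ?_
      simp only [hi, if_true]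
      have : 0 ≤ C' * ρ ^ i := by positivity
      linarith [le_abs_self (D i)]
    · simp only [hi, if_false, zero_add]
      have hni : n ≤ i := by
        have := le_max_left n i1
        omega
      have hi1i : i1 ≤ i := by
        have := le_max_right n i1
        omega
      obtain ⟨p, rfl⟩ := Nat.exists_eq_add_of_le hni
      have hp2 : (2:ℝ) ^ (n + p) ≤ 2 ^ (E * (n + p)) :=
        pow_le_pow_right₀ one_le_two (Nat.le_mul_of_pos_left _ hE)
      have hs2 : |s| ≤ 1 / 2 ^ (n + p) := by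
        rw [hs]
        exact one_div_le_one_div_of_le (by positivity) hp2
      have hs1 : |s| * C' ≤ 1 := by
        have h1 : C' ≤ 2 ^ (n + p) := hi1.le.trans (pow_le_pow_right₀ one_le_two hi1i)
        calc |s| * C' ≤ 1 / 2 ^ (n + p) * 2 ^ (n + p) := by gcongr
          _ = 1 := by field_simp
      refine bd_mono (hstep s G hG hs1 p) le_rfl ?_
      have h1lk : 1 ≤ 1 / lam ^ k := by
        rw [le_div_iff₀ hlkpos]; linarith
      calc (1 / lam ^ k) ^ p * (|s| * C')
          ≤ (1 / lam ^ k) ^ (n + p) * (1 / 2 ^ (n + p) * C') := by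
            gcongr
            omega
        _ = C' * ρ ^ (n + p) := by
            rw [hρ, div_pow (1 / lam ^ k) 2]
            ring

end Pool.Agent.W331.CR
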