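import Pool.Agent.W331.CR.Stm2

/-! From equivariance to a homomorphism. -/

set_option autoImplicit false

open Set Filter Topology Function
open scoped ContDiff

namespace Pool.Agent.W331.CR

namespace Hom

/-- two maps with the same values on the points of `ι` are equal -/
lemma uniq {X : Type} {ι : X → ℝ} {c d : ℝ} (hcl : Icc c d ⊆ closure (range ι))
    {F G : ℝ ≃o ℝ} (hF : ∀ x, x ∉ Ioo c d → F x = x) (hG : ∀ x, x ∉ Ioo c d → G x = x)
    (h : ∀ x, F (ι x) = G (ι x)) : F = G := by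
  ext x
  by_cases hx : x ∈ Ioo c d
  · have h1 : x ∈ closure (range ι) := hcl ⟨hx.1.le, hx.2.le⟩
    have h2 : EqOn F G (range ι) := by
      rintro _ ⟨z, rfl⟩
      exact h z
    exact h2.closure F.continuous G.continuous h1
  · rw [hF x hx, hG x hx]

/-- the affine chart -/
noncomputable def aff (c d : ℝ) (h : c < d) : ℝ ≃o ℝ where
  toFun x := 1 / 2 + (x - (c + d) / 2) / (4 * (d - c))
  invFun y := (c + d) / 2 + (y - 1 / 2) * (4 * (d - c))
  left_inv := by
    intro x
    have : d - c ≠ 0 := (sub_pos.2 h).ne'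
    field_simp
    ring
  right_inv := by
    intro y
    have : d - c ≠ 0 := (sub_pos.2 h).ne'
    field_simp
    ring
  map_rel_iff' := by
    intro x y
    have : 0 < 4 * (d - c) := by linarith
    change 1 / 2 + (x - (c + d) / 2) / (4 * (d - c)) ≤ 1 / 2 + (y - (c + d) / 2) / (4 * (d - c)) ↔ x ≤ y
    rw [add_le_add_iff_left, div_le_div_iff_of_pos_right this]
    constructor <;> intro h' <;> linarith

lemma aff_apply (c d : ℝ) (h : c < d) (x : ℝ) :
    aff c d h x = 1 / 2 + (x - (c + d) / 2) / (4 * (d - c)) := rfl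

lemma aff_symm_apply (c d : ℝ) (h : c < d) (y : ℝ) :
    (aff c d h)⁻¹ y = (c + d) / 2 + (y - 1 / 2) * (4 * (d - c)) := rfl

lemma aff_contDiff (c d : ℝ) (h : c < d) (r : WithTop ℕ∞) : ContDiff ℝ r (aff c d h) := by
  have : (aff c d h : ℝ → ℝ) = fun x => 1 / 2 + (x - (c + d) / 2) / (4 * (d - c)) := rfl
  rw [this]
  fun_prop

lemma aff_symm_contDiff (c d : ℝ) (h : c < d) (r : WithTop ℕ∞) :
    ContDiff ℝ r ((aff c d h)⁻¹ : ℝ ≃o ℝ) := by
  have h2 : (((aff c d h)⁻¹ : ℝ ≃o ℝ) : ℝ → ℝ) =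
    fun y => (c + d) / 2 + (y - 1 / 2) * (4 * (d - c)) := rfl
  rw [h2]
  fun_prop

end Hom

open Hom in
theorem s_hom : S_hom := by
  intro X ι S r c d hcd hinj hcl hS
  classical
  -- the group of permutations which extend
  let T : Subgroup (Equiv.Perm X) :=
    { carrier := {γ | ∃ F : ℝ ≃o ℝ, ContDiff ℝ r F ∧ ContDiff ℝ r (F⁻¹ : ℝ ≃o ℝ) ∧
        (∀ x, x ∉ Ioo c d → F x = x) ∧ ∀ x, F (ι x) = ι (γ x)}
      mul_mem' := by
        rintro γ δ ⟨F, h1, h2, h3, h4⟩ ⟨G, k1, k2, k3, k4⟩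
        refine ⟨F * G, h1.comp k1, ?_, fun x hx => ?_, fun x => ?_⟩
        · rw [mul_inv_rev]; exact k2.comp h2
        · rw [RelIso.mul_apply, k3 x hx, h3 x hx]
        · rw [RelIso.mul_apply, k4, h4]; rfl
      one_mem' := ⟨1, contDiff_id, contDiff_id, fun _ _ => rfl, fun _ => rfl⟩
      inv_mem' := by
        rintro γ ⟨F, h1, h2, h3, h4⟩
        refine ⟨F⁻¹, h2, by rw [inv_inv]; exact h1, fun x hx => ?_, fun x => ?_⟩
        · apply F.injective
          rw [h3 x hx]
          exact F.apply_symm_apply x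
        · apply F.injective
          rw [h4]
          have : γ (γ⁻¹ x) = x := by simp
          rw [this]
          exact F.apply_symm_apply _ }
  have hT : Subgroup.closure S ≤ T := (Subgroup.closure_le T).2 hS
  have hex : ∀ γ : Subgroup.closure S, ∃ F : ℝ ≃o ℝ, ContDiff ℝ r F ∧
      ContDiff ℝ r (F⁻¹ : ℝ ≃o ℝ) ∧ (∀ x, x ∉ Ioo c d → F x = x) ∧
      ∀ x, F (ι x) = ι ((γ : Equiv.Perm X) x) := fun γ => hT γ.2
  choose F h1 h2 h3 h4 using hex
  have hmul : ∀ γ δ, F (γ * δ) = F γ * F δ := by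
    intro γ δ
    refine uniq hcl (h3 _) (fun x hx => ?_) (fun x => ?_)
    · rw [RelIso.mul_apply, h3 δ x hx, h3 γ x hx]
    · rw [RelIso.mul_apply, h4, h4, h4]
      rfl
  set A := aff c d hcd with hA
  have hmem : ∀ γ, A * F γ * A⁻¹ ∈ CS r := by
    intro γ
    refine ⟨fun x hx => ?_, ?_, ?_⟩
    · rw [RelIso.mul_apply, RelIso.mul_apply]
      have hx' : (A⁻¹ : ℝ ≃o ℝ) x ∉ Ioo c d := by
        intro hx'
        apply hx
        rw [hA, aff_symm_apply] at hx'
        have hdc : 0 < d - c := sub_pos.2 hcd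
        constructor
        · have h5 := hx'.1
          by_contra hcon
          push Not at hcon
          nlinarith
        · have h5 := hx'.2
          by_contra hcon
          push Not at hcon
          nlinarith
      rw [h3 γ _ hx']
      exact A.apply_symm_apply x
    · exact ((aff_contDiff c d hcd r).comp (h1 γ)).comp (aff_symm_contDiff c d hcd r)
    · have : (A * F γ * A⁻¹)⁻¹ = A * (F γ)⁻¹ * A⁻¹ := by group
      rw [this]
      exact ((aff_contDiff c d hcd r).comp (h2 γ)).comp (aff_symm_contDiff c d hcd r)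
  refine ⟨MonoidHom.mk' (fun γ => ⟨A * F γ * A⁻¹, hmem γ⟩) ?_, ?_⟩
  · intro γ δ
    apply Subtype.ext
    change A * F (γ * δ) * A⁻¹ = (A * F γ * A⁻¹) * (A * F δ * A⁻¹)
    rw [hmul]
    group
  · intro γ δ hγδ
    have e1 : A * F γ * A⁻¹ = A * F δ * A⁻¹ := congrArg Subtype.val hγδ
    have e2 : F γ = F δ := by
      have := mul_right_cancel e1
      exact mul_left_cancel this
    apply Subtype.ext
    ext x
    apply hinj
    rw [← h4, ← h4, e2]

end Pool.Agent.W331.CR
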