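import Pool.Agent.W331.CR.Stm

/-! Hyperbolicity of `a ^ j! * b ^ j!` near a linked pair of components. -/

set_option autoImplicit false

open Set Filter Topology
open scoped ContDiff

namespace Pool.Agent.W331.CR

namespace HypAux

lemma comm_tr {U : Set ℝ} {F : ℝ ≃o ℝ} (h : Nice U F) : Commute tr F := by
  show tr * F = F * tr
  ext x
  simp only [RelIso.mul_apply, tr_apply]
  exact (h.per x).symm

lemma mem_U {U : Set ℝ} {F : ℝ ≃o ℝ} (h : Nice U F) {p q : ℝ} (hc : IsComp F p q) :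
    Ioo p q ⊆ U := by
  intro t ht
  by_contra hU
  exact hc.ne t ht (h.fixE ⟨p, hc.left⟩ t hU)

lemma pow_fix {F : ℝ ≃o ℝ} {p : ℝ} (h : F p = p) (n : ℕ) : (F ^ n) p = p := by
  induction n with
  | zero => rfl
  | succ n ih => rw [pow_succ, RelIso.mul_apply, h, ih]

/-- the key step for two elements -/
lemma core {U : Set ℝ} {H : Subgroup (ℝ ≃o ℝ)} (hS : Setup U H) {α β : ℝ ≃o ℝ}
    (hα : α ∈ H) (hβ : β ∈ H) {c d c' d' : ℝ} (hcd : Icc c d ⊆ U)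
    (h1 : ∃ N : ℕ, ∀ n : ℕ, N ≤ n → ∀ t ∈ Icc c d, (β ^ n) t ∈ Icc c' d')
    (h2 : ∃ N : ℕ, ∀ n : ℕ, N ≤ n → ∀ t ∈ Icc c' d', (α ^ n) t ∈ Icc c d)
    (h3 : ∃ N : ℕ, ∀ n : ℕ, N ≤ n → ∀ t ∈ Icc c d, deriv (β ^ n : ℝ ≃o ℝ) t ≤ 1)
    (h4 : ∃ N : ℕ, ∀ n : ℕ, N ≤ n → ∀ t ∈ Icc c' d', deriv (α ^ n : ℝ ≃o ℝ) t ≤ 1 / 2) :
    ∃ N : ℕ, ∀ s r : ℕ, N ≤ s → N ≤ r →
      (∀ t ∈ Icc c d, (α ^ s * β ^ r) t ∈ Icc c d) ∧
      (∀ t ∈ Icc c d, deriv (α ^ s * β ^ r : ℝ ≃o ℝ) t ≤ 1 / 2) := by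
  obtain ⟨N1, h1⟩ := h1
  obtain ⟨N2, h2⟩ := h2
  obtain ⟨N3, h3⟩ := h3
  obtain ⟨N4, h4⟩ := h4
  refine ⟨N1 + N2 + N3 + N4, fun s r hs hr => ⟨?_, ?_⟩⟩
  · intro t ht
    rw [RelIso.mul_apply]
    exact h2 s (by omega) _ (h1 r (by omega) t ht)
  · intro t ht
    have hbU : Nice U (β ^ r) := hS.nice _ (H.pow_mem hβ r)
    have haU : Nice U (α ^ s) := hS.nice _ (H.pow_mem hα s)
    have htU : t ∈ U := hcd ht
    have htU' : (β ^ r) t ∈ U := (hbU.mem t).2 htU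
    have e : ((α ^ s * β ^ r : ℝ ≃o ℝ) : ℝ → ℝ) = (α ^ s : ℝ ≃o ℝ) ∘ (β ^ r : ℝ ≃o ℝ) := by
      funext z; rfl
    rw [e, deriv_comp t (haU.diff _ htU') (hbU.diff _ htU)]
    have k1 := h3 r (by omega) t ht
    have k2 := h4 s (by omega) _ (h1 r (by omega) t ht)
    have k3 := hbU.pos t htU
    have k4 := haU.pos _ htU'
    nlinarith

end HypAux

open HypAux in
theorem s_hyp : S_contr → S_push → S_hyp := by
  intro hcontr hpush U H hS a b y ha hb hy p q x hc hx n₁ n₂ m₁ m₂ A₀ A₁ B₀ B₁ hn₁ hn₂ hA hB hcase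
  have hnA := hS.nice a ha
  have hnB := hS.nice b hb
  have hα : tr ^ m₁ * a ^ n₁ ∈ H := H.mul_mem (H.zpow_mem hS.tr_mem _) (H.pow_mem ha _)
  have hβ : tr ^ m₂ * b ^ n₂ ∈ H := H.mul_mem (H.zpow_mem hS.tr_mem _) (H.pow_mem hb _)
  -- `y x` lies in the component
  have hyx : y x ∈ Ioo p q := by
    constructor
    · have := y.strictMono hx.1
      rwa [hc.left] at this
    · have := y.strictMono hx.2
      rwa [hc.right] at this
  -- it suffices to treat `α ^ s * β ^ r`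
  suffices hmain : ∃ (c d : ℝ), Icc c d ⊆ U ∧ x ∈ Icc c d ∧ y x ∈ Icc c d ∧
      (p ∈ Icc c d ∨ q ∈ Icc c d) ∧ ∃ N : ℕ, ∀ s r : ℕ, N ≤ s → N ≤ r →
      (∀ t ∈ Icc c d, ((tr ^ m₁ * a ^ n₁) ^ s * (tr ^ m₂ * b ^ n₂) ^ r) t ∈ Icc c d) ∧
      (∀ t ∈ Icc c d,
        deriv ((tr ^ m₁ * a ^ n₁) ^ s * (tr ^ m₂ * b ^ n₂) ^ r : ℝ ≃o ℝ) t ≤ 1 / 2) by
    obtain ⟨c, d, k1, k2, k3, k4, N, hN⟩ := hmain
    -- choose `j`
    let j : ℕ := (N + 1) * n₁ * n₂ + 1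
    have hj1 : 1 ≤ j := Nat.le_add_left _ _
    have hdiv1 : n₁ ∣ Nat.factorial j :=
      Nat.dvd_factorial (by omega) (by
        have : n₁ ≤ (N + 1) * n₁ * n₂ := by nlinarith [Nat.zero_le N, Nat.mul_le_mul hn₁ hn₂]
        omega)
    have hdiv2 : n₂ ∣ Nat.factorial j :=
      Nat.dvd_factorial (by omega) (by
        have : n₂ ≤ (N + 1) * n₁ * n₂ := by
          have : 1 ≤ (N + 1) * n₁ := Nat.mul_pos (Nat.succ_pos _) hn₁
          nlinarith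
        omega)
    obtain ⟨s, hs⟩ := hdiv1
    obtain ⟨r, hr⟩ := hdiv2
    have hself : j ≤ Nat.factorial j := Nat.self_le_factorial j
    have hNs : N ≤ s := by
      by_contra hlt
      push Not at hlt
      have h1 : n₁ * s ≤ n₁ * N := Nat.mul_le_mul_left _ hlt.le
      have h2 : n₁ * N ≤ (N + 1) * n₁ * n₂ := by
        calc n₁ * N ≤ n₁ * (N + 1) := Nat.mul_le_mul_left _ (Nat.le_succ _)
          _ = (N + 1) * n₁ * 1 := by ring
          _ ≤ (N + 1) * n₁ * n₂ := Nat.mul_le_mul_left _ hn₂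
      omega
    have hNr : N ≤ r := by
      by_contra hlt
      push Not at hlt
      have h1 : n₂ * r ≤ n₂ * N := Nat.mul_le_mul_left _ hlt.le
      have h2 : n₂ * N ≤ (N + 1) * n₁ * n₂ := by
        calc n₂ * N ≤ n₂ * (N + 1) := Nat.mul_le_mul_left _ (Nat.le_succ _)
          _ = (N + 1) * 1 * n₂ := by ring
          _ ≤ (N + 1) * n₁ * n₂ := Nat.mul_le_mul_right _ (Nat.mul_le_mul_left _ hn₁)
      omega
    have ca : Commute (tr ^ m₁) (a ^ n₁) := ((comm_tr hnA).zpow_left m₁).pow_right n₁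
    have cb : Commute (tr ^ m₂) (b ^ n₂) := ((comm_tr hnB).zpow_left m₂).pow_right n₂
    have ea : (tr ^ m₁ * a ^ n₁) ^ s = tr ^ (m₁ * s) * a ^ (Nat.factorial j) := by
      rw [ca.mul_pow, ← pow_mul, ← hs, zpow_mul, zpow_natCast]
    have eb : (tr ^ m₂ * b ^ n₂) ^ r = tr ^ (m₂ * r) * b ^ (Nat.factorial j) := by
      rw [cb.mul_pow, ← pow_mul, ← hr, zpow_mul, zpow_natCast]
    have cab : Commute (tr ^ (m₂ * r)) (a ^ (Nat.factorial j)) :=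
      ((comm_tr hnA).zpow_left _).pow_right _
    have e : (tr ^ m₁ * a ^ n₁) ^ s * (tr ^ m₂ * b ^ n₂) ^ r =
        tr ^ (m₁ * s + m₂ * r) * (a ^ (Nat.factorial j) * b ^ (Nat.factorial j)) := by
      rw [ea, eb, zpow_add]
      have := cab.eq
      calc tr ^ (m₁ * s) * a ^ (Nat.factorial j) * (tr ^ (m₂ * r) * b ^ (Nat.factorial j))
          = tr ^ (m₁ * s) * (a ^ (Nat.factorial j) * tr ^ (m₂ * r)) * b ^ (Nat.factorial j) := by
            simp only [mul_assoc]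
        _ = tr ^ (m₁ * s) * (tr ^ (m₂ * r) * a ^ (Nat.factorial j)) * b ^ (Nat.factorial j) := by
            rw [this]
        _ = _ := by simp only [mul_assoc]
    obtain ⟨q1, q2⟩ := hN s r hNs hNr
    rw [e] at q1 q2
    exact ⟨j, m₁ * s + m₂ * r, c, d, hj1, k1, k2, k3, k4, q1, q2⟩
  have hαn := hS.nice _ hα
  have hβn := hS.nice _ hβ
  generalize (tr ^ m₁ * a ^ n₁) = α at *
  generalize (tr ^ m₂ * b ^ n₂) = β at *
  rcases hcase with ⟨g1, g2, g3, g4, g5, g6⟩ | ⟨g1, g2, g3, g4, g5, g6⟩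
  · -- case 1
    set M : ℝ := max x (y x) with hM
    have hxM : x ≤ M := le_max_left _ _
    have hyM : y x ≤ M := le_max_right _ _
    have hMq : M < q := max_lt hx.2 hyx.2
    have hpM : p < M := lt_of_lt_of_le hx.1 hxM
    have hsub : Icc A₀ ((M + q) / 2) ⊆ Ioo B₀ B₁ := by
      intro t ht
      exact ⟨by linarith [ht.1], by linarith [ht.2]⟩
    have hU : Icc A₀ ((M + q) / 2) ⊆ U := hsub.trans (mem_U hβn hB)
    refine ⟨A₀, (M + q) / 2, hU, ⟨by linarith [hx.1], by linarith⟩,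
      ⟨by linarith [hyx.1], by linarith⟩, Or.inl ⟨g2, by linarith⟩, ?_⟩
    have hA₀ : A₀ ∈ Ioo B₀ B₁ := ⟨g1, by linarith⟩
    have hB₁ : B₁ ∈ Ioo A₀ A₁ := ⟨by linarith, g4⟩
    refine core hS hα hβ (c' := (A₀ + B₁) / 2) (d' := B₁) hU ?_ ?_ ?_ ?_
    · obtain ⟨N, hN⟩ := (hpush β B₀ B₁ hB A₀ hA₀).1 (g6 A₀ hA₀) ((A₀ + B₁) / 2) (by linarith [hA₀.2])
      refine ⟨N, fun n hn t ht => ⟨?_, ?_⟩⟩
      · exact (hN n hn).le.trans ((β ^ n).monotone ht.1)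
      · have := (β ^ n).monotone (show t ≤ B₁ by linarith [ht.2])
        rwa [pow_fix hB.right] at this
    · obtain ⟨N, hN⟩ := (hpush α A₀ A₁ hA B₁ hB₁).2 (g5 B₁ hB₁) ((M + q) / 2) (by linarith)
      refine ⟨N, fun n hn t ht => ⟨?_, ?_⟩⟩
      · have := (α ^ n).monotone (show A₀ ≤ t by linarith [ht.1, hB₁.1])
        rwa [pow_fix hA.left] at this
      · exact ((α ^ n).monotone ht.2).trans (hN n hn).le
    · exact hcontr U H hS β hβ B₀ B₁ hB _ _ g1 (by linarith) (by linarith) 1 one_pos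
    · exact hcontr U H hS α hα A₀ A₁ hA _ _ (by linarith [hB₁.1]) (by linarith [hB₁.1]) g4
        (1 / 2) (by norm_num)
  · -- case 2
    set M : ℝ := min x (y x) with hM
    have hxM : M ≤ x := min_le_left _ _
    have hyM : M ≤ y x := min_le_right _ _
    have hMp : p < M := lt_min hx.1 hyx.1
    have hqM : M < q := lt_of_le_of_lt hxM hx.2
    have hsub : Icc ((M + p) / 2) A₁ ⊆ Ioo B₀ B₁ := by
      intro t ht
      exact ⟨by linarith [ht.1], by linarith [ht.2]⟩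
    have hU : Icc ((M + p) / 2) A₁ ⊆ U := hsub.trans (mem_U hβn hB)
    refine ⟨(M + p) / 2, A₁, hU, ⟨by linarith, by linarith [hx.2]⟩,
      ⟨by linarith, by linarith [hyx.2]⟩, Or.inr ⟨by linarith, g3⟩, ?_⟩
    have hB₀ : B₀ ∈ Ioo A₀ A₁ := ⟨g1, by linarith⟩
    have hA₁ : A₁ ∈ Ioo B₀ B₁ := ⟨by linarith, g4⟩
    refine core hS hα hβ (c' := B₀) (d' := (B₀ + A₁) / 2) hU ?_ ?_ ?_ ?_
    · obtain ⟨N, hN⟩ := (hpush β B₀ B₁ hB A₁ hA₁).2 (g6 A₁ hA₁) ((B₀ + A₁) / 2) (by linarith [hA₁.1])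
      refine ⟨N, fun n hn t ht => ⟨?_, ?_⟩⟩
      · have := (β ^ n).monotone (show B₀ ≤ t by linarith [ht.1])
        rwa [pow_fix hB.left] at this
      · exact ((β ^ n).monotone ht.2).trans (hN n hn).le
    · obtain ⟨N, hN⟩ := (hpush α A₀ A₁ hA B₀ hB₀).1 (g5 B₀ hB₀) ((M + p) / 2) (by linarith)
      refine ⟨N, fun n hn t ht => ⟨?_, ?_⟩⟩
      · exact (hN n hn).le.trans ((α ^ n).monotone ht.1)
      · have := (α ^ n).monotone (show t ≤ A₁ by linarith [ht.2, hA₁.1])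
        rwa [pow_fix hA.right] at this
    · exact hcontr U H hS β hβ B₀ B₁ hB _ _ (by linarith) (by linarith) g4 1 one_pos
    · exact hcontr U H hS α hα A₀ A₁ hA _ _ g1 (by linarith [hA₁.1]) (by linarith [hA₁.1])
        (1 / 2) (by norm_num)

end Pool.Agent.W331.CR
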