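import Pool.Agent.W331.CR.Dist

/-! The core of Kopell's lemma. -/

set_option autoImplicit false

open Set Filter Topology

namespace Pool.Agent.W331.CR

open _root_.Pool.Agent.W331.CR.Dist in
theorem s_kopell : S_kopell := by
  intro U H hS z y hz hy hcomm p q hc Λ hΛ
  obtain ⟨V, hV0, hV⟩ := (hS.nice z hz).lip
  have hsub : Ioo p q ⊆ U := comp_subset hS hy hc
  have hcn : ∀ n j : ℕ, ∀ x : ℝ, (z ^ n) ((y ^ j) x) = (y ^ j) ((z ^ n) x) := by
    intro n j x
    have := (hcomm.pow_pow n j).eq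
    have h2 := congrArg (fun F : ℝ ≃o ℝ => F x) this
    simpa only [RelIso.mul_apply] using h2
  have ht := tendsto_zero (a := fun n => (z ^ n) q - (z ^ n) p)
    (fun n => sub_nonneg.2 ((z ^ n).monotone hc.lt.le)) hΛ
  -- bound for the derivatives of the powers of `y`
  have hbound : ∀ j : ℕ, ∀ x ∈ Ioo p q, |Real.log (deriv (y ^ j : ℝ ≃o ℝ) x)| ≤ V * Λ := by
    intro j x hx
    have hyj := H.pow_mem hy j
    obtain ⟨W, hW0, hW⟩ := (hS.nice _ hyj).lip
    have hyx : (y ^ j) x ∈ Ioo p q := comp_mem hc j hx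
    have hn : ∀ n : ℕ, |Real.log (deriv (y ^ j : ℝ ≃o ℝ) x)| ≤
        V * Λ + W * ((z ^ n) q - (z ^ n) p) := by
      intro n
      have hzn := H.pow_mem hz n
      have hlt : (z ^ n) p < (z ^ n) q := (z ^ n).strictMono hc.lt
      have hsubn : Ioo ((z ^ n) p) ((z ^ n) q) ⊆ U := Ioo_image hS hzn hsub
      -- chain rule
      have e1 := log_deriv_mul hS hzn hyj (hsub hx)
      have e2 := log_deriv_mul hS hyj hzn (hsub hx)
      have e3 : (z ^ n * y ^ j : ℝ ≃o ℝ) = y ^ j * z ^ n := (hcomm.pow_pow n j).eq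
      rw [e3] at e1
      have hd := distortion_abs hS hz hV0 hV hsub hx hyx n (hΛ n)
      -- mean value theorem
      obtain ⟨ξ, hξ1, hξ2⟩ := exists_deriv_eq_slope (y ^ j : ℝ ≃o ℝ) hlt
        ((y ^ j).continuous.continuousOn)
        (fun u hu => ((hS.nice _ hyj).diff u (hsubn hu)).differentiableWithinAt)
      have hfp : (y ^ j) ((z ^ n) p) = (z ^ n) p := by rw [← hcn, pow_fix hc.left]
      have hfq : (y ^ j) ((z ^ n) q) = (z ^ n) q := by rw [← hcn, pow_fix hc.right]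
      rw [hfp, hfq, div_self (by linarith)] at hξ2
      have hzx : (z ^ n) x ∈ Ioo ((z ^ n) p) ((z ^ n) q) :=
        ⟨(z ^ n).strictMono hx.1, (z ^ n).strictMono hx.2⟩
      have hlog : |Real.log (deriv (y ^ j : ℝ ≃o ℝ) ((z ^ n) x))| ≤
          W * ((z ^ n) q - (z ^ n) p) := by
        have hξ3 : Real.log (deriv (y ^ j : ℝ ≃o ℝ) ξ) = 0 := by rw [hξ2, Real.log_one]
        rcases le_total ((z ^ n) x) ξ with h | h
        · have := hW _ _ h (fun u hu => hsubn ⟨lt_of_lt_of_le hzx.1 hu.1,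
            lt_of_le_of_lt hu.2 hξ1.2⟩)
          rw [hξ3, sub_zero] at this
          refine this.trans (mul_le_mul_of_nonneg_left ?_ hW0)
          linarith [hξ1.2, hzx.1]
        · have := hW _ _ h (fun u hu => hsubn ⟨lt_of_lt_of_le hξ1.1 hu.1,
            lt_of_le_of_lt hu.2 hzx.2⟩)
          rw [hξ3, zero_sub, abs_neg] at this
          refine this.trans (mul_le_mul_of_nonneg_left ?_ hW0)
          linarith [hξ1.1, hzx.2]
      have e4 : Real.log (deriv (y ^ j : ℝ ≃o ℝ) x) = Real.log (deriv (y ^ j : ℝ ≃o ℝ) ((z ^ n) x)) +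
          (Real.log (deriv (z ^ n : ℝ ≃o ℝ) x) - Real.log (deriv (z ^ n : ℝ ≃o ℝ) ((y ^ j) x))) := by
        linarith
      rw [e4]
      refine (abs_add_le _ _).trans ?_
      linarith
    have hlim : Tendsto (fun n : ℕ => V * Λ + W * ((z ^ n) q - (z ^ n) p)) atTop
        (𝓝 (V * Λ + W * 0)) := (ht.const_mul W).const_add (V * Λ)
    rw [mul_zero, add_zero] at hlim
    exact ge_of_tendsto' hlim hn
  -- contradiction
  obtain ⟨e, he⟩ := push hc
  set s := (2 * p + q) / 3 with hs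
  set t := (p + 2 * q) / 3 with htt
  have hlt := hc.lt
  have hsI : s ∈ Ioo p q := ⟨by rw [hs]; linarith, by rw [hs]; linarith⟩
  have htI : t ∈ Ioo p q := ⟨by rw [htt]; linarith, by rw [htt]; linarith⟩
  have hst : s < t := by rw [hs, htt]; linarith
  have hlow : ∀ j : ℕ, Real.exp (-(V * Λ)) * (t - s) ≤ (y ^ j) t - (y ^ j) s := by
    intro j
    have hyj := H.pow_mem hy j
    have hIcc : Icc s t ⊆ Ioo p q := fun u hu => ⟨lt_of_lt_of_le hsI.1 hu.1,
      lt_of_le_of_lt hu.2 htI.2⟩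
    obtain ⟨ξ, hξ1, hξ2⟩ := exists_deriv_eq_slope (y ^ j : ℝ ≃o ℝ) hst
      ((y ^ j).continuous.continuousOn)
      (fun u hu => ((hS.nice _ hyj).diff u (hsub (hIcc ⟨hu.1.le, hu.2.le⟩))).differentiableWithinAt)
    have hξI : ξ ∈ Ioo p q := hIcc ⟨hξ1.1.le, hξ1.2.le⟩
    have hb := (abs_le.1 (hbound j ξ hξI)).1
    have hpos := (hS.nice _ hyj).pos ξ (hsub hξI)
    have hexp : Real.exp (-(V * Λ)) ≤ deriv (y ^ j : ℝ ≃o ℝ) ξ := by
      have := Real.exp_le_exp.2 hb
      rwa [Real.exp_log hpos] at this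
    rw [hξ2, le_div_iff₀ (by linarith)] at hexp
    exact hexp
  have hlim : Tendsto (fun j : ℕ => (y ^ j) t - (y ^ j) s) atTop (𝓝 (e - e)) :=
    (he t htI).sub (he s hsI)
  rw [sub_self] at hlim
  have := ge_of_tendsto' hlim hlow
  have hpos : 0 < Real.exp (-(V * Λ)) * (t - s) := by
    have := Real.exp_pos (-(V * Λ))
    have : 0 < t - s := by linarith
    positivity
  linarith

end Pool.Agent.W331.CR
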