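import Pool.Agent.W331.CR.Comp

/-! Components are periodic modulo one under commuting elements (CR-KPRIME). -/

set_option autoImplicit false

open Set Filter Topology

namespace Pool.Agent.W331.CR

open Pool.Agent.W331.CR.Comp

theorem s_kprime : S_len → S_kopell → S_kprime := by
  intro hlen hkop U H hS z y hz hy hzy p q hpq
  by_contra hcon
  push Not at hcon
  have hyper := (hS.nice y hy).per
  have hzper := (hS.nice z hz).per
  have hcomp : ∀ n : ℕ, IsComp y ((z ^ n) p) ((z ^ n) q) := fun n => map_pow hzy hpq n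
  refine hkop U H hS z y hz hy hzy p q hpq 2 fun N => ?_
  refine hlen (fun n => (z ^ n) p) (fun n => (z ^ n) q) (fun n => (hcomp n).lt.le)
    (fun n => len_le hyper (hcomp n)) ?_ N
  -- the case n > m
  have key : ∀ (m k : ℕ) (l : ℤ), Disjoint (Ioo ((z ^ (m + (k + 1))) p) ((z ^ (m + (k + 1))) q))
      (Ioo ((z ^ m) p + l) ((z ^ m) q + l)) := by
    intro m k l
    rcases eq_or_disjoint (hcomp (m + (k + 1))) (shift hyper (hcomp m) l) with ⟨h1, h2⟩ | h
    · exfalso
      rw [pow_add_apply, ← per_int (per_pow hzper m)] at h1 h2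
      have e1 := (z ^ m).injective h1
      have e2 := (z ^ m).injective h2
      exact hcon (k + 1) (Nat.succ_pos k) l e1 e2
    · exact h
  intro n m hnm l
  rcases lt_or_gt_of_ne hnm with h | h
  · obtain ⟨k, rfl⟩ := Nat.exists_eq_add_of_lt h
    have h1 := key n k (-l)
    rw [Set.disjoint_left] at h1 ⊢
    intro x hx hx'
    refine h1 (a := x - l) ?_ ?_
    · rw [show n + k + 1 = n + (k + 1) by ring] at hx'
      exact ⟨by linarith [hx'.1], by linarith [hx'.2]⟩
    · push_cast
      exact ⟨by linarith [hx.1], by linarith [hx.2]⟩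
  · obtain ⟨k, rfl⟩ := Nat.exists_eq_add_of_lt h
    exact key m k l

end Pool.Agent.W331.CR
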