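import Pool.Agent.W331.CR.Comp

/-! Total length of intervals which are disjoint modulo one (CR-LEN). -/

set_option autoImplicit false

open Set Filter Topology MeasureTheory

namespace Pool.Agent.W331.CR

theorem s_len : S_len := by
  intro c d hcd hd1 hdis N
  set c' : ℕ → ℝ := fun n => c n - ⌊c n⌋ with hc'
  set d' : ℕ → ℝ := fun n => d n - ⌊c n⌋ with hd'
  have hsub : ∀ n, Ioo (c' n) (d' n) ⊆ Ioo 0 2 := by
    intro n x hx
    have h1 : 0 ≤ c' n := by simp only [hc']; linarith [Int.floor_le (c n)]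
    have h2 : d' n ≤ 2 := by
      simp only [hd']; linarith [Int.lt_floor_add_one (c n), hd1 n]
    exact ⟨h1.trans_lt hx.1, hx.2.trans_le h2⟩
  have hdis' : ∀ n m, n ≠ m → Disjoint (Ioo (c' n) (d' n)) (Ioo (c' m) (d' m)) := by
    intro n m hnm
    have h := hdis n m hnm (⌊c n⌋ - ⌊c m⌋)
    rw [Set.disjoint_left] at h ⊢
    intro x hx hx'
    refine h (a := x + ⌊c n⌋) ?_ ?_
    · simp only [hc', hd', mem_Ioo] at hx
      exact ⟨by linarith [hx.1], by linarith [hx.2]⟩
    · simp only [hc', hd', mem_Ioo] at hx'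
      push_cast
      exact ⟨by linarith [hx'.1], by linarith [hx'.2]⟩
  have hvol : volume (⋃ n ∈ Finset.range N, Ioo (c' n) (d' n)) =
      ∑ n ∈ Finset.range N, volume (Ioo (c' n) (d' n)) :=
    measure_biUnion_finset (fun n _ m _ hnm => hdis' n m hnm) fun n _ => measurableSet_Ioo
  have hle : volume (⋃ n ∈ Finset.range N, Ioo (c' n) (d' n)) ≤ volume (Ioo (0:ℝ) 2) :=
    measure_mono (iUnion₂_subset fun n _ => hsub n)
  rw [hvol, Real.volume_Ioo] at hle
  have e : ∑ n ∈ Finset.range N, volume (Ioo (c' n) (d' n)) =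
      ENNReal.ofReal (∑ n ∈ Finset.range N, (d n - c n)) := by
    rw [ENNReal.ofReal_sum_of_nonneg fun n _ => by linarith [hcd n]]
    refine Finset.sum_congr rfl fun n _ => ?_
    rw [Real.volume_Ioo]
    congr 1
    simp only [hc', hd']
    ring
  rw [e] at hle
  have := (ENNReal.ofReal_le_ofReal_iff (by norm_num)).1 hle
  linarith

end Pool.Agent.W331.CR
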