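import Pool.Agent.W331.CR.Stm2

/-! CR-LIFT: translation numbers of lifts. -/

set_option autoImplicit false

open Set Filter Topology

namespace Pool.Agent.W331.CR

namespace Lift

/-- a periodic order isomorphism as a `CircleDeg1Lift` -/
def toC (F : ℝ ≃o ℝ) (hF : ∀ x, F (x + 1) = F x + 1) : CircleDeg1Lift :=
  ⟨⟨F, F.monotone⟩, hF⟩

lemma toC_apply (F : ℝ ≃o ℝ) (hF : ∀ x, F (x + 1) = F x + 1) (x : ℝ) : toC F hF x = F x := rfl

/-- integer valued continuous functions are constant -/
lemma const_int (D : ℝ → ℝ) (hD : Continuous D) (n : ℝ → ℤ) (hn : ∀ x, D x = n x) (x y : ℝ) :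
    n x = n y := by
  have h1 : Continuous n := by
    rw [Int.isClosedEmbedding_coe_real.isInducing.continuous_iff]
    have : ((fun z : ℤ => (z : ℝ)) ∘ n) = D := funext fun x => (hn x).symm
    rw [this]
    exact hD
  exact PreconnectedSpace.constant inferInstance h1

lemma tau_add (G : CircleDeg1Lift) (n : ℤ) :
    CircleDeg1Lift.translationNumber
      ((CircleDeg1Lift.translate (Multiplicative.ofAdd (n : ℝ)) : CircleDeg1Lift) * G) =
      n + CircleDeg1Lift.translationNumber G := by
  rw [CircleDeg1Lift.translationNumber_mul_of_commute, CircleDeg1Lift.translationNumber_translate]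
  show _ = _
  ext x
  simp only [CircleDeg1Lift.mul_apply, CircleDeg1Lift.translate_apply]
  rw [CircleDeg1Lift.map_int_add]

lemma tr_zpow (m : ℤ) (x : ℝ) : (tr ^ m) x = x + m := by
  have hnat : ∀ (k : ℕ) (x : ℝ), (tr ^ k) x = x + k := by
    intro k
    induction k with
    | zero => intro x; simp
    | succ k ih =>
      intro x
      rw [pow_succ, RelIso.mul_apply, ih, tr_apply]
      push_cast
      ring
  rcases Int.eq_nat_or_neg m with ⟨k, rfl | rfl⟩
  · rw [zpow_natCast, hnat]
    simp
  · rw [zpow_neg, zpow_natCast]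
    have h1 : (tr ^ k) (((tr ^ k)⁻¹ : ℝ ≃o ℝ) x) = x := (tr ^ k).apply_symm_apply x
    rw [hnat] at h1
    push_cast
    linarith

lemma per_int (F : ℝ ≃o ℝ) (hF : ∀ x, F (x + 1) = F x + 1) (x : ℝ) (m : ℤ) :
    F (x + m) = F x + m := (toC F hF).map_add_int x m

end Lift

open Lift CircleDeg1Lift

theorem s_fix : S_fix := by
  intro h y hh hy hr
  have hsemi : Function.Semiconj (toC h hh) (toC y hy) ⇑(toC y hy ^ 2 : CircleDeg1Lift) := by
    intro x
    have h1 : h * y = y ^ 2 * h := by
      rw [← hr]
      group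
    have h2 := congrArg (fun F : ℝ ≃o ℝ => F x) h1
    simp only [RelIso.mul_apply, pow_two] at h2
    rw [pow_two, CircleDeg1Lift.mul_apply]
    exact h2
  have h1 := translationNumber_eq_of_semiconj hsemi
  rw [translationNumber_pow] at h1
  have h2 : translationNumber (toC y hy) = ((0 : ℤ) : ℝ) := by
    push_cast at h1 ⊢
    linarith
  have hcont : Continuous (toC y hy) := y.continuous
  rw [translationNumber_eq_int_iff _ hcont] at h2
  obtain ⟨x, hx⟩ := h2
  refine ⟨x, ?_⟩
  rw [Int.cast_zero, add_zero] at hx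
  exact hx

theorem s_liftcomm : S_liftcomm := by
  intro F G hF hG hn
  choose n hn using hn
  have hconst : ∀ x, n x = n 0 := fun x => by
    refine const_int (fun x => F (G x) - G (F x)) ?_ n (fun x => ?_) x 0
    · exact (F.continuous.comp G.continuous).sub (G.continuous.comp F.continuous)
    · rw [hn x]
      ring
  have hsemi : Function.Semiconj (toC F hF) (toC G hG)
      ⇑((translate (Multiplicative.ofAdd ((n 0 : ℤ) : ℝ)) : CircleDeg1Lift) * toC G hG :
        CircleDeg1Lift) := by
    intro x
    rw [CircleDeg1Lift.mul_apply, translate_apply]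
    show F (G x) = _ + G (F x)
    rw [hn x, hconst x, add_comm]
  have h1 := translationNumber_eq_of_semiconj hsemi
  rw [tau_add] at h1
  have h2 : ((n 0 : ℤ) : ℝ) = 0 := by linarith
  ext x
  show F (G x) = G (F x)
  rw [hn x, hconst x, h2, add_zero]

theorem s_liftbs : S_liftbs := by
  intro h y hh hy hn
  choose n hn using hn
  have hconst : ∀ x, n x = n 0 := fun x => by
    refine const_int (fun x => h (y x) - y (y (h x))) ?_ n (fun x => ?_) x 0
    · exact (h.continuous.comp y.continuous).sub
        (y.continuous.comp (y.continuous.comp h.continuous))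
    · rw [hn x]
      ring
  refine ⟨n 0, ?_⟩
  rw [mul_inv_eq_iff_eq_mul]
  ext x
  rw [pow_two]
  simp only [RelIso.mul_apply]
  rw [tr_zpow, tr_zpow, tr_zpow, per_int h hh, per_int y hy, hn x, hconst x]

end Pool.Agent.W331.CR
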