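import Pool.Agent.W331.CR.Stm

/-! CR-LINK: linked components. -/

set_option autoImplicit false

open Set Filter Topology

namespace Pool.Agent.W331.CR

namespace Link

lemma tr_zpow (m : ℤ) (x : ℝ) : (tr ^ m) x = x + m := by
  induction m using Int.induction_on generalizing x with
  | zero => simp
  | succ i ih =>
    rw [zpow_add_one, RelIso.mul_apply, ih, tr_apply]
    push_cast
    ring
  | pred i ih =>
    rw [zpow_sub_one, RelIso.mul_apply, ih]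
    have h : (tr⁻¹ : ℝ ≃o ℝ) x = x - 1 := by
      apply tr.injective
      rw [RelIso.apply_inv_self, tr_apply]
      ring
    rw [h]
    push_cast
    ring

lemma per_int {F : ℝ ≃o ℝ} (h : ∀ x, F (x + 1) = F x + 1) (m : ℤ) (x : ℝ) : F (x + m) = F x + m := by
  induction m using Int.induction_on generalizing x with
  | zero => simp
  | succ i ih =>
    have := ih (x + 1)
    rw [h] at this
    push_cast at *
    rw [show x + ((i : ℝ) + 1) = x + 1 + i by ring, this]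
    ring
  | pred i ih =>
    have := ih (x - 1)
    have h2 := h (x - 1)
    rw [sub_add_cancel] at h2
    push_cast at *
    rw [show x + (-(i : ℝ) - 1) = x - 1 + -i by ring, this]
    linarith

lemma comm_tr {F : ℝ ≃o ℝ} (h : ∀ x, F (x + 1) = F x + 1) (m : ℤ) : Commute (tr ^ m) F := by
  apply RelIso.ext
  intro x
  rw [RelIso.mul_apply, RelIso.mul_apply, tr_zpow, tr_zpow, per_int h]

lemma pow_fix {F : ℝ ≃o ℝ} {x : ℝ} (h : F x = x) (n : ℕ) : (F ^ n) x = x := by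
  induction n with
  | zero => simp
  | succ n ih => rw [pow_succ, RelIso.mul_apply, h, ih]

lemma pow_lt {F : ℝ ≃o ℝ} {x : ℝ} (h : F x < x) (n : ℕ) : (F ^ (n + 1)) x < x := by
  induction n with
  | zero => simpa using h
  | succ n ih =>
    rw [pow_succ', RelIso.mul_apply]
    exact (F.strictMono ih).trans h

lemma lt_pow {F : ℝ ≃o ℝ} {x : ℝ} (h : x < F x) (n : ℕ) : x < (F ^ (n + 1)) x := by
  induction n with
  | zero => simpa using h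
  | succ n ih =>
    rw [pow_succ', RelIso.mul_apply]
    exact h.trans (F.strictMono ih)

lemma fix_of_pow {F : ℝ ≃o ℝ} {x : ℝ} {n : ℕ} (hn : 1 ≤ n) (h : (F ^ n) x = x) : F x = x := by
  obtain ⟨k, rfl⟩ : ∃ k, n = k + 1 := ⟨n - 1, by omega⟩
  rcases lt_trichotomy (F x) x with h1 | h1 | h1
  · exact absurd h (pow_lt h1 k).ne
  · exact h1
  · exact absurd h (lt_pow h1 k).ne'

lemma fix_inv {F : ℝ ≃o ℝ} {x : ℝ} (h : F x = x) : (F⁻¹ : ℝ ≃o ℝ) x = x := by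
  apply F.injective
  rw [RelIso.apply_inv_self, h]

/-- a periodic homeomorphism with a fixed point displaces every point by less than one -/
lemma int_zero {F : ℝ ≃o ℝ} (h : ∀ x, F (x + 1) = F x + 1) {c : ℝ} (hc : F c = c) {x : ℝ} {m : ℤ}
    (hx : F x = x + m) : m = 0 := by
  have h1 := Int.floor_le (x - c)
  have h2 := Int.lt_floor_add_one (x - c)
  set k := ⌊x - c⌋
  have h3 : F (c + k) = c + k := by rw [per_int h, hc]
  have h4 : c + k ≤ F x := by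
    rw [← h3]
    exact F.monotone (by linarith)
  have h5 : F x < c + k + 1 := by
    rw [← h3, ← h]
    exact F.strictMono (by linarith)
  have h6 : (m : ℝ) < 1 := by linarith
  have h7 : (-1 : ℝ) < m := by linarith
  have h8 : m < 1 := by exact_mod_cast h6
  have h9 : -1 < m := by exact_mod_cast h7
  omega

lemma pow_trans {F : ℝ ≃o ℝ} (h : ∀ x, F (x + 1) = F x + 1) {x : ℝ} {m : ℤ}
    (hx : F x = x + m) (n : ℕ) : (F ^ n) x = x + ((n * m : ℤ) : ℝ) := by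
  induction n with
  | zero => simp
  | succ n ih =>
    rw [pow_succ', RelIso.mul_apply, ih, per_int h, hx]
    push_cast
    ring

lemma comp_maps {F : ℝ ≃o ℝ} {p q x : ℝ} (h : IsComp F p q) (hx : x ∈ Ioo p q) : F x ∈ Ioo p q := by
  constructor
  · rw [← h.left]; exact F.strictMono hx.1
  · rw [← h.right]; exact F.strictMono hx.2

lemma comp_maps_inv {F : ℝ ≃o ℝ} {p q x : ℝ} (h : IsComp F p q) (hx : x ∈ Ioo p q) :
    (F⁻¹ : ℝ ≃o ℝ) x ∈ Ioo p q := by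
  constructor
  · rw [← fix_inv h.left]; exact (F⁻¹ : ℝ ≃o ℝ).strictMono hx.1
  · rw [← fix_inv h.right]; exact (F⁻¹ : ℝ ≃o ℝ).strictMono hx.2

lemma comp_left {F : ℝ ≃o ℝ} {p q x : ℝ} (h : IsComp F p q) (hx : x ∈ Ioo p q) (hl : F x < x) :
    ∀ t ∈ Ioo p q, F t < t := by
  intro t ht
  by_contra hcon
  push Not at hcon
  have hc : ContinuousOn (fun u => F u - u) (uIcc x t) :=
    (F.continuous.sub continuous_id).continuousOn
  have h0 : (0 : ℝ) ∈ uIcc (F x - x) (F t - t) := by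
    rw [mem_uIcc]
    left
    constructor <;> linarith
  obtain ⟨u, hu, hu0⟩ := intermediate_value_uIcc hc h0
  have hu2 : u ∈ Ioo p q := by
    have := (ordConnected_Ioo (a := p) (b := q)).uIcc_subset hx ht
    exact this hu
  exact h.ne u hu2 (by simpa [sub_eq_zero] using hu0)

lemma comp_right {F : ℝ ≃o ℝ} {p q x : ℝ} (h : IsComp F p q) (hx : x ∈ Ioo p q) (hl : x < F x) :
    ∀ t ∈ Ioo p q, t < F t := by
  intro t ht
  rcases lt_trichotomy (F t) t with h1 | h1 | h1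
  · exact absurd (comp_left h ht h1 x hx) (not_lt.2 hl.le)
  · exact absurd h1 (h.ne t ht)
  · exact h1

/-- Lemma W -/
lemma lemW (hdp : S_dp) (hcomp : S_comp) (hfix : S_fix) {U : Set ℝ} {H : Subgroup (ℝ ≃o ℝ)}
    (hS : Setup U H) {h y w : ℝ ≃o ℝ} (hh : h ∈ H) (hy : y ∈ H) (hw : w ∈ H)
    (hr : h * y * h⁻¹ = y ^ 2) (c1 : Commute (w * y * w⁻¹) h) (c2 : Commute (w * y * w⁻¹) y)
    {t : ℝ} (ht : y t ≠ t) : y (w t) = w t := by
  obtain ⟨x0, hx0⟩ := hfix h y (hS.nice h hh).per (hS.nice y hy).per hr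
  have hzH : w * y * w⁻¹ ∈ H := H.mul_mem (H.mul_mem hw hy) (H.inv_mem hw)
  by_contra hcon
  obtain ⟨p, q, hpq, hm⟩ := hcomp y (hS.nice y hy).per ⟨x0, hx0⟩ (w t) hcon
  obtain ⟨n, hn, m, hnm⟩ := hdp U H hS h y _ hh hy hzH hr c1 c2 p q hpq
  have h1 := hnm (w t) (Ioo_subset_Icc_self hm)
  have hzw : (w * y * w⁻¹) (w x0) = w x0 := by
    rw [RelIso.mul_apply, RelIso.mul_apply, RelIso.inv_apply_self, hx0]
  have hm0 : m = 0 := int_zero (hS.nice _ (H.pow_mem hzH n)).per (pow_fix hzw n) h1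
  rw [hm0, Int.cast_zero, add_zero] at h1
  have h2 := fix_of_pow hn h1
  rw [RelIso.mul_apply, RelIso.mul_apply, RelIso.inv_apply_self] at h2
  exact ht (w.injective h2)

/-- part (1) -/
lemma part1 (hdp : S_dp) {U : Set ℝ} {H : Subgroup (ℝ ≃o ℝ)}
    (hS : Setup U H) {a b h y : ℝ ≃o ℝ} (ha : a ∈ H) (hb : b ∈ H) (hh : h ∈ H) (hy : y ∈ H)
    (hr : h * y * h⁻¹ = y ^ 2)
    (hc : ∀ j : ℕ, 1 ≤ j → Commute (a ^ j * b * (a ^ j)⁻¹) h ∧ Commute (a ^ j * b * (a ^ j)⁻¹) y)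
    {p q : ℝ} (hpq : IsComp y p q) :
    ∃ (n : ℕ) (m : ℤ), 1 ≤ n ∧ ∀ j : ℕ, 1 ≤ j → ∀ s ∈ Icc p q,
      (tr ^ m * b ^ n) (((a ^ j)⁻¹ : ℝ ≃o ℝ) s) = ((a ^ j)⁻¹ : ℝ ≃o ℝ) s := by
  have hbper := (hS.nice b hb).per
  have key : ∀ j : ℕ, 1 ≤ j → ∃ (n : ℕ) (m : ℤ), 1 ≤ n ∧ ∀ s ∈ Icc p q,
      (b ^ n) (((a ^ j)⁻¹ : ℝ ≃o ℝ) s) = ((a ^ j)⁻¹ : ℝ ≃o ℝ) s + m := by
    intro j hj
    have hzH : a ^ j * b * (a ^ j)⁻¹ ∈ H :=
      H.mul_mem (H.mul_mem (H.pow_mem ha j) hb) (H.inv_mem (H.pow_mem ha j))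
    obtain ⟨n, hn, m, hnm⟩ := hdp U H hS h y _ hh hy hzH hr (hc j hj).1 (hc j hj).2 p q hpq
    refine ⟨n, m, hn, fun s hs => ?_⟩
    have h1 := hnm s hs
    rw [conj_pow, RelIso.mul_apply, RelIso.mul_apply] at h1
    apply (a ^ j).injective
    rw [h1, per_int (hS.nice _ (H.pow_mem ha j)).per, RelIso.apply_inv_self]
  obtain ⟨n, m, hn, h1⟩ := key 1 le_rfl
  refine ⟨n, -m, hn, fun j hj s hs => ?_⟩
  have hβ1 : ∀ s ∈ Icc p q, (tr ^ (-m) * b ^ n) (((a ^ 1)⁻¹ : ℝ ≃o ℝ) s) = ((a ^ 1)⁻¹ : ℝ ≃o ℝ) s := by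
    intro s hs
    rw [RelIso.mul_apply, h1 s hs, tr_zpow]
    push_cast
    ring
  have hβH : tr ^ (-m) * b ^ n ∈ H := H.mul_mem (H.zpow_mem hS.tr_mem _) (H.pow_mem hb n)
  obtain ⟨nj, mj, hnj, h2⟩ := key j hj
  have h3 : ((tr ^ (-m) * b ^ n) ^ nj) (((a ^ j)⁻¹ : ℝ ≃o ℝ) s) =
      ((a ^ j)⁻¹ : ℝ ≃o ℝ) s + (((n : ℤ) * mj + (-m) * nj : ℤ) : ℝ) := by
    have hcomm : Commute (tr ^ (-m)) (b ^ n) := comm_tr (hS.nice _ (H.pow_mem hb n)).per _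
    rw [hcomm.mul_pow, ← pow_mul, mul_comm n nj, pow_mul, ← zpow_natCast (tr ^ (-m)) nj, ← zpow_mul,
      RelIso.mul_apply, pow_trans (hS.nice _ (H.pow_mem hb nj)).per (h2 s hs), tr_zpow]
    push_cast
    ring
  have h4 := int_zero (hS.nice _ (H.pow_mem hβH nj)).per
    (pow_fix (hβ1 p (left_mem_Icc.2 hpq.lt.le)) nj) h3
  rw [h4, Int.cast_zero, add_zero] at h3
  exact fix_of_pow hnj h3

end Link

theorem s_link : S_dp → S_comp → S_fix → S_link := by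
  intro hdp hcomp hfix U H hS a b h y ha hb hh hy hr hca hcb hwa hwb p q x hpq hx
  obtain ⟨n₂, m₂, hn₂, hβ⟩ := Link.part1 hdp hS ha hb hh hy hr hca hpq
  obtain ⟨n₁, m₁, hn₁, hα⟩ := Link.part1 hdp hS hb ha hh hy hr hcb hpq
  have hyper := (hS.nice y hy).per
  have hαH : tr ^ m₁ * a ^ n₁ ∈ H := H.mul_mem (H.zpow_mem hS.tr_mem _) (H.pow_mem ha n₁)
  have hβH : tr ^ m₂ * b ^ n₂ ∈ H := H.mul_mem (H.zpow_mem hS.tr_mem _) (H.pow_mem hb n₂)
  have hgen : ∀ (w : ℝ ≃o ℝ) (m : ℤ), w ∈ H → Commute (w * y * w⁻¹) h → Commute (w * y * w⁻¹) y →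
      ∀ s ∈ Ioo p q, (tr ^ m * w) s ≠ s := by
    intro w m hw c1 c2 s hs hcon
    have h1 := Link.lemW hdp hcomp hfix hS hh hy hw hr c1 c2 (hpq.ne s hs)
    rw [RelIso.mul_apply, Link.tr_zpow] at hcon
    have h2 : w s = s + ((-m : ℤ) : ℝ) := by push_cast; linarith
    rw [h2, Link.per_int hyper] at h1
    exact hpq.ne s hs (by linarith)
  have hα1 := hgen (a ^ n₁) m₁ (H.pow_mem ha n₁) (hwa n₁ hn₁).1 (hwa n₁ hn₁).2
  have hβ1 := hgen (b ^ n₂) m₂ (H.pow_mem hb n₂) (hwb n₂ hn₂).1 (hwb n₂ hn₂).2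
  have hpI : p ∈ Icc p q := left_mem_Icc.2 hpq.lt.le
  have hxI : x ∈ Icc p q := Ioo_subset_Icc_self hx
  obtain ⟨A₀, A₁, hA, hxA⟩ := hcomp _ (hS.nice _ hαH).per ⟨_, hα 1 le_rfl p hpI⟩ x (hα1 x hx)
  obtain ⟨B₀, B₁, hB, hxB⟩ := hcomp _ (hS.nice _ hβH).per ⟨_, hβ 1 le_rfl p hpI⟩ x (hβ1 x hx)
  have hA0 : A₀ ≤ p := by
    by_contra hcon
    push Not at hcon
    exact hα1 A₀ ⟨hcon, hxA.1.trans hx.2⟩ hA.left
  have hA1 : q ≤ A₁ := by
    by_contra hcon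
    push Not at hcon
    exact hα1 A₁ ⟨hx.1.trans hxA.2, hcon⟩ hA.right
  have hB0 : B₀ ≤ p := by
    by_contra hcon
    push Not at hcon
    exact hβ1 B₀ ⟨hcon, hxB.1.trans hx.2⟩ hB.left
  have hB1 : q ≤ B₁ := by
    by_contra hcon
    push Not at hcon
    exact hβ1 B₁ ⟨hx.1.trans hxB.2, hcon⟩ hB.right
  set α := tr ^ m₁ * a ^ n₁ with hαdef
  set β := tr ^ m₂ * b ^ n₂ with hβdef
  -- the preimages of x
  have hinvα : (α⁻¹ : ℝ ≃o ℝ) x = ((a ^ n₁)⁻¹ : ℝ ≃o ℝ) x + ((-m₁ : ℤ) : ℝ) := by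
    apply α.injective
    rw [RelIso.apply_inv_self, Link.per_int (hS.nice _ hαH).per, hαdef, RelIso.mul_apply,
      RelIso.apply_inv_self, Link.tr_zpow]
    push_cast
    ring
  have hinvβ : (β⁻¹ : ℝ ≃o ℝ) x = ((b ^ n₂)⁻¹ : ℝ ≃o ℝ) x + ((-m₂ : ℤ) : ℝ) := by
    apply β.injective
    rw [RelIso.apply_inv_self, Link.per_int (hS.nice _ hβH).per, hβdef, RelIso.mul_apply,
      RelIso.apply_inv_self, Link.tr_zpow]
    push_cast
    ring
  have hfβ : β ((α⁻¹ : ℝ ≃o ℝ) x) = (α⁻¹ : ℝ ≃o ℝ) x := by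
    rw [hinvα, Link.per_int (hS.nice _ hβH).per, hβ n₁ hn₁ x hxI]
  have hfα : α ((β⁻¹ : ℝ ≃o ℝ) x) = (β⁻¹ : ℝ ≃o ℝ) x := by
    rw [hinvβ, Link.per_int (hS.nice _ hαH).per, hα n₂ hn₂ x hxI]
  have hia := Link.comp_maps_inv hA hxA
  have hib := Link.comp_maps_inv hB hxB
  have hna : ¬ ((α⁻¹ : ℝ ≃o ℝ) x ∈ Ioo B₀ B₁) := fun hc => hB.ne _ hc hfβ
  have hnb : ¬ ((β⁻¹ : ℝ ≃o ℝ) x ∈ Ioo A₀ A₁) := fun hc => hA.ne _ hc hfα
  have hαx : α ((α⁻¹ : ℝ ≃o ℝ) x) = x := RelIso.apply_inv_self _ _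
  have hβx : β ((β⁻¹ : ℝ ≃o ℝ) x) = x := RelIso.apply_inv_self _ _
  set xa := (α⁻¹ : ℝ ≃o ℝ) x
  set xb := (β⁻¹ : ℝ ≃o ℝ) x
  refine ⟨n₁, n₂, m₁, m₂, A₀, A₁, B₀, B₁, hn₁, hn₂, hA, hB, ?_⟩
  rcases lt_trichotomy xa x with hlt | heq | hgt
  · right
    have h1 : xa ≤ B₀ := by
      by_contra hcon
      push Not at hcon
      exact hna ⟨hcon, hlt.trans hxB.2⟩
    have h2 : A₀ < B₀ := hia.1.trans_le h1
    have h3 : A₁ ≤ xb := by
      by_contra hcon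
      push Not at hcon
      exact hnb ⟨h2.trans hib.1, hcon⟩
    refine ⟨h2, hB0, hA1, h3.trans_lt hib.2, ?_, ?_⟩
    · apply Link.comp_right hA hia
      rw [hαx]; exact hlt
    · apply Link.comp_left hB hib
      rw [hβx]; exact hxA.2.trans_le h3
  · exact absurd (hαx.trans heq.symm) (hA.ne xa hia)
  · left
    have h1 : B₁ ≤ xa := by
      by_contra hcon
      push Not at hcon
      exact hna ⟨hxB.1.trans hgt, hcon⟩
    have h2 : B₁ < A₁ := h1.trans_lt hia.2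
    have h3 : xb ≤ A₀ := by
      by_contra hcon
      push Not at hcon
      exact hnb ⟨hcon, hib.2.trans h2⟩
    refine ⟨hib.1.trans_le h3, hA0, hB1, h2, ?_, ?_⟩
    · apply Link.comp_left hA hia
      rw [hαx]; exact hgt
    · apply Link.comp_right hB hib
      rw [hβx]; exact h3.trans_lt hxA.1

end Pool.Agent.W331.CR
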