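import Pool.Agent.W331.CR.Stm2

/-! Compositions of maps of class `C^{k,Lip}` (by helper646). -/

set_option autoImplicit false

open Set Filter Topology
open scoped ContDiff NNReal

namespace Pool.Agent.W331.CR

namespace LipMul

/-- bounded functions of class `C^k` with bounded derivatives and Lipschitz `k`-th derivative -/
def LL : ℕ → (ℝ → ℝ) → Prop
  | 0, u => (∃ C, ∀ x, |u x| ≤ C) ∧ ∃ K, LipschitzWith K u
  | k + 1, u => (∃ C, ∀ x, |u x| ≤ C) ∧ Differentiable ℝ u ∧ LL k (deriv u)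

lemma LL.bdd {k : ℕ} {u : ℝ → ℝ} (h : LL k u) : ∃ C, ∀ x, |u x| ≤ C := by
  cases k with
  | zero => exact h.1
  | succ k => exact h.1

lemma lip_of_deriv {u : ℝ → ℝ} (hu : Differentiable ℝ u) (h : ∃ C, ∀ x, |deriv u x| ≤ C) :
    ∃ K, LipschitzWith K u := by
  obtain ⟨C, hC⟩ := h
  have hC0 : 0 ≤ C := (abs_nonneg _).trans (hC 0)
  refine ⟨Real.toNNReal C, lipschitzWith_of_nnnorm_deriv_le hu fun x => ?_⟩
  rw [← NNReal.coe_le_coe, coe_nnnorm, Real.norm_eq_abs, Real.coe_toNNReal C hC0]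
  exact hC x

lemma LL.mono {k : ℕ} : ∀ {u : ℝ → ℝ}, LL (k + 1) u → LL k u := by
  induction k with
  | zero =>
    intro u h
    exact ⟨h.1, lip_of_deriv h.2.1 h.2.2.1⟩
  | succ k ih =>
    intro u h
    exact ⟨h.1, h.2.1, ih h.2.2⟩

lemma LL.lip {k : ℕ} {u : ℝ → ℝ} (h : LL k u) : ∃ K, LipschitzWith K u := by
  cases k with
  | zero => exact h.2
  | succ k => exact lip_of_deriv h.2.1 h.2.2.bdd

lemma LL.mul {k : ℕ} : ∀ {u v : ℝ → ℝ}, LL k u → LL k v → LL k (fun x => u x * v x) := by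
  have hb : ∀ {u v : ℝ → ℝ}, (∃ C, ∀ x, |u x| ≤ C) → (∃ C, ∀ x, |v x| ≤ C) →
      ∃ C, ∀ x, |u x * v x| ≤ C := by
    rintro u v ⟨C, hC⟩ ⟨D, hD⟩
    refine ⟨C * D, fun x => ?_⟩
    rw [abs_mul]
    exact mul_le_mul (hC x) (hD x) (abs_nonneg _) ((abs_nonneg _).trans (hC x))
  induction k with
  | zero =>
    intro u v hu hv
    refine ⟨hb hu.1 hv.1, ?_⟩
    obtain ⟨⟨C, hC⟩, K, hK⟩ := hu
    obtain ⟨⟨D, hD⟩, L, hL⟩ := hv
    have hC0 : 0 ≤ C := (abs_nonneg _).trans (hC 0)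
    have hD0 : 0 ≤ D := (abs_nonneg _).trans (hD 0)
    refine ⟨Real.toNNReal C * L + Real.toNNReal D * K, LipschitzWith.of_dist_le_mul fun x y => ?_⟩
    rw [Real.dist_eq]
    have e : u x * v x - u y * v y = u x * (v x - v y) + v y * (u x - u y) := by ring
    have h1 : |v x - v y| ≤ L * dist x y := by
      have := hL.dist_le_mul x y
      rwa [Real.dist_eq] at this
    have h2 : |u x - u y| ≤ K * dist x y := by
      have := hK.dist_le_mul x y
      rwa [Real.dist_eq] at this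
    rw [e]
    refine (abs_add_le _ _).trans ?_
    rw [abs_mul, abs_mul]
    have h3 : |u x| * |v x - v y| ≤ C * (L * dist x y) :=
      mul_le_mul (hC x) h1 (abs_nonneg _) hC0
    have h4 : |v y| * |u x - u y| ≤ D * (K * dist x y) :=
      mul_le_mul (hD y) h2 (abs_nonneg _) hD0
    have e2 : ((Real.toNNReal C * L + Real.toNNReal D * K : ℝ≥0) : ℝ) * dist x y =
        C * (L * dist x y) + D * (K * dist x y) := by
      push_cast
      rw [Real.coe_toNNReal C hC0, Real.coe_toNNReal D hD0]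
      ring
    rw [e2]
    exact add_le_add h3 h4
  | succ k ih =>
    intro u v hu hv
    refine ⟨hb hu.1 hv.1, hu.2.1.mul hv.2.1, ?_⟩
    have e : deriv (fun x => u x * v x) = fun x => deriv u x * v x + u x * deriv v x := by
      funext x
      exact deriv_mul (hu.2.1 x) (hv.2.1 x)
    rw [e]
    have hadd : ∀ {k : ℕ} {u v : ℝ → ℝ}, LL k u → LL k v → LL k (fun x => u x + v x) := by
      intro k
      induction k with
      | zero =>
        intro u v hu hv
        obtain ⟨⟨C, hC⟩, K, hK⟩ := hu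
        obtain ⟨⟨D, hD⟩, L, hL⟩ := hv
        exact ⟨⟨C + D, fun x => (abs_add_le _ _).trans (add_le_add (hC x) (hD x))⟩,
          K + L, hK.add hL⟩
      | succ k ih =>
        intro u v hu hv
        refine ⟨?_, hu.2.1.add hv.2.1, ?_⟩
        · obtain ⟨C, hC⟩ := hu.1
          obtain ⟨D, hD⟩ := hv.1
          exact ⟨C + D, fun x => (abs_add_le _ _).trans (add_le_add (hC x) (hD x))⟩
        · have e : deriv (fun x => u x + v x) = fun x => deriv u x + deriv v x := by
            funext x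
            exact deriv_add (hu.2.1 x) (hv.2.1 x)
          rw [e]
          exact ih hu.2.2 hv.2.2
    exact hadd (ih hu.2.2 hv.mono) (ih hu.mono hv.2.2)

lemma LL.comp {k : ℕ} : ∀ {u G : ℝ → ℝ}, LL k u → Differentiable ℝ G → LL k (deriv G) →
    LL k (fun x => u (G x)) := by
  have hb : ∀ {u G : ℝ → ℝ}, (∃ C, ∀ x, |u x| ≤ C) → ∃ C, ∀ x, |u (G x)| ≤ C := by
    rintro u G ⟨C, hC⟩
    exact ⟨C, fun x => hC _⟩
  induction k with
  | zero =>
    intro u G hu hG hG'
    refine ⟨hb hu.1, ?_⟩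
    obtain ⟨K, hK⟩ := hu.2
    obtain ⟨L, hL⟩ := lip_of_deriv hG hG'.1
    exact ⟨K * L, hK.comp hL⟩
  | succ k ih =>
    intro u G hu hG hG'
    refine ⟨hb hu.1, hu.2.1.comp hG, ?_⟩
    have e : deriv (fun x => u (G x)) = fun x => deriv u (G x) * deriv G x := by
      funext x
      exact deriv_comp x (hu.2.1 (G x)) (hG x)
    rw [e]
    exact (ih hu.2.2 hG hG'.mono).mul hG'.mono

lemma LL.iter {k : ℕ} : ∀ {u : ℝ → ℝ}, LL k u → ∃ K, LipschitzWith K (iteratedDeriv k u) := by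
  induction k with
  | zero =>
    intro u h
    rw [iteratedDeriv_zero]
    exact h.2
  | succ k ih =>
    intro u h
    rw [iteratedDeriv_succ']
    exact ih h.2.2

lemma LL.of {k : ℕ} : ∀ {u : ℝ → ℝ} {c A B : ℝ}, (∀ x, x ∉ Icc A B → u x = c) →
    ContDiff ℝ k u → (∃ K, LipschitzWith K (iteratedDeriv k u)) → LL k u := by
  have hb : ∀ {u : ℝ → ℝ} {c A B : ℝ}, (∀ x, x ∉ Icc A B → u x = c) → Continuous u →
      ∃ C, ∀ x, |u x| ≤ C := by
    intro u c A B h hu
    obtain ⟨C, hC⟩ := (isCompact_Icc (a := A) (b := B)).exists_bound_of_continuousOn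
      hu.continuousOn
    refine ⟨max C |c|, fun x => ?_⟩
    by_cases hx : x ∈ Icc A B
    · exact (hC x hx).trans (le_max_left _ _)
    · rw [h x hx]
      exact le_max_right _ _
  induction k with
  | zero =>
    intro u c A B h hu hl
    rw [iteratedDeriv_zero] at hl
    exact ⟨hb h hu.continuous, hl⟩
  | succ k ih =>
    intro u c A B h hu hl
    refine ⟨hb h hu.continuous, hu.differentiable (by simp), ?_⟩
    rw [iteratedDeriv_succ'] at hl
    have hu' : ContDiff ℝ k (deriv u) := by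
      have := hu
      push_cast at this
      exact ((contDiff_succ_iff_deriv (n := (k : WithTop ℕ∞))).1 this).2.2
    refine ih (c := 0) (A := A) (B := B) ?_ hu' hl
    intro x hx
    have hev : u =ᶠ[𝓝 x] fun _ => c := by
      have : (Icc A B)ᶜ ∈ 𝓝 x := isClosed_Icc.isOpen_compl.mem_nhds hx
      filter_upwards [this] with y hy
      exact h y hy
    rw [hev.deriv_eq]
    simp

end LipMul

theorem s_lipmul : S_lipmul := by
  intro k hk F G hF hG
  refine ⟨(CS k).mul_mem hF.1 hG.1, ?_⟩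
  obtain ⟨m, rfl⟩ : ∃ m, k = m + 1 := ⟨k - 1, by omega⟩
  have key : ∀ F : ℝ ≃o ℝ, F ∈ LipCS (m + 1) → Differentiable ℝ F ∧ LipMul.LL m (deriv F) := by
    intro F hF
    have hF1 : ContDiff ℝ ((m + 1 : ℕ) : WithTop ℕ∞) F := hF.1.2.1
    have hF2 := hF1
    push_cast at hF2
    refine ⟨hF1.differentiable (by simp), ?_⟩
    have hu' : ContDiff ℝ m (deriv F) :=
      ((contDiff_succ_iff_deriv (n := (m : WithTop ℕ∞))).1 hF2).2.2
    have hl := hF.2
    rw [iteratedDeriv_succ'] at hl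
    refine LipMul.LL.of (c := 1) (A := 1 / 4) (B := 3 / 4) ?_ hu' hl
    intro x hx
    have hev : (F : ℝ → ℝ) =ᶠ[𝓝 x] fun y => y := by
      have : (Icc (1 / 4 : ℝ) (3 / 4))ᶜ ∈ 𝓝 x := isClosed_Icc.isOpen_compl.mem_nhds hx
      filter_upwards [this] with y hy
      exact hF.1.1 y fun h => hy ⟨h.1.le, h.2.le⟩
    rw [hev.deriv_eq]
    simp
  obtain ⟨hF1, hF2⟩ := key F hF
  obtain ⟨hG1, hG2⟩ := key G hG
  rw [iteratedDeriv_succ']
  have e : deriv ((F * G : ℝ ≃o ℝ) : ℝ → ℝ) = fun x => deriv F (G x) * deriv G x := by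
    funext x
    exact deriv_comp x (hF1 (G x)) (hG1 x)
  rw [e]
  exact ((hF2.comp hG1 hG2).mul hG2).iter

end Pool.Agent.W331.CR
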