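import Pool.Agent.W331.CR.Main84

/-! Real regularities (for MP_4516ee_al). -/

set_option autoImplicit false

open Set Filter Topology Function
open scoped ContDiff

namespace Pool.Agent.W331.CR

/-- orientation preserving `C^{k+τ}` diffeomorphisms of `[0,1]`: `C^k` with `τ`-Hölder `k`-th
derivative (no condition when `τ = 0`) -/
def HolI (k : ℕ) (τ : ℝ) : Set (Icc (0:ℝ) 1 ≃o Icc (0:ℝ) 1) :=
  {φ | φ ∈ DiffI k ∧ (τ = 0 ∨ ∃ C : ℝ, ∀ x ∈ Icc (0:ℝ) 1, ∀ y ∈ Icc (0:ℝ) 1,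
    |iteratedDerivWithin k (ext01 φ) (Icc 0 1) x - iteratedDerivWithin k (ext01 φ) (Icc 0 1) y| ≤
      C * |x - y| ^ τ)}

/-- orientation preserving `C^{k+τ}` diffeomorphisms of the circle -/
def HolS (k : ℕ) (τ : ℝ) : Set (Equiv.Perm (AddCircle (1:ℝ))) :=
  {σ | ∃ F : ℝ ≃o ℝ, IsLift k F ∧ (∀ x : ℝ, σ (x : AddCircle (1:ℝ)) = ((F x : ℝ) : AddCircle (1:ℝ))) ∧
    (τ = 0 ∨ ∃ C : ℝ, ∀ x y : ℝ,
      |iteratedDeriv k (F : ℝ → ℝ) x - iteratedDeriv k (F : ℝ → ℝ) y| ≤ C * |x - y| ^ τ)}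

lemma le_rpow_self {u τ : ℝ} (hu : 0 ≤ u) (hu1 : u ≤ 1) (hτ : 0 ≤ τ) (hτ1 : τ ≤ 1) : u ≤ u ^ τ := by
  rcases hu.eq_or_lt with rfl | hu'
  · rcases hτ.eq_or_lt with rfl | h
    · simp
    · rw [Real.zero_rpow h.ne']
  · calc u = u ^ (1:ℝ) := (Real.rpow_one u).symm
      _ ≤ u ^ τ := Real.rpow_le_rpow_of_exponent_ge hu' hu1 hτ1

lemma diffI_hol (k : ℕ) (τ : ℝ) (hτ : 0 ≤ τ) (hτ1 : τ < 1) :
    ∀ φ ∈ DiffI (k + 1 : ℕ), φ ∈ HolI k τ := by
  rintro φ ⟨h1, h2⟩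
  have le : ((k : ℕ) : WithTop ℕ∞) ≤ ((k + 1 : ℕ) : WithTop ℕ∞) := by
    exact_mod_cast Nat.le_succ k
  refine ⟨⟨h1.of_le le, h2.of_le le⟩, Or.inr ?_⟩
  have hu : UniqueDiffOn ℝ (Icc (0:ℝ) 1) := uniqueDiffOn_Icc zero_lt_one
  have hd : DifferentiableOn ℝ (iteratedDerivWithin k (ext01 φ) (Icc 0 1)) (Icc 0 1) :=
    h1.differentiableOn_iteratedDerivWithin (by exact_mod_cast Nat.lt_succ_self k) hu
  have hc : ContinuousOn (iteratedDerivWithin (k + 1) (ext01 φ) (Icc 0 1)) (Icc 0 1) :=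
    h1.continuousOn_iteratedDerivWithin (by exact_mod_cast le_rfl) hu
  obtain ⟨C, hC⟩ := isCompact_Icc.exists_bound_of_continuousOn hc
  refine ⟨C, fun x hx y hy => ?_⟩
  have hb : ∀ z ∈ Icc (0:ℝ) 1,
      ‖derivWithin (iteratedDerivWithin k (ext01 φ) (Icc 0 1)) (Icc 0 1) z‖ ≤ C := by
    intro z hz
    have := hC z hz
    rwa [iteratedDerivWithin_succ] at this
  have h3 := (convex_Icc (0:ℝ) 1).norm_image_sub_le_of_norm_derivWithin_le hd hb hy hx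
  have hC0 : 0 ≤ C := (norm_nonneg _).trans (hC 0 (by simp))
  rw [Real.norm_eq_abs, Real.norm_eq_abs] at h3
  refine h3.trans (mul_le_mul_of_nonneg_left ?_ hC0)
  apply le_rpow_self (abs_nonneg _) _ hτ hτ1.le
  rw [abs_le]
  constructor <;> linarith [hx.1, hx.2, hy.1, hy.2]

lemma diffS_hol (k : ℕ) (hk : 1 ≤ k) (τ : ℝ) (hτ : 0 ≤ τ) (hτ1 : τ < 1) :
    ∀ σ ∈ DiffS (k + 1 : ℕ), σ ∈ HolS k τ := by
  rintro σ ⟨F, ⟨h1, h2, h3⟩, h4⟩
  have le : ((k : ℕ) : WithTop ℕ∞) ≤ ((k + 1 : ℕ) : WithTop ℕ∞) := by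
    exact_mod_cast Nat.le_succ k
  refine ⟨F, ⟨h1, h2.of_le le, h3.of_le le⟩, h4, Or.inr ?_⟩
  -- periodicity of the derivatives
  have per : ∀ n : ℕ, 1 ≤ n → ∀ x, iteratedDeriv n (F : ℝ → ℝ) (x + 1) =
      iteratedDeriv n (F : ℝ → ℝ) x := by
    intro n hn x
    have e1 : iteratedDeriv n (fun z => F (z + 1)) x = iteratedDeriv n (F : ℝ → ℝ) (x + 1) := by
      rw [iteratedDeriv_comp_add_const]
    have e2 : iteratedDeriv n (fun z => F (z + 1)) x = iteratedDeriv n (F : ℝ → ℝ) x := by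
      have : (fun z => F (z + 1)) = fun z => F z + 1 := funext h1
      rw [this]
      obtain ⟨m, rfl⟩ : ∃ m, n = m + 1 := ⟨n - 1, by omega⟩
      rw [iteratedDeriv_succ', iteratedDeriv_succ']
      congr 1
      funext z
      exact deriv_add_const _
    rw [← e1, e2]
  have hc : Continuous (iteratedDeriv (k + 1) (F : ℝ → ℝ)) :=
    h2.continuous_iteratedDeriv (k + 1) (by exact_mod_cast le_rfl)
  have hd : Differentiable ℝ (iteratedDeriv k (F : ℝ → ℝ)) :=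
    h2.differentiable_iteratedDeriv k (by exact_mod_cast Nat.lt_succ_self k)
  obtain ⟨C, hC⟩ := isCompact_Icc.exists_bound_of_continuousOn (s := Icc (0:ℝ) 1) hc.continuousOn
  have hC0 : 0 ≤ C := (norm_nonneg _).trans (hC 0 (by simp))
  have hfr : ∀ n : ℕ, 1 ≤ n → ∀ x, iteratedDeriv n (F : ℝ → ℝ) x =
      iteratedDeriv n (F : ℝ → ℝ) (Int.fract x) := by
    intro n hn x
    have hp : Function.Periodic (iteratedDeriv n (F : ℝ → ℝ)) 1 := per n hn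
    have := hp.sub_int_mul_eq ⌊x⌋ (x := x)
    rw [mul_one] at this
    rw [← this]; rfl
  have hC' : ∀ x, ‖iteratedDeriv (k + 1) (F : ℝ → ℝ) x‖ ≤ C := by
    intro x
    rw [hfr (k + 1) (by omega)]
    exact hC _ ⟨Int.fract_nonneg x, (Int.fract_lt_one x).le⟩
  have hlip : ∀ x y, |iteratedDeriv k (F : ℝ → ℝ) x - iteratedDeriv k (F : ℝ → ℝ) y| ≤
      C * |x - y| := by
    intro x y
    have := convex_univ.norm_image_sub_le_of_norm_deriv_le (f := iteratedDeriv k (F : ℝ → ℝ))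
      (s := univ) (C := C) (x := y) (y := x) (fun z _ => hd z)
      (fun z _ => by rw [← iteratedDeriv_succ]; exact hC' z) (mem_univ _) (mem_univ _)
    simpa [Real.norm_eq_abs] using this
  refine ⟨C, fun x y => ?_⟩
  by_cases hxy : |x - y| ≤ 1
  · refine (hlip x y).trans (mul_le_mul_of_nonneg_left ?_ hC0)
    exact le_rpow_self (abs_nonneg _) hxy hτ hτ1.le
  · push Not at hxy
    rw [hfr k hk x, hfr k hk y]
    refine (hlip _ _).trans (mul_le_mul_of_nonneg_left ?_ hC0)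
    have e1 : |Int.fract x - Int.fract y| ≤ 1 := by
      rw [abs_le]
      constructor <;> linarith [Int.fract_nonneg x, Int.fract_nonneg y, Int.fract_lt_one x,
        Int.fract_lt_one y]
    exact e1.trans (Real.one_le_rpow hxy.le hτ)

/-- the statement handed in for MP_4516ee_al -/
def Final4516 : Prop := ∃ (G : Type) (_ : Group G), Countable G ∧
  (∀ (k : ℕ) (τ : ℝ), 1 ≤ k → 0 ≤ τ → τ < 1 →
    (∃ φ : G →* (Icc (0:ℝ) 1 ≃o Icc (0:ℝ) 1), Injective φ ∧ ∀ g, φ g ∈ HolI k τ) ∧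
    (∃ φ : G →* Equiv.Perm (AddCircle (1:ℝ)), Injective φ ∧ ∀ g, φ g ∈ HolS k τ)) ∧
  (¬ ∃ φ : G →* DiffI ∞, Injective φ) ∧ (¬ ∃ φ : G →* DiffS ∞, Injective φ)

theorem final4516 (h : Final84) : Final4516 := by
  obtain ⟨G, hG, hfg, hk, h1, h2⟩ := h
  refine ⟨G, hG, ?_, fun k τ hk1 h3 h4 => ?_, h1, h2⟩
  · obtain ⟨S, _, ρ, hρ⟩ := Group.fg_iff_exists_freeGroup_hom_surjective_finite.mp hfg
    exact hρ.countable
  · obtain ⟨⟨φ, hφ⟩, ⟨ψ, hψ⟩⟩ := hk (k + 1)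
    refine ⟨⟨(DiffI _).subtype.comp φ, Subtype.coe_injective.comp hφ, fun g => ?_⟩,
      ⟨(DiffS _).subtype.comp ψ, Subtype.coe_injective.comp hψ, fun g => ?_⟩⟩
    · exact diffI_hol k τ h3 h4 _ (φ g).2
    · exact diffS_hol k hk1 τ h3 h4 _ (ψ g).2

end Pool.Agent.W331.CR
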