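import Pool.Agent.W331.CR.Stm2

/-! Task CR-MODEL: existence of models. -/

set_option autoImplicit false

open Set Filter Topology
open scoped ContDiff

namespace Pool.Agent.W331.CR

namespace ModelF

/-- the transition function -/
noncomputable abbrev st (x : ℝ) : ℝ := Real.smoothTransition x

/-- its derivative -/
noncomputable abbrev st' (x : ℝ) : ℝ := deriv Real.smoothTransition x

lemma st_hd (x : ℝ) : HasDerivAt Real.smoothTransition (st' x) x :=
  ((Real.smoothTransition.contDiff (n := 1)).differentiable (by norm_num) x).hasDerivAt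

lemma st_comp {f : ℝ → ℝ} {f' x : ℝ} (h : HasDerivAt f f' x) :
    HasDerivAt (fun x => st (f x)) (st' (f x) * f') x :=
  HasDerivAt.comp (h₂ := Real.smoothTransition) x (st_hd (f x)) h

lemma st'_nonneg (x : ℝ) : 0 ≤ st' x := Real.smoothTransition.monotone.deriv_nonneg

lemma st'_zero_left {x : ℝ} (h : x ≤ 0) : st' x = 0 := by
  have h1 : HasDerivWithinAt Real.smoothTransition (st' x) (Iic x) x := (st_hd x).hasDerivWithinAt
  have h2 : HasDerivWithinAt Real.smoothTransition 0 (Iic x) x := by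
    refine (hasDerivWithinAt_const x (Iic x) (0:ℝ)).congr (fun y hy => ?_) ?_
    · exact Real.smoothTransition.zero_of_nonpos (le_trans hy h)
    · exact Real.smoothTransition.zero_of_nonpos h
  exact (uniqueDiffOn_Iic x x self_mem_Iic).eq_deriv _ h1 h2

lemma st'_zero_right {x : ℝ} (h : 1 ≤ x) : st' x = 0 := by
  have h1 : HasDerivWithinAt Real.smoothTransition (st' x) (Ici x) x := (st_hd x).hasDerivWithinAt
  have h2 : HasDerivWithinAt Real.smoothTransition 0 (Ici x) x := by
    refine (hasDerivWithinAt_const x (Ici x) (1:ℝ)).congr (fun y hy => ?_) ?_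
    · exact Real.smoothTransition.one_of_one_le (le_trans h hy)
    · exact Real.smoothTransition.one_of_one_le h
  exact (uniqueDiffOn_Ici x x self_mem_Ici).eq_deriv _ h1 h2

lemma st'_bd : ∃ c : ℝ, 1 ≤ c ∧ ∀ x, st' x ≤ c := by
  have hc : Continuous st' := (Real.smoothTransition.contDiff (n := 1)).continuous_deriv le_rfl
  obtain ⟨x0, _, hx0⟩ := isCompact_Icc.exists_isMaxOn (⟨0, by simp⟩ : (Icc (0:ℝ) 1).Nonempty)
    hc.continuousOn
  refine ⟨max 1 (st' x0), le_max_left _ _, fun x => ?_⟩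
  by_cases h : x ∈ Icc (0:ℝ) 1
  · exact (hx0 h).trans (le_max_right _ _)
  · rw [mem_Icc, not_and_or, not_le, not_le] at h
    have : st' x = 0 := by
      rcases h with h | h
      · exact st'_zero_left h.le
      · exact st'_zero_right h.le
    rw [this]
    exact zero_le_one.trans (le_max_left _ _)

/-- a periodic distribution function which is affine with a given large slope near the integers -/
lemma exE (K : ℝ) (hK : 1 ≤ K) : ∃ (E e : ℝ → ℝ) (δ : ℝ), 0 < δ ∧ ContDiff ℝ ∞ E ∧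
    (∀ t, HasDerivAt E (e t) t) ∧ (∀ t, 0 < e t) ∧ (∀ t, e t ≤ K) ∧
    (∀ t, |t| ≤ δ → e t = K) ∧ ∀ m : ℕ, ∀ s, |s| ≤ δ → E (m + s) = m + K * s := by
  have hK0 : 0 < K := by linarith
  -- the bumps
  set β : ℕ → ℝ → ℝ := fun N t => st (2 - N * (1 - Real.cos (2 * Real.pi * t))) with hβ
  have hβs : ∀ N, ContDiff ℝ ∞ (β N) := by
    intro N
    refine Real.smoothTransition.contDiff.comp ?_
    fun_prop
  have hβc : ∀ N, Continuous (β N) := fun N => (hβs N).continuous
  have hβ0 : ∀ N t, 0 ≤ β N t := fun N t => Real.smoothTransition.nonneg _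
  have hβ1 : ∀ N t, β N t ≤ 1 := fun N t => Real.smoothTransition.le_one _
  have hlim : Tendsto (fun N : ℕ => ∫ t in (0:ℝ)..1, β N t) atTop (𝓝 (∫ t in (0:ℝ)..1, (0:ℝ))) := by
    refine intervalIntegral.tendsto_integral_filter_of_dominated_convergence (fun _ => 1) ?_ ?_ ?_ ?_
    · exact Eventually.of_forall fun N => (hβc N).aestronglyMeasurable
    · refine Eventually.of_forall fun N => MeasureTheory.ae_of_all _ fun t _ => ?_
      rw [Real.norm_eq_abs, abs_of_nonneg (hβ0 N t)]
      exact hβ1 N t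
    · exact intervalIntegrable_const
    · have h1 : ∀ᵐ t : ℝ, t ≠ 1 := by
        simp [MeasureTheory.ae_iff, MeasureTheory.measure_singleton]
      filter_upwards [h1] with t ht1 ht
      rw [uIoc_of_le zero_le_one] at ht
      have hlt : t < 1 := lt_of_le_of_ne ht.2 ht1
      have hcos : 0 < 1 - Real.cos (2 * Real.pi * t) := by
        have h2 : Real.cos (2 * Real.pi * t) < 1 := by
          refine lt_of_le_of_ne (Real.cos_le_one _) (fun h => ?_)
          rw [Real.cos_eq_one_iff] at h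
          obtain ⟨k, hk⟩ := h
          have h3 : (k : ℝ) = t := by
            have : (2 * Real.pi) ≠ 0 := by positivity
            have h4 : (2 * Real.pi) * (k : ℝ) = (2 * Real.pi) * t := by linarith
            exact mul_left_cancel₀ this h4
          rw [← h3] at ht hlt
          have h5 : (0 : ℝ) < k := ht.1
          have h6 : (0 : ℤ) < k := by exact_mod_cast h5
          have h7 : k < (1 : ℤ) := by exact_mod_cast hlt
          omega
        linarith
      obtain ⟨N0, hN0⟩ := exists_nat_gt (2 / (1 - Real.cos (2 * Real.pi * t)))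
      refine tendsto_const_nhds.congr' ?_
      filter_upwards [eventually_ge_atTop N0] with N hN
      symm
      refine Real.smoothTransition.zero_of_nonpos ?_
      rw [div_lt_iff₀ hcos] at hN0
      have h8 : (N0 : ℝ) ≤ N := by exact_mod_cast hN
      have h9 := mul_le_mul_of_nonneg_right h8 hcos.le
      linarith
  have hlim0 : Tendsto (fun N : ℕ => ∫ t in (0:ℝ)..1, β N t) atTop (𝓝 0) := by
    simpa using hlim
  obtain ⟨N, hN⟩ := (hlim0.eventually (gt_mem_nhds (show (0:ℝ) < 1 / (2 * K) by positivity))).exists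
  set μ : ℝ := ∫ t in (0:ℝ)..1, β N t with hμ
  have hμ0 : 0 ≤ μ := intervalIntegral.integral_nonneg zero_le_one fun t _ => hβ0 N t
  have hμK : K * μ < 1 := by
    rw [lt_div_iff₀ (by positivity)] at hN
    nlinarith
  have hμ1 : μ < 1 := by nlinarith
  set η : ℝ := (1 - K * μ) / (1 - μ) with hη
  have hη0 : 0 < η := div_pos (by linarith) (by linarith)
  have hηK : η ≤ K := by
    rw [hη, div_le_iff₀ (by linarith)]
    linarith
  have hηe : η * (1 - μ) = 1 - K * μ := by
    rw [hη]; field_simp [show (1 - μ) ≠ 0 by linarith]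
  set e : ℝ → ℝ := fun t => η + (K - η) * β N t with he
  have hes : ContDiff ℝ ∞ e := contDiff_const.add (contDiff_const.mul (hβs N))
  have hec : Continuous e := hes.continuous
  have hint : ∀ a b : ℝ, IntervalIntegrable e MeasureTheory.volume a b :=
    fun a b => hec.intervalIntegrable a b
  have hper : Function.Periodic e 1 := by
    intro t
    simp only [he, hβ]
    rw [show 2 * Real.pi * (t + 1) = 2 * Real.pi * t + 2 * Real.pi by ring, Real.cos_add_two_pi]
  have hone : ∫ t in (0:ℝ)..1, e t = 1 := by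
    simp only [he]
    rw [intervalIntegral.integral_add intervalIntegrable_const
      (((hβc N).const_mul _).intervalIntegrable 0 1), intervalIntegral.integral_const_mul,
      intervalIntegral.integral_const, ← hμ]
    simp only [sub_zero, one_smul]
    linarith
  set E : ℝ → ℝ := fun t => ∫ s in (0:ℝ)..t, e s with hE
  have hEd : ∀ t, HasDerivAt E (e t) t := fun t =>
    intervalIntegral.integral_hasDerivAt_right (hint 0 t)
      hec.stronglyMeasurable.stronglyMeasurableAtFilter hec.continuousAt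
  have hEs : ContDiff ℝ ∞ E := by
    rw [contDiff_infty_iff_deriv]
    refine ⟨fun t => (hEd t).differentiableAt, ?_⟩
    rw [show deriv E = e from funext fun t => (hEd t).deriv]
    exact hes
  have hE1 : ∀ t, E (t + 1) = E t + 1 := by
    intro t
    simp only [hE]
    rw [hper.intervalIntegral_add_eq_add 0 t hint, zero_add, hone]
  -- the neighbourhood of the integers
  obtain ⟨δ, hδ, hδ1⟩ : ∃ δ > 0, ∀ t : ℝ, |t| ≤ δ → N * (1 - Real.cos (2 * Real.pi * t)) ≤ 1 := by
    have hc : Continuous (fun t : ℝ => (N : ℝ) * (1 - Real.cos (2 * Real.pi * t))) := by fun_prop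
    have h0 : (fun t : ℝ => (N : ℝ) * (1 - Real.cos (2 * Real.pi * t))) 0 < 1 := by simp
    have h1 := (hc.tendsto 0).eventually (gt_mem_nhds h0)
    rw [Metric.eventually_nhds_iff] at h1
    obtain ⟨ε, hε, h2⟩ := h1
    refine ⟨ε / 2, by positivity, fun t ht => (h2 ?_).le⟩
    rw [Real.dist_eq, sub_zero]
    linarith
  have heK : ∀ t, |t| ≤ δ → e t = K := by
    intro t ht
    have : β N t = 1 := Real.smoothTransition.one_of_one_le (by linarith [hδ1 t ht])
    simp only [he, this]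
    ring
  refine ⟨E, e, δ, hδ, hEs, hEd, fun t => ?_, fun t => ?_, heK, fun m => ?_⟩
  · have := mul_nonneg (sub_nonneg.2 hηK) (hβ0 N t)
    simp only [he]
    linarith
  · have := mul_le_mul_of_nonneg_left (hβ1 N t) (sub_nonneg.2 hηK)
    simp only [he]
    linarith
  · induction m with
    | zero =>
      intro s hs
      simp only [Nat.cast_zero, zero_add, hE]
      rw [intervalIntegral.integral_congr (g := fun _ => K)]
      · simp [mul_comm]
      · intro t ht
        refine heK t ?_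
        rcases le_total 0 s with h | h
        · rw [uIcc_of_le h] at ht
          rw [abs_of_nonneg ht.1]
          exact ht.2.trans ((le_abs_self s).trans hs)
        · rw [uIcc_of_ge h] at ht
          rw [abs_of_nonpos ht.2]
          exact (neg_le_neg ht.1).trans ((neg_le_abs s).trans hs)
    | succ m ih =>
      intro s hs
      rw [show ((m + 1 : ℕ) : ℝ) + s = (m + s) + 1 by push_cast; ring, hE1, ih s hs]
      push_cast
      ring

/-- order isomorphism from a smooth function with positive derivative -/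
lemma mkIso (a a' : ℝ → ℝ) (hs : ContDiff ℝ ∞ a) (hd : ∀ x, HasDerivAt a (a' x) x)
    (hpos : ∀ x, 0 < a' x) (A B : ℝ) (hA : ∀ x, x ≤ A → a x = x) (hB : ∀ x, B ≤ x → a x = x) :
    ∃ φ : ℝ ≃o ℝ, (∀ x, φ x = a x) ∧ ContDiff ℝ ∞ φ ∧ ContDiff ℝ ∞ (φ⁻¹ : ℝ ≃o ℝ) := by
  have hmono : StrictMono a := strictMono_of_deriv_pos fun x => by rw [(hd x).deriv]; exact hpos x
  have hsurj : Function.Surjective a := by
    refine hs.continuous.surjective ?_ ?_
    · exact tendsto_id.congr' (by
        filter_upwards [eventually_ge_atTop B] with x hx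
        exact (hB x hx).symm)
    · exact tendsto_id.congr' (by
        filter_upwards [eventually_le_atBot A] with x hx
        exact (hA x hx).symm)
  set φ : ℝ ≃o ℝ := StrictMono.orderIsoOfSurjective a hmono hsurj with hφ
  have hφa : (φ : ℝ → ℝ) = a := by
    funext x
    rfl
  refine ⟨φ, fun x => congrFun hφa x, by rw [hφa]; exact hs, ?_⟩
  have h := Homeomorph.contDiff_symm_deriv (n := ∞) φ.toHomeomorph (f' := a')
    (fun x => (hpos x).ne') (fun x => by
      have := hd x
      rw [← hφa] at this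
      exact this) (by
      have := hs
      rw [← hφa] at this
      exact this)
  exact h



/-- the parameters of the construction -/
structure Par where
  c : ℝ
  n : ℝ
  P : ℝ
  Q : ℝ
  Δ : ℝ
  lam : ℝ
  w : ℝ
  L : ℝ
  R : ℝ
  Lb : ℝ
  δ : ℝ
  E : ℝ → ℝ
  e : ℝ → ℝ
  hc1 : 1 ≤ c
  hc : ∀ x, st' x ≤ c
  hn : 1 ≤ n
  hP : P = n + 2 * c + 3
  hQ : Q = P + 4 * c + 10
  hΔ : Δ = Q - 1 + 1 / n
  hlam : 1 - 1 / (2 * (1 + c)) < lam
  hlam1 : lam < 1
  hδ : 0 < δ
  hw : w = min (δ * Δ) (1 / n)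
  hLb : Lb = 2 * Q * c
  hL : L = Lb + P + n * Q + 1
  hR : R = L + Lb + 1
  hEs : ContDiff ℝ ∞ E
  hEd : ∀ t, HasDerivAt E (e t) t
  he0 : ∀ t, 0 < e t
  heK : ∀ t, e t ≤ lam * n * Δ
  heK' : ∀ t, |t| ≤ δ → e t = lam * n * Δ
  hEm : ∀ m : ℕ, ∀ s, |s| ≤ δ → E (m + s) = m + lam * n * Δ * s

namespace Par

variable (p : Par)

lemma n_pos : 0 < p.n := by linarith [p.hn]

lemma c_pos : 0 < p.c := by linarith [p.hc1]

lemma inv_n : 0 < 1 / p.n ∧ 1 / p.n ≤ 1 :=
  ⟨by have := p.n_pos; positivity, by rw [div_le_one p.n_pos]; exact p.hn⟩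

lemma P_ge : 6 ≤ p.P := by rw [p.hP]; linarith [p.hn, p.hc1]

lemma Q_ge : 20 ≤ p.Q := by rw [p.hQ]; linarith [p.P_ge, p.hc1]

lemma Δ_ge : 19 ≤ p.Δ := by rw [p.hΔ]; linarith [p.Q_ge, p.inv_n.1]

lemma Δ_pos : 0 < p.Δ := by linarith [p.Δ_ge]

lemma lam_ge : 3 / 4 ≤ p.lam := by
  have h1 := p.hlam
  have h2 : 1 / (2 * (1 + p.c)) ≤ 1 / 4 := by
    rw [div_le_div_iff₀ (by linarith [p.hc1]) (by norm_num)]
    linarith [p.hc1]
  linarith

lemma lam_c : (1 - p.lam) * (1 + p.c) < 1 := by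
  have h1 := p.hlam
  have h2 : 1 - p.lam < 1 / (2 * (1 + p.c)) := by linarith
  rw [lt_div_iff₀ (by linarith [p.hc1])] at h2
  linarith

lemma w_pos : 0 < p.w := by
  rw [p.hw]
  exact lt_min (mul_pos p.hδ p.Δ_pos) p.inv_n.1

lemma w_le : p.w ≤ p.δ * p.Δ := by rw [p.hw]; exact min_le_left _ _

lemma w_le' : p.w ≤ 1 / p.n := by rw [p.hw]; exact min_le_right _ _

lemma w_le1 : p.w ≤ 1 := p.w_le'.trans p.inv_n.2

lemma Lb_pos : 0 < p.Lb := by
  rw [p.hLb]
  have := p.Q_ge
  have := p.c_pos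
  positivity

/-- the excess of the translation -/
noncomputable def u (s : ℝ) : ℝ := s - p.E (s / p.Δ) / p.n

/-- its derivative -/
noncomputable def u' (s : ℝ) : ℝ := 1 - p.e (s / p.Δ) / (p.n * p.Δ)

lemma u_hd (s : ℝ) : HasDerivAt p.u (p.u' s) s := by
  have h1 : HasDerivAt (fun s => s / p.Δ) (1 / p.Δ) s := (hasDerivAt_id s).div_const _
  have h2 : HasDerivAt (fun s => p.E (s / p.Δ)) (p.e (s / p.Δ) * (1 / p.Δ)) s :=
    (p.hEd (s / p.Δ)).comp s h1
  have h3 := (hasDerivAt_id s).sub (h2.div_const p.n)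
  refine h3.congr_deriv ?_
  unfold u'
  have := p.Δ_pos.ne'
  have := p.n_pos.ne'
  field_simp

lemma u'_ge (s : ℝ) : 1 - p.lam ≤ p.u' s := by
  unfold u'
  have h := p.heK (s / p.Δ)
  have h1 : p.e (s / p.Δ) / (p.n * p.Δ) ≤ p.lam := by
    rw [div_le_iff₀ (mul_pos p.n_pos p.Δ_pos)]
    linarith
  linarith

lemma u'_nonneg (s : ℝ) : 0 ≤ p.u' s := by linarith [p.u'_ge s, p.hlam1]

lemma u'_lt (s : ℝ) : p.u' s < 1 := by
  unfold u'
  have := div_pos (p.he0 (s / p.Δ)) (mul_pos p.n_pos p.Δ_pos)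
  linarith

lemma near (m : ℕ) {s : ℝ} (h : |s| ≤ p.w) :
    p.E (m + s / p.Δ) / p.n = m / p.n + p.lam * s := by
  have h1 : |s / p.Δ| ≤ p.δ := by
    rw [abs_div, abs_of_pos p.Δ_pos, div_le_iff₀ p.Δ_pos]
    exact h.trans p.w_le
  rw [p.hEm m _ h1]
  have := p.Δ_pos.ne'
  have := p.n_pos.ne'
  field_simp

lemma u_near {s : ℝ} (h : |s| ≤ p.w) : p.u s = (1 - p.lam) * s := by
  have := p.near 0 h
  simp only [Nat.cast_zero, zero_add, zero_div] at this
  unfold u
  rw [this]
  ring

lemma u'_near {s : ℝ} (h : |s| ≤ p.w) : p.u' s = 1 - p.lam := by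
  have h1 : |s / p.Δ| ≤ p.δ := by
    rw [abs_div, abs_of_pos p.Δ_pos, div_le_iff₀ p.Δ_pos]
    exact h.trans p.w_le
  unfold u'
  rw [p.heK' _ h1]
  have := p.Δ_pos.ne'
  have := p.n_pos.ne'
  field_simp

lemma u_nonneg {s : ℝ} (h : 0 ≤ s) : 0 ≤ p.u s := by
  have hm : Monotone p.u := monotone_of_deriv_nonneg (fun s => (p.u_hd s).differentiableAt)
    fun s => by rw [(p.u_hd s).deriv]; exact p.u'_nonneg s
  have h0 : p.u 0 = 0 := by
    rw [p.u_near (by rw [abs_zero]; exact p.w_pos.le)]; ring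
  rw [← h0]
  exact hm h

/-- the displacement -/
noncomputable def D (x : ℝ) : ℝ := st (x / (2 * p.c)) + p.u (x - p.P) * st ((x - p.P) / p.w)

/-- its derivative -/
noncomputable def D' (x : ℝ) : ℝ := st' (x / (2 * p.c)) * (1 / (2 * p.c)) +
  (p.u' (x - p.P) * st ((x - p.P) / p.w) + p.u (x - p.P) * (st' ((x - p.P) / p.w) * (1 / p.w)))

lemma D_hd (x : ℝ) : HasDerivAt p.D (p.D' x) x := by
  have h1 : HasDerivAt (fun x => x / (2 * p.c)) (1 / (2 * p.c)) x := (hasDerivAt_id x).div_const _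
  have h2 : HasDerivAt (fun x => st (x / (2 * p.c))) (st' (x / (2 * p.c)) * (1 / (2 * p.c))) x :=
    st_comp h1
  have h3 : HasDerivAt (fun x => x - p.P) 1 x := (hasDerivAt_id x).sub_const _
  have h4 : HasDerivAt (fun x => (x - p.P) / p.w) (1 / p.w) x := h3.div_const _
  have h5 : HasDerivAt (fun x => st ((x - p.P) / p.w)) (st' ((x - p.P) / p.w) * (1 / p.w)) x :=
    st_comp h4
  have h6 : HasDerivAt (fun x => p.u (x - p.P)) (p.u' (x - p.P)) x := by
    have := (p.u_hd (x - p.P)).comp x h3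
    rw [mul_one] at this
    exact this
  exact h2.add (h6.mul h5)

lemma st_le (x : ℝ) : st x ≤ 1 := Real.smoothTransition.le_one x

lemma st_nonneg (x : ℝ) : 0 ≤ st x := Real.smoothTransition.nonneg x

lemma D_nonneg (x : ℝ) : 0 ≤ p.D x := by
  unfold D
  rcases le_total x p.P with h | h
  · have h1 : st ((x - p.P) / p.w) = 0 :=
      Real.smoothTransition.zero_of_nonpos (div_nonpos_of_nonpos_of_nonneg (by linarith) p.w_pos.le)
    rw [h1, mul_zero, add_zero]
    exact st_nonneg _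
  · exact add_nonneg (st_nonneg _) (mul_nonneg (p.u_nonneg (by linarith)) (st_nonneg _))

lemma D'_nonneg (x : ℝ) : 0 ≤ p.D' x := by
  unfold D'
  have h0 : 0 ≤ st' (x / (2 * p.c)) * (1 / (2 * p.c)) :=
    mul_nonneg (st'_nonneg _) (by have := p.c_pos; positivity)
  refine add_nonneg h0 ?_
  rcases le_total x p.P with h | h
  · have h2 : (x - p.P) / p.w ≤ 0 := div_nonpos_of_nonpos_of_nonneg (by linarith) p.w_pos.le
    have h1 : st ((x - p.P) / p.w) = 0 := Real.smoothTransition.zero_of_nonpos h2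
    rw [h1, st'_zero_left h2]
    simp
  · exact add_nonneg (mul_nonneg (p.u'_nonneg _) (st_nonneg _)) (mul_nonneg
      (p.u_nonneg (by linarith)) (mul_nonneg (st'_nonneg _) (one_div_nonneg.2 p.w_pos.le)))

lemma D'_lt (x : ℝ) : p.D' x < 1 := by
  unfold D'
  rcases le_total x p.P with h | h
  · have h2 : (x - p.P) / p.w ≤ 0 := div_nonpos_of_nonpos_of_nonneg (by linarith) p.w_pos.le
    have h1 : st ((x - p.P) / p.w) = 0 := Real.smoothTransition.zero_of_nonpos h2
    rw [h1, st'_zero_left h2, mul_zero, zero_mul, mul_zero, add_zero, add_zero]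
    have h3 := p.hc (x / (2 * p.c))
    rw [mul_one_div, div_lt_one (by linarith [p.c_pos])]
    linarith [p.c_pos]
  · have h1 : 1 ≤ x / (2 * p.c) := by
      rw [le_div_iff₀ (by linarith [p.c_pos]), one_mul]
      have := p.hP
      linarith [p.hn]
    rw [st'_zero_right h1, zero_mul, zero_add]
    rcases le_total (x - p.P) p.w with h2 | h2
    · have h3 : |x - p.P| ≤ p.w := by rw [abs_of_nonneg (by linarith)]; exact h2
      rw [p.u'_near h3, p.u_near h3]
      have hl : 0 ≤ 1 - p.lam := by linarith [p.hlam1]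
      have h4 : (1 - p.lam) * st ((x - p.P) / p.w) ≤ (1 - p.lam) * 1 :=
        mul_le_mul_of_nonneg_left (st_le _) hl
      have h5 : (x - p.P) * (st' ((x - p.P) / p.w) * (1 / p.w)) ≤ p.c := by
        have h6 : (x - p.P) * (st' ((x - p.P) / p.w) * (1 / p.w)) =
            ((x - p.P) / p.w) * st' ((x - p.P) / p.w) := by ring
        rw [h6]
        have h7 : (x - p.P) / p.w ≤ 1 := (div_le_one p.w_pos).2 h2
        have h8 := mul_le_mul h7 (p.hc ((x - p.P) / p.w)) (st'_nonneg _) zero_le_one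
        linarith
      have h9 := mul_le_mul_of_nonneg_left h5 hl
      have h10 := p.lam_c
      have h11 : (1 - p.lam) * (x - p.P) * (st' ((x - p.P) / p.w) * (1 / p.w)) =
        (1 - p.lam) * ((x - p.P) * (st' ((x - p.P) / p.w) * (1 / p.w))) := by ring
      rw [h11]
      linarith
    · have h3 : 1 ≤ (x - p.P) / p.w := (one_le_div p.w_pos).2 h2
      rw [st'_zero_right h3, zero_mul, mul_zero, add_zero]
      have h4 := mul_le_mul_of_nonneg_left (st_le ((x - p.P) / p.w)) (p.u'_nonneg (x - p.P))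
      linarith [p.u'_lt (x - p.P)]

/-- the first map -/
noncomputable def a (x : ℝ) : ℝ := x - p.D x * st (p.R - x)

/-- its derivative -/
noncomputable def a' (x : ℝ) : ℝ := 1 - (p.D' x * st (p.R - x) + p.D x * (st' (p.R - x) * (-1)))

lemma a_hd (x : ℝ) : HasDerivAt p.a (p.a' x) x := by
  have h1 : HasDerivAt (fun x => p.R - x) (-1) x := by
    simpa using (hasDerivAt_id x).const_sub p.R
  have h2 : HasDerivAt (fun x => st (p.R - x)) (st' (p.R - x) * (-1)) x :=
    st_comp h1
  exact (hasDerivAt_id x).sub ((p.D_hd x).mul h2)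

lemma a'_pos (x : ℝ) : 0 < p.a' x := by
  unfold a'
  have h1 := mul_le_mul_of_nonneg_left (st_le (p.R - x)) (p.D'_nonneg x)
  have h2 := p.D'_lt x
  have h3 := mul_nonneg (p.D_nonneg x) (st'_nonneg (p.R - x))
  linarith

lemma a_sm : ContDiff ℝ ∞ p.a := by
  have hst : ContDiff ℝ ∞ Real.smoothTransition := Real.smoothTransition.contDiff
  have hu : ContDiff ℝ ∞ p.u := by
    unfold u
    exact contDiff_id.sub ((p.hEs.comp (contDiff_id.div_const _)).div_const _)
  have hD : ContDiff ℝ ∞ p.D := by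
    unfold D
    refine (hst.comp (contDiff_id.div_const _)).add ((hu.comp (contDiff_id.sub contDiff_const)).mul
      (hst.comp ((contDiff_id.sub contDiff_const).div_const _)))
  unfold a
  exact contDiff_id.sub (hD.mul (hst.comp (contDiff_const.sub contDiff_id)))

/-- the second map -/
noncomputable def b (x : ℝ) : ℝ := x + p.Q * (st ((p.L - x) / p.Lb) * st ((x + p.R) / p.Lb))

/-- its derivative -/
noncomputable def b' (x : ℝ) : ℝ := 1 + p.Q * ((st' ((p.L - x) / p.Lb) * (-1 / p.Lb)) *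
  st ((x + p.R) / p.Lb) + st ((p.L - x) / p.Lb) * (st' ((x + p.R) / p.Lb) * (1 / p.Lb)))

lemma b_hd (x : ℝ) : HasDerivAt p.b (p.b' x) x := by
  have h1 : HasDerivAt (fun x => p.L - x) (-1) x := by
    simpa using (hasDerivAt_id x).const_sub p.L
  have h2 : HasDerivAt (fun x => (p.L - x) / p.Lb) (-1 / p.Lb) x := h1.div_const _
  have h3 : HasDerivAt (fun x => st ((p.L - x) / p.Lb)) (st' ((p.L - x) / p.Lb) * (-1 / p.Lb)) x :=
    st_comp h2
  have h4 : HasDerivAt (fun x => (x + p.R) / p.Lb) (1 / p.Lb) x :=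
    ((hasDerivAt_id x).add_const _).div_const _
  have h5 : HasDerivAt (fun x => st ((x + p.R) / p.Lb)) (st' ((x + p.R) / p.Lb) * (1 / p.Lb)) x :=
    st_comp h4
  exact (hasDerivAt_id x).add ((h3.mul h5).const_mul p.Q)

lemma b'_pos (x : ℝ) : 0 < p.b' x := by
  unfold b'
  have hQ : 0 < p.Q := by linarith [p.Q_ge]
  have h1 : 0 ≤ st ((p.L - x) / p.Lb) * (st' ((x + p.R) / p.Lb) * (1 / p.Lb)) :=
    mul_nonneg (st_nonneg _) (mul_nonneg (st'_nonneg _) (one_div_nonneg.2 p.Lb_pos.le))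
  have h2 : st' ((p.L - x) / p.Lb) * st ((x + p.R) / p.Lb) ≤ p.c * 1 :=
    mul_le_mul (p.hc _) (st_le _) (st_nonneg _) p.c_pos.le
  have h3 : (st' ((p.L - x) / p.Lb) * (-1 / p.Lb)) * st ((x + p.R) / p.Lb) =
    -((st' ((p.L - x) / p.Lb) * st ((x + p.R) / p.Lb)) / p.Lb) := by ring
  rw [h3]
  have h4 : (st' ((p.L - x) / p.Lb) * st ((x + p.R) / p.Lb)) / p.Lb ≤ p.c / p.Lb := by
    refine div_le_div_of_nonneg_right ?_ p.Lb_pos.le
    linarith
  have h5 : p.Q * (p.c / p.Lb) = 1 / 2 := by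
    rw [p.hLb]
    have := hQ.ne'
    have := p.c_pos.ne'
    field_simp
  have h6 := mul_le_mul_of_nonneg_left h4 hQ.le
  have h7 := mul_nonneg hQ.le h1
  rw [mul_add]
  linarith

lemma b_sm : ContDiff ℝ ∞ p.b := by
  have hst : ContDiff ℝ ∞ Real.smoothTransition := Real.smoothTransition.contDiff
  unfold b
  exact contDiff_id.add (contDiff_const.mul ((hst.comp
    ((contDiff_const.sub contDiff_id).div_const _)).mul
    (hst.comp ((contDiff_id.add contDiff_const).div_const _))))

lemma nQ : p.Q ≤ p.n * p.Q := by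
  have := p.Q_ge
  exact le_mul_of_one_le_left (by linarith) p.hn

lemma L_gt : p.P + p.Q + 1 ≤ p.L := by
  rw [p.hL]
  linarith [p.nQ, p.Lb_pos]

/-- `b` is the translation by `Q` in the middle -/
lemma b_mid {x : ℝ} (h1 : 0 ≤ x) (h2 : x ≤ p.P + p.n * p.Q + 1) : p.b x = x + p.Q := by
  have h3 : 1 ≤ (p.L - x) / p.Lb := by
    rw [le_div_iff₀ p.Lb_pos, p.hL]; linarith
  have h4 : 1 ≤ (x + p.R) / p.Lb := by
    rw [le_div_iff₀ p.Lb_pos, p.hR]; linarith [p.L_gt, p.P_ge, p.Q_ge]
  have e1 : st ((p.L - x) / p.Lb) = 1 := Real.smoothTransition.one_of_one_le h3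
  have e2 : st ((x + p.R) / p.Lb) = 1 := Real.smoothTransition.one_of_one_le h4
  unfold b
  rw [e1, e2]; ring

/-- `a` is the translation by `-1` on `[2c, P]` -/
lemma a_low {x : ℝ} (h1 : 2 * p.c ≤ x) (h2 : x ≤ p.P) : p.a x = x - 1 := by
  have h3 : st (x / (2 * p.c)) = 1 := Real.smoothTransition.one_of_one_le (by
    rw [le_div_iff₀ (by linarith [p.c_pos])]; linarith)
  have h4 : st ((x - p.P) / p.w) = 0 := Real.smoothTransition.zero_of_nonpos
    (div_nonpos_of_nonpos_of_nonneg (by linarith) p.w_pos.le)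
  have h5 : st (p.R - x) = 1 := Real.smoothTransition.one_of_one_le (by
    rw [p.hR]; linarith [p.L_gt, p.Q_ge, p.Lb_pos])
  unfold a D
  rw [h3, h4, h5]; ring

/-- `a` beyond `P + w` -/
lemma a_high {x : ℝ} (h1 : p.P + 1 ≤ x) (h2 : x ≤ p.L) :
    p.a x = p.P - 1 + p.E ((x - p.P) / p.Δ) / p.n := by
  have h3 : st (x / (2 * p.c)) = 1 := Real.smoothTransition.one_of_one_le (by
    rw [le_div_iff₀ (by linarith [p.c_pos])]
    have := p.hP
    linarith [p.hn])
  have h4 : st ((x - p.P) / p.w) = 1 := Real.smoothTransition.one_of_one_le (by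
    rw [le_div_iff₀ p.w_pos]; linarith [p.w_le1])
  have h5 : st (p.R - x) = 1 := Real.smoothTransition.one_of_one_le (by
    rw [p.hR]; linarith [p.Lb_pos])
  unfold a D u
  rw [h3, h4, h5]; ring

lemma E_le {t : ℝ} (ht : 0 ≤ t) : p.E t ≤ t + 1 := by
  have hm : Monotone p.E := monotone_of_deriv_nonneg (fun s => (p.hEd s).differentiableAt)
    fun s => by rw [(p.hEd s).deriv]; exact (p.he0 s).le
  have h1 := hm (Nat.le_ceil t)
  have h2 := p.hEm ⌈t⌉₊ 0 (by rw [abs_zero]; exact p.hδ.le)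
  rw [add_zero, mul_zero, add_zero] at h2
  rw [h2] at h1
  linarith [Nat.ceil_lt_add_one ht]

lemma gap : p.a p.L < p.b 0 := by
  rw [p.b_mid le_rfl (by nlinarith [p.P_ge, p.nQ, p.Q_ge]), zero_add,
    p.a_high (by linarith [p.L_gt, p.Q_ge]) le_rfl]
  have hQ : 0 < p.Q := by linarith [p.Q_ge]
  have h1 : (p.L - p.P) / p.Δ ≤ 4 * p.c + 2 * p.n + 1 := by
    rw [div_le_iff₀ p.Δ_pos, p.hL, p.hLb]
    have h2 : p.Q / 2 ≤ p.Δ := by rw [p.hΔ]; linarith [p.Q_ge, p.inv_n.1]
    have h3 : 0 ≤ 4 * p.c + 2 * p.n + 1 := by linarith [p.c_pos, p.n_pos]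
    have h4 := mul_le_mul_of_nonneg_left h2 h3
    have h5 := p.Q_ge
    nlinarith
  have h2 : 0 ≤ (p.L - p.P) / p.Δ := div_nonneg (by linarith [p.L_gt, p.Q_ge]) p.Δ_pos.le
  have h3 := p.E_le h2
  have h4 : p.E ((p.L - p.P) / p.Δ) / p.n ≤ 4 * p.c + 4 := by
    rw [div_le_iff₀ p.n_pos]
    nlinarith [p.hn, p.c_pos]
  linarith [p.hQ]

end Par

end ModelF

open ModelF in
lemma ModelF.pow_low (p : Par) (φ : ℝ ≃o ℝ) (hφ : ∀ x, φ x = p.a x) (m : ℕ) (x : ℝ)
    (h1 : 2 * p.c + m ≤ x + 1) (h2 : x ≤ p.P) : (φ ^ m) x = x - m := by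
  induction m with
  | zero => simp
  | succ m ih =>
    push_cast at h1
    rw [pow_succ', RelIso.mul_apply, ih (by linarith), hφ,
      p.a_low (by linarith) (by linarith [(Nat.cast_nonneg m : (0:ℝ) ≤ m)])]
    push_cast
    ring

open ModelF in
lemma ModelF.pow_mid (p : Par) (φ : ℝ ≃o ℝ) (hφ : ∀ x, φ x = p.b x) (m : ℕ) (x : ℝ)
    (h1 : 0 ≤ x) (h2 : x ≤ p.P + 1) (hm : (m : ℝ) ≤ p.n) : (φ ^ m) x = x + m * p.Q := by
  have hQ : 0 < p.Q := by linarith [p.Q_ge]
  induction m with
  | zero => simp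
  | succ m ih =>
    push_cast at hm
    rw [pow_succ', RelIso.mul_apply, ih (by linarith), hφ, p.b_mid]
    · push_cast; ring
    · have := mul_nonneg (Nat.cast_nonneg (α := ℝ) m) hQ.le
      linarith
    · have := mul_le_mul_of_nonneg_right (show (m : ℝ) ≤ p.n by linarith) hQ.le
      linarith

open ModelF in
/-- existence of models -/
theorem s_model : S_model := by
  intro M
  obtain ⟨c, hc1, hc⟩ := st'_bd
  refine ⟨1 - 1 / (2 * (1 + c)), ?_, fun lam h1 h2 => ?_⟩
  · have : 0 < 1 / (2 * (1 + c)) := by positivity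
    linarith
  have hn : (1 : ℝ) ≤ (M : ℝ) + 1 := by
    have := Nat.cast_nonneg (α := ℝ) M
    linarith
  have hn0 : (0 : ℝ) < (M : ℝ) + 1 := by linarith
  set n : ℝ := (M : ℝ) + 1 with hnd
  set Q : ℝ := n + 2 * c + 3 + 4 * c + 10 with hQ
  set Δ : ℝ := Q - 1 + 1 / n with hΔ
  have hinv : 0 < 1 / n := by positivity
  have hΔ1 : 19 ≤ Δ := by rw [hΔ, hQ]; linarith
  have hlam : 3 / 4 ≤ lam := by
    have h3 : 1 / (2 * (1 + c)) ≤ 1 / 4 := by
      rw [div_le_div_iff₀ (by linarith) (by norm_num)]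
      linarith
    linarith
  have hK : 1 ≤ lam * n * Δ := by
    have h3 : 3 / 4 * 1 ≤ lam * n := mul_le_mul hlam hn (by norm_num) (by linarith)
    have h4 : 3 / 4 * 1 * 19 ≤ lam * n * Δ := mul_le_mul h3 hΔ1 (by norm_num) (by positivity)
    linarith
  obtain ⟨E, e, δ, hδ, hEs, hEd, he0, heK, heK', hEm⟩ := exE _ hK
  let p : Par :=
    { c := c, n := n, P := n + 2 * c + 3, Q := Q, Δ := Δ, lam := lam, w := min (δ * Δ) (1 / n),
      L := 2 * Q * c + (n + 2 * c + 3) + n * Q + 1,
      R := 2 * Q * c + (n + 2 * c + 3) + n * Q + 1 + 2 * Q * c + 1, Lb := 2 * Q * c, δ := δ,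
      E := E, e := e, hc1 := hc1, hc := hc, hn := hn, hP := rfl, hQ := rfl, hΔ := rfl,
      hlam := h1, hlam1 := h2, hδ := hδ, hw := rfl, hLb := rfl, hL := rfl, hR := rfl,
      hEs := hEs, hEd := hEd, he0 := he0, heK := heK, heK' := heK', hEm := hEm }
  have hLpos : 0 < p.L := by linarith [p.L_gt, p.P_ge, p.Q_ge]
  have hRL : p.L + 1 < p.R := by rw [p.hR]; linarith [p.Lb_pos]
  obtain ⟨A, hA, hAs, hAs'⟩ := mkIso p.a p.a' p.a_sm p.a_hd p.a'_pos 0 p.R
    (fun x hx => by
      have h3 : st (x / (2 * p.c)) = 0 := Real.smoothTransition.zero_of_nonpos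
        (div_nonpos_of_nonpos_of_nonneg hx (by linarith [p.c_pos]))
      have h4 : st ((x - p.P) / p.w) = 0 := Real.smoothTransition.zero_of_nonpos
        (div_nonpos_of_nonpos_of_nonneg (by linarith [p.P_ge]) p.w_pos.le)
      unfold Par.a Par.D
      rw [h3, h4]; ring)
    (fun x hx => by
      have h5 : st (p.R - x) = 0 := Real.smoothTransition.zero_of_nonpos (by linarith)
      unfold Par.a
      rw [h5]; ring)
  obtain ⟨B, hB, hBs, hBs'⟩ := mkIso p.b p.b' p.b_sm p.b_hd p.b'_pos (-p.R) p.L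
    (fun x hx => by
      have h4 : st ((x + p.R) / p.Lb) = 0 := Real.smoothTransition.zero_of_nonpos
        (div_nonpos_of_nonpos_of_nonneg (by linarith) p.Lb_pos.le)
      unfold Par.b
      rw [h4]; ring)
    (fun x hx => by
      have h5 : st ((p.L - x) / p.Lb) = 0 := Real.smoothTransition.zero_of_nonpos
        (div_nonpos_of_nonpos_of_nonneg (by linarith) p.Lb_pos.le)
      unfold Par.b
      rw [h5]; ring)
  have hAf : (A : ℝ → ℝ) = p.a := funext hA
  have hBf : (B : ℝ → ℝ) = p.b := funext hB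
  have hdA : ∀ x, deriv A x = p.a' x := fun x => by rw [hAf]; exact (p.a_hd x).deriv
  have hdB : ∀ x, deriv B x = p.b' x := fun x => by rw [hBf]; exact (p.b_hd x).deriv
  have hB0 : B 0 = p.Q := by
    rw [hB, p.b_mid le_rfl (by linarith [p.P_ge, p.nQ, p.Q_ge]), zero_add]
  have ha' : ∀ x, x ≤ p.L → p.a' x = 1 - p.D' x := by
    intro x hx
    have h3 : 1 ≤ p.R - x := by linarith
    have h5 : st (p.R - x) = 1 := Real.smoothTransition.one_of_one_le h3
    unfold Par.a'
    rw [h5, st'_zero_right h3]; ring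
  refine ⟨A, B, p.L, p.R, ?_⟩
  refine
    { L_pos := hLpos
      L_lt := by linarith
      a_sm := hAs
      a_sm' := hAs'
      b_sm := hBs
      b_sm' := hBs'
      a_left := ?_
      a_right := ?_
      a_lt := ?_
      b_right := ?_
      b_left := ?_
      b_gt := ?_
      gap := by rw [hA, hB]; exact p.gap
      da := ?_
      db := ?_
      da' := ?_
      aff := ?_ }
  · intro x hx
    have h3 : st (x / (2 * p.c)) = 0 := Real.smoothTransition.zero_of_nonpos
      (div_nonpos_of_nonpos_of_nonneg hx (by linarith [p.c_pos]))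
    have h4 : st ((x - p.P) / p.w) = 0 := Real.smoothTransition.zero_of_nonpos
      (div_nonpos_of_nonpos_of_nonneg (by linarith [p.P_ge]) p.w_pos.le)
    rw [hA]
    unfold Par.a Par.D
    rw [h3, h4]; ring
  · intro x hx
    have h5 : st (p.R - x) = 0 := Real.smoothTransition.zero_of_nonpos (by linarith)
    rw [hA]
    unfold Par.a
    rw [h5]; ring
  · intro x hx
    rw [hA]
    unfold Par.a
    have h3 : 0 < st (p.R - x) := Real.smoothTransition.pos_of_pos (by linarith [hx.2])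
    have h4 : 0 < p.D x := by
      unfold Par.D
      have h5 : 0 < st (x / (2 * p.c)) :=
        Real.smoothTransition.pos_of_pos (div_pos hx.1 (by linarith [p.c_pos]))
      refine add_pos_of_pos_of_nonneg h5 ?_
      rcases le_total x p.P with h | h
      · have h1 : st ((x - p.P) / p.w) = 0 := Real.smoothTransition.zero_of_nonpos
          (div_nonpos_of_nonpos_of_nonneg (by linarith) p.w_pos.le)
        rw [h1, mul_zero]
      · exact mul_nonneg (p.u_nonneg (by linarith)) (Par.st_nonneg _)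
    linarith [mul_pos h4 h3]
  · intro x hx
    have h5 : st ((p.L - x) / p.Lb) = 0 := Real.smoothTransition.zero_of_nonpos
      (div_nonpos_of_nonpos_of_nonneg (by linarith) p.Lb_pos.le)
    rw [hB]
    unfold Par.b
    rw [h5]; ring
  · intro x hx
    have h4 : st ((x + p.R) / p.Lb) = 0 := Real.smoothTransition.zero_of_nonpos
      (div_nonpos_of_nonpos_of_nonneg (by linarith) p.Lb_pos.le)
    rw [hB]
    unfold Par.b
    rw [h4]; ring
  · intro x hx
    rw [hB]
    unfold Par.b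
    have h3 : 0 < st ((p.L - x) / p.Lb) :=
      Real.smoothTransition.pos_of_pos (div_pos (by linarith [hx.2]) p.Lb_pos)
    have h4 : 0 < st ((x + p.R) / p.Lb) :=
      Real.smoothTransition.pos_of_pos (div_pos (by linarith [hx.1]) p.Lb_pos)
    have hQp : 0 < p.Q := by linarith [p.Q_ge]
    linarith [mul_pos hQp (mul_pos h3 h4)]
  · intro x hx
    rw [hdA, ha' x hx.2]
    linarith [p.D'_nonneg x]
  · intro x hx
    rw [hdB]
    unfold Par.b'
    have h3 : 1 ≤ (x + p.R) / p.Lb := by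
      rw [le_div_iff₀ p.Lb_pos, p.hR]; linarith [hx.1]
    rw [st'_zero_right h3, zero_mul, mul_zero, add_zero]
    have h4 : 0 ≤ st' ((p.L - x) / p.Lb) * st ((x + p.R) / p.Lb) :=
      mul_nonneg (st'_nonneg _) (Par.st_nonneg _)
    have h5 : (st' ((p.L - x) / p.Lb) * (-1 / p.Lb)) * st ((x + p.R) / p.Lb) =
      -((st' ((p.L - x) / p.Lb) * st ((x + p.R) / p.Lb)) / p.Lb) := by ring
    rw [h5]
    have h6 := div_nonneg h4 p.Lb_pos.le
    have hQp : 0 < p.Q := by linarith [p.Q_ge]
    linarith [mul_nonneg hQp.le h6]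
  · refine ⟨p.lam, p.hlam1, fun x hx => ?_⟩
    rw [hB0] at hx
    rw [hdA, ha' x hx.2]
    have h3 : 1 ≤ x / (2 * p.c) := by
      rw [le_div_iff₀ (by linarith [p.c_pos])]
      have := p.hP
      have := p.hQ
      linarith [p.n_pos, hx.1, p.c_pos]
    have h4 : 1 ≤ (x - p.P) / p.w := by
      rw [le_div_iff₀ p.w_pos]
      have := p.hQ
      linarith [hx.1, p.c_pos, p.w_le1]
    have h5 : st ((x - p.P) / p.w) = 1 := Real.smoothTransition.one_of_one_le h4
    unfold Par.D'
    rw [st'_zero_right h3, st'_zero_right h4, h5]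
    linarith [p.u'_ge (x - p.P)]
  · intro m hm1 hmM
    have hm1' : (1 : ℝ) ≤ m := by exact_mod_cast hm1
    have hmM' : (m : ℝ) ≤ p.n - 1 := by
      have : (m : ℝ) ≤ M := by exact_mod_cast hmM
      show (m : ℝ) ≤ n - 1
      rw [hnd]; linarith
    have hnp := p.n_pos
    have hmn : (m : ℝ) / p.n + 1 / p.n ≤ 1 := by
      rw [← add_div, div_le_one hnp]; linarith
    have hmn0 : 0 < (m : ℝ) / p.n := by positivity
    have hPd := p.hP
    have hw1 := p.w_le1
    have hw2 := p.w_le'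
    have hw0 := p.w_pos
    have hcp := p.c_pos
    have hQp : 0 < p.Q := by linarith [p.Q_ge]
    refine ⟨p.P - m + m / p.n, ⟨by linarith, by linarith [p.L_gt]⟩, p.w, p.w_pos,
      fun x hx => ?_⟩
    set s : ℝ := x - (p.P - m + m / p.n) with hs
    have hxs : x = p.P - m + m / p.n + s := by rw [hs]; ring
    have hs1 := (abs_le.1 hx).1
    have hs2 := (abs_le.1 hx).2
    rw [RelIso.mul_apply, ModelF.pow_mid p B hB m x (by linarith) (by linarith) (by linarith)]
    obtain ⟨k, hk⟩ : ∃ k, m = k + 1 := ⟨m - 1, by omega⟩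
    have hkm : (k : ℝ) = m - 1 := by rw [hk]; push_cast; ring
    have hmQ : p.Q ≤ m * p.Q := le_mul_of_one_le_left hQp.le hm1'
    have hmQ' : (m : ℝ) * p.Q ≤ p.n * p.Q - p.Q := by
      have := mul_le_mul_of_nonneg_right hmM' hQp.le
      linarith
    have hhigh : p.a (x + m * p.Q) = p.P - 1 + m / p.n + p.lam * s := by
      rw [p.a_high (by linarith [p.Q_ge]) (by rw [p.hL]; linarith [p.Lb_pos])]
      have h3 : (x + m * p.Q - p.P) / p.Δ = m + s / p.Δ := by
        rw [div_eq_iff p.Δ_pos.ne', add_mul, div_mul_cancel₀ _ p.Δ_pos.ne', hxs, p.hΔ]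
        ring
      rw [h3, p.near m hx]
      ring
    have hls : |p.lam * s| ≤ p.w := by
      rw [abs_mul, abs_of_pos (by linarith [p.lam_ge])]
      calc p.lam * |s| ≤ 1 * |s| := mul_le_mul_of_nonneg_right p.hlam1.le (abs_nonneg _)
        _ ≤ p.w := by rw [one_mul]; exact hx
    have hls1 := (abs_le.1 hls).1
    have hls2 := (abs_le.1 hls).2
    have hpow : (A ^ m) (x + m * p.Q) = (A ^ k) (A (x + m * p.Q)) := by
      rw [hk, pow_succ, RelIso.mul_apply]
    rw [hpow, hA, hhigh, ModelF.pow_low p A hA k _ (by linarith) (by linarith), hkm]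
    show _ = _ + p.lam * s
    ring

end Pool.Agent.W331.CR
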