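import Pool.Agent.W331.CR.Stm2

/-! The intervals of words shrink uniformly. -/

set_option autoImplicit false

open Set Filter Topology Function
open scoped ContDiff

namespace Pool.Agent.W331.CR

namespace Nest

variable {M : ℕ} {lam : ℝ} {a b : ℝ ≃o ℝ} {L R : ℝ}

lemma a_zero (h : Model M lam a b L R) : a 0 = 0 := h.a_left 0 le_rfl

lemma b_L (h : Model M lam a b L R) : b L = L := h.b_right L le_rfl

lemma b_zero_pos (h : Model M lam a b L R) : 0 < b 0 :=
  h.b_gt 0 ⟨by linarith [h.L_pos, h.L_lt], h.L_pos⟩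

lemma a_L_lt (h : Model M lam a b L R) : a L < L := h.a_lt L ⟨h.L_pos, h.L_lt⟩

lemma a_L_pos (h : Model M lam a b L R) : 0 < a L := by
  have := a.strictMono h.L_pos
  rwa [a_zero h] at this

lemma b_zero_lt (h : Model M lam a b L R) : b 0 < L := by
  have := b.strictMono h.L_pos
  rwa [b_L h] at this

lemma kap_append (a b : ℝ ≃o ℝ) (u w : List Bool) :
    kap a b (u ++ w) = kap a b u * kap a b w := by
  induction u with
  | nil => simp [kap]
  | cons c u ih => cases c <;> simp [kap, ih, mul_assoc]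

/-- letters map `J` into `J` -/
lemma a_mem (h : Model M lam a b L R) {x : ℝ} (hx : x ∈ Icc 0 L) : a x ∈ Icc 0 (a L) := by
  refine ⟨?_, a.monotone hx.2⟩
  have := a.monotone hx.1
  rwa [a_zero h] at this

lemma b_mem (h : Model M lam a b L R) {x : ℝ} (hx : x ∈ Icc 0 L) : b x ∈ Icc (b 0) L := by
  refine ⟨b.monotone hx.1, ?_⟩
  have := b.monotone hx.2
  rwa [b_L h] at this

lemma a_memJ (h : Model M lam a b L R) {x : ℝ} (hx : x ∈ Icc 0 L) : a x ∈ Icc 0 L :=
  ⟨(a_mem h hx).1, (a_mem h hx).2.trans (a_L_lt h).le⟩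

lemma b_memJ (h : Model M lam a b L R) {x : ℝ} (hx : x ∈ Icc 0 L) : b x ∈ Icc 0 L :=
  ⟨(b_zero_pos h).le.trans (b_mem h hx).1, (b_mem h hx).2⟩

lemma kap_mem (h : Model M lam a b L R) (u : List Bool) {x : ℝ} (hx : x ∈ Icc 0 L) :
    kap a b u x ∈ Icc 0 L := by
  induction u with
  | nil => exact hx
  | cons c u ih =>
    cases c
    · exact a_memJ h ih
    · exact b_memJ h ih

/-- a monotone bound -/
lemma lip_of_deriv {f : ℝ ≃o ℝ} (hf : ContDiff ℝ ∞ f) {c d C : ℝ}
    (hd : ∀ x ∈ Icc c d, deriv f x ≤ C) {x y : ℝ} (hx : x ∈ Icc c d) (hy : y ∈ Icc c d)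
    (hxy : x ≤ y) : f y - f x ≤ C * (y - x) := by
  have hdf : Differentiable ℝ f := hf.differentiable (by simp)
  exact (convex_Icc c d).image_sub_le_mul_sub_of_deriv_le f.continuous.continuousOn
    hdf.differentiableOn (fun z hz => hd z (interior_subset hz)) x hx y hy hxy

lemma a_ne (h : Model M lam a b L R) {x y : ℝ} (hx : x ∈ Icc 0 L) (hy : y ∈ Icc 0 L)
    (hxy : x ≤ y) : a y - a x ≤ y - x := by
  have := lip_of_deriv h.a_sm h.da hx hy hxy
  linarith

lemma b_ne (h : Model M lam a b L R) {x y : ℝ} (hx : x ∈ Icc 0 L) (hy : y ∈ Icc 0 L)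
    (hxy : x ≤ y) : b y - b x ≤ y - x := by
  have := lip_of_deriv h.b_sm h.db hx hy hxy
  linarith

lemma kap_ne (h : Model M lam a b L R) (u : List Bool) {x y : ℝ} (hx : x ∈ Icc 0 L)
    (hy : y ∈ Icc 0 L) (hxy : x ≤ y) : kap a b u y - kap a b u x ≤ y - x := by
  induction u with
  | nil => exact le_rfl
  | cons c u ih =>
    have h1 := kap_mem h u hx
    have h2 := kap_mem h u hy
    have h3 : kap a b u x ≤ kap a b u y := (kap a b u).monotone hxy
    cases c
    · exact (a_ne h h1 h2 h3).trans ih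
    · exact (b_ne h h1 h2 h3).trans ih

lemma kap_rep_false (n : ℕ) : kap a b (List.replicate n false) = a ^ n := by
  induction n with
  | zero => rfl
  | succ n ih => rw [List.replicate_succ, kap, ih, pow_succ']

lemma kap_rep_true (n : ℕ) : kap a b (List.replicate n true) = b ^ n := by
  induction n with
  | zero => rfl
  | succ n ih => rw [List.replicate_succ, kap, ih, pow_succ']

/-- iterates of a decreasing map converge to a fixed point -/
lemma pow_le_eps {f : ℝ ≃o ℝ} {p q : ℝ} (hpq : p < q) (hp : f p = p)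
    (hlt : ∀ x ∈ Ioc p q, f x < x) {ε : ℝ} (hε : 0 < ε) : ∃ n : ℕ, (f ^ n) q ≤ p + ε := by
  have hmem : ∀ n : ℕ, (f ^ n) q ∈ Ioc p q := by
    intro n
    induction n with
    | zero => exact ⟨hpq, le_rfl⟩
    | succ n ih =>
      rw [pow_succ', RelIso.mul_apply]
      refine ⟨?_, (hlt _ ih).le.trans ih.2⟩
      have := f.strictMono ih.1
      rwa [hp] at this
  have hanti : Antitone (fun n : ℕ => (f ^ n) q) := by
    refine antitone_nat_of_succ_le fun n => ?_
    rw [pow_succ', RelIso.mul_apply]
    exact (hlt _ (hmem n)).le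
  have hbdd : BddBelow (range (fun n : ℕ => (f ^ n) q)) := ⟨p, by
    rintro _ ⟨n, rfl⟩
    exact (hmem n).1.le⟩
  have hlim := tendsto_atTop_ciInf hanti hbdd
  set l := ⨅ n : ℕ, (f ^ n) q with hl
  have hl1 : p ≤ l := le_ciInf fun n => (hmem n).1.le
  have hl2 : l ≤ q := (ciInf_le hbdd 0)
  have hfl : f l = l := by
    have h1 : Tendsto (fun n : ℕ => f ((f ^ n) q)) atTop (𝓝 (f l)) :=
      (f.continuous.tendsto l).comp hlim
    have h2 : Tendsto (fun n : ℕ => (f ^ (n + 1)) q) atTop (𝓝 l) :=
      hlim.comp (tendsto_add_atTop_nat 1)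
    refine tendsto_nhds_unique (h1.congr fun n => ?_) h2
    rw [pow_succ', RelIso.mul_apply]
  have hlp : l = p := by
    by_contra hne
    have : p < l := lt_of_le_of_ne hl1 (Ne.symm hne)
    have := hlt l ⟨this, hl2⟩
    rw [hfl] at this
    exact lt_irrefl _ this
  rw [hlp] at hlim
  have := hlim.eventually (eventually_le_nhds (by linarith : p < p + ε))
  obtain ⟨n, hn⟩ := this.exists
  exact ⟨n, hn⟩

/-- iterates of an increasing map converge to a fixed point -/
lemma pow_ge_eps {f : ℝ ≃o ℝ} {p q : ℝ} (hpq : p < q) (hq : f q = q)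
    (hlt : ∀ x ∈ Ico p q, x < f x) {ε : ℝ} (hε : 0 < ε) : ∃ n : ℕ, q - ε ≤ (f ^ n) p := by
  have hmem : ∀ n : ℕ, (f ^ n) p ∈ Ico p q := by
    intro n
    induction n with
    | zero => exact ⟨le_rfl, hpq⟩
    | succ n ih =>
      rw [pow_succ', RelIso.mul_apply]
      refine ⟨ih.1.trans (hlt _ ih).le, ?_⟩
      have := f.strictMono ih.2
      rwa [hq] at this
  have hmono : Monotone (fun n : ℕ => (f ^ n) p) := by
    refine monotone_nat_of_le_succ fun n => ?_
    rw [pow_succ', RelIso.mul_apply]
    exact (hlt _ (hmem n)).le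
  have hbdd : BddAbove (range (fun n : ℕ => (f ^ n) p)) := ⟨q, by
    rintro _ ⟨n, rfl⟩
    exact (hmem n).2.le⟩
  have hlim := tendsto_atTop_ciSup hmono hbdd
  set l := ⨆ n : ℕ, (f ^ n) p with hl
  have hl1 : l ≤ q := ciSup_le fun n => (hmem n).2.le
  have hl2 : p ≤ l := (le_ciSup hbdd 0)
  have hfl : f l = l := by
    have h1 : Tendsto (fun n : ℕ => f ((f ^ n) p)) atTop (𝓝 (f l)) :=
      (f.continuous.tendsto l).comp hlim
    have h2 : Tendsto (fun n : ℕ => (f ^ (n + 1)) p) atTop (𝓝 l) :=
      hlim.comp (tendsto_add_atTop_nat 1)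
    refine tendsto_nhds_unique (h1.congr fun n => ?_) h2
    rw [pow_succ', RelIso.mul_apply]
  have hlp : l = q := by
    by_contra hne
    have : l < q := lt_of_le_of_ne hl1 hne
    have := hlt l ⟨hl2, this⟩
    rw [hfl] at this
    exact lt_irrefl _ this
  rw [hlp] at hlim
  have := hlim.eventually (eventually_ge_nhds (by linarith : q - ε < q))
  obtain ⟨n, hn⟩ := this.exists
  exact ⟨n, hn⟩

lemma pow_mono_le {f : ℝ ≃o ℝ} {p q : ℝ} (hpq : p ≤ q) (hp : f p = p)
    (hlt : ∀ x ∈ Ioc p q, f x < x) {n m : ℕ} (hnm : n ≤ m) : (f ^ m) q ≤ (f ^ n) q := by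
  have hmem : ∀ n : ℕ, (f ^ n) q ∈ Icc p q := by
    intro n
    induction n with
    | zero => exact ⟨hpq, le_rfl⟩
    | succ n ih =>
      rw [pow_succ', RelIso.mul_apply]
      rcases eq_or_lt_of_le ih.1 with h | h
      · rw [← h, hp]; exact ⟨le_rfl, hpq⟩
      · refine ⟨?_, (hlt _ ⟨h, ih.2⟩).le.trans ih.2⟩
        have := f.monotone ih.1
        rwa [hp] at this
  induction m, hnm using Nat.le_induction with
  | base => exact le_rfl
  | succ m _ ih =>
    refine le_trans ?_ ih
    rw [pow_succ', RelIso.mul_apply]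
    rcases eq_or_lt_of_le (hmem m).1 with h | h
    · rw [← h, hp]
    · exact (hlt _ ⟨h, (hmem m).2⟩).le

/-- a word of runs -/
lemma exists_run (h : Model M lam a b L R) {ε : ℝ} (hε : 0 < ε) :
    ∃ n : ℕ, ∀ c : Bool, ∀ x ∈ Icc 0 L, ∀ y ∈ Icc 0 L, x ≤ y →
      kap a b (List.replicate n c) y - kap a b (List.replicate n c) x ≤ ε := by
  obtain ⟨n₁, h1⟩ := pow_le_eps (f := a) h.L_pos (a_zero h)
    (fun x hx => h.a_lt x ⟨hx.1, lt_of_le_of_lt hx.2 h.L_lt⟩) hε
  obtain ⟨n₂, h2⟩ := pow_ge_eps (f := b) h.L_pos (b_L h)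
    (fun x hx => h.b_gt x ⟨by linarith [hx.1, h.L_pos, h.L_lt], hx.2⟩) hε
  rw [zero_add] at h1
  refine ⟨n₁ + n₂, ?_⟩
  intro c x hx y hy hxy
  have hy' := kap_mem h (List.replicate n₂ c) hy
  have hx' := kap_mem h (List.replicate n₂ c) hx
  have hy'' := kap_mem h (List.replicate n₁ c) hy
  have hx'' := kap_mem h (List.replicate n₁ c) hx
  cases c
  · rw [List.replicate_add, kap_append]
    rw [RelIso.mul_apply, RelIso.mul_apply]
    have e1 : kap a b (List.replicate n₁ false) (kap a b (List.replicate n₂ false) y) ≤ ε := by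
      refine le_trans ?_ h1
      rw [kap_rep_false n₁]
      exact (a ^ n₁).monotone hy'.2
    have e2 := (kap_mem h (List.replicate n₁ false) hx').1
    linarith
  · rw [add_comm, List.replicate_add, kap_append]
    rw [RelIso.mul_apply, RelIso.mul_apply]
    have e1 : L - ε ≤ kap a b (List.replicate n₂ true) (kap a b (List.replicate n₁ true) x) := by
      refine le_trans h2 ?_
      rw [kap_rep_true n₂]
      exact (b ^ n₂).monotone hx''.1
    have e2 := (kap_mem h (List.replicate n₂ true) hy'').2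
    linarith

/-- the factor `a b` contracts -/
lemma ab_contr (h : Model M lam a b L R) {ρ : ℝ} (hρ : ∀ x ∈ Icc (b 0) L, deriv a x ≤ ρ)
    (hρ0 : 0 ≤ ρ) (u w : List Bool) {x y : ℝ} (hx : x ∈ Icc 0 L) (hy : y ∈ Icc 0 L)
    (hxy : x ≤ y) :
    kap a b (u ++ false :: true :: w) y - kap a b (u ++ false :: true :: w) x ≤ ρ * (y - x) := by
  rw [kap_append, RelIso.mul_apply, RelIso.mul_apply]
  have h1 := kap_mem h w hx
  have h2 := kap_mem h w hy
  have h3 : kap a b w x ≤ kap a b w y := (kap a b w).monotone hxy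
  have e1 : kap a b w y - kap a b w x ≤ y - x := kap_ne h w hx hy hxy
  have e2 : b (kap a b w y) - b (kap a b w x) ≤ kap a b w y - kap a b w x := b_ne h h1 h2 h3
  have e3 : a (b (kap a b w y)) - a (b (kap a b w x)) ≤
      ρ * (b (kap a b w y) - b (kap a b w x)) :=
    lip_of_deriv h.a_sm hρ (b_mem h h1) (b_mem h h2) (b.monotone h3)
  have e4 := kap_ne h u (x := a (b (kap a b w x))) (y := a (b (kap a b w y)))
    (a_memJ h (b_memJ h h1)) (a_memJ h (b_memJ h h2)) (a.monotone (b.monotone h3))
  change kap a b u (a (b (kap a b w y))) - kap a b u (a (b (kap a b w x))) ≤ ρ * (y - x)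
  have e5 : ρ * (b (kap a b w y) - b (kap a b w x)) ≤ ρ * (y - x) :=
    mul_le_mul_of_nonneg_left (by linarith) hρ0
  linarith

/-- a word containing `false` followed later by `true` contains `false, true` -/
lemma exists_ft (w₁ w₂ : List Bool) (h1 : false ∈ w₁) (h2 : true ∈ w₂) :
    ∃ u w, w₁ ++ w₂ = u ++ false :: true :: w := by
  induction w₁ with
  | nil => simp at h1
  | cons c w₁ ih =>
    by_cases hc : false ∈ w₁
    · obtain ⟨u, w, hu⟩ := ih hc
      exact ⟨c :: u, w, by rw [List.cons_append, hu, List.cons_append]⟩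
    · have hc' : c = false := by
        rcases List.mem_cons.1 h1 with h | h
        · exact h.symm
        · exact absurd h hc
      subst hc'
      -- `w₁` consists of `true`
      cases w₁ with
      | cons d w₁ =>
        have : d = true := by
          cases d
          · exact absurd (List.mem_cons_self) hc
          · rfl
        subst this
        exact ⟨[], w₁ ++ w₂, rfl⟩
      | nil =>
        -- look for the first `true` in `w₂`
        clear ih hc h1
        induction w₂ with
        | nil => simp at h2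
        | cons e w₂ ih2 =>
          cases e
          · have h3 : true ∈ w₂ := by simpa using h2
            obtain ⟨u, w, hu⟩ := ih2 h3
            refine ⟨false :: u, w, ?_⟩
            change false :: ([false] ++ w₂) = false :: (u ++ false :: true :: w)
            rw [hu]
          · exact ⟨[], w₂, rfl⟩

end Nest

open Nest in
theorem s_nest : S_nest := by
  intro M lam a b L R h ε hε
  obtain ⟨ρ, hρ1, hρ⟩ := h.da'
  have hbL := b_zero_lt h
  have hρ0 : 0 ≤ ρ := by
    refine le_trans ?_ (hρ L ⟨hbL.le, le_rfl⟩)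
    exact a.monotone.deriv_nonneg
  obtain ⟨n, hn⟩ := exists_run h hε
  have hL := h.L_pos
  have key : ∀ m : ℕ, ∀ u : List Bool, 2 * n * m ≤ u.length →
      kap a b u L - kap a b u 0 ≤ max ε (ρ ^ m * L) := by
    intro m
    induction m with
    | zero =>
      intro u _
      have h0 : (0 : ℝ) ∈ Icc 0 L := ⟨le_rfl, hL.le⟩
      have h1 : L ∈ Icc 0 L := ⟨hL.le, le_rfl⟩
      have := kap_ne h u h0 h1 hL.le
      rw [pow_zero, one_mul]
      exact le_trans (by linarith) (le_max_right _ _)
    | succ m ih =>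
      intro u hu
      obtain ⟨w₁, w₂, u', hu', hw₁, hw₂, hlen⟩ : ∃ w₁ w₂ u' : List Bool, u = w₁ ++ (w₂ ++ u') ∧
          w₁.length = n ∧ w₂.length = n ∧ 2 * n * m ≤ u'.length := by
        refine ⟨u.take n, (u.drop n).take n, (u.drop n).drop n, ?_, ?_, ?_, ?_⟩
        · rw [List.take_append_drop, List.take_append_drop]
        · rw [List.length_take]
          have : n ≤ u.length := by nlinarith
          omega
        · rw [List.length_take, List.length_drop]
          have : 2 * n ≤ u.length := by nlinarith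
          omega
        · rw [List.length_drop, List.length_drop]
          have : 2 * n * (m + 1) = 2 * n * m + n + n := by ring
          omega
      subst hu'
      have h0 : (0 : ℝ) ∈ Icc 0 L := ⟨le_rfl, hL.le⟩
      have h1 : L ∈ Icc 0 L := ⟨hL.le, le_rfl⟩
      have k0 := kap_mem h u' h0
      have k1 := kap_mem h u' h1
      have k2 : kap a b u' 0 ≤ kap a b u' L := (kap a b u').monotone hL.le
      have j0 := kap_mem h w₂ k0
      have j1 := kap_mem h w₂ k1
      have j2 : kap a b w₂ (kap a b u' 0) ≤ kap a b w₂ (kap a b u' L) :=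
        (kap a b w₂).monotone k2
      have ih' := ih u' hlen
      by_cases c1 : false ∈ w₁
      · by_cases c2 : true ∈ w₂
        · obtain ⟨x, z, hxz⟩ := exists_ft w₁ w₂ c1 c2
          rw [← List.append_assoc, hxz, kap_append, RelIso.mul_apply, RelIso.mul_apply]
          have e1 := ab_contr h hρ hρ0 x z k0 k1 k2
          refine e1.trans ?_
          have e2 : ρ * (kap a b u' L - kap a b u' 0) ≤ ρ * max ε (ρ ^ m * L) :=
            mul_le_mul_of_nonneg_left ih' hρ0
          refine e2.trans ?_
          rw [mul_max_of_nonneg _ _ hρ0]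
          refine max_le_max ?_ ?_
          · nlinarith
          · rw [pow_succ']; exact le_of_eq (by ring)
        · have : w₂ = List.replicate n false := by
            rw [List.eq_replicate_iff]
            refine ⟨hw₂, fun c hc => ?_⟩
            cases c
            · rfl
            · exact absurd hc c2
          rw [kap_append, kap_append]
          refine le_trans (kap_ne h w₁ j0 j1 j2) ?_
          rw [this]
          exact (hn false _ k0 _ k1 k2).trans (le_max_left _ _)
      · have : w₁ = List.replicate n true := by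
          rw [List.eq_replicate_iff]
          refine ⟨hw₁, fun c hc => ?_⟩
          cases c
          · exact absurd hc c1
          · rfl
        rw [kap_append, kap_append, this]
        exact (hn true _ j0 _ j1 j2).trans (le_max_left _ _)
  -- choose m
  have hlim : Tendsto (fun m : ℕ => ρ ^ m * L) atTop (𝓝 (0 * L)) :=
    (tendsto_pow_atTop_nhds_zero_of_lt_one hρ0 hρ1).mul_const L
  rw [zero_mul] at hlim
  obtain ⟨m, hm⟩ := (hlim.eventually (eventually_le_nhds hε)).exists
  refine ⟨2 * n * m, fun u hu => ?_⟩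
  exact (key m u hu).trans (max_le le_rfl hm)

end Pool.Agent.W331.CR
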