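import Pool.Agent.W331.CR.Stm2

/-! The rigidity theorems for the interval: transfer of the relations by a homomorphism. -/

set_option autoImplicit false

open Set Filter Topology Function
open scoped ContDiff

namespace Pool.Agent.W331.CR

namespace NoI

lemma map84 {G G' : Type*} [Group G] [Group G'] (χ : G →* G') {e : ℕ → ℕ} {a b h y f : G}
    (H : Rel84 e a b h y f) : Rel84 e (χ a) (χ b) (χ h) (χ y) (χ f) where
  r0 := by
    have := congrArg χ H.r0
    simpa using this
  ra := by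
    intro j hj
    obtain ⟨h1, h2⟩ := H.ra j hj
    have h3 := h1.map χ
    have h4 := h2.map χ
    simp only [map_mul, map_inv, map_pow] at h3 h4
    exact ⟨h3, h4⟩
  rb := by
    intro j hj
    obtain ⟨h1, h2⟩ := H.rb j hj
    have h3 := h1.map χ
    have h4 := h2.map χ
    simp only [map_mul, map_inv, map_pow] at h3 h4
    exact ⟨h3, h4⟩
  wa := by
    intro j hj
    obtain ⟨h1, h2⟩ := H.wa j hj
    have h3 := h1.map χ
    have h4 := h2.map χ
    simp only [map_mul, map_inv, map_pow] at h3 h4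
    exact ⟨h3, h4⟩
  wb := by
    intro j hj
    obtain ⟨h1, h2⟩ := H.wb j hj
    have h3 := h1.map χ
    have h4 := h2.map χ
    simp only [map_mul, map_inv, map_pow] at h3 h4
    exact ⟨h3, h4⟩
  wv := by
    intro j i hj hi v hv
    obtain ⟨h1, h2⟩ := H.wv j i hj hi _ rfl
    have h3 := h1.map χ
    have h4 := h2.map χ
    simp only [map_mul, map_inv, map_pow] at h3 h4
    rw [← hv] at h3 h4
    exact ⟨h3, h4⟩
  rf := by
    intro j i hj hi v F hv hF
    obtain ⟨h1, h2, h5⟩ := H.rf j i hj hi _ _ rfl rfl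
    have h3 := h1.map χ
    have h4 := h2.map χ
    have h6 := h5.map χ
    simp only [map_mul, map_inv, map_pow] at h3 h4 h6
    rw [← hv, ← hF] at h3 h4 h6
    exact ⟨h3, h4, h6⟩

lemma map02 {G G' : Type*} [Group G] [Group G'] (χ : G →* G') {k : ℕ} {t v h y f : G}
    (H : Rel02 k t v h y f) : Rel02 k (χ t) (χ v) (χ h) (χ y) (χ f) where
  r0 := by
    have := congrArg χ H.r0
    simpa using this
  r1 := by
    have := congrArg χ H.r1
    simpa using this
  wt := by
    intro j hj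
    obtain ⟨h1, h2⟩ := H.wt j hj
    have h3 := h1.map χ
    have h4 := h2.map χ
    simp only [map_mul, map_inv, map_pow] at h3 h4
    exact ⟨h3, h4⟩
  wv := by
    intro j hj
    obtain ⟨h1, h2⟩ := H.wv j hj
    have h3 := h1.map χ
    have h4 := h2.map χ
    simp only [map_mul, map_inv, map_pow] at h3 h4
    exact ⟨h3, h4⟩
  rf := by
    intro i hi F hF
    obtain ⟨h1, h2, h5⟩ := H.rf i hi _ rfl
    have h3 := h1.map χ
    have h4 := h2.map χ
    have h6 := h5.map χ
    simp only [map_mul, map_inv, map_pow] at h3 h4 h6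
    rw [← hF] at h3 h4 h6
    exact ⟨h3, h4, h6⟩

end NoI

theorem s_no84I : S_rigid84 → S_setupI → S_no84I := by
  intro hr hs e G _ a b h y f hrel hy
  rintro ⟨φ, hφ⟩
  obtain ⟨H, ψ, hψ, hset, hsm⟩ := hs ∞ (WithTop.coe_le_coe.2 (le_top : (2 : ℕ∞) ≤ ⊤))
  have h1 := NoI.map84 (H.subtype.comp (ψ.comp φ)) hrel
  have h2 := hr _ H hset (fun F hF t ht M => (hsm F hF t ht).of_le (by exact_mod_cast le_top))
    e _ _ _ _ _ (ψ (φ a)).2 (ψ (φ b)).2 (ψ (φ h)).2 (ψ (φ y)).2 (ψ (φ f)).2 h1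
  apply hy
  apply hφ
  apply hψ
  rw [map_one, map_one]
  exact Subtype.ext h2

theorem s_no02I : S_rigid02 → S_setupI → S_no02I := by
  intro hr hs k hk G _ t v h y f hrel hy
  rintro ⟨φ, hφ⟩
  obtain ⟨H, ψ, hψ, hset, hsm⟩ := hs (k + 1 : ℕ) (by exact_mod_cast Nat.succ_le_succ hk)
  have h1 := NoI.map02 (H.subtype.comp (ψ.comp φ)) hrel
  have h2 := hr k hk _ H hset (fun F hF t ht => hsm F hF t ht)
    _ _ _ _ _ (ψ (φ t)).2 (ψ (φ v)).2 (ψ (φ h)).2 (ψ (φ y)).2 (ψ (φ f)).2 h1
  apply hy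
  apply hφ
  apply hψ
  rw [map_one, map_one]
  exact Subtype.ext h2

end Pool.Agent.W331.CR
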