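import Pool.Agent.W331.CR.Stm2

/-! Passage from the rigidity theorems on the line to the circle. -/

set_option autoImplicit false

open Set Filter Topology Function
open scoped ContDiff

namespace Pool.Agent.W331.CR

namespace NoS

lemma circ (u v : ℝ) : (u : AddCircle (1:ℝ)) = (v : AddCircle (1:ℝ)) ↔ ∃ n : ℤ, u = v + n := by
  rw [← sub_eq_zero, ← AddCircle.coe_sub, AddCircle.coe_eq_zero_iff]
  constructor
  · rintro ⟨n, hn⟩
    refine ⟨n, ?_⟩
    rw [zsmul_eq_mul, mul_one] at hn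
    linarith
  · rintro ⟨n, hn⟩
    refine ⟨n, ?_⟩
    rw [zsmul_eq_mul, mul_one]
    linarith

variable {G : Type} [Group G] {r : WithTop ℕ∞}

/-- `F` is a lift of `φ g` -/
structure LL (φ : G →* DiffS r) (F : ℝ ≃o ℝ) (g : G) : Prop where
  mem : IsLift r F
  eq : ∀ x : ℝ, (φ g : Equiv.Perm (AddCircle (1:ℝ))) (x : AddCircle (1:ℝ)) =
    ((F x : ℝ) : AddCircle (1:ℝ))

variable {φ : G →* DiffS r} {F F' : ℝ ≃o ℝ} {g g' : G}

lemma LL.exists (φ : G →* DiffS r) (g : G) : ∃ F : ℝ ≃o ℝ, LL φ F g := by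
  obtain ⟨F, h1, h2⟩ := (φ g).2
  exact ⟨F, h1, h2⟩

lemma LL.mul (h : LL φ F g) (h' : LL φ F' g') : LL φ (F * F') (g * g') :=
  ⟨h.mem.mul h'.mem, fun x => by
    rw [map_mul, Subgroup.coe_mul, Equiv.Perm.mul_apply, h'.eq, h.eq]
    rfl⟩

lemma LL.one (φ : G →* DiffS r) : LL φ 1 1 :=
  ⟨IsLift.one r, fun x => by
    rw [map_one, Subgroup.coe_one]
    rfl⟩

lemma LL.inv (h : LL φ F g) : LL φ F⁻¹ g⁻¹ :=
  ⟨h.mem.inv, fun x => by
    rw [map_inv, Subgroup.coe_inv, Equiv.Perm.inv_eq_iff_eq, h.eq]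
    congr 1
    exact (F.apply_symm_apply x).symm⟩

lemma LL.pow (h : LL φ F g) (n : ℕ) : LL φ (F ^ n) (g ^ n) := by
  induction n with
  | zero =>
    rw [pow_zero, pow_zero]
    exact LL.one φ
  | succ n ih =>
    rw [pow_succ, pow_succ]
    exact ih.mul h

lemma tr_zpow (m : ℤ) (x : ℝ) : (tr ^ m) x = x + m := by
  induction m using Int.induction_on generalizing x with
  | zero => simp
  | succ n ih =>
    rw [zpow_add_one, RelIso.mul_apply, ih, tr_apply]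
    push_cast
    ring
  | pred n ih =>
    rw [zpow_sub_one, RelIso.mul_apply, ih]
    have : (tr⁻¹ : ℝ ≃o ℝ) x = x - 1 := by
      apply tr.injective
      have h1 : tr ((tr⁻¹ : ℝ ≃o ℝ) x) = x := tr.apply_symm_apply x
      rw [h1, tr_apply]
      ring
    rw [this]
    push_cast
    ring

lemma tr_zpow_inv (m : ℤ) : ((tr ^ m)⁻¹ : ℝ ≃o ℝ) = tr ^ (-m) := by
  rw [zpow_neg]

lemma LL.tr_mul (h : LL φ F g) (m : ℤ) : LL φ (tr ^ m * F) g := by
  refine ⟨IsLift.mul ⟨fun x => ?_, ?_, ?_⟩ h.mem, fun x => ?_⟩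
  · rw [tr_zpow, tr_zpow]
    ring
  · have : ((tr ^ m : ℝ ≃o ℝ) : ℝ → ℝ) = fun x : ℝ => x + (m : ℝ) := funext (tr_zpow m)
    rw [this]
    fun_prop
  · have : (((tr ^ m)⁻¹ : ℝ ≃o ℝ) : ℝ → ℝ) = fun x : ℝ => x + ((-m : ℤ) : ℝ) := by
      rw [tr_zpow_inv]
      exact funext (tr_zpow (-m))
    rw [this]
    fun_prop
  · rw [h.eq, RelIso.mul_apply, tr_zpow, circ]
    exact ⟨-m, by push_cast; ring⟩

lemma LL.comm (hlc : S_liftcomm) (h : LL φ F g) (h' : LL φ F' g') (hc : Commute g g') :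
    Commute F F' := by
  apply hlc F F' h.mem.per h'.mem.per
  intro x
  rw [← circ]
  have h1 := (h.mul h').eq x
  have h2 := (h'.mul h).eq x
  rw [hc.eq] at h1
  exact h1.symm.trans h2

lemma LL.eq_one (hφ : Injective φ) (h : LL φ 1 g) : g = 1 := by
  apply hφ
  rw [map_one]
  apply Subtype.ext
  apply Equiv.ext
  intro z
  obtain ⟨x, rfl⟩ := QuotientAddGroup.mk_surjective z
  exact h.eq x

/-- a Baumslag-Solitar relation lifts -/
lemma LL.bs (hbs : S_liftbs) (h : LL φ F g) (h' : LL φ F' g') (hr : g * g' * g⁻¹ = g' ^ 2) :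
    ∃ m : ℤ, F * (tr ^ m * F') * F⁻¹ = (tr ^ m * F') ^ 2 := by
  apply hbs F F' h.mem.per h'.mem.per
  intro x
  rw [← circ]
  have h1 := (h.mul h').eq x
  have h2 := ((h'.mul h').mul h).eq x
  have h3 : g * g' = g' * g' * g := by
    rw [← pow_two, ← hr]
    group
  rw [h3] at h1
  exact h1.symm.trans h2

end NoS

lemma two_le_inf : (2 : WithTop ℕ∞) ≤ ∞ := by
  have h : ((2 : ℕ∞) : WithTop ℕ∞) ≤ ((⊤ : ℕ∞) : WithTop ℕ∞) := WithTop.coe_le_coe.2 le_top
  exact h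

open NoS

theorem s_no84S : S_rigid84 → S_liftcomm → S_liftbs → S_setupS → S_no84S := by
  intro hrig hlc hbs hset e G _ a b h y f hR hy
  rintro ⟨φ, hφ⟩
  obtain ⟨A, hA⟩ := LL.exists φ a
  obtain ⟨B, hB⟩ := LL.exists φ b
  obtain ⟨H, hH⟩ := LL.exists φ h
  obtain ⟨Y0, hY0⟩ := LL.exists φ y
  obtain ⟨F, hF⟩ := LL.exists φ f
  obtain ⟨m, hm⟩ := hH.bs hbs hY0 hR.r0
  have hY := hY0.tr_mul m
  generalize tr ^ m * Y0 = Y at hm hY
  have hone : Y = 1 := by
    refine hrig univ (Lifts ∞) (hset ∞ two_le_inf) ?_ e A B H Y F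
      hA.mem hB.mem hH.mem hY.mem hF.mem ?_
    · intro K hK t _ M
      exact (show IsLift ∞ K from hK).sm.contDiffAt.of_le (by exact_mod_cast le_top)
    · refine ⟨hm, ?_, ?_, ?_, ?_, ?_, ?_⟩
      · intro j hj
        have hw := ((hA.pow j).mul hB).mul (hA.pow j).inv
        exact ⟨hw.comm hlc hH (hR.ra j hj).1, hw.comm hlc hY (hR.ra j hj).2⟩
      · intro j hj
        have hw := ((hB.pow j).mul hA).mul (hB.pow j).inv
        exact ⟨hw.comm hlc hH (hR.rb j hj).1, hw.comm hlc hY (hR.rb j hj).2⟩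
      · intro j hj
        have hw := ((hA.pow j).mul hY).mul (hA.pow j).inv
        exact ⟨hw.comm hlc hH (hR.wa j hj).1, hw.comm hlc hY (hR.wa j hj).2⟩
      · intro j hj
        have hw := ((hB.pow j).mul hY).mul (hB.pow j).inv
        exact ⟨hw.comm hlc hH (hR.wb j hj).1, hw.comm hlc hY (hR.wb j hj).2⟩
      · rintro j i hj hi v rfl
        have hv := ((hA.pow (Nat.factorial j)).mul (hB.pow (Nat.factorial j))).pow i
        have hw := (hv.mul hY).mul hv.inv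
        have hr := hR.wv j i hj hi _ rfl
        exact ⟨hw.comm hlc hH hr.1, hw.comm hlc hY hr.2⟩
      · rintro j i hj hi v F' rfl rfl
        have hv := ((hA.pow (Nat.factorial j)).mul (hB.pow (Nat.factorial j))).pow i
        have hF' := (hv.inv.mul hF).mul hv
        have hw := (hF'.pow (2 ^ (e j * i))).mul hY.inv
        have hr := hR.rf j i hj hi _ _ rfl rfl
        exact ⟨hw.comm hlc hH hr.1, hw.comm hlc hY hr.2.1, hF'.comm hlc hY hr.2.2⟩
  rw [hone] at hY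
  exact hy (hY.eq_one hφ)

theorem s_no02S : S_rigid02 → S_liftcomm → S_liftbs → S_setupS → S_no02S := by
  intro hrig hlc hbs hset k hk G _ t v h y f hR hy
  rintro ⟨φ, hφ⟩
  obtain ⟨T0, hT0⟩ := LL.exists φ t
  obtain ⟨V, hV⟩ := LL.exists φ v
  obtain ⟨H, hH⟩ := LL.exists φ h
  obtain ⟨Y0, hY0⟩ := LL.exists φ y
  obtain ⟨F, hF⟩ := LL.exists φ f
  obtain ⟨m, hm⟩ := hH.bs hbs hY0 hR.r0
  have hY := hY0.tr_mul m
  generalize tr ^ m * Y0 = Y at hm hY
  obtain ⟨n, hn⟩ := hV.inv.bs hbs hT0 (by rw [inv_inv]; exact hR.r1)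
  have hT := hT0.tr_mul n
  generalize tr ^ n * T0 = T at hn hT
  rw [inv_inv] at hn
  have h2 : (2 : WithTop ℕ∞) ≤ ((k + 1 : ℕ) : WithTop ℕ∞) := by
    exact_mod_cast (by omega : 2 ≤ k + 1)
  have hone : Y = 1 := by
    refine hrig k hk univ (Lifts ((k + 1 : ℕ) : WithTop ℕ∞)) (hset _ h2) ?_ T V H Y F
      hT.mem hV.mem hH.mem hY.mem hF.mem ?_
    · intro K hK t _
      exact (show IsLift _ K from hK).sm.contDiffAt
    · refine ⟨hm, hn, ?_, ?_, ?_⟩
      · intro j hj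
        have hw := ((hT.pow j).mul hY).mul (hT.pow j).inv
        exact ⟨hw.comm hlc hH (hR.wt j hj).1, hw.comm hlc hY (hR.wt j hj).2⟩
      · intro i hi
        have hw := ((hV.pow i).mul hY).mul (hV.pow i).inv
        exact ⟨hw.comm hlc hH (hR.wv i hi).1, hw.comm hlc hY (hR.wv i hi).2⟩
      · rintro i hi F' rfl
        have hv := hV.pow i
        have hF' := (hv.inv.mul hF).mul hv
        have hw := (hF'.pow (2 ^ (k * i))).mul hY.inv
        have hr := hR.rf i hi _ rfl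
        exact ⟨hw.comm hlc hH hr.1, hw.comm hlc hY hr.2.1, hF'.comm hlc hY hr.2.2⟩
  rw [hone] at hY
  exact hy (hY.eq_one hφ)

end Pool.Agent.W331.CR
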