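import Pool.Agent.W331.CR.Dist

/-! Extraction of the element `φ`. -/

set_option autoImplicit false

open Set Filter Topology

namespace Pool.Agent.W331.CR

namespace Phi

open _root_.Pool.Agent.W331.CR.Dist

lemma iter_ge {G : ℝ ≃o ℝ} {x : ℝ} (h : x ≤ G x) (n : ℕ) : x ≤ (G ^ n) x := by
  induction n with
  | zero => exact le_refl _
  | succ n ih =>
    rw [pow_succ_apply]
    exact h.trans (G.monotone ih)

lemma iter_le {G : ℝ ≃o ℝ} {x : ℝ} (h : G x ≤ x) (n : ℕ) : (G ^ n) x ≤ x := by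
  induction n with
  | zero => exact le_refl _
  | succ n ih =>
    rw [pow_succ_apply]
    exact (G.monotone ih).trans h

lemma iter_gt {G : ℝ ≃o ℝ} {x : ℝ} (h : x < G x) {n : ℕ} (hn : 1 ≤ n) : x < (G ^ n) x := by
  obtain ⟨k, rfl⟩ := Nat.exists_eq_add_of_le' hn
  rw [pow_succ_apply]
  exact lt_of_lt_of_le h (G.monotone (iter_ge h.le k))

lemma iter_lt {G : ℝ ≃o ℝ} {x : ℝ} (h : G x < x) {n : ℕ} (hn : 1 ≤ n) : (G ^ n) x < x := by
  obtain ⟨k, rfl⟩ := Nat.exists_eq_add_of_le' hn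
  rw [pow_succ_apply]
  exact lt_of_le_of_lt (G.monotone (iter_le h.le k)) h

lemma fix_of_pow {G : ℝ ≃o ℝ} {x : ℝ} {n : ℕ} (hn : 1 ≤ n) (h : (G ^ n) x = x) : G x = x := by
  rcases lt_trichotomy (G x) x with h1 | h1 | h1
  · exact absurd h (iter_lt h1 hn).ne
  · exact h1
  · exact absurd h (iter_gt h1 hn).ne'

lemma comm_pow {A B : ℝ ≃o ℝ} (hAB : ∀ t, A (B t) = B (A t)) (n : ℕ) (t : ℝ) :
    A ((B ^ n) t) = (B ^ n) (A t) := by
  induction n with
  | zero => rfl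
  | succ n ih => rw [pow_succ_apply, hAB, ih, pow_succ_apply]

lemma lt_pow {A B : ℝ ≃o ℝ} (hAB : ∀ t, A (B t) = B (A t)) {t : ℝ} (h : A t < B t) {n : ℕ}
    (hn : 1 ≤ n) : (A ^ n) t < (B ^ n) t := by
  obtain ⟨k, rfl⟩ := Nat.exists_eq_add_of_le' hn
  clear hn
  induction k with
  | zero => simpa using h
  | succ k ih =>
    rw [pow_succ_apply A (k + 1), pow_succ_apply' B (k + 1)]
    calc A ((A ^ (k + 1)) t) < A ((B ^ (k + 1)) t) := A.strictMono ih
      _ = (B ^ (k + 1)) (A t) := comm_pow hAB (k + 1) t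
      _ < (B ^ (k + 1)) (B t) := (B ^ (k + 1)).strictMono h

/-- uniqueness of roots -/
lemma root_unique {A B : ℝ ≃o ℝ} (hAB : ∀ t, A (B t) = B (A t)) {t : ℝ} {n : ℕ} (hn : 1 ≤ n)
    (h : (A ^ n) t = (B ^ n) t) : A t = B t := by
  rcases lt_trichotomy (A t) (B t) with h1 | h1 | h1
  · exact absurd h (lt_pow hAB h1 hn).ne
  · exact h1
  · exact absurd h (lt_pow (fun t => (hAB t).symm) h1 hn).ne'

lemma per_int {G : ℝ ≃o ℝ} (h : ∀ x, G (x + 1) = G x + 1) (m : ℤ) (x : ℝ) :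
    G (x + m) = G x + m := by
  induction m using Int.induction_on with
  | zero => simp
  | succ k ih =>
    push_cast at ih ⊢
    rw [← add_assoc, h, ih, add_assoc]
  | pred k ih =>
    have h1 := h (x + ((-(k : ℤ) - 1 : ℤ) : ℝ))
    have h2 : x + ((-(k : ℤ) - 1 : ℤ) : ℝ) + 1 = x + ((-(k : ℤ) : ℤ) : ℝ) := by push_cast; ring
    rw [h2, ih] at h1
    push_cast at h1 ⊢
    linarith

lemma tr_npow_apply (n : ℕ) (x : ℝ) : (tr ^ n) x = x + n := by
  induction n with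
  | zero => simp
  | succ n ih => rw [pow_succ_apply, ih, tr_apply]; push_cast; ring

lemma tr_zpow_apply (m : ℤ) (x : ℝ) : (tr ^ m) x = x + m := by
  obtain ⟨n, rfl | rfl⟩ := m.eq_nat_or_neg
  · rw [zpow_natCast, tr_npow_apply]; simp
  · rw [zpow_neg, zpow_natCast]
    apply (tr ^ n).injective
    have : (tr ^ n) (((tr ^ n)⁻¹ : ℝ ≃o ℝ) x) = x := (tr ^ n).apply_symm_apply x
    rw [this, tr_npow_apply]
    simp

/-- a periodic homeomorphism with a fixed point maps no point to a nonzero translate -/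
lemma int_zero {G : ℝ ≃o ℝ} (h : ∀ x, G (x + 1) = G x + 1) {t₀ τ : ℝ} (h0 : G t₀ = t₀) {l : ℤ}
    (hl : G τ = τ + l) : l = 0 := by
  set r := ⌊τ - t₀⌋ with hr
  have h1 : t₀ + r ≤ τ := by have := Int.floor_le (τ - t₀); linarith
  have h2 : τ < t₀ + r + 1 := by have := Int.lt_floor_add_one (τ - t₀); linarith
  have e1 : G (t₀ + r) = t₀ + r := by rw [per_int h, h0]
  have e2 : G (t₀ + r + 1) = t₀ + r + 1 := by rw [h, e1]
  have h3 : t₀ + r ≤ G τ := by rw [← e1]; exact G.monotone h1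
  have h4 : G τ < t₀ + r + 1 := by rw [← e2]; exact G.strictMono h2
  rw [hl] at h3 h4
  have h5 : (l : ℝ) < 1 := by linarith
  have h6 : (-1 : ℝ) < l := by linarith
  have h7 : l < 1 := by exact_mod_cast h5
  have h8 : -1 < l := by exact_mod_cast h6
  omega

/-- a root of a map moving `X` at least to `Y` moves some point by a proportional amount -/
lemma step_right {G : ℝ ≃o ℝ} {X Y : ℝ} {D : ℕ} (hXY : X < Y) (h : Y ≤ (G ^ D) X) :
    ∃ t ∈ Icc X Y, Y - X ≤ (D + 1) * |G t - t| := by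
  have hGX : X ≤ G X := by
    by_contra hcon
    have := iter_le (not_le.mp hcon).le D
    linarith
  by_contra hcon
  push Not at hcon
  have key : ∀ l : ℕ, l ≤ D → (D + 1) * ((G ^ l) X - X) ≤ l * (Y - X) := by
    intro l
    induction l with
    | zero => intro _; simp
    | succ l ih =>
      intro hl
      have ih' := ih (by omega)
      have h1 : X ≤ (G ^ l) X := iter_ge hGX l
      have hlD : (l : ℝ) + 1 ≤ D := by exact_mod_cast hl
      have h2 : (G ^ l) X ≤ Y := by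
        have hpos : (0:ℝ) < D + 1 := by positivity
        have : (D + 1) * ((G ^ l) X - X) ≤ (D + 1) * (Y - X) := by
          refine ih'.trans (mul_le_mul_of_nonneg_right (by linarith) (by linarith))
        have := le_of_mul_le_mul_left this hpos
        linarith
      have h3 := hcon _ ⟨h1, h2⟩
      have h4 : (D + 1) * (G ((G ^ l) X) - (G ^ l) X) ≤ Y - X := by
        have := le_abs_self (G ((G ^ l) X) - (G ^ l) X)
        have hpos : (0:ℝ) < D + 1 := by positivity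
        nlinarith
      rw [pow_succ_apply]
      push_cast
      linarith
  have h1 := key D le_rfl
  have h2 : (D + 1) * (Y - X) ≤ (D + 1) * ((G ^ D) X - X) := by
    apply mul_le_mul_of_nonneg_left (by linarith) (by positivity)
  linarith

lemma step_left {G : ℝ ≃o ℝ} {X Y : ℝ} {D : ℕ} (hXY : Y < X) (h : (G ^ D) X ≤ Y) :
    ∃ t ∈ Icc Y X, X - Y ≤ (D + 1) * |G t - t| := by
  have hGX : G X ≤ X := by
    by_contra hcon
    have := iter_ge (not_le.mp hcon).le D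
    linarith
  by_contra hcon
  push Not at hcon
  have key : ∀ l : ℕ, l ≤ D → (D + 1) * (X - (G ^ l) X) ≤ l * (X - Y) := by
    intro l
    induction l with
    | zero => intro _; simp
    | succ l ih =>
      intro hl
      have ih' := ih (by omega)
      have h1 : (G ^ l) X ≤ X := iter_le hGX l
      have hlD : (l : ℝ) + 1 ≤ D := by exact_mod_cast hl
      have h2 : Y ≤ (G ^ l) X := by
        have hpos : (0:ℝ) < D + 1 := by positivity
        have : (D + 1) * (X - (G ^ l) X) ≤ (D + 1) * (X - Y) := by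
          refine ih'.trans (mul_le_mul_of_nonneg_right (by linarith) (by linarith))
        have := le_of_mul_le_mul_left this hpos
        linarith
      have h3 := hcon _ ⟨h2, h1⟩
      have h4 : (D + 1) * ((G ^ l) X - G ((G ^ l) X)) ≤ X - Y := by
        have := neg_abs_le (G ((G ^ l) X) - (G ^ l) X)
        have hpos : (0:ℝ) < D + 1 := by positivity
        nlinarith
      rw [pow_succ_apply]
      push_cast
      linarith
  have h1 := key D le_rfl
  have h2 : (D + 1) * (X - Y) ≤ (D + 1) * (X - (G ^ D) X) := by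
    apply mul_le_mul_of_nonneg_left (by linarith) (by positivity)
  linarith

lemma comm_tr {G : ℝ ≃o ℝ} (h : ∀ x, G (x + 1) = G x + 1) : Commute tr G := by
  ext x
  simp only [RelIso.mul_apply, tr_apply]
  rw [h]

lemma trz_mul_pow {G : ℝ ≃o ℝ} (h : ∀ x, G (x + 1) = G x + 1) (m : ℤ) (k : ℕ) (t : ℝ) :
    ((tr ^ m * G) ^ k) t = (G ^ k) t + m * k := by
  induction k with
  | zero => simp
  | succ k ih =>
    rw [pow_succ_apply, ih, RelIso.mul_apply, tr_zpow_apply]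
    have : (G ^ k) t + (m : ℝ) * (k : ℝ) = (G ^ k) t + ((m * k : ℤ) : ℝ) := by push_cast; ring
    rw [this, per_int h, pow_succ_apply]
    push_cast
    ring

lemma mem_Icc_pow {y : ℝ ≃o ℝ} {p q : ℝ} (hp : y p = p) (hq : y q = q) (n : ℕ) {x : ℝ}
    (hx : x ∈ Icc p q) : (y ^ n) x ∈ Icc p q := by
  have h1 := pow_fix hp n
  have h2 := pow_fix hq n
  constructor
  · rw [← h1]; exact (y ^ n).monotone hx.1
  · rw [← h2]; exact (y ^ n).monotone hx.2

/-- iteration of a semiconjugacy up to translations -/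
lemma semi_iter {A B V : ℝ ≃o ℝ} {p q : ℝ} {m : ℤ} (hA : ∀ x, A (x + 1) = A x + 1)
    (hBp : B p = p) (hBq : B q = q) (h : ∀ x ∈ Icc p q, A (V x) = V (B x) + m) (k : ℕ) :
    ∀ x ∈ Icc p q, (A ^ k) (V x) = V ((B ^ k) x) + m * k := by
  induction k with
  | zero => intro x _; simp
  | succ k ih =>
    intro x hx
    rw [pow_succ_apply, ih x hx]
    have : V ((B ^ k) x) + (m : ℝ) * (k : ℝ) = V ((B ^ k) x) + ((m * k : ℤ) : ℝ) := by
      push_cast; ring
    rw [this, per_int hA, h _ (mem_Icc_pow hBp hBq k hx), pow_succ_apply]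
    push_cast
    ring

end Phi

open _root_.Pool.Agent.W331.CR.Dist _root_.Pool.Agent.W331.CR.Phi in
theorem s_phi (hdp : S_dp) : S_phi := by
  intro U H hS h y f v hh hy hf hv hrel E hF p q x hc hx
  have hlt := hc.lt
  have hperv : ∀ i : ℕ, ∀ s, (v ^ i) (s + 1) = (v ^ i) s + 1 :=
    fun i => (hS.nice _ (H.pow_mem hv i)).per
  have hperf : ∀ k : ℕ, ∀ s, (f ^ k) (s + 1) = (f ^ k) s + 1 :=
    fun k => (hS.nice _ (H.pow_mem hf k)).per
  -- the semiconjugacy
  have hstar : ∀ i : ℕ, 1 ≤ i → ∃ n : ℕ, 1 ≤ n ∧ ∃ m : ℤ, ∀ s ∈ Icc p q,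
      (f ^ (2 ^ (E i) * n)) ((v ^ i) s) = (v ^ i) ((y ^ n) s) + m := by
    intro i hi
    set F : ℝ ≃o ℝ := (v ^ i)⁻¹ * f * v ^ i with hFdef
    obtain ⟨h1, h2, h3⟩ := hF i hi F hFdef
    have hvi := H.pow_mem hv i
    have hFH : F ∈ H := H.mul_mem (H.mul_mem (H.inv_mem hvi) hf) hvi
    obtain ⟨n, hn, m, hm⟩ := hdp U H hS h y (F ^ (2 ^ (E i)) * y⁻¹) hh hy
      (H.mul_mem (H.pow_mem hFH _) (H.inv_mem hy)) hrel h1 h2 p q hc
    refine ⟨n, hn, m, fun s hs => ?_⟩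
    have e1 : (F ^ (2 ^ (E i)) * y⁻¹) ^ n * y ^ n = F ^ (2 ^ (E i) * n) := by
      have hcm : Commute (F ^ (2 ^ (E i))) y⁻¹ := (h3.pow_left _).inv_right
      rw [hcm.mul_pow, mul_assoc, ← pow_mul, inv_pow, inv_mul_cancel, mul_one]
    have e2 : v ^ i * F ^ (2 ^ (E i) * n) = f ^ (2 ^ (E i) * n) * v ^ i := by
      have e3 : F ^ (2 ^ (E i) * n) = (v ^ i)⁻¹ * f ^ (2 ^ (E i) * n) * v ^ i := by
        have := conj_pow (i := 2 ^ (E i) * n) (a := (v ^ i)⁻¹) (b := f)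
        rw [inv_inv] at this
        rw [hFdef, this]
      rw [e3, ← mul_assoc, ← mul_assoc, mul_inv_cancel, one_mul]
    have e4 : (F ^ (2 ^ (E i) * n)) s = (y ^ n) s + m := by
      rw [← e1, RelIso.mul_apply]
      exact hm _ (mem_Icc_pow hc.left hc.right n hs)
    have e5 := congrArg (fun G : ℝ ≃o ℝ => G s) e2
    simp only [RelIso.mul_apply] at e5
    rw [← e5, e4, per_int (hperv i)]
  choose! n hn m hm using hstar
  set N := 2 ^ (E 1) * n 1 with hN
  have hN1 : 1 ≤ N := Nat.one_le_iff_ne_zero.2 (Nat.mul_ne_zero (by positivity)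
    (by have := hn 1 le_rfl; omega))
  have htrH : (tr ^ (-(m 1)) : ℝ ≃o ℝ) ∈ H := H.zpow_mem hS.tr_mem _
  set φ : ℝ ≃o ℝ := tr ^ (-(m 1)) * f ^ N with hφ
  have hφH : φ ∈ H := H.mul_mem htrH (H.pow_mem hf _)
  have hperφ : ∀ k : ℕ, ∀ s, (φ ^ k) (s + 1) = (φ ^ k) s + 1 :=
    fun k => (hS.nice _ (H.pow_mem hφH k)).per
  -- φ fixes `v p`
  have hfixvp : φ (v p) = v p := by
    have h1 := hm 1 le_rfl p ⟨le_refl _, hlt.le⟩
    rw [pow_one, pow_fix hc.left] at h1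
    rw [hφ, RelIso.mul_apply, tr_zpow_apply, hN, h1]
    push_cast; ring
  -- powers
  have hpow : ∀ i : ℕ, 1 ≤ i → ∀ s ∈ Icc p q,
      (φ ^ (2 ^ (E i) * n i)) ((v ^ i) s) = (v ^ i) ((y ^ (n i * N)) s) := by
    intro i hi
    set K := 2 ^ (E i) * n i with hK
    have h1 := semi_iter (A := f ^ K) (B := y ^ (n i)) (V := v ^ i) (hperf K)
      (pow_fix hc.left _) (pow_fix hc.right _) (hm i hi) N
    have h2 : ∀ s ∈ Icc p q, (φ ^ K) ((v ^ i) s) = (v ^ i) ((y ^ (n i * N)) s) +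
        ((m i * N - m 1 * K : ℤ) : ℝ) := by
      intro s hs
      rw [hφ, trz_mul_pow (hperf N), ← pow_mul, mul_comm N K, pow_mul, h1 s hs, ← pow_mul]
      push_cast; ring
    have h3 : (m i * N - m 1 * K : ℤ) = 0 := by
      have h4 := h2 p ⟨le_refl _, hlt.le⟩
      rw [pow_fix hc.left] at h4
      exact int_zero (hperφ K) (pow_fix hfixvp K) h4
    intro s hs
    rw [h2 s hs, h3]; simp
  refine ⟨φ, hφH, fun i hi => ?_⟩
  have hK1 : 1 ≤ 2 ^ (E i) * n i := Nat.one_le_iff_ne_zero.2 (Nat.mul_ne_zero (by positivity)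
    (by have := hn i hi; omega))
  have hfp : φ ((v ^ i) p) = (v ^ i) p := by
    have h1 := hpow i hi p ⟨le_refl _, hlt.le⟩
    rw [pow_fix hc.left] at h1
    exact fix_of_pow hK1 h1
  have hfq : φ ((v ^ i) q) = (v ^ i) q := by
    have h1 := hpow i hi q ⟨hlt.le, le_refl _⟩
    rw [pow_fix hc.right] at h1
    exact fix_of_pow hK1 h1
  refine ⟨hfp, hfq, ?_⟩
  -- the root
  set Ψ : ℝ ≃o ℝ := v ^ i * y ^ N * (v ^ i)⁻¹ with hΨ
  have hcommf : Commute f (v ^ i * y * (v ^ i)⁻¹) := by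
    have h3 := (hF i hi _ rfl).2.2
    have h4 : (v ^ i)⁻¹ * f * v ^ i * y = y * ((v ^ i)⁻¹ * f * v ^ i) := h3.eq
    show f * (v ^ i * y * (v ^ i)⁻¹) = (v ^ i * y * (v ^ i)⁻¹) * f
    have h5 : f * (v ^ i * y * (v ^ i)⁻¹) = v ^ i * ((v ^ i)⁻¹ * f * v ^ i * y) * (v ^ i)⁻¹ := by
      group
    have h6 : (v ^ i * y * (v ^ i)⁻¹) * f = v ^ i * (y * ((v ^ i)⁻¹ * f * v ^ i)) * (v ^ i)⁻¹ := by
      group
    rw [h5, h6, h4]
  have hcommφ : Commute φ Ψ := by
    have h1 : Ψ = (v ^ i * y * (v ^ i)⁻¹) ^ N := by rw [hΨ, conj_pow]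
    have hΨH : Ψ ∈ H := H.mul_mem (H.mul_mem (H.pow_mem hv i) (H.pow_mem hy N))
      (H.inv_mem (H.pow_mem hv i))
    rw [hφ]
    apply Commute.mul_left
    · exact (comm_tr (hS.nice Ψ hΨH).per).zpow_left _
    · rw [h1]; exact hcommf.pow_pow N N
  have hcommpt : ∀ t, (φ ^ (2 ^ (E i))) (Ψ t) = Ψ ((φ ^ (2 ^ (E i))) t) := by
    intro t
    have := congrArg (fun G : ℝ ≃o ℝ => G t) (hcommφ.pow_left (2 ^ (E i))).eq
    simpa only [RelIso.mul_apply] using this
  have hΨpow : ∀ k : ℕ, ∀ s, (Ψ ^ k) ((v ^ i) s) = (v ^ i) ((y ^ (k * N)) s) := by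
    intro k s
    have h1 : Ψ ^ k = v ^ i * y ^ (k * N) * (v ^ i)⁻¹ := by
      rw [hΨ, conj_pow, ← pow_mul, mul_comm]
    rw [h1, RelIso.mul_apply, RelIso.mul_apply]
    congr 2
    exact (v ^ i).symm_apply_apply s
  have hroot : (φ ^ (2 ^ (E i))) ((v ^ i) x) = (v ^ i) ((y ^ N) x) := by
    have h1 : ((φ ^ (2 ^ (E i))) ^ (n i)) ((v ^ i) x) = (Ψ ^ (n i)) ((v ^ i) x) := by
      rw [← pow_mul, hpow i hi x ⟨hx.1.le, hx.2.le⟩, hΨpow]
    have h2 := root_unique hcommpt (hn i hi) h1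
    have h3 := hΨpow 1 x
    rw [pow_one, one_mul] at h3
    rw [h2, h3]
  -- the final step
  obtain ⟨N', hN'⟩ := Nat.exists_eq_add_of_le' hN1
  rcases lt_or_gt_of_ne (hc.ne x hx) with hd | hd
  · have hXY : (v ^ i) (y x) < (v ^ i) x := (v ^ i).strictMono hd
    have hle : (φ ^ (2 ^ (E i))) ((v ^ i) x) ≤ (v ^ i) (y x) := by
      rw [hroot, hN', pow_succ_apply']
      apply (v ^ i).monotone
      exact iter_le (y.monotone hd.le) N'
    obtain ⟨t, ht, ht2⟩ := step_left hXY hle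
    refine ⟨t, ?_, ?_⟩
    · rw [uIcc_of_ge hXY.le]; exact ht
    · rw [abs_sub_comm, abs_of_pos (by linarith)]
      push_cast at ht2
      exact ht2
  · have hXY : (v ^ i) x < (v ^ i) (y x) := (v ^ i).strictMono hd
    have hle : (v ^ i) (y x) ≤ (φ ^ (2 ^ (E i))) ((v ^ i) x) := by
      rw [hroot, hN', pow_succ_apply']
      apply (v ^ i).monotone
      exact iter_ge (y.monotone hd.le) N'
    obtain ⟨t, ht, ht2⟩ := step_right hXY hle
    refine ⟨t, ?_, ?_⟩
    · rw [uIcc_of_le hXY.le]; exact ht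
    · rw [abs_of_pos (by linarith)]
      push_cast at ht2
      exact ht2

end Pool.Agent.W331.CR
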