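import Pool.Agent.W331.CR.DP

/-! CR-RATE: rates for the Baumslag-Solitar pair `t, v` in the second rigidity theorem. -/

set_option autoImplicit false

open Set Filter Topology

namespace Pool.Agent.W331.CR

namespace Rate02

open DP

variable {U : Set ℝ} {H : Subgroup (ℝ ≃o ℝ)}

/-- log of the derivative -/
noncomputable def ld (F : ℝ ≃o ℝ) (x : ℝ) : ℝ := Real.log (deriv F x)

theorem comp_sub (hS : Setup U H) {t : ℝ ≃o ℝ} (ht : t ∈ H) {p q : ℝ} (h : IsComp t p q) :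
    Ioo p q ⊆ U := by
  intro x hx
  by_contra hn
  exact h.ne x hx ((hS.nice t ht).fixE ⟨p, h.left⟩ x hn)

theorem exp_ld (hS : Setup U H) {F : ℝ ≃o ℝ} (hF : F ∈ H) {x : ℝ} (hx : x ∈ U) :
    Real.exp (ld F x) = deriv F x := Real.exp_log ((hS.nice F hF).pos x hx)

theorem pow_mem_U (hS : Setup U H) {F : ℝ ≃o ℝ} (hF : F ∈ H) {x : ℝ} (hx : x ∈ U) (n : ℕ) :
    (F ^ n) x ∈ U := ((hS.nice _ (H.pow_mem hF n)).mem x).2 hx

theorem ld_mul (hS : Setup U H) {F G : ℝ ≃o ℝ} (hF : F ∈ H) (hG : G ∈ H) {x : ℝ} (hx : x ∈ U) :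
    ld (F * G) x = ld F (G x) + ld G x := by
  have e : ((F * G : ℝ ≃o ℝ) : ℝ → ℝ) = F ∘ G := rfl
  have hGx : G x ∈ U := ((hS.nice G hG).mem x).2 hx
  rw [ld, e, deriv_comp]
  · rw [Real.log_mul ((hS.nice F hF).pos _ hGx).ne' ((hS.nice G hG).pos _ hx).ne']
    rfl
  · exact (hS.nice F hF).diff _ hGx
  · exact (hS.nice G hG).diff _ hx

theorem ld_one (x : ℝ) : ld 1 x = 0 := by
  have e : ((1 : ℝ ≃o ℝ) : ℝ → ℝ) = id := rfl
  rw [ld, e, deriv_id, Real.log_one]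

theorem ld_pow (hS : Setup U H) {F : ℝ ≃o ℝ} (hF : F ∈ H) {x : ℝ} (hx : x ∈ U) (n : ℕ) :
    ld (F ^ n) x = ∑ k ∈ Finset.range n, ld F ((F ^ k) x) := by
  induction n with
  | zero => simp [ld_one]
  | succ n ih =>
    rw [pow_succ', ld_mul hS hF (H.pow_mem hF n) hx, ih, Finset.sum_range_succ, add_comm]

theorem mvt (hS : Setup U H) {F : ℝ ≃o ℝ} (hF : F ∈ H) {x y : ℝ} (hxy : x < y)
    (hU : Ioo x y ⊆ U) : ∃ ξ ∈ Ioo x y, F y - F x = Real.exp (ld F ξ) * (y - x) := by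
  obtain ⟨ξ, hξ, e⟩ := exists_deriv_eq_slope F hxy F.continuous.continuousOn
    (fun z hz => ((hS.nice F hF).diff z (hU hz)).differentiableWithinAt)
  refine ⟨ξ, hξ, ?_⟩
  rw [exp_ld hS hF (hU hξ), e, div_mul_cancel₀]
  linarith

theorem bilip (hS : Setup U H) {F : ℝ ≃o ℝ} (hF : F ∈ H) {p q Δ : ℝ} (hU : Ioo p q ⊆ U)
    (hΔ : ∀ z ∈ Ioo p q, |ld F z| ≤ Δ) {x y : ℝ} (hx : p < x) (hxy : x ≤ y) (hy : y < q) :
    Real.exp (-Δ) * (y - x) ≤ F y - F x ∧ F y - F x ≤ Real.exp Δ * (y - x) := by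
  rcases hxy.eq_or_lt with rfl | hxy
  · simp
  have hsub : Ioo x y ⊆ Ioo p q := fun z hz => ⟨hx.trans hz.1, hz.2.trans hy⟩
  obtain ⟨ξ, hξ, e⟩ := mvt hS hF hxy (hsub.trans hU)
  have h1 := abs_le.mp (hΔ ξ (hsub hξ))
  rw [e]
  have h2 : 0 ≤ y - x := by linarith
  exact ⟨mul_le_mul_of_nonneg_right (Real.exp_le_exp.mpr h1.1) h2,
    mul_le_mul_of_nonneg_right (Real.exp_le_exp.mpr h1.2) h2⟩

theorem distortion (hS : Setup U H) {F : ℝ ≃o ℝ} (hF : F ∈ H) {V : ℝ}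
    (hV : ∀ x y, x ≤ y → Icc x y ⊆ U → |ld F x - ld F y| ≤ V * (y - x))
    {x y : ℝ} (hxy : x ≤ y) (hU : Icc x y ⊆ U) (n : ℕ) :
    |ld (F ^ n) x - ld (F ^ n) y| ≤ V * ∑ k ∈ Finset.range n, ((F ^ k) y - (F ^ k) x) := by
  rw [ld_pow hS hF (hU ⟨le_refl x, hxy⟩), ld_pow hS hF (hU ⟨hxy, le_refl y⟩),
    ← Finset.sum_sub_distrib, Finset.mul_sum]
  refine (Finset.abs_sum_le_sum_abs _ _).trans (Finset.sum_le_sum fun k _ => ?_)
  apply hV _ _ ((F ^ k).monotone hxy)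
  intro z hz
  have h1 : z = (F ^ k) ((F ^ k)⁻¹ z) := ((F ^ k).apply_symm_apply z).symm
  rw [h1]
  apply pow_mem_U hS hF
  apply hU
  rw [h1] at hz
  exact ⟨(F ^ k).le_iff_le.mp hz.1, (F ^ k).le_iff_le.mp hz.2⟩

theorem comp_len {t : ℝ ≃o ℝ} (hper : ∀ x, t (x + 1) = t x + 1) {p q : ℝ} (h : IsComp t p q) :
    q ≤ p + 1 := by
  by_contra hne
  push Not at hne
  apply h.ne (p + 1) ⟨by linarith, hne⟩
  rw [hper p, h.left]

theorem per_int {t : ℝ ≃o ℝ} (hper : ∀ x, t (x + 1) = t x + 1) (l : ℤ) (x : ℝ) :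
    t (x + l) = t x + l := by
  have h := ((tr_comm hper).zpow_left l).eq
  have := congrArg (fun F : ℝ ≃o ℝ => F x) h
  simp only [RelIso.mul_apply, tr_zpow] at this
  exact this.symm

theorem comp_eq_or {t : ℝ ≃o ℝ} {c d c' d' : ℝ} (h : IsComp t c d) (h' : IsComp t c' d') :
    (c = c' ∧ d = d') ∨ Disjoint (Ioo c d) (Ioo c' d') := by
  by_cases hd : Disjoint (Ioo c d) (Ioo c' d')
  · exact Or.inr hd
  left
  rw [Set.not_disjoint_iff] at hd
  obtain ⟨x, hx, hx'⟩ := hd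
  constructor
  · apply le_antisymm
    · by_contra hne
      push Not at hne
      exact h'.ne c ⟨hne, hx.1.trans hx'.2⟩ h.left
    · by_contra hne
      push Not at hne
      exact h.ne c' ⟨hne, hx'.1.trans hx.2⟩ h'.left
  · apply le_antisymm
    · by_contra hne
      push Not at hne
      exact h.ne d' ⟨hx.1.trans hx'.2, hne⟩ h'.right
    · by_contra hne
      push Not at hne
      exact h'.ne d ⟨hx'.1.trans hx.2, hne⟩ h.right

theorem comp_shift {t : ℝ ≃o ℝ} (hper : ∀ x, t (x + 1) = t x + 1) {c d : ℝ} (h : IsComp t c d)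
    (l : ℤ) : IsComp t (c + l) (d + l) := by
  refine ⟨by linarith [h.lt], by rw [per_int hper, h.left], by rw [per_int hper, h.right], ?_⟩
  intro x hx he
  apply h.ne (x - l) ⟨by linarith [hx.1], by linarith [hx.2]⟩
  have := per_int hper l (x - l)
  rw [sub_add_cancel, he] at this
  linarith

theorem comp_v {t v : ℝ ≃o ℝ} (hr : t * v = v * t ^ 2) {c d : ℝ} (h : IsComp t c d) :
    IsComp t (v c) (v d) := by
  have happ : ∀ x, t (v x) = v ((t ^ 2) x) := fun x => by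
    rw [← RelIso.mul_apply, hr, RelIso.mul_apply]
  refine ⟨v.strictMono h.lt, by rw [happ, pow_fix h.left], by rw [happ, pow_fix h.right], ?_⟩
  intro x hx he
  have h1 : x = v (v⁻¹ x) := (v.apply_symm_apply x).symm
  rw [h1] at hx he
  rw [happ] at he
  exact pow_ne (h.ne _ ⟨v.lt_iff_lt.mp hx.1, v.lt_iff_lt.mp hx.2⟩) (by norm_num : 1 ≤ 2)
    (v.injective he)

theorem comp_vpow {t v : ℝ ≃o ℝ} (hr : t * v = v * t ^ 2) {c d : ℝ} (h : IsComp t c d) (i : ℕ) :
    IsComp t ((v ^ i) c) ((v ^ i) d) := by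
  induction i with
  | zero => exact h
  | succ i ih =>
    rw [pow_succ', RelIso.mul_apply, RelIso.mul_apply]
    exact comp_v hr ih

theorem comp_mem {t : ℝ ≃o ℝ} {p q x : ℝ} (h : IsComp t p q) (hx : x ∈ Ioo p q) :
    t x ∈ Ioo p q := by
  constructor
  · have := t.strictMono hx.1
    rwa [h.left] at this
  · have := t.strictMono hx.2
    rwa [h.right] at this

theorem fix_mem {g : ℝ ≃o ℝ} {p q x : ℝ} (hp : g p = p) (hq : g q = q) (hx : x ∈ Ioo p q) :
    g x ∈ Ioo p q := by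
  constructor
  · have := g.strictMono hx.1
    rwa [hp] at this
  · have := g.strictMono hx.2
    rwa [hq] at this

theorem push {t : ℝ ≃o ℝ} {p q : ℝ} (h : IsComp t p q) (hr : ∀ x ∈ Ioo p q, x < t x) {x : ℝ}
    (hx : x ∈ Ioo p q) : Tendsto (fun j : ℕ => (t ^ j) x) atTop (𝓝 q) := by
  have hmem : ∀ j : ℕ, (t ^ j) x ∈ Ioo p q := fun j => fix_mem (pow_fix h.left j) (pow_fix h.right j) hx
  have hmono : Monotone (fun j : ℕ => (t ^ j) x) := by
    apply monotone_nat_of_le_succ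
    intro j
    rw [pow_succ', RelIso.mul_apply]
    exact (hr _ (hmem j)).le
  have hbdd : BddAbove (range (fun j : ℕ => (t ^ j) x)) := ⟨q, by
    rintro _ ⟨j, rfl⟩
    exact (hmem j).2.le⟩
  have hlim := tendsto_atTop_ciSup hmono hbdd
  set L := ⨆ j : ℕ, (t ^ j) x with hL
  have h1 : Tendsto (fun j : ℕ => (t ^ (j + 1)) x) atTop (𝓝 L) := hlim.comp (tendsto_add_atTop_nat 1)
  have h2 : Tendsto (fun j : ℕ => t ((t ^ j) x)) atTop (𝓝 (t L)) :=
    (t.continuous.tendsto L).comp hlim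
  have h3 : (fun j : ℕ => t ((t ^ j) x)) = fun j : ℕ => (t ^ (j + 1)) x := by
    funext j
    rw [pow_succ', RelIso.mul_apply]
  rw [h3] at h2
  have h4 : t L = L := tendsto_nhds_unique h2 h1
  have h5 : x ≤ L := le_ciSup hbdd 0
  have h6 : L ≤ q := ciSup_le fun j => (hmem j).2.le
  have h7 : L = q := by
    by_contra hne
    exact h.ne L ⟨hx.1.trans_le h5, lt_of_le_of_ne h6 hne⟩ h4
  rwa [h7] at hlim

/-- in a component there is a point where the log of the derivative vanishes -/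
theorem ld_small (hS : Setup U H) {t : ℝ ≃o ℝ} (ht : t ∈ H) {V : ℝ} (hV0 : 0 ≤ V)
    (hV : ∀ x y, x ≤ y → Icc x y ⊆ U → |ld t x - ld t y| ≤ V * (y - x)) {p q : ℝ}
    (h : IsComp t p q) {x : ℝ} (hx : x ∈ Ioo p q) : |ld t x| ≤ V := by
  have hU := comp_sub hS ht h
  obtain ⟨ξ, hξ, e⟩ := mvt hS ht h.lt hU
  rw [h.left, h.right] at e
  have h0 : ld t ξ = 0 := by
    have h1 : 0 < q - p := by linarith [h.lt]
    have h2 : Real.exp (ld t ξ) = 1 := by
      have : (Real.exp (ld t ξ) - 1) * (q - p) = 0 := by linarith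
      rcases mul_eq_zero.mp this with h3 | h3
      · linarith
      · exact absurd h3 h1.ne'
    exact Real.exp_eq_one_iff _ |>.mp h2
  have hlen := comp_len (hS.nice t ht).per h
  rcases le_total x ξ with hle | hle
  · have := hV x ξ hle (fun z hz => hU ⟨hx.1.trans_le hz.1, hz.2.trans_lt hξ.2⟩)
    rw [h0, sub_zero] at this
    refine this.trans ?_
    have : ξ - x ≤ 1 := by linarith [hx.1, hξ.2]
    nlinarith
  · have := hV ξ x hle (fun z hz => hU ⟨hξ.1.trans_le hz.1, hz.2.trans_lt hx.2⟩)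
    rw [h0, zero_sub, abs_neg] at this
    refine this.trans ?_
    have : x - ξ ≤ 1 := by linarith [hξ.1, hx.2]
    nlinarith

theorem tv_pow {t v : ℝ ≃o ℝ} (hr : t * v = v * t ^ 2) (i : ℕ) : t * v ^ i = v ^ i * t ^ (2 ^ i) := by
  induction i with
  | zero => simp
  | succ i ih =>
    have h1 : ∀ m : ℕ, t ^ m * v = v * (t ^ 2) ^ m := by
      intro m
      induction m with
      | zero => simp
      | succ m ihm => rw [pow_succ, mul_assoc, hr, ← mul_assoc, ihm, mul_assoc, ← pow_succ]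
    rw [pow_succ, ← mul_assoc, ih, mul_assoc, h1, ← pow_mul, mul_assoc, ← pow_succ']

/-- step 1: the component is periodic modulo one under `v` -/
theorem step1 (hlen : S_len) (hS : Setup U H) {t v : ℝ ≃o ℝ} (ht : t ∈ H) (hv : v ∈ H)
    (hr : t * v = v * t ^ 2) {p q : ℝ} (h : IsComp t p q) (hright : ∀ x ∈ Ioo p q, x < t x) :
    ∃ n : ℕ, 1 ≤ n ∧ ∃ m : ℤ, (v ^ n) p = p + m ∧ (v ^ n) q = q + m := by
  by_contra hcon
  push Not at hcon
  have hper : ∀ F ∈ H, ∀ x, F (x + 1) = F x + 1 := fun F hF => (hS.nice F hF).per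
  have hU := comp_sub hS ht h
  have hC : ∀ i : ℕ, IsComp t ((v ^ i) p) ((v ^ i) q) := fun i => comp_vpow hr h i
  have hkey : ∀ (i k : ℕ) (l : ℤ), 1 ≤ k → (v ^ (i + k)) p = (v ^ i) p + l →
      (v ^ (i + k)) q = (v ^ i) q + l → False := by
    intro i k l hk h1 h2
    have hpi := hper _ (H.pow_mem hv i)
    have aux : ∀ z : ℝ, (v ^ (i + k)) z = (v ^ i) z + l → (v ^ k) z = z + l := by
      intro z hz
      apply (v ^ i).injective
      rw [← RelIso.mul_apply, ← pow_add, per_int hpi, hz]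
    exact hcon k hk l (aux p h1) (aux q h2)
  have hsum := hlen (fun i => (v ^ i) p) (fun i => (v ^ i) q) (fun i => (hC i).lt.le)
    (fun i => comp_len (hper t ht) (hC i)) (by
      intro i j hij l
      rcases comp_eq_or (hC i) (comp_shift (hper t ht) (hC j) l) with h1 | h1
      · exfalso
        rcases lt_or_gt_of_ne hij with h2 | h2
        · obtain ⟨k, rfl⟩ := Nat.exists_eq_add_of_lt h2
          apply hkey i (k + 1) (-l) (by omega)
          · push_cast; rw [h1.1]; ring_nf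
          · push_cast; rw [h1.2]; ring_nf
        · obtain ⟨k, rfl⟩ := Nat.exists_eq_add_of_lt h2
          exact hkey j (k + 1) l (by omega) h1.1 h1.2
      · exact h1)
  obtain ⟨Vv, hVv0, hVv⟩ := (hS.nice v hv).lip
  obtain ⟨Vt, hVt0, hVt⟩ := (hS.nice t ht).lip
  -- bound for the powers of `t`
  have hb : ∀ i : ℕ, ∀ x ∈ Ioo p q, |ld (t ^ (2 ^ i)) x| ≤ Vt + Vv * 2 := by
    intro i x hx
    have hxU := hU hx
    have hx' : (t ^ (2 ^ i)) x ∈ Ioo p q := fix_mem (pow_fix h.left _) (pow_fix h.right _) hx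
    have hle : x ≤ (t ^ (2 ^ i)) x := le_pow (hright x hx).le _
    have e : ld (t * v ^ i) x = ld (v ^ i * t ^ (2 ^ i)) x := by rw [tv_pow hr i]
    rw [ld_mul hS ht (H.pow_mem hv i) hxU, ld_mul hS (H.pow_mem hv i) (H.pow_mem ht _) hxU] at e
    have h1 := distortion hS hv hVv hle (fun z hz => hU ⟨hx.1.trans_le hz.1, hz.2.trans_lt hx'.2⟩) i
    have h2 : ∑ k ∈ Finset.range i, ((v ^ k) ((t ^ (2 ^ i)) x) - (v ^ k) x) ≤ 2 := by
      refine le_trans (Finset.sum_le_sum fun k _ => ?_) (hsum i)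
      have a1 := (v ^ k).monotone hx'.2.le
      have a2 := (v ^ k).monotone hx.1.le
      linarith
    have h3 := ld_small hS ht hVt0 hVt (hC i)
      (show (v ^ i) x ∈ Ioo ((v ^ i) p) ((v ^ i) q) from
        ⟨(v ^ i).strictMono hx.1, (v ^ i).strictMono hx.2⟩)
    have h4 : |ld (v ^ i) x - ld (v ^ i) ((t ^ (2 ^ i)) x)| ≤ Vv * 2 :=
      h1.trans (mul_le_mul_of_nonneg_left h2 hVv0)
    have h5 : ld (t ^ (2 ^ i)) x = ld t ((v ^ i) x) + (ld (v ^ i) x - ld (v ^ i) ((t ^ (2 ^ i)) x)) := by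
      linarith
    rw [h5]
    exact (abs_add_le _ _).trans (add_le_add h3 h4)
  -- contradiction
  obtain ⟨x, hx⟩ : ∃ x, x = (2 * p + q) / 3 := ⟨_, rfl⟩
  obtain ⟨y, hy⟩ : ∃ y, y = (p + 2 * q) / 3 := ⟨_, rfl⟩
  have hpq := h.lt
  have hxm : x ∈ Ioo p q := ⟨by linarith, by linarith⟩
  have hym : y ∈ Ioo p q := ⟨by linarith, by linarith⟩
  have hxy : x < y := by linarith
  have hε : 0 < Real.exp (-(Vt + Vv * 2)) * (y - x) := mul_pos (Real.exp_pos _) (by linarith)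
  have hp := push h hright hxm
  have hp2 : Tendsto (fun i : ℕ => (t ^ (2 ^ i)) x) atTop (𝓝 q) :=
    hp.comp (tendsto_pow_atTop_atTop_of_one_lt (by norm_num : 1 < 2))
  have hev := hp2.eventually (lt_mem_nhds (show q - Real.exp (-(Vt + Vv * 2)) * (y - x) < q by linarith))
  obtain ⟨i, hi⟩ := hev.exists
  have h1 := (bilip hS (H.pow_mem ht (2 ^ i)) hU (hb i) hxm.1 hxy.le hym.2).1
  have h2 : (t ^ (2 ^ i)) y < q := (fix_mem (pow_fix h.left _) (pow_fix h.right _) hym).2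
  linarith

/-! ### Limits of the derivative at the right end -/

/-- limit of the log of the derivative at the right end -/
def Lm (q : ℝ) (F : ℝ ≃o ℝ) (a : ℝ) : Prop := Tendsto (ld F) (𝓝[<] q) (𝓝 a)

theorem exists_Lm (hS : Setup U H) {F : ℝ ≃o ℝ} (hF : F ∈ H) {p q : ℝ} (hpq : p < q)
    (hU : Ioo p q ⊆ U) : ∃ a, Lm q F a := by
  obtain ⟨V, hV0, hV⟩ := (hS.nice F hF).lip
  have hl : LipschitzOnWith V.toNNReal (ld F) (Ioo p q) := by
    apply LipschitzOnWith.of_dist_le_mul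
    intro x hx y hy
    rw [Real.coe_toNNReal V hV0, Real.dist_eq, Real.dist_eq]
    rcases le_total x y with h | h
    · rw [abs_sub_comm x y, abs_of_nonneg (by linarith : 0 ≤ y - x)]
      exact hV x y h (fun z hz => hU ⟨hx.1.trans_le hz.1, hz.2.trans_lt hy.2⟩)
    · rw [abs_of_nonneg (by linarith : 0 ≤ x - y), abs_sub_comm]
      exact hV y x h (fun z hz => hU ⟨hy.1.trans_le hz.1, hz.2.trans_lt hx.2⟩)
  obtain ⟨G, hG, he⟩ := hl.extend_real
  refine ⟨G q, ?_⟩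
  have h1 : Tendsto G (𝓝[<] q) (𝓝 (G q)) := hG.continuous.continuousAt.tendsto.mono_left nhdsWithin_le_nhds
  refine h1.congr' ?_
  filter_upwards [Ioo_mem_nhdsLT hpq] with x hx
  exact (he hx).symm

theorem Lm_mul (hS : Setup U H) {F G : ℝ ≃o ℝ} (hF : F ∈ H) (hG : G ∈ H) {p q : ℝ} (hpq : p < q)
    (hU : Ioo p q ⊆ U) (hq : G q = q) {a b : ℝ} (ha : Lm q F a) (hb : Lm q G b) :
    Lm q (F * G) (a + b) := by
  have h1 : Tendsto G (𝓝[<] q) (𝓝[<] q) := by
    apply tendsto_nhdsWithin_of_tendsto_nhds_of_eventually_within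
    · have := (G.continuous.tendsto q).mono_left (nhdsWithin_le_nhds (s := Iio q))
      rwa [hq] at this
    · filter_upwards [self_mem_nhdsWithin] with x hx
      have := G.strictMono hx
      rwa [hq] at this
  refine ((ha.comp h1).add hb).congr' ?_
  filter_upwards [Ioo_mem_nhdsLT hpq] with x hx
  exact (ld_mul hS hF hG (hU hx)).symm

theorem Lm_pow (hS : Setup U H) {F : ℝ ≃o ℝ} (hF : F ∈ H) {p q : ℝ} (hpq : p < q)
    (hU : Ioo p q ⊆ U) (hq : F q = q) {a : ℝ} (ha : Lm q F a) (n : ℕ) :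
    Lm q (F ^ n) (n * a) := by
  induction n with
  | zero =>
    rw [pow_zero, Nat.cast_zero, zero_mul]
    refine tendsto_const_nhds.congr (fun x => (ld_one x).symm)
  | succ n ih =>
    rw [pow_succ]
    have := Lm_mul hS (H.pow_mem hF n) hF hpq hU hq ih ha
    convert this using 2
    push_cast
    ring

theorem Lm_unique {q : ℝ} {F : ℝ ≃o ℝ} {a b : ℝ} (ha : Lm q F a) (hb : Lm q F b) : a = b :=
  tendsto_nhds_unique ha hb

/-- step 4: uniform bound for the elements between the identity and `t` which commute with `t` -/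
theorem step4 (hS : Setup U H) {t : ℝ ≃o ℝ} (ht : t ∈ H) {p q : ℝ} (h : IsComp t p q)
    (hright : ∀ x ∈ Ioo p q, x < t x) {V : ℝ} (hV0 : 0 ≤ V)
    (hV : ∀ x y, x ≤ y → Icc x y ⊆ U → |ld t x - ld t y| ≤ V * (y - x))
    {g : ℝ ≃o ℝ} (hg : g ∈ H) (hgt : Commute g t) (hL : Lm q g 0)
    (hge : ∀ x ∈ Ioo p q, x ≤ g x ∧ g x ≤ t x) : ∀ x ∈ Ioo p q, |ld g x| ≤ V := by
  intro x hx
  have hU := comp_sub hS ht h
  have hlen := comp_len (hS.nice t ht).per h
  have hmem : ∀ j : ℕ, (t ^ j) x ∈ Ioo p q := fun j => fix_mem (pow_fix h.left j) (pow_fix h.right j) hx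
  have h1 : ∀ j : ℕ, |ld g x - ld g ((t ^ j) x)| ≤ V := by
    intro j
    have e : ld (g * t ^ j) x = ld (t ^ j * g) x := by rw [(hgt.pow_right j).eq]
    rw [ld_mul hS hg (H.pow_mem ht j) (hU hx), ld_mul hS (H.pow_mem ht j) hg (hU hx)] at e
    have hgx : g x < q := ((hge x hx).2).trans_lt (comp_mem h hx).2
    have h2 := distortion hS ht hV (hge x hx).1
      (fun z hz => hU ⟨hx.1.trans_le hz.1, hz.2.trans_lt hgx⟩) j
    have h3 : ∑ k ∈ Finset.range j, ((t ^ k) (g x) - (t ^ k) x) ≤ 1 := by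
      calc ∑ k ∈ Finset.range j, ((t ^ k) (g x) - (t ^ k) x)
          ≤ ∑ k ∈ Finset.range j, ((t ^ (k + 1)) x - (t ^ k) x) := by
            apply Finset.sum_le_sum
            intro k _
            have h9 := (t ^ k).monotone (hge x hx).2
            have e9 : (t ^ (k + 1)) x = (t ^ k) (t x) := by rw [pow_succ, RelIso.mul_apply]
            rw [e9]
            linarith
        _ = (t ^ j) x - (t ^ 0) x := Finset.sum_range_sub (fun k => (t ^ k) x) j
        _ ≤ 1 := by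
            have h4 := (hmem j).2
            have h5 : (t ^ 0) x = x := rfl
            rw [h5]
            linarith [hx.1]
    have h6 : ld g x - ld g ((t ^ j) x) = ld (t ^ j) x - ld (t ^ j) (g x) := by linarith
    rw [h6]
    calc _ ≤ V * ∑ k ∈ Finset.range j, ((t ^ k) (g x) - (t ^ k) x) := h2
      _ ≤ V * 1 := mul_le_mul_of_nonneg_left h3 hV0
      _ = V := mul_one V
  have h2 : Tendsto (fun j : ℕ => ld g ((t ^ j) x)) atTop (𝓝 0) := by
    apply hL.comp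
    apply tendsto_nhdsWithin_of_tendsto_nhds_of_eventually_within
    · exact push h hright hx
    · exact Eventually.of_forall fun j => (hmem j).2
  have h3 : Tendsto (fun j : ℕ => |ld g x - ld g ((t ^ j) x)|) atTop (𝓝 |ld g x - 0|) :=
    (tendsto_const_nhds.sub h2).abs
  rw [sub_zero] at h3
  exact le_of_tendsto h3 (Eventually.of_forall h1)

/-- a bilipschitz growth bound -/
theorem growth (Δ : ℝ) (r : ℕ) : ∃ B : ℝ, 0 ≤ B ∧ ∀ (T : ℝ ≃o ℝ) (p q s : ℝ), T p = p → T q = q →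
    s ∈ Ioo p q → (∀ x ∈ Ioo p q, x ≤ T x) →
    (∀ x y, p < x → x ≤ y → y < q → Real.exp (-Δ) * (y - x) ≤ T y - T x ∧
      T y - T x ≤ Real.exp Δ * (y - x)) →
    (T ^ r) s - (T⁻¹ ^ r) s ≤ B * (T s - s) := by
  induction r with
  | zero => exact ⟨0, le_refl _, fun T p q s _ _ _ _ _ => by simp⟩
  | succ r ih =>
    obtain ⟨B, hB, h⟩ := ih
    refine ⟨Real.exp Δ * B + 1 + Real.exp Δ, by positivity, ?_⟩
    intro T p q s hp hq hs hT hb
    have h1 := h T p q s hp hq hs hT hb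
    have hpi : T⁻¹ p = p := inv_app hp
    have hqi : T⁻¹ q = q := inv_app hq
    have hinv : ∀ x y, p < x → x ≤ y → y < q → T⁻¹ y - T⁻¹ x ≤ Real.exp Δ * (y - x) := by
      intro x y hx hxy hy
      have hx' : p < T⁻¹ x := by
        have := T⁻¹.strictMono hx
        rwa [hpi] at this
      have hy' : T⁻¹ y < q := by
        have := T⁻¹.strictMono hy
        rwa [hqi] at this
      have h2 := (hb (T⁻¹ x) (T⁻¹ y) hx' (T⁻¹.monotone hxy) hy').1
      have e1 : T (T⁻¹ x) = x := T.apply_symm_apply x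
      have e2 : T (T⁻¹ y) = y := T.apply_symm_apply y
      rw [e1, e2] at h2
      have h3 := mul_le_mul_of_nonneg_left h2 (Real.exp_pos Δ).le
      rw [← mul_assoc, ← Real.exp_add, add_neg_cancel, Real.exp_zero, one_mul] at h3
      exact h3
    have hTs : s ≤ (T ^ r) s := le_pow (hT s hs) r
    have hmr : (T ^ r) s ∈ Ioo p q := fix_mem (pow_fix hp r) (pow_fix hq r) hs
    have hmi : (T⁻¹ ^ r) s ∈ Ioo p q := fix_mem (pow_fix hpi r) (pow_fix hqi r) hs
    have hTi : ∀ x ∈ Ioo p q, T⁻¹ x ≤ x := by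
      intro x hx
      have := T⁻¹.monotone (hT x hx)
      have e1 : T⁻¹ (T x) = x := T.symm_apply_apply x
      rwa [e1] at this
    have hTis : (T⁻¹ ^ r) s ≤ s := pow_le (hTi s hs) r
    have h4 := (hb s ((T ^ r) s) hs.1 hTs hmr.2).2
    have h5 := hinv ((T⁻¹ ^ r) s) s hmi.1 hTis hs.2
    have h6 := hinv s (T s) hs.1 (hT s hs) (fix_mem hp hq hs).2
    have e1 : T⁻¹ (T s) = s := T.symm_apply_apply s
    rw [e1] at h6
    rw [pow_succ', pow_succ', RelIso.mul_apply, RelIso.mul_apply]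
    have h7 : Real.exp Δ * ((T ^ r) s - (T⁻¹ ^ r) s) ≤ Real.exp Δ * (B * (T s - s)) :=
      mul_le_mul_of_nonneg_left h1 (Real.exp_pos Δ).le
    nlinarith

theorem sum_half (i : ℕ) : ∑ k ∈ Finset.range i, ((1 : ℝ) / 2) ^ k ≤ 2 := by
  have h : ∑ k ∈ Finset.range i, ((1 : ℝ) / 2) ^ k = 2 - 2 * (1 / 2) ^ i := by
    induction i with
    | zero => simp
    | succ i ih => rw [Finset.sum_range_succ, ih, pow_succ]; ring
  rw [h]
  have : (0 : ℝ) ≤ 2 * (1 / 2) ^ i := by positivity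
  linarith

theorem tw_pow {t w : ℝ ≃o ℝ} {N : ℕ} (hr : t * w = w * t ^ N) (i : ℕ) :
    t * w ^ i = w ^ i * t ^ (N ^ i) := by
  induction i with
  | zero => simp
  | succ i ih =>
    have h1 : ∀ m : ℕ, t ^ m * w = w * (t ^ N) ^ m := by
      intro m
      induction m with
      | zero => simp
      | succ m ihm => rw [pow_succ, mul_assoc, hr, ← mul_assoc, ihm, mul_assoc, ← pow_succ]
    rw [pow_succ, ← mul_assoc, ih, mul_assoc, h1, ← pow_mul, mul_assoc, ← pow_succ']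

/-- steps 3 to 6 -/
theorem main (hS : Setup U H) {t w : ℝ ≃o ℝ} (ht : t ∈ H) (hw : w ∈ H) {N : ℕ} (hN : 2 ≤ N)
    (hr : t * w = w * t ^ N) {p q s : ℝ} (h : IsComp t p q) (hright : ∀ x ∈ Ioo p q, x < t x)
    (hwp : w p = p) (hwq : w q = q) (hs : s ∈ Ioo p q) (hws : w s = s) :
    ∀ c d, p < c → c < d → d < q → ∃ C : ℝ, 0 < C ∧ ∀ i : ℕ,
      (∀ x ∈ Icc c d, |(w ^ i) x - s| ≤ C / (N : ℝ) ^ i) ∧
      (∀ x ∈ Icc c d, ∀ x' ∈ Icc c d,
        |x - x'| / (C * (N : ℝ) ^ i) ≤ |(w ^ i) x - (w ^ i) x'|) := by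
  have hU := comp_sub hS ht h
  have hpq := h.lt
  obtain ⟨Δ, hΔ0, hΔ⟩ := (hS.nice t ht).lip
  obtain ⟨Vw, hVw0, hVw⟩ := (hS.nice w hw).lip
  -- the limit of the derivative of `t` at `q` is one
  have hLt : Lm q t 0 := by
    obtain ⟨a, ha⟩ := exists_Lm hS ht hpq hU
    obtain ⟨b, hb⟩ := exists_Lm hS hw hpq hU
    have h1 := Lm_mul hS ht hw hpq hU hwq ha hb
    have h2 := Lm_mul hS hw (H.pow_mem ht N) hpq hU (pow_fix h.right N) hb
      (Lm_pow hS ht hpq hU h.right ha N)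
    rw [hr] at h1
    have h3 := Lm_unique h1 h2
    have h4 : ((N : ℝ) - 1) * a = 0 := by linarith
    have h5 : (2 : ℝ) ≤ N := by exact_mod_cast hN
    rcases mul_eq_zero.mp h4 with h6 | h6
    · exfalso; linarith
    · rwa [h6] at ha
  obtain ⟨T, hT⟩ : ∃ T : ℕ → (ℝ ≃o ℝ), T = fun i => w ^ i * t * (w ^ i)⁻¹ := ⟨_, rfl⟩
  have hTpow : ∀ i l, (T i) ^ l = w ^ i * t ^ l * (w ^ i)⁻¹ := by
    intro i l
    rw [hT]
    exact conj_pow
  have hTN : ∀ i, (T i) ^ (N ^ i) = t := by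
    intro i
    rw [hTpow, ← tw_pow hr i, mul_inv_cancel_right]
  have hTH : ∀ i, T i ∈ H := by
    intro i
    rw [hT]
    exact H.mul_mem (H.mul_mem (H.pow_mem hw i) ht) (H.inv_mem (H.pow_mem hw i))
  have hTc : ∀ i, Commute (T i) t := by
    intro i
    have h1 : Commute (T i) ((T i) ^ (N ^ i)) := (Commute.refl (T i)).pow_right _
    rwa [hTN] at h1
  have hTapp : ∀ i x, T i x = (w ^ i) (t ((w ^ i)⁻¹ x)) := by
    intro i x
    rw [hT]
    rfl
  have hTp : ∀ i, T i p = p := by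
    intro i
    rw [hTapp, inv_app (pow_fix hwp i), h.left, pow_fix hwp i]
  have hTq : ∀ i, T i q = q := by
    intro i
    rw [hTapp, inv_app (pow_fix hwq i), h.right, pow_fix hwq i]
  have hTr : ∀ i, ∀ x ∈ Ioo p q, x < T i x := by
    intro i x hx
    rw [hTapp]
    have h1 : (w ^ i)⁻¹ x ∈ Ioo p q := fix_mem (inv_app (pow_fix hwp i)) (inv_app (pow_fix hwq i)) hx
    have h2 := (w ^ i).strictMono (hright _ h1)
    have h3 : (w ^ i) ((w ^ i)⁻¹ x) = x := (w ^ i).apply_symm_apply x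
    rwa [h3] at h2
  have hNi : ∀ i : ℕ, 1 ≤ N ^ i := fun i => Nat.one_le_pow _ _ (by omega)
  have hLT : ∀ i, Lm q (T i) 0 := by
    intro i
    obtain ⟨a, ha⟩ := exists_Lm hS (hTH i) hpq hU
    have h1 := Lm_pow hS (hTH i) hpq hU (hTq i) ha (N ^ i)
    rw [hTN] at h1
    have h2 := Lm_unique h1 hLt
    have h3 : ((N ^ i : ℕ) : ℝ) ≠ 0 := by
      have := hNi i
      exact_mod_cast (by omega : N ^ i ≠ 0)
    rcases mul_eq_zero.mp h2 with h4 | h4
    · exact absurd h4 h3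
    · rwa [h4] at ha
  have hTl : ∀ i l, l ≤ N ^ i → ∀ x ∈ Ioo p q, |ld ((T i) ^ l) x| ≤ Δ := by
    intro i l hl
    apply step4 hS ht h hright hΔ0 hΔ (H.pow_mem (hTH i) l) ((hTc i).pow_left l)
    · have := Lm_pow hS (hTH i) hpq hU (hTq i) (hLT i) l
      rwa [mul_zero] at this
    · intro x hx
      refine ⟨le_pow (hTr i x hx).le l, ?_⟩
      obtain ⟨k, hk⟩ := Nat.exists_eq_add_of_le hl
      have h1 : t x = ((T i) ^ l) (((T i) ^ k) x) := by
        rw [← RelIso.mul_apply, ← pow_add, ← hk, hTN]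
      rw [h1]
      exact ((T i) ^ l).monotone (le_pow (hTr i x hx).le k)
  have hTs : ∀ i, T i s ∈ Ioo p q := fun i => fix_mem (hTp i) (hTq i) hs
  have hts : 0 < t s - s := by linarith [hright s hs]
  have hterm : ∀ i l, l ≤ N ^ i → Real.exp (-Δ) * (T i s - s) ≤ ((T i) ^ (l + 1)) s - ((T i) ^ l) s ∧
      ((T i) ^ (l + 1)) s - ((T i) ^ l) s ≤ Real.exp Δ * (T i s - s) := by
    intro i l hl
    rw [pow_succ, RelIso.mul_apply]
    exact bilip hS (H.pow_mem (hTH i) l) hU (hTl i l hl) hs.1 (hTr i s hs).le (hTs i).2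
  have htel : ∀ i, ∑ l ∈ Finset.range (N ^ i), (((T i) ^ (l + 1)) s - ((T i) ^ l) s) = t s - s := by
    intro i
    rw [Finset.sum_range_sub (fun l => ((T i) ^ l) s), hTN]
    rfl
  have hlow : ∀ i, t s - s ≤ (N : ℝ) ^ i * (Real.exp Δ * (T i s - s)) := by
    intro i
    rw [← htel i]
    calc _ ≤ ∑ l ∈ Finset.range (N ^ i), Real.exp Δ * (T i s - s) :=
          Finset.sum_le_sum fun l hl => (hterm i l (Finset.mem_range.mp hl).le).2
      _ = _ := by
          rw [Finset.sum_const, Finset.card_range, nsmul_eq_mul]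
          push_cast
          ring
  have hupp : ∀ i, (N : ℝ) ^ i * (Real.exp (-Δ) * (T i s - s)) ≤ t s - s := by
    intro i
    rw [← htel i]
    calc _ = ∑ l ∈ Finset.range (N ^ i), Real.exp (-Δ) * (T i s - s) := by
          rw [Finset.sum_const, Finset.card_range, nsmul_eq_mul]
          push_cast
          ring
      _ ≤ _ := Finset.sum_le_sum fun l hl => (hterm i l (Finset.mem_range.mp hl).le).1
  have hNpos : ∀ i : ℕ, (0 : ℝ) < (N : ℝ) ^ i := fun i => by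
    have : (0 : ℝ) < N := by
      have : (2 : ℝ) ≤ N := by exact_mod_cast hN
      linarith
    positivity
  have hupp' : ∀ i, T i s - s ≤ Real.exp Δ * (t s - s) / (N : ℝ) ^ i := by
    intro i
    rw [le_div_iff₀ (hNpos i)]
    have h1 := mul_le_mul_of_nonneg_left (hupp i) (Real.exp_pos Δ).le
    have e : Real.exp Δ * ((N : ℝ) ^ i * (Real.exp (-Δ) * (T i s - s))) =
        (Real.exp Δ * Real.exp (-Δ)) * ((T i s - s) * (N : ℝ) ^ i) := by ring
    rw [e, ← Real.exp_add, add_neg_cancel, Real.exp_zero, one_mul] at h1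
    exact h1
  have hwis : ∀ i : ℕ, (w ^ i)⁻¹ s = s := fun i => inv_app (pow_fix hws i)
  have hwt : ∀ i r : ℕ, (w ^ i) ((t ^ r) s) = ((T i) ^ r) s := by
    intro i r
    rw [hTpow, RelIso.mul_apply, RelIso.mul_apply, hwis]
  have hwti : ∀ i r : ℕ, (w ^ i) ((t⁻¹ ^ r) s) = ((T i)⁻¹ ^ r) s := by
    intro i r
    have : (T i)⁻¹ ^ r = w ^ i * t⁻¹ ^ r * (w ^ i)⁻¹ := by
      rw [inv_pow, hTpow, inv_pow]
      group
    rw [this, RelIso.mul_apply, RelIso.mul_apply, hwis]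
  intro c d hc hcd hd
  -- choice of `r`
  obtain ⟨r, hr1, hrd, hrc⟩ : ∃ r : ℕ, 1 ≤ r ∧ d < (t ^ r) s ∧ (t⁻¹ ^ r) s < c := by
    have e1 := (push h hright hs).eventually (lt_mem_nhds hd)
    have e2 := (push h hright (show c ∈ Ioo p q from ⟨hc, hcd.trans hd⟩)).eventually
      (lt_mem_nhds hs.2)
    obtain ⟨r, ⟨h1, h2⟩, h3⟩ := ((e1.and e2).and (eventually_ge_atTop 1)).exists
    refine ⟨r, h3, h1, ?_⟩
    rw [inv_pow]
    have h4 := ((t ^ r)⁻¹).strictMono h2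
    have h5 : (t ^ r)⁻¹ ((t ^ r) c) = c := (t ^ r).symm_apply_apply c
    rwa [h5] at h4
  obtain ⟨B, hB0, hB⟩ := growth Δ r
  obtain ⟨x₀, hx₀⟩ : ∃ x₀, x₀ = (t⁻¹ ^ r) s := ⟨_, rfl⟩
  obtain ⟨x₁, hx₁⟩ : ∃ x₁, x₁ = (t ^ r) s := ⟨_, rfl⟩
  have hgr : ∀ i : ℕ, (w ^ i) x₁ - (w ^ i) x₀ ≤ B * (Real.exp Δ * (t s - s) / (N : ℝ) ^ i) := by
    intro i
    rw [hx₀, hx₁, hwt, hwti]
    refine (hB (T i) p q s (hTp i) (hTq i) hs (fun x hx => (hTr i x hx).le) ?_).trans
      (mul_le_mul_of_nonneg_left (hupp' i) hB0)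
    intro x y hx hxy hy
    have h1 := hTl i 1 (hNi i)
    rw [pow_one] at h1
    exact bilip hS (hTH i) hU h1 hx hxy hy
  have hx0m : x₀ ∈ Ioo p q := by
    rw [hx₀]
    exact fix_mem (pow_fix (inv_app h.left) r) (pow_fix (inv_app h.right) r) hs
  have hx1m : x₁ ∈ Ioo p q := by
    rw [hx₁]
    exact fix_mem (pow_fix h.left r) (pow_fix h.right r) hs
  have hx0s : x₀ ≤ s := by
    rw [hx₀]
    apply pow_le
    have h1 := t⁻¹.monotone (hright s hs).le
    have h2 : t⁻¹ (t s) = s := t.symm_apply_apply s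
    rwa [h2] at h1
  have htsx1 : t s ≤ x₁ := by
    rw [hx₁]
    obtain ⟨k, rfl⟩ := Nat.exists_eq_add_of_le hr1
    rw [pow_add, pow_one, RelIso.mul_apply]
    exact t.monotone (le_pow (hright s hs).le k)
  obtain ⟨K, hK⟩ : ∃ K : ℝ, K = Vw * (B * (Real.exp Δ * (t s - s)) * 2) := ⟨_, rfl⟩
  have hK0 : 0 ≤ K := by rw [hK]; positivity
  -- distortion of `w ^ i`
  have hdist : ∀ i : ℕ, ∀ x ∈ Icc x₀ x₁, ∀ y ∈ Icc x₀ x₁, |ld (w ^ i) x - ld (w ^ i) y| ≤ K := by
    intro i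
    have haux : ∀ x ∈ Icc x₀ x₁, ∀ y ∈ Icc x₀ x₁, x ≤ y → |ld (w ^ i) x - ld (w ^ i) y| ≤ K := by
      intro x hx y hy hxy
      have h1 := distortion hS hw hVw hxy (fun z hz => hU ⟨hx0m.1.trans_le (hx.1.trans hz.1),
        (hz.2.trans hy.2).trans_lt hx1m.2⟩) i
      refine h1.trans ?_
      rw [hK]
      apply mul_le_mul_of_nonneg_left _ hVw0
      calc ∑ k ∈ Finset.range i, ((w ^ k) y - (w ^ k) x)
          ≤ ∑ k ∈ Finset.range i, (B * (Real.exp Δ * (t s - s))) * ((1 : ℝ) / 2) ^ k := by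
            apply Finset.sum_le_sum
            intro k _
            have a1 := (w ^ k).monotone hy.2
            have a2 := (w ^ k).monotone hx.1
            have a3 := hgr k
            have a4 : B * (Real.exp Δ * (t s - s) / (N : ℝ) ^ k) ≤
                (B * (Real.exp Δ * (t s - s))) * ((1 : ℝ) / 2) ^ k := by
              rw [← mul_div_assoc, div_eq_mul_inv]
              apply mul_le_mul_of_nonneg_left _ (by positivity)
              rw [one_div, inv_pow]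
              apply inv_anti₀ (by positivity)
              apply pow_le_pow_left₀ (by norm_num)
              exact_mod_cast hN
            linarith
        _ = (B * (Real.exp Δ * (t s - s))) * ∑ k ∈ Finset.range i, ((1 : ℝ) / 2) ^ k := by
            rw [Finset.mul_sum]
        _ ≤ (B * (Real.exp Δ * (t s - s))) * 2 :=
            mul_le_mul_of_nonneg_left (sum_half i) (by positivity)
    intro x hx y hy
    rcases le_total x y with hxy | hxy
    · exact haux x hx y hy hxy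
    · rw [abs_sub_comm]
      exact haux y hy x hx hxy
  -- lower bound of the derivative
  have hder : ∀ i : ℕ, ∀ x ∈ Icc x₀ x₁, Real.exp (-(K + Δ)) / (N : ℝ) ^ i ≤ Real.exp (ld (w ^ i) x) := by
    intro i x hx
    obtain ⟨ξ, hξ, e⟩ := mvt hS (H.pow_mem hw i) (hright s hs)
      (fun z hz => hU ⟨hs.1.trans hz.1, hz.2.trans (comp_mem h hs).2⟩)
    have e1 : (w ^ i) (t s) = T i s := by
      have := hwt i 1
      rwa [pow_one, pow_one] at this
    rw [e1, pow_fix hws i] at e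
    have h1 := hlow i
    rw [e] at h1
    have h2 : 1 ≤ (N : ℝ) ^ i * Real.exp Δ * Real.exp (ld (w ^ i) ξ) := by
      by_contra hne
      push Not at hne
      have := mul_lt_mul_of_pos_right hne hts
      nlinarith
    have h3 := hdist i x hx ξ ⟨hx0s.trans hξ.1.le, hξ.2.le.trans htsx1⟩
    have h4 := (abs_le.mp h3).1
    have h5 : Real.exp (-K) * Real.exp (ld (w ^ i) ξ) ≤ Real.exp (ld (w ^ i) x) := by
      rw [← Real.exp_add]
      exact Real.exp_le_exp.mpr (by linarith)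
    refine le_trans ?_ h5
    rw [neg_add, Real.exp_add, mul_div_assoc]
    apply mul_le_mul_of_nonneg_left _ (Real.exp_pos _).le
    rw [div_le_iff₀ (hNpos i)]
    have h6 := mul_le_mul_of_nonneg_left h2 (Real.exp_pos (-Δ)).le
    have e2 : Real.exp (-Δ) * ((N : ℝ) ^ i * Real.exp Δ * Real.exp (ld (w ^ i) ξ)) =
        (Real.exp (-Δ) * Real.exp Δ) * (Real.exp (ld (w ^ i) ξ) * (N : ℝ) ^ i) := by ring
    rw [e2, ← Real.exp_add, neg_add_cancel, Real.exp_zero, one_mul, mul_one] at h6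
    exact h6
  have hcx : ∀ x ∈ Icc c d, x ∈ Icc x₀ x₁ := fun x hx =>
    ⟨(by rw [hx₀]; exact hrc.le.trans hx.1), (by rw [hx₁]; exact hx.2.trans hrd.le)⟩
  refine ⟨B * (Real.exp Δ * (t s - s)) + Real.exp (K + Δ), by positivity, ?_⟩
  intro i
  constructor
  · intro x hx
    have hxm := hcx x hx
    have a1 := (w ^ i).monotone hxm.1
    have a2 := (w ^ i).monotone hxm.2
    have a3 := (w ^ i).monotone hx0s
    have a4 := (w ^ i).monotone (show s ≤ x₁ from (hright s hs).le.trans htsx1)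
    rw [pow_fix hws i] at a3 a4
    have a5 := hgr i
    have a6 : B * (Real.exp Δ * (t s - s) / (N : ℝ) ^ i) ≤
        (B * (Real.exp Δ * (t s - s)) + Real.exp (K + Δ)) / (N : ℝ) ^ i := by
      rw [← mul_div_assoc]
      apply div_le_div_of_nonneg_right _ (hNpos i).le
      linarith [Real.exp_pos (K + Δ)]
    rw [abs_le]
    constructor <;> linarith
  · have haux : ∀ x ∈ Icc c d, ∀ x' ∈ Icc c d, x < x' →
        |x - x'| / ((B * (Real.exp Δ * (t s - s)) + Real.exp (K + Δ)) * (N : ℝ) ^ i) ≤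
          |(w ^ i) x - (w ^ i) x'| := by
      intro x hx x' hx' hlt
      have hxm := hcx x hx
      have hxm' := hcx x' hx'
      obtain ⟨ξ, hξ, e⟩ := mvt hS (H.pow_mem hw i) hlt
        (fun z hz => hU ⟨hx0m.1.trans_le (hxm.1.trans hz.1.le), (hz.2.trans_le hxm'.2).trans hx1m.2⟩)
      have h1 := hder i ξ ⟨hxm.1.trans hξ.1.le, hξ.2.le.trans hxm'.2⟩
      rw [abs_sub_comm x x', abs_of_pos (by linarith : 0 < x' - x), abs_sub_comm ((w ^ i) x),
        abs_of_pos (by linarith [(w ^ i).strictMono hlt]), e]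
      have h2 : 0 < x' - x := by linarith
      have h3 : 0 < B * (Real.exp Δ * (t s - s)) + Real.exp (K + Δ) := by positivity
      rw [div_le_iff₀ (mul_pos h3 (hNpos i))]
      have h4 : Real.exp (-(K + Δ)) ≤ Real.exp (ld (w ^ i) ξ) * (N : ℝ) ^ i := by
        rwa [div_le_iff₀ (hNpos i)] at h1
      have h5 : 1 ≤ (B * (Real.exp Δ * (t s - s)) + Real.exp (K + Δ)) *
          (Real.exp (ld (w ^ i) ξ) * (N : ℝ) ^ i) := by
        calc (1 : ℝ) = Real.exp (K + Δ) * Real.exp (-(K + Δ)) := by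
              rw [← Real.exp_add, add_neg_cancel, Real.exp_zero]
          _ ≤ (B * (Real.exp Δ * (t s - s)) + Real.exp (K + Δ)) *
              (Real.exp (ld (w ^ i) ξ) * (N : ℝ) ^ i) := by
              apply mul_le_mul _ h4 (Real.exp_pos _).le h3.le
              have : 0 ≤ B * (Real.exp Δ * (t s - s)) := by positivity
              linarith
      nlinarith [mul_le_mul_of_nonneg_right h5 h2.le]
    intro x hx x' hx'
    rcases lt_trichotomy x x' with hlt | heq | hlt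
    · exact haux x hx x' hx' hlt
    · rw [heq]; simp
    · rw [abs_sub_comm x, abs_sub_comm ((w ^ i) x)]
      exact haux x' hx' x hx hlt

theorem core (hlen : S_len) (hbs : S_bsfix) (hS : Setup U H) {t v : ℝ ≃o ℝ} (ht : t ∈ H)
    (hv : v ∈ H) (hr : t * v = v * t ^ 2) {l₀ l₁ : ℝ} (h : IsComp t l₀ l₁)
    (hright : ∀ x ∈ Ioo l₀ l₁, x < t x) :
    ∃ (n : ℕ) (m : ℤ) (s : ℝ), 1 ≤ n ∧ s ∈ Ioo l₀ l₁ ∧ (tr ^ m * v ^ n) s = s ∧
    (tr ^ m * v ^ n) l₀ = l₀ ∧ (tr ^ m * v ^ n) l₁ = l₁ ∧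
    ∀ c d, l₀ < c → c < d → d < l₁ → ∃ C : ℝ, 0 < C ∧ ∀ i : ℕ,
      (∀ x ∈ Icc c d, |((tr ^ m * v ^ n) ^ i) x - s| ≤ C / 2 ^ (n * i)) ∧
      (∀ x ∈ Icc c d, ∀ x' ∈ Icc c d,
        |x - x'| / (C * 2 ^ (n * i)) ≤ |((tr ^ m * v ^ n) ^ i) x - ((tr ^ m * v ^ n) ^ i) x'|) := by
  obtain ⟨n, hn, m, h1, h2⟩ := step1 hlen hS ht hv hr h hright
  have hwp : (tr ^ (-m) * v ^ n) l₀ = l₀ := by
    rw [RelIso.mul_apply, tr_zpow, h1]
    push_cast
    ring
  have hwq : (tr ^ (-m) * v ^ n) l₁ = l₁ := by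
    rw [RelIso.mul_apply, tr_zpow, h2]
    push_cast
    ring
  have hwH : tr ^ (-m) * v ^ n ∈ H := H.mul_mem (H.zpow_mem hS.tr_mem _) (H.pow_mem hv _)
  have hN : 2 ≤ 2 ^ n := by
    calc 2 = 2 ^ 1 := by norm_num
      _ ≤ 2 ^ n := Nat.pow_le_pow_right (by norm_num) hn
  have hrw : t * (tr ^ (-m) * v ^ n) = (tr ^ (-m) * v ^ n) * t ^ (2 ^ n) := by
    have hc : Commute (tr ^ (-m)) t := (tr_comm (hS.nice t ht).per).zpow_left _
    rw [← mul_assoc, ← hc.eq, mul_assoc, tv_pow hr n, mul_assoc]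
  obtain ⟨s, hs, hsf⟩ := hbs (tr ^ (-m) * v ^ n)⁻¹ t (2 ^ n) hN (by
    rw [inv_inv, mul_assoc, hrw, inv_mul_cancel_left]) l₀ l₁ h (inv_app hwp) (inv_app hwq)
  have hws : (tr ^ (-m) * v ^ n) s = s := by
    have h3 : (tr ^ (-m) * v ^ n) ((tr ^ (-m) * v ^ n)⁻¹ s) = s :=
      (tr ^ (-m) * v ^ n).apply_symm_apply s
    rwa [hsf] at h3
  refine ⟨n, -m, s, hn, hs, hws, hwp, hwq, ?_⟩
  intro c d hc hcd hd
  obtain ⟨C, hC, hCi⟩ := main hS ht hwH hN hrw h hright hwp hwq hs hws c d hc hcd hd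
  refine ⟨C, hC, fun i => ?_⟩
  have e : (2 : ℝ) ^ (n * i) = ((2 ^ n : ℕ) : ℝ) ^ i := by
    rw [pow_mul]
    push_cast
    rfl
  rw [e]
  exact hCi i

theorem sgn {t : ℝ ≃o ℝ} {p q : ℝ} (h : IsComp t p q) :
    (∀ x ∈ Ioo p q, x < t x) ∨ (∀ x ∈ Ioo p q, t x < x) := by
  by_contra hcon
  push Not at hcon
  obtain ⟨⟨x, hx, hxt⟩, ⟨y, hy, hyt⟩⟩ := hcon
  have hc : ContinuousOn (fun z => t z - z) (Ioo p q) := (t.continuous.sub continuous_id).continuousOn
  have h0 := isPreconnected_Ioo.intermediate_value hx hy hc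
    (show (0 : ℝ) ∈ Icc (t x - x) (t y - y) from ⟨by linarith, by linarith⟩)
  obtain ⟨z, hz, hz0⟩ := h0
  apply h.ne z hz
  simp only at hz0
  linarith

end Rate02

open DP Rate02 in
theorem s_rate02 : S_len → S_bsfix → S_rate02 := by
  intro hlen hbs U H hS t v ht hv hr l₀ l₁ h
  have hr' : t * v = v * t ^ 2 := by
    rw [← hr]
    group
  rcases sgn h with hright | hleft
  · exact core hlen hbs hS ht hv hr' h hright
  · have hi : IsComp t⁻¹ l₀ l₁ := ⟨h.lt, inv_app h.left, inv_app h.right, fun x hx he => by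
      apply h.ne x hx
      have h3 : t (t⁻¹ x) = x := t.apply_symm_apply x
      rwa [he] at h3⟩
    have hri : t⁻¹ * v = v * (t⁻¹) ^ 2 := by
      rw [inv_pow, ← hr]
      group
    apply core hlen hbs hS (H.inv_mem ht) hv hri hi
    intro x hx
    have h3 : t (t⁻¹ x) = x := t.apply_symm_apply x
    have h4 := hleft _ (comp_mem hi hx)
    rwa [h3] at h4

end Pool.Agent.W331.CR
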