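import Pool.Agent.W331.CR.Link

/-! CR-RIGID02: the second rigidity theorem. -/

set_option autoImplicit false

open Set Filter Topology Asymptotics

namespace Pool.Agent.W331.CR

namespace Rigid02

/-- the points `w ^ i e` differ from the fixed point `s` of `w` for an end `e` of a component of
`y` if `w` maps the support of `y` off itself -/
lemma end_ne {y w : ℝ ≃o ℝ} {p q e s : ℝ} (hpq : IsComp y p q)
    (hw : ∀ t ∈ Ioo p q, y (w t) = w t) (he : e = p ∨ e = q) (hs : w s = s) (i : ℕ) :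
    (w ^ i) e ≠ s := by
  intro hcon
  have h1 : (w ^ i) e = (w ^ i) s := by rw [hcon, Link.pow_fix hs]
  have h2 : e = s := (w ^ i).injective h1
  have h3 : w e = e := by rw [h2, hs]
  have hlt := hpq.lt
  rcases he with rfl | rfl
  · -- left end
    have h4 : e < (w⁻¹ : ℝ ≃o ℝ) q := by
      have : (w⁻¹ : ℝ ≃o ℝ) e < (w⁻¹ : ℝ ≃o ℝ) q := (w⁻¹ : ℝ ≃o ℝ).strictMono hlt
      rwa [Link.fix_inv h3] at this
    obtain ⟨t, ht1, ht2⟩ := exists_between (lt_min hlt h4)
    have ht3 : t < q := ht2.trans_le (min_le_left _ _)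
    have ht4 : w t < q := by
      have := w.strictMono (ht2.trans_le (min_le_right _ _))
      rwa [RelIso.apply_inv_self] at this
    have ht5 : e < w t := by
      have := w.strictMono ht1
      rwa [h3] at this
    exact hpq.ne (w t) ⟨ht5, ht4⟩ (hw t ⟨ht1, ht3⟩)
  · have h4 : (w⁻¹ : ℝ ≃o ℝ) p < e := by
      have : (w⁻¹ : ℝ ≃o ℝ) p < (w⁻¹ : ℝ ≃o ℝ) e := (w⁻¹ : ℝ ≃o ℝ).strictMono hlt
      rwa [Link.fix_inv h3] at this
    obtain ⟨t, ht1, ht2⟩ := exists_between (max_lt hlt h4)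
    have ht3 : p < t := (le_max_left _ _).trans_lt ht1
    have ht4 : p < w t := by
      have := w.strictMono ((le_max_right _ _).trans_lt ht1)
      rwa [RelIso.apply_inv_self] at this
    have ht5 : w t < e := by
      have := w.strictMono ht2
      rwa [h3] at this
    exact hpq.ne (w t) ⟨ht4, ht5⟩ (hw t ⟨ht3, ht2⟩)

end Rigid02

theorem s_rigid02 : S_rate02 → S_phi → S_flat → S_dp → S_comp → S_fix → S_rigid02 := by
  intro hrate hphi hflat hdp hcomp hfix k hk U H hS hreg t v h y f ht hv hh hy hf hR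
  by_contra hyne
  have hyper := (hS.nice y hy).per
  -- a moved point
  obtain ⟨x, hx0⟩ : ∃ x, y x ≠ x := by
    by_contra hcon
    push Not at hcon
    exact hyne (RelIso.ext hcon)
  obtain ⟨p, q, hpq, hx⟩ := hcomp y hyper (hfix h y (hS.nice h hh).per hyper hR.r0) x hx0
  -- the images of the support of y under t and v
  have hWt : ∀ s, y s ≠ s → y (t s) = t s := by
    intro s hs
    have h1 := hR.wt 1 le_rfl
    rw [pow_one] at h1
    exact Link.lemW hdp hcomp hfix hS hh hy ht hR.r0 h1.1 h1.2 hs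
  have hWv : ∀ i : ℕ, 1 ≤ i → ∀ s, y s ≠ s → y ((v ^ i) s) = (v ^ i) s := by
    intro i hi s hs
    have h1 := hR.wv i hi
    exact Link.lemW hdp hcomp hfix hS hh hy (H.pow_mem hv i) hR.r0 h1.1 h1.2 hs
  have htfix : ∃ s, t s = s := by
    refine hfix v⁻¹ t (hS.nice _ (H.inv_mem hv)).per (hS.nice t ht).per ?_
    rw [inv_inv]
    exact hR.r1
  have htx : t x ≠ x := by
    intro hcon
    have := hWt x hx0
    rw [hcon] at this
    exact hx0 this
  obtain ⟨l₀, l₁, hl, hxl⟩ := hcomp t (hS.nice t ht).per htfix x htx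
  have hnofix : ∀ s ∈ Ioo p q, t s ≠ s := by
    intro s hs hcon
    have := hWt s (hpq.ne s hs)
    rw [hcon] at this
    exact hpq.ne s hs this
  have hl0 : l₀ ≤ p := by
    by_contra hcon
    push Not at hcon
    exact hnofix l₀ ⟨hcon, hxl.1.trans hx.2⟩ hl.left
  have hl1 : q ≤ l₁ := by
    by_contra hcon
    push Not at hcon
    exact hnofix l₁ ⟨hx.1.trans hxl.2, hcon⟩ hl.right
  obtain ⟨e0, he0, he0l⟩ : ∃ e, (e = p ∨ e = q) ∧ e ∈ Ioo l₀ l₁ := by
    rcases hl1.lt_or_eq with h1 | h1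
    · exact ⟨q, Or.inr rfl, (hl0.trans_lt hpq.lt), h1⟩
    · rcases hl0.lt_or_eq with h2 | h2
      · exact ⟨p, Or.inl rfl, h2, hpq.lt.trans_le hl1⟩
      · exfalso
        have h3 := Link.comp_maps hl hxl
        rw [h2, ← h1] at h3
        exact hpq.ne _ h3 (hWt x hx0)
  obtain ⟨n, m, s, hn, hsl, hws, hwl0, hwl1, hC⟩ := hrate U H hS t v ht hv hR.r1 l₀ l₁ hl
  set w : ℝ ≃o ℝ := tr ^ m * v ^ n with hw
  have hwH : w ∈ H := H.mul_mem (H.zpow_mem hS.tr_mem _) (H.pow_mem hv n)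
  have hyx : y x ∈ Ioo p q := Link.comp_maps hpq hx
  have hsub : Ioo p q ⊆ Ioo l₀ l₁ := Ioo_subset_Ioo hl0 hl1
  -- the interval [c,d]
  set c := min (min x (y x)) e0 with hc
  set d := max (max x (y x)) e0 with hd
  have hxc : x ∈ Icc c d := ⟨(min_le_left _ _).trans (min_le_left _ _),
    (le_max_left _ _).trans (le_max_left _ _)⟩
  have hyxc : y x ∈ Icc c d := ⟨(min_le_left _ _).trans (min_le_right _ _),
    (le_max_right _ _).trans (le_max_left _ _)⟩
  have hec : e0 ∈ Icc c d := ⟨min_le_right _ _, le_max_right _ _⟩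
  have hcd : c < d := by
    rcases lt_or_gt_of_ne hx0 with h1 | h1
    · exact hyxc.1.trans_lt (h1.trans_le hxc.2)
    · exact hxc.1.trans_lt (h1.trans_le hyxc.2)
  have hl0c : l₀ < c := lt_min (lt_min (hsub hx).1 (hsub hyx).1) he0l.1
  have hdl1 : d < l₁ := max_lt (max_lt (hsub hx).2 (hsub hyx).2) he0l.2
  obtain ⟨C, hC0, hCi⟩ := hC c d hl0c hcd hdl1
  -- the element φ
  have hwi : ∀ i : ℕ, (w ^ i)⁻¹ * f * w ^ i = (v ^ (n * i))⁻¹ * f * v ^ (n * i) := by
    intro i
    have hcm : Commute (tr ^ m) (v ^ n) := Link.comm_tr (hS.nice _ (H.pow_mem hv n)).per _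
    have h1 : w ^ i = tr ^ (m * i) * v ^ (n * i) := by
      rw [hw, hcm.mul_pow, ← pow_mul, ← zpow_natCast (tr ^ m) i, ← zpow_mul]
    have h2 : (tr ^ (m * i)) * f = f * (tr ^ (m * i)) := Link.comm_tr (hS.nice f hf).per _
    rw [h1, mul_inv_rev]
    calc (v ^ (n * i))⁻¹ * (tr ^ (m * ↑i))⁻¹ * f * (tr ^ (m * ↑i) * v ^ (n * i))
        = (v ^ (n * i))⁻¹ * (tr ^ (m * ↑i))⁻¹ * (f * tr ^ (m * ↑i)) * v ^ (n * i) := by
          simp only [mul_assoc]
      _ = (v ^ (n * i))⁻¹ * (tr ^ (m * ↑i))⁻¹ * (tr ^ (m * ↑i) * f) * v ^ (n * i) := by rw [h2]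
      _ = _ := by simp only [mul_assoc, inv_mul_cancel_left]
  obtain ⟨φ, hφH, hφ⟩ := hphi U H hS h y f w hh hy hf hwH hR.r0 (fun i => k * (n * i)) (by
    intro i hi F hF
    rw [hwi] at hF
    exact hR.rf (n * i) (Nat.mul_pos hn hi) F hF) p q x hpq hx
  -- the point s is in U
  have hsU : s ∈ U := by
    by_contra hcon
    exact hl.ne s hsl ((hS.nice t ht).fixE htfix s hcon)
  -- zeros of g accumulate at s
  have hwt : ∀ s ∈ Ioo p q, y (w s) = w s := by
    intro s hs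
    have h1 := hWv n hn s (hpq.ne s hs)
    rw [hw, RelIso.mul_apply, Link.tr_zpow, Link.per_int hyper, h1]
  have hne : ∀ i : ℕ, (w ^ i) e0 ≠ s := fun i => Rigid02.end_ne hpq hwt he0 hws i
  have hgeom : Tendsto (fun i : ℕ => C / 2 ^ (n * i)) atTop (𝓝 0) := by
    have h1 : Tendsto (fun i : ℕ => ((2 : ℝ) ^ n) ^ i) atTop atTop :=
      tendsto_pow_atTop_atTop_of_one_lt (one_lt_pow₀ (by norm_num) (by omega))
    have h2 := (h1.inv_tendsto_atTop).const_mul C
    rw [mul_zero] at h2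
    refine h2.congr (fun i => ?_)
    simp only [Pi.inv_apply]
    rw [← pow_mul, div_eq_mul_inv]
  have htend : Tendsto (fun i : ℕ => (w ^ i) e0) atTop (𝓝 s) := by
    rw [tendsto_iff_norm_sub_tendsto_zero]
    refine squeeze_zero (fun _ => norm_nonneg _) (fun i => ?_) hgeom
    rw [Real.norm_eq_abs]
    exact (hCi i).1 e0 hec
  have hfreq : ∃ᶠ u in 𝓝[≠] s, φ u - u = 0 := by
    have h1 : Tendsto (fun i : ℕ => (w ^ i) e0) atTop (𝓝[≠] s) := by
      rw [tendsto_nhdsWithin_iff]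
      exact ⟨htend, Eventually.of_forall hne⟩
    refine h1.frequently ?_
    refine Eventually.frequently ?_
    filter_upwards [eventually_ge_atTop 1] with i hi
    have h2 := hφ i hi
    rcases he0 with rfl | rfl
    · rw [h2.1, sub_self]
    · rw [h2.2.1, sub_self]
  have hflat' := hflat (k + 1) (fun u => φ u - u) s ((hreg φ hφH s hsU).sub contDiffAt_id) hfreq
  -- the final estimate
  set D := |x - y x| with hD
  have hDpos : 0 < D := abs_pos.2 (sub_ne_zero.2 (Ne.symm hx0))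
  set ε := D / (4 * C ^ (k + 2)) with hε
  have hεpos : 0 < ε := by positivity
  have hev := hflat'.def hεpos
  rw [Metric.eventually_nhds_iff] at hev
  obtain ⟨δ, hδ, hev⟩ := hev
  obtain ⟨i, hi1, hi2⟩ := ((eventually_ge_atTop 1).and (hgeom.eventually (gt_mem_nhds hδ))).exists
  obtain ⟨-, -, u, hu, hest⟩ := hφ i hi1
  have hus : |u - s| ≤ C / 2 ^ (n * i) := by
    have h1 := (hCi i).1 x hxc
    have h2 := (hCi i).1 (y x) hyxc
    rw [abs_le] at h1 h2 ⊢
    rcases mem_uIcc.1 hu with h3 | h3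
    · constructor <;> linarith [h3.1, h3.2, h1.1, h1.2, h2.1, h2.2]
    · constructor <;> linarith [h3.1, h3.2, h1.1, h1.2, h2.1, h2.2]
  have hgu := hev (y := u) (by rw [Real.dist_eq]; exact hus.trans_lt hi2)
  rw [Real.norm_eq_abs, Real.norm_eq_abs, abs_pow] at hgu
  have hlow := (hCi i).2 x hxc (y x) hyxc
  rw [abs_sub_comm ((w ^ i) x)] at hlow
  set T : ℝ := 2 ^ (n * i) with hT
  have hTpos : 0 < T := by positivity
  have hT1 : 1 ≤ T := one_le_pow₀ (by norm_num)
  have hE : (2 : ℝ) ^ (k * (n * i)) = T ^ k := by rw [hT, ← pow_mul, mul_comm k]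
  have h5 : D / (C * T) ≤ (T ^ k + 1) * (ε * (C / T) ^ (k + 1)) := by
    calc D / (C * T) ≤ _ := hlow
      _ ≤ _ := hest
      _ ≤ (T ^ k + 1) * (ε * (C / T) ^ (k + 1)) := by
          rw [← hE]
          refine mul_le_mul_of_nonneg_left (hgu.trans ?_) (by positivity)
          gcongr
  have h6 : (T ^ k + 1) ≤ 2 * T ^ k := by
    have : 1 ≤ T ^ k := one_le_pow₀ hT1
    linarith
  have h7 : D / (C * T) ≤ 2 * T ^ k * (ε * (C / T) ^ (k + 1)) :=
    h5.trans (mul_le_mul_of_nonneg_right h6 (by positivity))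
  have h8 : 2 * T ^ k * (ε * (C / T) ^ (k + 1)) = (D / (C * T)) / 2 := by
    rw [hε, div_pow]
    field_simp
    ring
  rw [h8] at h7
  have h9 : 0 < D / (C * T) := by positivity
  linarith

end Pool.Agent.W331.CR
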