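import Pool.Agent.W331.CR.Lift

/-! CR-RIGID84: assembly of the first rigidity theorem. -/

set_option autoImplicit false

open Set Filter Topology

namespace Pool.Agent.W331.CR

namespace Rigid84

lemma tr_comm (F : ℝ ≃o ℝ) (hF : ∀ x, F (x + 1) = F x + 1) (m : ℤ) : Commute (tr ^ m) F := by
  show _ = _
  ext x
  simp only [RelIso.mul_apply]
  rw [Lift.tr_zpow, Lift.tr_zpow, Lift.per_int F hF]

end Rigid84

open Rigid84

theorem s_rigid84 (hlink : S_link) (hhyp : S_hyp) (hfin : S_fin84) (hcomp : S_comp)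
    (hfix : S_fix) : S_rigid84 := by
  intro U H hS hsm e a b h y f ha hb hh hy hf hR
  by_contra hne
  obtain ⟨x, hx⟩ : ∃ x, y x ≠ x := by
    by_contra hcon
    push Not at hcon
    exact hne (by ext x; exact hcon x)
  have hyfix := hfix h y (hS.nice h hh).per (hS.nice y hy).per hR.r0
  obtain ⟨p, q, hpq, hxm⟩ := hcomp y (hS.nice y hy).per hyfix x hx
  obtain ⟨n₁, n₂, m₁, m₂, A₀, A₁, B₀, B₁, h1, h2, h3, h4, h5⟩ := hlink U H hS a b h y ha hb hh hy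
    hR.r0 hR.ra hR.rb hR.wa hR.wb p q x hpq hxm
  obtain ⟨j, l, c, d, hj, hU, hxc, hyc, hend, hmap, hder⟩ := hhyp U H hS a b y ha hb hy p q x hpq
    hxm n₁ n₂ m₁ m₂ A₀ A₁ B₀ B₁ h1 h2 h3 h4 h5
  set g : ℝ ≃o ℝ := a ^ (Nat.factorial j) * b ^ (Nat.factorial j) with hg
  have hgH : g ∈ H := H.mul_mem (H.pow_mem ha _) (H.pow_mem hb _)
  set v : ℝ ≃o ℝ := tr ^ l * g with hv
  have hvH : v ∈ H := H.mul_mem (H.zpow_mem hS.tr_mem _) hgH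
  have hcomm : ∀ F ∈ H, ∀ m : ℤ, Commute (tr ^ m) F := fun F hF m => tr_comm F (hS.nice F hF).per m
  have hvi : ∀ i : ℕ, v ^ i = tr ^ (l * i) * g ^ i := by
    intro i
    rw [hv, (hcomm g hgH l).mul_pow, ← zpow_natCast (tr ^ l) i, ← zpow_mul]
  -- conjugations by the two elements agree
  have hc1 : ∀ (i : ℕ) (F : ℝ ≃o ℝ), F ∈ H → v ^ i * F * (v ^ i)⁻¹ = g ^ i * F * (g ^ i)⁻¹ := by
    intro i F hF
    have hk : Commute (tr ^ (l * i)) (g ^ i * F * (g ^ i)⁻¹) :=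
      hcomm _ (H.mul_mem (H.mul_mem (H.pow_mem hgH _) hF) (H.inv_mem (H.pow_mem hgH _))) _
    rw [hvi, mul_inv_rev]
    calc tr ^ (l * (i : ℤ)) * g ^ i * F * ((g ^ i)⁻¹ * (tr ^ (l * (i : ℤ)))⁻¹)
        = (tr ^ (l * (i : ℤ)) * (g ^ i * F * (g ^ i)⁻¹)) * (tr ^ (l * (i : ℤ)))⁻¹ := by group
      _ = ((g ^ i * F * (g ^ i)⁻¹) * tr ^ (l * (i : ℤ))) * (tr ^ (l * (i : ℤ)))⁻¹ := by rw [hk.eq]
      _ = g ^ i * F * (g ^ i)⁻¹ := by group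
  have hc2 : ∀ (i : ℕ) (F : ℝ ≃o ℝ), F ∈ H → (v ^ i)⁻¹ * F * v ^ i = (g ^ i)⁻¹ * F * g ^ i := by
    intro i F hF
    have hk : Commute (tr ^ (l * i)) F := hcomm _ hF _
    have hk2 : (tr ^ (l * (i : ℤ)))⁻¹ * F * tr ^ (l * (i : ℤ)) = F := by
      rw [mul_assoc, ← hk.eq, ← mul_assoc, inv_mul_cancel, one_mul]
    rw [hvi, mul_inv_rev]
    calc (g ^ i)⁻¹ * (tr ^ (l * (i : ℤ)))⁻¹ * F * (tr ^ (l * (i : ℤ)) * g ^ i)
        = (g ^ i)⁻¹ * ((tr ^ (l * (i : ℤ)))⁻¹ * F * tr ^ (l * (i : ℤ))) * g ^ i := by group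
      _ = (g ^ i)⁻¹ * F * g ^ i := by rw [hk2]
  refine hfin U H hS hsm h y f v hh hy hf hvH hR.r0 (e j) ?_ ?_ p q x hpq hxm c d hU hxc hyc hend
    hmap hder
  · intro i hi F hF
    rw [hc2 i f hf] at hF
    exact hR.rf j i hj hi (g ^ i) F rfl hF
  · intro i hi
    rw [hc1 i y hy]
    exact hR.wv j i hj hi (g ^ i) rfl

end Pool.Agent.W331.CR
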