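import Pool.Agent.W331.CR.Stm2

set_option autoImplicit false

open Set Filter Topology Function
open scoped ContDiff

namespace Pool.Agent.W331.CR

namespace SetI

/-- periodic extensions of diffeomorphisms of the interval (up to integer translations) -/
structure Good (r : WithTop ℕ∞) (F : ℝ ≃o ℝ) : Prop where
  per : ∀ x, F (x + 1) = F x + 1
  int : ∃ m : ℤ, F 0 = m
  sm : ContDiffOn ℝ r F (Icc 0 1)
  sm' : ContDiffOn ℝ r (F⁻¹ : ℝ ≃o ℝ) (Icc 0 1)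

lemma per_nat {F : ℝ ≃o ℝ} (h : ∀ x, F (x + 1) = F x + 1) (n : ℕ) (x : ℝ) :
    F (x + n) = F x + n := by
  induction n generalizing x with
  | zero => simp
  | succ n ih =>
    push_cast
    rw [← add_assoc, h, ih]
    ring

lemma per_int {F : ℝ ≃o ℝ} (h : ∀ x, F (x + 1) = F x + 1) (n : ℤ) (x : ℝ) :
    F (x + n) = F x + n := by
  obtain ⟨k, rfl | rfl⟩ := n.eq_nat_or_neg
  · simpa using per_nat h k x
  · have := per_nat h k (x + ((-(k:ℤ) : ℤ) : ℝ))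
    push_cast at this ⊢
    rw [neg_add_cancel_right] at this
    linarith

lemma at_int {F : ℝ ≃o ℝ} (h : ∀ x, F (x + 1) = F x + 1) {m : ℤ} (h0 : F 0 = m) (n : ℤ) :
    F n = m + n := by
  have := per_int h n 0
  rw [zero_add] at this
  rw [this, h0]

lemma inv_zero {F : ℝ ≃o ℝ} (h : ∀ x, F (x + 1) = F x + 1) {m : ℤ} (h0 : F 0 = m) :
    (F⁻¹ : ℝ ≃o ℝ) 0 = ((-m : ℤ) : ℝ) := by
  apply F.injective
  rw [at_int h h0]
  have h1 : F ((F⁻¹ : ℝ ≃o ℝ) 0) = 0 := F.apply_symm_apply 0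
  rw [h1]
  push_cast
  ring

lemma mapsTo {F : ℝ ≃o ℝ} (h : ∀ x, F (x + 1) = F x + 1) {m : ℤ} (h0 : F 0 = m) :
    MapsTo (fun x => F x - m) (Icc 0 1) (Icc 0 1) := by
  intro x hx
  have h1 : F 0 ≤ F x := F.monotone hx.1
  have h2 : F x ≤ F (0 + 1) := F.monotone (by simpa using hx.2)
  rw [h] at h2
  constructor <;> simp only <;> linarith

lemma comp_sm {r : WithTop ℕ∞} {F G : ℝ ≃o ℝ} (hF : ∀ x, F (x + 1) = F x + 1)
    (hG : ∀ x, G (x + 1) = G x + 1) {m : ℤ} (h0 : G 0 = m) (h1 : ContDiffOn ℝ r F (Icc 0 1))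
    (h2 : ContDiffOn ℝ r G (Icc 0 1)) : ContDiffOn ℝ r (F * G : ℝ ≃o ℝ) (Icc 0 1) := by
  have h3 : ContDiffOn ℝ r (fun x => G x - m) (Icc 0 1) := h2.sub contDiffOn_const
  have h4 : ContDiffOn ℝ r (fun x => F (G x - m) + m) (Icc 0 1) :=
    (h1.comp h3 (mapsTo hG h0)).add contDiffOn_const
  refine h4.congr (fun x _ => ?_)
  rw [RelIso.mul_apply, ← per_int hF m]
  congr 1
  ring

lemma Good.one (r : WithTop ℕ∞) : Good r 1 :=
  ⟨fun _ => rfl, ⟨0, by simp⟩, contDiffOn_id, contDiffOn_id⟩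

lemma Good.mul {r : WithTop ℕ∞} {F G : ℝ ≃o ℝ} (hF : Good r F) (hG : Good r G) :
    Good r (F * G) := by
  obtain ⟨m, hm⟩ := hF.int
  obtain ⟨n, hn⟩ := hG.int
  refine ⟨fun x => ?_, ⟨m + n, ?_⟩, comp_sm hF.per hG.per hn hF.sm hG.sm, ?_⟩
  · simp only [RelIso.mul_apply]; rw [hG.per, hF.per]
  · rw [RelIso.mul_apply, hn, at_int hF.per hm]; push_cast; ring
  · rw [mul_inv_rev]
    exact comp_sm (inv_per hG.per) (inv_per hF.per) (inv_zero hF.per hm) hG.sm' hF.sm'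

lemma Good.inv {r : WithTop ℕ∞} {F : ℝ ≃o ℝ} (hF : Good r F) : Good r F⁻¹ := by
  obtain ⟨m, hm⟩ := hF.int
  exact ⟨inv_per hF.per, ⟨-m, inv_zero hF.per hm⟩, hF.sm', by rw [inv_inv]; exact hF.sm⟩

/-- the group -/
def HH (r : WithTop ℕ∞) : Subgroup (ℝ ≃o ℝ) where
  carrier := {F | Good r F}
  mul_mem' := fun h1 h2 => h1.mul h2
  one_mem' := Good.one r
  inv_mem' := fun h => h.inv

lemma good_tr (r : WithTop ℕ∞) : Good r tr := by
  refine ⟨fun x => rfl, ⟨1, by simp [tr_apply]⟩, ?_, ?_⟩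
  · have : ContDiff ℝ r (fun x : ℝ => x + 1) := contDiff_id.add contDiff_const
    exact this.contDiffOn
  · have : ContDiff ℝ r (fun x : ℝ => x - 1) := contDiff_id.sub contDiff_const
    refine this.contDiffOn.congr (fun x _ => ?_)
    apply tr.injective
    have h1 : tr ((tr⁻¹ : ℝ ≃o ℝ) x) = x := tr.apply_symm_apply x
    rw [h1, tr_apply]
    ring

/-! ### The extension -/

noncomputable def ef (φ : Icc (0:ℝ) 1 ≃o Icc (0:ℝ) 1) (x : ℝ) : ℝ := ⌊x⌋ + ext01 φ (Int.fract x)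

lemma ext_zero (φ : Icc (0:ℝ) 1 ≃o Icc (0:ℝ) 1) : ext01 φ 0 = 0 := by
  have h1 : φ ⊥ = ⊥ := map_bot φ
  have h2 := ext01_coe φ ⊥
  rw [h1] at h2
  exact h2

lemma ext_one (φ : Icc (0:ℝ) 1 ≃o Icc (0:ℝ) 1) : ext01 φ 1 = 1 := by
  have h1 : φ ⊤ = ⊤ := map_top φ
  have h2 := ext01_coe φ ⊤
  rw [h1] at h2
  exact h2

lemma ext_lt (φ : Icc (0:ℝ) 1 ≃o Icc (0:ℝ) 1) {x y : ℝ} (hx : x ∈ Icc (0:ℝ) 1)
    (hy : y ∈ Icc (0:ℝ) 1) (h : x < y) : ext01 φ x < ext01 φ y := by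
  have h1 : φ ⟨x, hx⟩ < φ ⟨y, hy⟩ := φ.strictMono (by exact h)
  have h2 := ext01_coe φ ⟨x, hx⟩
  have h3 := ext01_coe φ ⟨y, hy⟩
  simp only at h2 h3
  rw [h2, h3]
  exact h1

lemma fr_mem (x : ℝ) : Int.fract x ∈ Icc (0:ℝ) 1 := ⟨Int.fract_nonneg x, (Int.fract_lt_one x).le⟩

lemma ext_fr_nonneg (φ : Icc (0:ℝ) 1 ≃o Icc (0:ℝ) 1) (x : ℝ) : 0 ≤ ext01 φ (Int.fract x) :=
  (ext01_mem φ _).1

lemma ext_fr_lt (φ : Icc (0:ℝ) 1 ≃o Icc (0:ℝ) 1) (x : ℝ) : ext01 φ (Int.fract x) < 1 := by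
  have := ext_lt φ (fr_mem x) (⟨zero_le_one, le_rfl⟩ : (1:ℝ) ∈ Icc (0:ℝ) 1) (Int.fract_lt_one x)
  rwa [ext_one] at this

lemma floor_ef (φ : Icc (0:ℝ) 1 ≃o Icc (0:ℝ) 1) (x : ℝ) : ⌊ef φ x⌋ = ⌊x⌋ := by
  rw [Int.floor_eq_iff, ef]
  constructor
  · linarith [ext_fr_nonneg φ x]
  · linarith [ext_fr_lt φ x]

lemma fract_ef (φ : Icc (0:ℝ) 1 ≃o Icc (0:ℝ) 1) (x : ℝ) :
    Int.fract (ef φ x) = ext01 φ (Int.fract x) := by
  rw [Int.fract, floor_ef, ef]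
  ring

lemma ef_mul (φ ψ : Icc (0:ℝ) 1 ≃o Icc (0:ℝ) 1) (x : ℝ) : ef (φ * ψ) x = ef φ (ef ψ x) := by
  conv_rhs => rw [ef, floor_ef, fract_ef]
  rw [ef, ext01_mul]

lemma ef_one (x : ℝ) : ef 1 x = x := by
  have h := ext01_coe 1 ⟨Int.fract x, fr_mem x⟩
  simp only at h
  rw [ef, h]
  exact Int.floor_add_fract x

lemma ef_strictMono (φ : Icc (0:ℝ) 1 ≃o Icc (0:ℝ) 1) : StrictMono (ef φ) := by
  intro x y h
  rcases (Int.floor_mono h.le).lt_or_eq with h1 | h1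
  · have h2 : ((⌊x⌋ : ℤ) : ℝ) + 1 ≤ (⌊y⌋ : ℤ) := by exact_mod_cast h1
    rw [ef, ef]
    linarith [ext_fr_lt φ x, ext_fr_nonneg φ y]
  · have h2 : Int.fract x < Int.fract y := by
      rw [Int.fract, Int.fract, h1]; linarith
    rw [ef, ef, h1]
    linarith [ext_lt φ (fr_mem x) (fr_mem y) h2]

/-- the periodic extension -/
noncomputable def EE : (Icc (0:ℝ) 1 ≃o Icc (0:ℝ) 1) →* (ℝ ≃o ℝ) where
  toFun φ :=
    { toFun := ef φ
      invFun := ef φ⁻¹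
      left_inv := fun x => by rw [← ef_mul, inv_mul_cancel, ef_one]
      right_inv := fun x => by rw [← ef_mul, mul_inv_cancel, ef_one]
      map_rel_iff' := (ef_strictMono φ).le_iff_le }
  map_one' := by
    ext x
    exact ef_one x
  map_mul' φ ψ := by
    ext x
    exact ef_mul φ ψ x

lemma EE_apply (φ : Icc (0:ℝ) 1 ≃o Icc (0:ℝ) 1) (x : ℝ) : EE φ x = ef φ x := rfl

lemma ef_eq (φ : Icc (0:ℝ) 1 ≃o Icc (0:ℝ) 1) {x : ℝ} (hx : x ∈ Icc (0:ℝ) 1) :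
    ef φ x = ext01 φ x := by
  rcases hx.2.lt_or_eq with h | h
  · have h1 : ⌊x⌋ = 0 := Int.floor_eq_zero_iff.2 ⟨hx.1, h⟩
    have h2 : Int.fract x = x := by rw [Int.fract, h1]; simp
    rw [ef, h1, h2]; simp
  · subst h
    rw [ef, ext_one]
    simp [ext_zero]

lemma good_EE {r : WithTop ℕ∞} {φ : Icc (0:ℝ) 1 ≃o Icc (0:ℝ) 1} (h : φ ∈ DiffI r) :
    Good r (EE φ) := by
  refine ⟨fun x => ?_, ⟨0, ?_⟩, ?_, ?_⟩
  · rw [EE_apply, EE_apply, ef, ef, Int.floor_add_one, Int.fract_add_one]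
    push_cast
    ring
  · rw [EE_apply, ef_eq φ ⟨le_rfl, zero_le_one⟩, ext_zero]; simp
  · exact h.1.congr (fun x hx => ef_eq φ hx)
  · rw [← map_inv]
    exact h.2.congr (fun x hx => ef_eq φ⁻¹ hx)

lemma EE_inj : Injective EE := by
  intro φ ψ h
  ext x
  have h1 : EE φ x = EE ψ x := by rw [h]
  rw [EE_apply, EE_apply, ef_eq φ x.2, ef_eq ψ x.2, ext01_coe, ext01_coe] at h1
  exact h1

/-! ### Regularity -/

lemma contDiffAt {r : WithTop ℕ∞} {F : ℝ ≃o ℝ} (hF : Good r F) {t : ℝ}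
    (ht : ∀ n : ℤ, t ≠ n) : ContDiffAt ℝ r F t := by
  have h1 : t - ⌊t⌋ ∈ Ioo (0:ℝ) 1 := by
    constructor
    · have h2 : ((⌊t⌋ : ℤ) : ℝ) ≤ t := Int.floor_le t
      have h3 := (ht ⌊t⌋)
      have h4 := lt_of_le_of_ne h2 (Ne.symm h3)
      linarith
    · linarith [Int.lt_floor_add_one t]
  have h2 : ContDiffAt ℝ r F (t - ⌊t⌋) := hF.sm.contDiffAt (Icc_mem_nhds h1.1 h1.2)
  have h3 : ContDiffAt ℝ r (fun x : ℝ => x - ⌊t⌋) t := contDiffAt_id.sub contDiffAt_const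
  have h4 : ContDiffAt ℝ r (fun x : ℝ => F (x - ⌊t⌋) + ⌊t⌋) t :=
    (ContDiffAt.comp t h2 h3).add contDiffAt_const
  have h5 : (F : ℝ → ℝ) = fun x : ℝ => F (x - ⌊t⌋) + ⌊t⌋ := by
    funext x
    rw [← per_int hF.per]
    congr 1
    ring
  rw [h5]
  exact h4

lemma mem_iff {r : WithTop ℕ∞} {F : ℝ ≃o ℝ} (hF : Good r F) (x : ℝ) :
    (∀ n : ℤ, F x ≠ n) ↔ ∀ n : ℤ, x ≠ n := by
  obtain ⟨m, hm⟩ := hF.int
  constructor
  · rintro h n rfl
    exact h (m + n) (by rw [at_int hF.per hm]; push_cast; ring)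
  · intro h n hn
    refine h (n - m) (F.injective ?_)
    rw [hn, at_int hF.per hm]
    push_cast; ring

lemma fixE {r : WithTop ℕ∞} {F : ℝ ≃o ℝ} (hF : Good r F) (h : ∃ x, F x = x) (n : ℤ) :
    F n = n := by
  obtain ⟨m, hm⟩ := hF.int
  obtain ⟨x, hx⟩ := h
  have h1 : F (⌊x⌋ : ℤ) ≤ F x := F.monotone (Int.floor_le x)
  have h2 : F x < F ((⌊x⌋ + 1 : ℤ) : ℝ) :=
    F.strictMono (by push_cast; exact Int.lt_floor_add_one x)
  rw [at_int hF.per hm, hx] at h1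
  rw [at_int hF.per hm, hx] at h2
  push_cast at h2
  have h3 : (m : ℝ) < 1 := by linarith [Int.lt_floor_add_one x]
  have h4 : (-1 : ℝ) < m := by linarith [Int.floor_le x]
  have h5 : m < 1 := by exact_mod_cast h3
  have h6 : -1 < m := by exact_mod_cast h4
  have h7 : m = 0 := by omega
  rw [at_int hF.per hm, h7]
  simp

lemma two_ne {r : WithTop ℕ∞} (hr : 2 ≤ r) : r ≠ 0 := by
  rintro rfl
  have : (2 : WithTop ℕ∞) ≤ 0 := hr
  simp at this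

lemma one_le {r : WithTop ℕ∞} (hr : 2 ≤ r) : 1 ≤ r :=
  le_trans (by norm_num) hr

/-- the one-sided derivative does not vanish -/
lemma g_pos {r : WithTop ℕ∞} (hr : 2 ≤ r) {F : ℝ ≃o ℝ} (hF : Good r F) {x : ℝ}
    (hx : x ∈ Icc (0:ℝ) 1) : 0 < derivWithin F (Icc 0 1) x := by
  obtain ⟨m, hm⟩ := hF.int
  have hu : UniqueDiffWithinAt ℝ (Icc (0:ℝ) 1) x := uniqueDiffOn_Icc zero_lt_one x hx
  have h1 : 0 ≤ derivWithin F (Icc 0 1) x := by
    exact (F.monotone.monotoneOn _).derivWithin_nonneg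
  refine lt_of_le_of_ne h1 (fun h0 => ?_)
  have h2 : HasDerivWithinAt F (derivWithin F (Icc 0 1) x) (Icc 0 1) x :=
    (hF.sm.differentiableOn (two_ne hr) x hx).hasDerivWithinAt
  rw [← h0] at h2
  have h3 : HasDerivWithinAt (fun x => F x - m) 0 (Icc 0 1) x := h2.sub_const _
  have h4 := (hF.sm'.differentiableOn (two_ne hr) (F x - m) (mapsTo hF.per hm hx)).hasDerivWithinAt
  have h5 := HasDerivWithinAt.comp x h4 h3 (mapsTo hF.per hm)
  rw [mul_zero] at h5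
  have h6 : ((F⁻¹ : ℝ ≃o ℝ) : ℝ → ℝ) ∘ (fun x : ℝ => F x - (m : ℝ)) = fun x : ℝ => x - (m : ℝ) := by
    funext y
    simp only [comp_apply]
    have h7 := per_int (inv_per hF.per) (-m) (F y)
    have h8 : (F⁻¹ : ℝ ≃o ℝ) (F y) = y := F.symm_apply_apply y
    rw [h8] at h7
    push_cast at h7
    rw [sub_eq_add_neg, sub_eq_add_neg]
    exact h7
  rw [h6] at h5
  have h9 : HasDerivWithinAt (fun x : ℝ => x - m) 1 (Icc 0 1) x :=
    (hasDerivWithinAt_id x _).sub_const _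
  have := hu.eq_deriv _ h5 h9
  exact one_ne_zero this.symm

lemma deriv_eq {r : WithTop ℕ∞} {F : ℝ ≃o ℝ} (hF : Good r F) {n : ℤ} {t : ℝ}
    (h1 : t - n ∈ Ioo (0:ℝ) 1) : deriv F t = derivWithin F (Icc 0 1) (t - n) := by
  rw [derivWithin_of_mem_nhds (Icc_mem_nhds h1.1 h1.2)]
  have h5 : (F : ℝ → ℝ) = fun x : ℝ => F (x - n) + n := by
    funext x
    rw [← per_int hF.per]
    congr 1
    ring
  conv_lhs => rw [h5]
  rw [deriv_add_const, deriv_comp_sub_const]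

lemma lip {r : WithTop ℕ∞} (hr : 2 ≤ r) {F : ℝ ≃o ℝ} (hF : Good r F) :
    ∃ V : ℝ, 0 ≤ V ∧ ∀ x ∈ Icc (0:ℝ) 1, ∀ y ∈ Icc (0:ℝ) 1,
      |Real.log (derivWithin F (Icc 0 1) x) - Real.log (derivWithin F (Icc 0 1) y)| ≤
        V * |x - y| := by
  have hu : UniqueDiffOn ℝ (Icc (0:ℝ) 1) := uniqueDiffOn_Icc zero_lt_one
  have h1 : ContDiffOn ℝ 1 (derivWithin F (Icc 0 1)) (Icc 0 1) :=
    hF.sm.derivWithin hu (by
      have : (1 : WithTop ℕ∞) + 1 = 2 := one_add_one_eq_two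
      rw [this]; exact hr)
  have h2 : ContDiffOn ℝ 1 (fun x => Real.log (derivWithin F (Icc 0 1) x)) (Icc 0 1) :=
    h1.log (fun x hx => (g_pos hr hF hx).ne')
  have h3 : ContinuousOn (derivWithin (fun x => Real.log (derivWithin F (Icc 0 1) x)) (Icc 0 1))
      (Icc 0 1) := h2.continuousOn_derivWithin hu le_rfl
  obtain ⟨C, hC⟩ := isCompact_Icc.exists_bound_of_continuousOn h3
  refine ⟨max C 0, le_max_right _ _, fun x hx y hy => ?_⟩
  have h4 := Convex.norm_image_sub_le_of_norm_derivWithin_le (C := max C 0)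
    (h2.differentiableOn one_ne_zero)
    (fun x hx => (hC x hx).trans (le_max_left _ _)) (convex_Icc 0 1) hy hx
  simpa [Real.norm_eq_abs] using h4

lemma nice {r : WithTop ℕ∞} (hr : 2 ≤ r) {F : ℝ ≃o ℝ} (hF : Good r F) :
    Nice {x : ℝ | ∀ n : ℤ, x ≠ n} F where
  per := hF.per
  mem := mem_iff hF
  fixE := by
    intro h x hx
    simp only [mem_ofPred_eq, not_forall, not_not] at hx
    obtain ⟨n, rfl⟩ := hx
    exact fixE hF h n
  diff := fun x hx => (contDiffAt hF hx).differentiableAt (two_ne hr)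
  pos := by
    intro t ht
    have h1 : t - ⌊t⌋ ∈ Ioo (0:ℝ) 1 := by
      constructor
      · have h2 : ((⌊t⌋ : ℤ) : ℝ) ≤ t := Int.floor_le t
        have h3 := (ht ⌊t⌋)
        have h4 := lt_of_le_of_ne h2 (Ne.symm h3)
        linarith
      · linarith [Int.lt_floor_add_one t]
    rw [deriv_eq hF h1]
    exact g_pos hr hF (Ioo_subset_Icc_self h1)
  lip := by
    obtain ⟨V, hV, h⟩ := lip hr hF
    refine ⟨V, hV, fun x y hxy hU => ?_⟩
    have key : ⌊x⌋ = ⌊y⌋ := by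
      rcases (Int.floor_mono hxy).lt_or_eq with h1 | h1
      · exfalso
        have h2 : x < (⌊y⌋ : ℤ) := Int.floor_lt.1 h1
        exact hU ⟨h2.le, Int.floor_le y⟩ ⌊y⌋ rfl
      · exact h1
    have hx := hU ⟨le_rfl, hxy⟩
    have hy := hU ⟨hxy, le_rfl⟩
    have aux : ∀ t : ℝ, (∀ n : ℤ, t ≠ n) → t - ⌊t⌋ ∈ Ioo (0:ℝ) 1 := by
      intro t ht
      constructor
      · have h2 : ((⌊t⌋ : ℤ) : ℝ) ≤ t := Int.floor_le t
        have h3 := (ht ⌊t⌋)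
        have h4 := lt_of_le_of_ne h2 (Ne.symm h3)
        linarith
      · linarith [Int.lt_floor_add_one t]
    have hx1 := aux x hx
    have hy1 := aux y hy
    rw [deriv_eq hF hx1, deriv_eq hF hy1]
    refine (h _ (Ioo_subset_Icc_self hx1) _ (Ioo_subset_Icc_self hy1)).trans (le_of_eq ?_)
    rw [key, sub_sub_sub_cancel_right, abs_sub_comm, abs_of_nonneg (sub_nonneg.2 hxy)]

end SetI

open SetI in
theorem s_setupI : S_setupI := by
  intro r hr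
  refine ⟨HH r, (EE.comp (DiffI r).subtype).codRestrict (HH r) (fun φ => good_EE φ.2), ?_,
    ⟨?_, fun F hF => nice hr hF, good_tr r⟩, fun F hF t ht => contDiffAt hF ht⟩
  · intro φ ψ h
    have h1 : EE (φ : Icc (0:ℝ) 1 ≃o Icc (0:ℝ) 1) = EE ψ := congrArg Subtype.val h
    exact Subtype.ext (EE_inj h1)
  · have : {x : ℝ | ∀ n : ℤ, x ≠ n} = (range ((↑) : ℤ → ℝ))ᶜ := by
      ext x
      simp [eq_comm]
    rw [this]
    exact Int.isClosedEmbedding_coe_real.isClosed_range.isOpen_compl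


end Pool.Agent.W331.CR
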