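import Pool.Agent.W331.CR.Stm2

/-! Conjugation by a fixed smooth diffeomorphism is Lipschitz near the identity (`S_T`). -/

set_option autoImplicit false

open Set Filter Topology
open scoped ContDiff

namespace Pool.Agent.W331.CR
namespace TL

lemma bd_mono {k j : ℕ} {A B : ℝ} {g : ℝ → ℝ} (h : Bd k A g) (hj : j ≤ k) (hAB : A ≤ B) :
    Bd j B g := fun r hr x => (h r (hr.trans hj) x).trans hAB

lemma bd_nonneg {k : ℕ} {A : ℝ} {g : ℝ → ℝ} (h : Bd k A g) : 0 ≤ A :=
  (abs_nonneg _).trans (h 0 (Nat.zero_le k) 0)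

lemma bd_zero_iff {A : ℝ} {g : ℝ → ℝ} : Bd 0 A g ↔ ∀ x, |g x| ≤ A := by
  constructor
  · intro h x
    simpa using h 0 le_rfl x
  · intro h r hr x
    obtain rfl : r = 0 := Nat.le_zero.1 hr
    simpa using h x

lemma bd_val {k : ℕ} {A : ℝ} {g : ℝ → ℝ} (h : Bd k A g) : ∀ x, |g x| ≤ A :=
  bd_zero_iff.1 (bd_mono h (Nat.zero_le k) le_rfl)

lemma bd_succ_iff {k : ℕ} {A : ℝ} {g : ℝ → ℝ} :
    Bd (k + 1) A g ↔ (∀ x, |g x| ≤ A) ∧ Bd k A (deriv g) := by
  constructor
  · intro h
    refine ⟨bd_val h, fun r hr x => ?_⟩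
    have := h (r + 1) (by omega) x
    rwa [iteratedDeriv_succ'] at this
  · rintro ⟨h1, h2⟩ r hr x
    rcases r with _ | r
    · simpa using h1 x
    · rw [iteratedDeriv_succ']
      exact h2 r (by omega) x

lemma bd_add {k : ℕ} {A B : ℝ} {u w : ℝ → ℝ} (hu : ContDiff ℝ ∞ u) (hw : ContDiff ℝ ∞ w)
    (h1 : Bd k A u) (h2 : Bd k B w) : Bd k (A + B) (fun x => u x + w x) := by
  intro r hr x
  have hu' : ContDiff ℝ r u := hu.of_le (by exact_mod_cast le_top)
  have hw' : ContDiff ℝ r w := hw.of_le (by exact_mod_cast le_top)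
  have : iteratedDeriv r (fun x => u x + w x) x = iteratedDeriv r u x + iteratedDeriv r w x :=
    iteratedDeriv_fun_add hu'.contDiffAt hw'.contDiffAt
  rw [this]
  exact (abs_add_le _ _).trans (add_le_add (h1 r hr x) (h2 r hr x))

lemma smooth_deriv {u : ℝ → ℝ} (hu : ContDiff ℝ ∞ u) : ContDiff ℝ ∞ (deriv u) := by
  have : ContDiff ℝ (∞ + 1) u := by simpa using hu
  exact (contDiff_succ_iff_deriv.1 this).2.2

lemma smooth_diff {u : ℝ → ℝ} (hu : ContDiff ℝ ∞ u) : Differentiable ℝ u :=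
  hu.differentiable (by simp)

lemma bd_mul (k : ℕ) : ∀ {A B : ℝ} {u w : ℝ → ℝ}, ContDiff ℝ ∞ u → ContDiff ℝ ∞ w →
    Bd k A u → Bd k B w → Bd k (2 ^ k * A * B) (fun x => u x * w x) := by
  induction k with
  | zero =>
    intro A B u w hu hw h1 h2
    rw [bd_zero_iff]
    intro x
    rw [abs_mul, pow_zero, one_mul]
    exact mul_le_mul (bd_val h1 x) (bd_val h2 x) (abs_nonneg _) (bd_nonneg h1)
  | succ k ih =>
    intro A B u w hu hw h1 h2
    have hA := bd_nonneg h1
    have hB := bd_nonneg h2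
    rw [bd_succ_iff]
    refine ⟨fun x => ?_, ?_⟩
    · rw [abs_mul]
      have h3 : |u x| * |w x| ≤ A * B :=
        mul_le_mul (bd_val h1 x) (bd_val h2 x) (abs_nonneg _) hA
      have h4 : (1:ℝ) ≤ 2 ^ (k + 1) := one_le_pow₀ (by norm_num)
      have h5 : 0 ≤ A * B := mul_nonneg hA hB
      nlinarith
    · have hd : deriv (fun x => u x * w x) = fun x => deriv u x * w x + u x * deriv w x := by
        funext x
        exact deriv_fun_mul (smooth_diff hu x) (smooth_diff hw x)
      rw [hd]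
      have e1 := ih (smooth_deriv hu) hw (bd_succ_iff.1 h1).2 (bd_mono h2 (Nat.le_succ k) le_rfl)
      have e2 := ih hu (smooth_deriv hw) (bd_mono h1 (Nat.le_succ k) le_rfl) (bd_succ_iff.1 h2).2
      have e3 := bd_add ((smooth_deriv hu).mul hw) (hu.mul (smooth_deriv hw)) e1 e2
      refine bd_mono e3 le_rfl (le_of_eq ?_)
      ring

/-- mean value inequality -/
lemma mv {B : ℝ} {v : ℝ → ℝ} (hv : Differentiable ℝ v) (hB : ∀ x, |deriv v x| ≤ B) (x y : ℝ) :
    |v y - v x| ≤ B * |y - x| := by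
  have := Convex.norm_image_sub_le_of_norm_deriv_le (f := v) (s := univ) (C := B)
    (fun x _ => hv x) (fun x _ => by simpa using hB x) convex_univ (mem_univ x) (mem_univ y)
  simpa using this

lemma lem1 (k : ℕ) : ∀ (v : ℝ → ℝ) (B : ℝ), ContDiff ℝ ∞ v → Bd k B (deriv v) →
    ∃ Q : ℝ, 0 ≤ Q ∧ ∀ (g : ℝ → ℝ) (ε : ℝ), ContDiff ℝ ∞ g → ε ≤ 1 → Bd k ε g →
      Bd k (Q * ε) (fun x => v (x + g x) - v x) := by
  induction k with
  | zero =>
    intro v B hv hB
    refine ⟨B, bd_nonneg hB, fun g ε hg _ h => ?_⟩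
    rw [bd_zero_iff]
    intro x
    have h1 := mv (smooth_diff hv) (bd_val hB) x (x + g x)
    refine h1.trans ?_
    have h2 := bd_val h x
    have : x + g x - x = g x := by ring
    rw [this]
    exact mul_le_mul_of_nonneg_left h2 (bd_nonneg hB)
  | succ k ih =>
    intro v B hv hB
    have hB0 := bd_nonneg hB
    obtain ⟨Q, hQ, hQ'⟩ := ih (deriv v) B (smooth_deriv hv) (bd_succ_iff.1 hB).2
    refine ⟨Q + 2 ^ k * (B + Q) + B, by positivity, fun g ε hg hε h => ?_⟩
    have hε0 := bd_nonneg h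
    have hvg : ContDiff ℝ ∞ (fun x => deriv v (x + g x)) :=
      (smooth_deriv hv).comp (contDiff_id.add hg)
    rw [bd_succ_iff]
    refine ⟨fun x => ?_, ?_⟩
    · have h1 := mv (smooth_diff hv) (bd_val hB) x (x + g x)
      have h2 := bd_val h x
      have h3 : x + g x - x = g x := by ring
      rw [h3] at h1
      have h4 : B * |g x| ≤ B * ε := mul_le_mul_of_nonneg_left h2 hB0
      have h5 : 0 ≤ (Q + 2 ^ k * (B + Q)) * ε := by positivity
      nlinarith
    · have hd : deriv (fun x => v (x + g x) - v x) =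
          fun x => (deriv v (x + g x) - deriv v x) + deriv v (x + g x) * deriv g x := by
        funext x
        have h1 : HasDerivAt (fun x => x + g x) (1 + deriv g x) x :=
          (hasDerivAt_id x).add (smooth_diff hg x).hasDerivAt
        have h2 : HasDerivAt (fun x => v (x + g x)) (deriv v (x + g x) * (1 + deriv g x)) x :=
          ((smooth_diff hv (x + g x)).hasDerivAt).comp x h1
        have h3 : HasDerivAt (fun x => v (x + g x) - v x)
            (deriv v (x + g x) * (1 + deriv g x) - deriv v x) x :=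
          h2.sub (smooth_diff hv x).hasDerivAt
        rw [h3.deriv]
        ring
      rw [hd]
      have hgk : Bd k ε g := bd_mono h (Nat.le_succ k) le_rfl
      have e1 : Bd k (Q * ε) (fun x => deriv v (x + g x) - deriv v x) := hQ' g ε hg hε hgk
      have e2 : Bd k (B + Q) (fun x => deriv v (x + g x)) := by
        have e3 := bd_add (smooth_deriv hv) (hvg.sub (smooth_deriv hv))
          (bd_mono hB (Nat.le_succ k) le_rfl) e1
        have e4 : (fun x => deriv v x + (deriv v (x + g x) - deriv v x)) =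
            fun x => deriv v (x + g x) := by
          funext x; ring
        rw [e4] at e3
        refine bd_mono e3 le_rfl ?_
        nlinarith
      have e5 := bd_mul k hvg (smooth_deriv hg) e2 (bd_succ_iff.1 h).2
      have e6 := bd_add (hvg.sub (smooth_deriv hv)) (hvg.mul (smooth_deriv hg)) e1 e5
      refine bd_mono e6 le_rfl ?_
      nlinarith

lemma lem2 (k : ℕ) : ∀ (w : ℝ → ℝ) (B : ℝ), ContDiff ℝ ∞ w → Bd k B (deriv w) →
    ∃ Q : ℝ, 0 ≤ Q ∧ ∀ (u : ℝ → ℝ) (A : ℝ), ContDiff ℝ ∞ u → Bd k A u →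
      Bd k (Q * A) (fun x => u (w x)) := by
  induction k with
  | zero =>
    intro w B hw hB
    refine ⟨1, zero_le_one, fun u A hu h => ?_⟩
    rw [bd_zero_iff]
    intro x
    rw [one_mul]
    exact bd_val h _
  | succ k ih =>
    intro w B hw hB
    have hB0 := bd_nonneg hB
    obtain ⟨Q, hQ, hQ'⟩ := ih w B hw (bd_mono hB (Nat.le_succ k) le_rfl)
    refine ⟨2 ^ k * Q * B + 1, by positivity, fun u A hu h => ?_⟩
    have hA := bd_nonneg h
    rw [bd_succ_iff]
    refine ⟨fun x => ?_, ?_⟩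
    · have h1 := bd_val h (w x)
      have h2 : 0 ≤ 2 ^ k * Q * B * A := by positivity
      nlinarith
    · have hd : deriv (fun x => u (w x)) = fun x => deriv u (w x) * deriv w x := by
        funext x
        exact (((smooth_diff hu (w x)).hasDerivAt).comp x (smooth_diff hw x).hasDerivAt).deriv
      rw [hd]
      have e1 := hQ' (deriv u) A (smooth_deriv hu) (bd_succ_iff.1 h).2
      have e2 := bd_mul k ((smooth_deriv hu).comp hw) (smooth_deriv hw) e1
        (bd_mono hB (Nat.le_succ k) le_rfl)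
      refine bd_mono e2 le_rfl ?_
      nlinarith

/-- a smooth function which is the identity outside a compact interval has bounded derivatives -/
lemma bdd_deriv {v : ℝ → ℝ} (hv : ContDiff ℝ ∞ v) {A B : ℝ} (h : ∀ x, x ∉ Icc A B → v x = x)
    (k : ℕ) : ∃ C : ℝ, Bd k C (deriv v) := by
  have key : ∀ r : ℕ, ∃ C : ℝ, ∀ x, |iteratedDeriv r (deriv v) x| ≤ C := by
    intro r
    have hc : Continuous (iteratedDeriv r (deriv v)) :=
      (smooth_deriv hv).continuous_iteratedDeriv r (by exact_mod_cast le_top)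
    obtain ⟨C, hC⟩ := (isCompact_Icc (a := A) (b := B)).exists_bound_of_continuousOn
      hc.continuousOn
    refine ⟨max C 1, fun x => ?_⟩
    by_cases hx : x ∈ Icc A B
    · exact (hC x hx).trans (le_max_left _ _)
    · have h1 : deriv v =ᶠ[𝓝 x] fun _ => (1:ℝ) := by
        have h2 : ∀ᶠ y in 𝓝 x, y ∉ Icc A B := isClosed_Icc.isOpen_compl.mem_nhds hx
        filter_upwards [h2.eventually_nhds] with y hy
        have h3 : v =ᶠ[𝓝 y] fun z => z := by
          filter_upwards [hy] with z hz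
          exact h z hz
        rw [h3.deriv_eq]
        exact deriv_id y
      rw [h1.iteratedDeriv_eq]
      refine le_trans ?_ (le_max_right _ _)
      rw [iteratedDeriv_const]
      split_ifs <;> simp
  choose C hC using key
  refine ⟨∑ r ∈ Finset.range (k + 1), |C r|, fun r hr x => ?_⟩
  refine (hC r x).trans ((le_abs_self _).trans ?_)
  exact Finset.single_le_sum (f := fun r => |C r|) (fun i _ => abs_nonneg _)
    (Finset.mem_range.2 (by omega))

end TL

open TL in
theorem s_T : S_T := by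
  rintro v hv hv' ⟨A, B, hAB⟩ k
  have hAB' : ∀ x, x ∉ Icc A B → (v⁻¹ : ℝ ≃o ℝ) x = x := by
    intro x hx
    apply v.injective
    rw [hAB x hx]
    exact v.apply_symm_apply x
  obtain ⟨C1, hC1⟩ := bdd_deriv hv hAB k
  obtain ⟨C2, hC2⟩ := bdd_deriv hv' hAB' k
  obtain ⟨Q1, hQ1, h1⟩ := lem1 k v C1 hv hC1
  obtain ⟨Q2, hQ2, h2⟩ := lem2 k (v⁻¹ : ℝ ≃o ℝ) C2 hv' hC2
  refine ⟨Q2 * Q1 + 1, by nlinarith [mul_nonneg hQ2 hQ1], fun G hG ε hε h => ?_⟩
  have hε0 := bd_nonneg h
  have hg : ContDiff ℝ ∞ (fun x => G x - x) := hG.sub contDiff_id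
  have e1 := h1 (fun x => G x - x) ε hg hε h
  have e2 : ContDiff ℝ ∞ (fun x => v (x + (G x - x)) - v x) :=
    (hv.comp (contDiff_id.add hg)).sub hv
  have e3 := h2 _ _ e2 e1
  have e4 : (fun x => (v * G * v⁻¹) x - x) = fun x =>
      v ((v⁻¹ : ℝ ≃o ℝ) x + (G ((v⁻¹ : ℝ ≃o ℝ) x) - (v⁻¹ : ℝ ≃o ℝ) x)) - v ((v⁻¹ : ℝ ≃o ℝ) x) := by
    funext x
    have e5 : v ((v⁻¹ : ℝ ≃o ℝ) x) = x := v.apply_symm_apply x
    rw [e5]
    simp only [RelIso.mul_apply]
    congr 2
    ring
  rw [e4]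
  refine bd_mono e3 le_rfl ?_
  nlinarith [mul_nonneg (mul_nonneg hQ2 hQ1) hε0]

end Pool.Agent.W331.CR
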