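import Pool.Agent.W331.CR.Stm2

/-! Passage from homeomorphisms supported in `(1/4,3/4)` to the interval and to the circle. -/

set_option autoImplicit false

open Set Filter Topology Function
open scoped ContDiff

namespace Pool.Agent.W331.CR

namespace ToIS

lemma inv_ap (F : ℝ ≃o ℝ) (x : ℝ) : (F⁻¹ : ℝ ≃o ℝ) (F x) = x := F.symm_apply_apply x
lemma ap_inv (F : ℝ ≃o ℝ) (x : ℝ) : F ((F⁻¹ : ℝ ≃o ℝ) x) = x := F.apply_symm_apply x

lemma out {F : ℝ ≃o ℝ} (hF : F ∈ Sup) {x : ℝ} (hx : x ≤ 1 / 4 ∨ 3 / 4 ≤ x) : F x = x := by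
  refine hF x (fun h => ?_)
  rcases hx with h' | h'
  · exact absurd h.1 (not_lt.2 h')
  · exact absurd h.2 (not_lt.2 h')

lemma mem01 {F : ℝ ≃o ℝ} (hF : F ∈ Sup) {x : ℝ} (hx : x ∈ Icc (0:ℝ) 1) : F x ∈ Icc (0:ℝ) 1 := by
  have h0 : F 0 = 0 := out hF (Or.inl (by norm_num))
  have h1 : F 1 = 1 := out hF (Or.inr (by norm_num))
  constructor
  · rw [← h0]; exact F.monotone hx.1
  · rw [← h1]; exact F.monotone hx.2

lemma memIco {F : ℝ ≃o ℝ} (hF : F ∈ Sup) {x : ℝ} (hx : x ∈ Ico (0:ℝ) 1) : F x ∈ Ico (0:ℝ) 1 := by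
  have h0 : F 0 = 0 := out hF (Or.inl (by norm_num))
  have h1 : F 1 = 1 := out hF (Or.inr (by norm_num))
  constructor
  · rw [← h0]; exact F.monotone hx.1
  · rw [← h1]; exact F.strictMono hx.2

/-- restriction to `[0,1]` -/
def res (F : Sup) : Icc (0:ℝ) 1 ≃o Icc (0:ℝ) 1 where
  toFun := fun x => ⟨(F : ℝ ≃o ℝ) x, mem01 F.2 x.2⟩
  invFun := fun x => ⟨((F : ℝ ≃o ℝ)⁻¹ : ℝ ≃o ℝ) x, mem01 (Sup.inv_mem F.2) x.2⟩
  left_inv := fun x => Subtype.ext (inv_ap _ _)
  right_inv := fun x => Subtype.ext (ap_inv _ _)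
  map_rel_iff' := by
    intro a b
    exact (F : ℝ ≃o ℝ).le_iff_le

lemma ext_of {F G : Sup} (h : ∀ x ∈ Ico (0:ℝ) 1, (F : ℝ ≃o ℝ) x = (G : ℝ ≃o ℝ) x) : F = G := by
  apply Subtype.ext
  apply RelIso.ext
  intro x
  by_cases hx : x ∈ Ico (0:ℝ) 1
  · exact h x hx
  · have h1 : x ≤ 1 / 4 ∨ 3 / 4 ≤ x := by
      by_contra hcon
      push Not at hcon
      exact hx ⟨by linarith [hcon.1], by linarith [hcon.2]⟩
    rw [out F.2 h1, out G.2 h1]

/-- periodic extension of a map -/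
noncomputable def pf (F : ℝ ≃o ℝ) (x : ℝ) : ℝ := F (Int.fract x) + ⌊x⌋

lemma pf_floor {F : ℝ ≃o ℝ} (hF : F ∈ Sup) (x : ℝ) : ⌊pf F x⌋ = ⌊x⌋ := by
  have h := memIco hF ⟨Int.fract_nonneg x, Int.fract_lt_one x⟩
  unfold pf
  rw [Int.floor_add_intCast, Int.floor_eq_zero_iff.2 h, zero_add]

lemma pf_fract {F : ℝ ≃o ℝ} (hF : F ∈ Sup) (x : ℝ) : Int.fract (pf F x) = F (Int.fract x) := by
  have := pf_floor hF x
  unfold Int.fract at *
  rw [this]
  unfold pf Int.fract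
  ring

lemma pf_mul {F G : ℝ ≃o ℝ} (hG : G ∈ Sup) (x : ℝ) :
    pf (F * G) x = pf F (pf G x) := by
  have h1 := pf_floor hG x
  have h2 := pf_fract hG x
  show (F * G) (Int.fract x) + ⌊x⌋ = F (Int.fract (pf G x)) + ⌊pf G x⌋
  rw [h1, h2]
  rfl

lemma pf_one (x : ℝ) : pf 1 x = x := by
  unfold pf
  exact Int.fract_add_floor x

lemma pf_per (F : ℝ ≃o ℝ) (x : ℝ) : pf F (x + 1) = pf F x + 1 := by
  unfold pf
  rw [Int.fract_add_one, Int.floor_add_one]
  push_cast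
  ring

lemma pf_mono {F : ℝ ≃o ℝ} (hF : F ∈ Sup) {x y : ℝ} (h : x ≤ y) : pf F x ≤ pf F y := by
  rcases (Int.floor_le_floor h).lt_or_eq with h1 | h1
  · have h2 := memIco hF ⟨Int.fract_nonneg x, Int.fract_lt_one x⟩
    have h3 := memIco hF ⟨Int.fract_nonneg y, Int.fract_lt_one y⟩
    have h4 : (⌊x⌋ : ℝ) + 1 ≤ ⌊y⌋ := by exact_mod_cast h1
    unfold pf
    linarith [h2.2, h3.1]
  · unfold pf
    rw [h1]
    have : Int.fract x ≤ Int.fract y := by
      unfold Int.fract; rw [h1]; linarith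
    linarith [F.monotone this]

/-- periodic extension -/
noncomputable def P (F : Sup) : ℝ ≃o ℝ where
  toFun := pf F
  invFun := pf ((F : ℝ ≃o ℝ)⁻¹ : ℝ ≃o ℝ)
  left_inv := fun x => by
    rw [← pf_mul F.2, inv_mul_cancel, pf_one]
  right_inv := fun x => by
    rw [← pf_mul (Sup.inv_mem F.2), mul_inv_cancel, pf_one]
  map_rel_iff' := by
    intro a b
    constructor
    · intro h
      have h1 := pf_mono (Sup.inv_mem F.2) h
      simp only [Equiv.coe_fn_mk] at h1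
      rwa [← pf_mul F.2, ← pf_mul F.2, inv_mul_cancel, pf_one, pf_one] at h1
    · exact fun h => pf_mono F.2 h

lemma P_apply (F : Sup) (x : ℝ) : P F x = pf F x := rfl

lemma P_mul (F G : Sup) (x : ℝ) : P (F * G) x = P F (P G x) := pf_mul G.2 x

lemma P_inv (F : Sup) : (P F)⁻¹ = P F⁻¹ := RelIso.ext fun _ => rfl

lemma P_per (F : Sup) (x : ℝ) : P F (x + 1) = P F x + 1 := pf_per _ x

lemma coe_per (F : Sup) : Periodic (fun x : ℝ => ((P F x : ℝ) : AddCircle (1:ℝ))) 1 := by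
  intro x
  simp only
  rw [P_per, AddCircle.coe_add, AddCircle.coe_period, add_zero]

/-- the homeomorphism of the circle -/
noncomputable def sig (F : Sup) : Equiv.Perm (AddCircle (1:ℝ)) where
  toFun := (coe_per F).lift
  invFun := (coe_per F⁻¹).lift
  left_inv := by
    intro y
    induction y using QuotientAddGroup.induction_on with
    | H x =>
      have h1 : (coe_per F).lift ((x : ℝ) : AddCircle (1:ℝ)) = ((P F x : ℝ) : AddCircle (1:ℝ)) :=
        Function.Periodic.lift_coe _ _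
      have h2 : (coe_per F⁻¹).lift ((P F x : ℝ) : AddCircle (1:ℝ))
          = ((P F⁻¹ (P F x) : ℝ) : AddCircle (1:ℝ)) := Function.Periodic.lift_coe _ _
      refine (congrArg _ h1).trans (h2.trans ?_)
      rw [← P_mul, inv_mul_cancel]
      congr 1
      exact pf_one x
  right_inv := by
    intro y
    induction y using QuotientAddGroup.induction_on with
    | H x =>
      have h1 : (coe_per F⁻¹).lift ((x : ℝ) : AddCircle (1:ℝ))
          = ((P F⁻¹ x : ℝ) : AddCircle (1:ℝ)) := Function.Periodic.lift_coe _ _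
      have h2 : (coe_per F).lift ((P F⁻¹ x : ℝ) : AddCircle (1:ℝ))
          = ((P F (P F⁻¹ x) : ℝ) : AddCircle (1:ℝ)) := Function.Periodic.lift_coe _ _
      refine (congrArg _ h1).trans (h2.trans ?_)
      rw [← P_mul, mul_inv_cancel]
      congr 1
      exact pf_one x

lemma sig_coe (F : Sup) (x : ℝ) : sig F (x : AddCircle (1:ℝ)) = ((P F x : ℝ) : AddCircle (1:ℝ)) :=
  Function.Periodic.lift_coe (coe_per F) x

lemma local_eq (F : Sup) (n : ℤ) {y : ℝ} (h1 : (n:ℝ) - 1 / 4 < y) (h2 : y < n + 5 / 4) :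
    P F y = n + (F : ℝ ≃o ℝ) (y - n) := by
  rw [P_apply]
  unfold pf
  by_cases h3 : y < n
  · have hf : ⌊y⌋ = n - 1 := by
      rw [Int.floor_eq_iff]; push_cast; constructor <;> linarith
    have hfr : Int.fract y = y - n + 1 := by unfold Int.fract; rw [hf]; push_cast; ring
    rw [hfr, hf, out F.2 (Or.inr (by linarith)), out F.2 (Or.inl (by linarith))]
    push_cast; ring
  · by_cases h4 : y < n + 1
    · have hf : ⌊y⌋ = n := by
        rw [Int.floor_eq_iff]; constructor <;> linarith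
      have hfr : Int.fract y = y - n := by unfold Int.fract; rw [hf]
      rw [hfr, hf, add_comm]
    · have hf : ⌊y⌋ = n + 1 := by
        rw [Int.floor_eq_iff]; push_cast; constructor <;> linarith
      have hfr : Int.fract y = y - n - 1 := by unfold Int.fract; rw [hf]; push_cast; ring
      rw [hfr, hf, out F.2 (Or.inl (by linarith)), out F.2 (Or.inr (by linarith))]
      push_cast; ring

lemma ev_eq (F : Sup) (n : ℤ) {y : ℝ} (h1 : (n:ℝ) - 1 / 4 < y) (h2 : y < n + 5 / 4) :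
    (P F : ℝ → ℝ) =ᶠ[𝓝 y] fun z => (n:ℝ) + (F : ℝ ≃o ℝ) (z - n) := by
  filter_upwards [Ioo_mem_nhds h1 h2] with z hz
  exact local_eq F n hz.1 hz.2

lemma P_smooth (F : Sup) (r : WithTop ℕ∞) (hF : ContDiff ℝ r (F : ℝ ≃o ℝ)) : ContDiff ℝ r (P F) := by
  rw [contDiff_iff_contDiffAt]
  intro x
  have h1 : ((⌊x⌋ : ℤ):ℝ) - 1 / 4 < x := by have := Int.floor_le x; linarith
  have h2 : x < (⌊x⌋ : ℤ) + 5 / 4 := by have := Int.lt_floor_add_one x; linarith
  refine ContDiffAt.congr_of_eventuallyEq ?_ (ev_eq F ⌊x⌋ h1 h2)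
  exact contDiffAt_const.add (hF.comp (contDiff_id.sub contDiff_const)).contDiffAt

lemma glue_lip {g : ℝ → ℝ} {K : ℝ} (h : ∀ (n : ℤ) (x y : ℝ), (n:ℝ) ≤ x → x ≤ y → y ≤ n + 1 →
    |g y - g x| ≤ K * (y - x)) (m : ℕ) :
    ∀ x y : ℝ, x ≤ y → y ≤ ⌊x⌋ + 1 + m → |g y - g x| ≤ K * (y - x) := by
  induction m with
  | zero =>
    intro x y hxy hy
    refine h ⌊x⌋ x y (Int.floor_le x) hxy (by simpa using hy)
  | succ m ih =>
    intro x y hxy hy
    by_cases h1 : y ≤ ⌊x⌋ + 1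
    · exact h ⌊x⌋ x y (Int.floor_le x) hxy h1
    · have hx := Int.lt_floor_add_one x
      have h2 := h ⌊x⌋ x (⌊x⌋ + 1) (Int.floor_le x) hx.le le_rfl
      have h3 : ⌊((⌊x⌋ : ℝ) + 1)⌋ = ⌊x⌋ + 1 := by
        rw [Int.floor_add_one, Int.floor_intCast]
      have h4 := ih (⌊x⌋ + 1) y (not_le.1 h1).le (by rw [h3]; push_cast at hy ⊢; linarith)
      have h5 : g y - g x = (g y - g (⌊x⌋ + 1)) + (g (⌊x⌋ + 1) - g x) := by ring
      rw [h5]
      refine (abs_add_le _ _).trans ?_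
      linarith

lemma P_lip (F : Sup) (k : ℕ) {K : NNReal}
    (hK : LipschitzWith K (iteratedDeriv k ((F : ℝ ≃o ℝ) : ℝ → ℝ))) :
    LipschitzWith K (iteratedDeriv k (P F : ℝ → ℝ)) := by
  have hloc : ∀ (n : ℤ) (y : ℝ), (n:ℝ) ≤ y → y ≤ n + 1 →
      iteratedDeriv k (P F : ℝ → ℝ) y
        = iteratedDeriv k ((F : ℝ ≃o ℝ) : ℝ → ℝ) (y - n) + (if k = 0 then (n:ℝ) else 0) := by
    intro n y h1 h2
    rw [(ev_eq F n (by linarith) (by linarith)).iteratedDeriv_eq k]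
    have h3 := congrFun (iteratedDeriv_comp_sub_const k ((F : ℝ ≃o ℝ) : ℝ → ℝ) (n:ℝ)) y
    by_cases hk : k = 0
    · subst hk
      simp only [iteratedDeriv_zero, if_true]
      ring
    · rw [iteratedDeriv_const_add (Nat.pos_of_ne_zero hk), h3, if_neg hk, add_zero]
  have hseg : ∀ (n : ℤ) (x y : ℝ), (n:ℝ) ≤ x → x ≤ y → y ≤ n + 1 →
      |iteratedDeriv k (P F : ℝ → ℝ) y - iteratedDeriv k (P F : ℝ → ℝ) x| ≤ K * (y - x) := by
    intro n x y h1 h2 h3
    rw [hloc n x h1 (h2.trans h3), hloc n y (h1.trans h2) h3]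
    have h4 := hK.dist_le_mul (y - n) (x - n)
    rw [Real.dist_eq, Real.dist_eq] at h4
    have h5 : y - (n:ℝ) - (x - n) = y - x := by ring
    rw [h5, abs_of_nonneg (by linarith : (0:ℝ) ≤ y - x)] at h4
    refine le_trans (le_of_eq ?_) h4
    congr 1
    ring
  have hall : ∀ x y : ℝ, x ≤ y →
      |iteratedDeriv k (P F : ℝ → ℝ) y - iteratedDeriv k (P F : ℝ → ℝ) x| ≤ K * (y - x) := by
    intro x y hxy
    obtain ⟨m, hm⟩ := exists_nat_ge (y - ⌊x⌋ - 1)
    exact glue_lip hseg m x y hxy (by linarith)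
  refine LipschitzWith.of_dist_le_mul fun x y => ?_
  rw [Real.dist_eq, Real.dist_eq]
  rcases le_total x y with h | h
  · rw [abs_sub_comm, abs_sub_comm x y, abs_of_nonneg (by linarith : (0:ℝ) ≤ y - x)]
    exact hall x y h
  · rw [abs_of_nonneg (by linarith : (0:ℝ) ≤ x - y)]
    exact hall y x h

end ToIS

open ToIS

theorem s_toI : S_toI := by
  refine ⟨MonoidHom.mk' res ?_, ?_, ?_⟩
  · intro F G
    apply RelIso.ext
    intro x
    exact Subtype.ext rfl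
  · intro F G h
    refine ext_of fun x hx => ?_
    have h1 := congrArg (fun φ : Icc (0:ℝ) 1 ≃o Icc (0:ℝ) 1 =>
      ((φ ⟨x, hx.1, hx.2.le⟩ : Icc (0:ℝ) 1) : ℝ)) h
    exact h1
  · intro F x
    rfl

theorem s_toS : S_toS := by
  refine ⟨MonoidHom.mk' sig ?_, ?_, ?_⟩
  · intro F G
    apply Equiv.ext
    intro y
    induction y using QuotientAddGroup.induction_on with
    | H x =>
      show sig (F * G) ((x : ℝ) : AddCircle (1:ℝ)) = sig F (sig G ((x : ℝ) : AddCircle (1:ℝ)))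
      rw [sig_coe, sig_coe, sig_coe, P_mul]
  · intro F G h
    refine ext_of fun x hx => ?_
    have h1 : sig F ((x : ℝ) : AddCircle (1:ℝ)) = sig G ((x : ℝ) : AddCircle (1:ℝ)) := by
      have h2 : sig F = sig G := h
      rw [h2]
    rw [sig_coe, sig_coe] at h1
    have hfl : ⌊x⌋ = 0 := Int.floor_eq_zero_iff.2 hx
    have hfr : Int.fract x = x := Int.fract_eq_self.2 hx
    have hP : ∀ F : Sup, P F x = (F : ℝ ≃o ℝ) x := by
      intro F
      rw [P_apply]
      unfold pf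
      rw [hfl, hfr]; simp
    rw [hP, hP] at h1
    have : Fact ((0:ℝ) < 1) := ⟨one_pos⟩
    have hF := memIco F.2 hx
    have hG := memIco G.2 hx
    exact (AddCircle.coe_eq_coe_iff_of_mem_Ico (p := (1:ℝ)) (a := 0) (by simpa using hF)
      (by simpa using hG)).1 h1
  · intro F
    refine ⟨P F, P_per F, sig_coe F, P_smooth F, ?_, ?_⟩
    · intro r hr
      rw [P_inv]
      exact P_smooth F⁻¹ r hr
    · rintro k - ⟨K, hK⟩
      exact ⟨K, P_lip F k hK⟩

end Pool.Agent.W331.CR
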