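import Pool.Agent.W331.CR.Main02
import Pool.Agent.W331.CR.Main4516
import Pool.Agent.W331.CR.BSfix
import Pool.Agent.W331.CR.Combi
import Pool.Agent.W331.CR.Comp
import Pool.Agent.W331.CR.Conj
import Pool.Agent.W331.CR.Contr
import Pool.Agent.W331.CR.DP
import Pool.Agent.W331.CR.F02
import Pool.Agent.W331.CR.Fin84
import Pool.Agent.W331.CR.Flat
import Pool.Agent.W331.CR.FlatAff
import Pool.Agent.W331.CR.Glue
import Pool.Agent.W331.CR.Grow
import Pool.Agent.W331.CR.Hom
import Pool.Agent.W331.CR.Hyp
import Pool.Agent.W331.CR.Iota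
import Pool.Agent.W331.CR.Kopell
import Pool.Agent.W331.CR.Kprime
import Pool.Agent.W331.CR.Len
import Pool.Agent.W331.CR.Lift
import Pool.Agent.W331.CR.Link
import Pool.Agent.W331.CR.LipMul
import Pool.Agent.W331.CR.Model
import Pool.Agent.W331.CR.Nest
import Pool.Agent.W331.CR.NoI
import Pool.Agent.W331.CR.NoS
import Pool.Agent.W331.CR.Phi
import Pool.Agent.W331.CR.Rate02
import Pool.Agent.W331.CR.Rigid02
import Pool.Agent.W331.CR.Rigid84
import Pool.Agent.W331.CR.SetI
import Pool.Agent.W331.CR.SetS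
import Pool.Agent.W331.CR.TLip
import Pool.Agent.W331.CR.ToIS

/-! Assembly of the parts: the three final statements. -/

set_option autoImplicit false

namespace Pool.Agent.W331.CR

theorem t_kprime : S_kprime := s_kprime s_len s_kopell

theorem t_dp : S_dp := s_dp t_kprime s_bsfix s_comp

theorem t_phi : S_phi := s_phi t_dp

theorem t_rigid84 : S_rigid84 :=
  s_rigid84 (s_link t_dp s_comp s_fix) (s_hyp s_contr s_push)
    (s_fin84 t_phi s_flat t_dp s_comp s_fix) s_comp s_fix

theorem t_rigid02 : S_rigid02 :=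
  s_rigid02 (s_rate02 s_len s_bsfix) t_phi s_flat t_dp s_comp s_fix

theorem t_emb : S_emb :=
  s_emb s_flataff s_conj (s_growth s_T s_conjflow s_conj) (s_growaff s_T s_conjflow s_conj s_nest)
    s_glue s_model s_iota (s_dense s_nest) s_fTau s_hom

theorem t_final84 : Final84 :=
  final84 s_flataff (s_rel84 s_fTau) t_emb (s_no84S t_rigid84 s_liftcomm s_liftbs s_setupS)
    (s_no84I t_rigid84 s_setupI) s_toI s_toS

theorem t_final4516 : Final4516 := final4516 t_final84

theorem t_final02 : Final02 :=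
  final02 (s_exist02 s_flataff s_conj s_conjlip s_f02) s_lipmul
    (s_no02S t_rigid02 s_liftcomm s_liftbs s_setupS) (s_no02I t_rigid02 s_setupI) s_toI s_toS

end Pool.Agent.W331.CR
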