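import Mathlib

/-! Critical regularity: basic definitions.

* `DiffI r`: orientation preserving `C^r` diffeomorphisms of the interval `[0,1]`;
* `DiffS r`: orientation preserving `C^r` diffeomorphisms of the circle `ℝ/ℤ`;
* `CS r`: `C^r` diffeomorphisms of the line supported in `[1/4,3/4]`;
* `Nice`, `Setup`, `IsComp`: vocabulary of the rigidity part;
* `Rel84`, `Rel02`: the relations used in the two rigidity theorems. -/

set_option autoImplicit false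

open Set Filter Topology
open scoped ContDiff

namespace Pool.Agent.W331.CR

/-- an order automorphism of `[0,1]`, extended to the line by its end values -/
noncomputable def ext01 (φ : Icc (0:ℝ) 1 ≃o Icc (0:ℝ) 1) : ℝ → ℝ :=
  fun x => (φ (projIcc 0 1 zero_le_one x) : ℝ)

lemma ext01_coe (φ : Icc (0:ℝ) 1 ≃o Icc (0:ℝ) 1) (x : Icc (0:ℝ) 1) : ext01 φ x = φ x := by
  simp [ext01]

lemma ext01_mem (φ : Icc (0:ℝ) 1 ≃o Icc (0:ℝ) 1) (x : ℝ) : ext01 φ x ∈ Icc (0:ℝ) 1 :=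
  (φ (projIcc 0 1 zero_le_one x)).2

lemma ext01_mul (φ ψ : Icc (0:ℝ) 1 ≃o Icc (0:ℝ) 1) (x : ℝ) :
    ext01 (φ * ψ) x = ext01 φ (ext01 ψ x) := by
  simp [ext01, RelIso.mul_apply]

/-- orientation preserving `C^r` diffeomorphisms of `[0,1]` (one-sided derivatives at the ends) -/
def DiffI (r : WithTop ℕ∞) : Subgroup (Icc (0:ℝ) 1 ≃o Icc (0:ℝ) 1) where
  carrier := {φ | ContDiffOn ℝ r (ext01 φ) (Icc 0 1) ∧ ContDiffOn ℝ r (ext01 φ⁻¹) (Icc 0 1)}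
  mul_mem' := by
    rintro φ ψ ⟨h1, h2⟩ ⟨h3, h4⟩
    refine ⟨?_, ?_⟩
    · have : ext01 (φ * ψ) = ext01 φ ∘ ext01 ψ := funext (ext01_mul φ ψ)
      rw [this]
      exact h1.comp h3 (fun x _ => ext01_mem ψ x)
    · have : ext01 (φ * ψ)⁻¹ = ext01 ψ⁻¹ ∘ ext01 φ⁻¹ := by
        rw [mul_inv_rev]; exact funext (ext01_mul ψ⁻¹ φ⁻¹)
      rw [this]
      exact h4.comp h2 (fun x _ => ext01_mem φ⁻¹ x)
  one_mem' := by
    have h : ContDiffOn ℝ r (ext01 1) (Icc 0 1) := by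
      refine contDiffOn_id.congr (fun x hx => ?_)
      exact ext01_coe 1 ⟨x, hx⟩
    exact ⟨h, by simpa using h⟩
  inv_mem' := by
    rintro φ ⟨h1, h2⟩
    exact ⟨h2, by simpa using h1⟩

/-- `F` is a lift to the line of an orientation preserving `C^r` diffeomorphism of `ℝ/ℤ` -/
structure IsLift (r : WithTop ℕ∞) (F : ℝ ≃o ℝ) : Prop where
  per : ∀ x, F (x + 1) = F x + 1
  sm : ContDiff ℝ r F
  sm' : ContDiff ℝ r (F⁻¹ : ℝ ≃o ℝ)

lemma inv_per {F : ℝ ≃o ℝ} (h : ∀ x, F (x + 1) = F x + 1) (x : ℝ) :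
    (F⁻¹ : ℝ ≃o ℝ) (x + 1) = (F⁻¹ : ℝ ≃o ℝ) x + 1 := by
  apply F.injective
  rw [h]
  have h1 : ∀ z, F ((F⁻¹ : ℝ ≃o ℝ) z) = z := fun z => F.apply_symm_apply z
  rw [h1, h1]

lemma IsLift.one (r : WithTop ℕ∞) : IsLift r 1 :=
  ⟨fun _ => rfl, contDiff_id, contDiff_id⟩

lemma IsLift.mul {r : WithTop ℕ∞} {F G : ℝ ≃o ℝ} (hF : IsLift r F) (hG : IsLift r G) :
    IsLift r (F * G) :=
  ⟨fun x => by simp only [RelIso.mul_apply]; rw [hG.per, hF.per], hF.sm.comp hG.sm, by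
    rw [mul_inv_rev]; exact hG.sm'.comp hF.sm'⟩

lemma IsLift.inv {r : WithTop ℕ∞} {F : ℝ ≃o ℝ} (hF : IsLift r F) : IsLift r F⁻¹ :=
  ⟨inv_per hF.per, hF.sm', by rw [inv_inv]; exact hF.sm⟩

/-- the group of lifts -/
def Lifts (r : WithTop ℕ∞) : Subgroup (ℝ ≃o ℝ) where
  carrier := {F | IsLift r F}
  mul_mem' := fun h1 h2 => h1.mul h2
  one_mem' := IsLift.one r
  inv_mem' := fun h => h.inv

/-- orientation preserving `C^r` diffeomorphisms of the circle `ℝ/ℤ` -/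
def DiffS (r : WithTop ℕ∞) : Subgroup (Equiv.Perm (AddCircle (1:ℝ))) where
  carrier := {σ | ∃ F : ℝ ≃o ℝ, IsLift r F ∧
    ∀ x : ℝ, σ (x : AddCircle (1:ℝ)) = ((F x : ℝ) : AddCircle (1:ℝ))}
  mul_mem' := by
    rintro σ τ ⟨F, hF, h1⟩ ⟨G, hG, h2⟩
    exact ⟨F * G, hF.mul hG, fun x => by rw [Equiv.Perm.mul_apply, h2, h1]; rfl⟩
  one_mem' := ⟨1, IsLift.one r, fun x => rfl⟩
  inv_mem' := by
    rintro σ ⟨F, hF, h1⟩
    refine ⟨F⁻¹, hF.inv, fun x => ?_⟩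
    rw [Equiv.Perm.inv_eq_iff_eq, h1]
    congr 1
    exact (F.apply_symm_apply x).symm

/-- `C^r` diffeomorphisms of the line which are the identity outside `(1/4,3/4)` -/
def CS (r : WithTop ℕ∞) : Subgroup (ℝ ≃o ℝ) where
  carrier := {F | (∀ x, x ∉ Ioo (1/4 : ℝ) (3/4) → F x = x) ∧ ContDiff ℝ r F ∧
    ContDiff ℝ r (F⁻¹ : ℝ ≃o ℝ)}
  mul_mem' := by
    rintro F G ⟨h1, h2, h3⟩ ⟨h4, h5, h6⟩
    refine ⟨fun x hx => ?_, h2.comp h5, ?_⟩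
    · rw [RelIso.mul_apply, h4 x hx, h1 x hx]
    · rw [mul_inv_rev]; exact h6.comp h3
  one_mem' := ⟨fun _ _ => rfl, contDiff_id, contDiff_id⟩
  inv_mem' := by
    rintro F ⟨h1, h2, h3⟩
    refine ⟨fun x hx => ?_, h3, by rw [inv_inv]; exact h2⟩
    apply F.injective
    rw [h1 x hx]
    exact F.apply_symm_apply x

/-- translation by one -/
def tr : ℝ ≃o ℝ := OrderIso.addRight 1

lemma tr_apply (x : ℝ) : tr x = x + 1 := rfl

/-- the regularity used in the rigidity part. `U = ℝ` for the circle and `U = ℝ \ ℤ` for the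
interval (whose diffeomorphisms are extended periodically). -/
structure Nice (U : Set ℝ) (F : ℝ ≃o ℝ) : Prop where
  per : ∀ x, F (x + 1) = F x + 1
  mem : ∀ x, F x ∈ U ↔ x ∈ U
  fixE : (∃ x, F x = x) → ∀ x, x ∉ U → F x = x
  diff : ∀ x ∈ U, DifferentiableAt ℝ F x
  pos : ∀ x ∈ U, 0 < deriv F x
  lip : ∃ V : ℝ, 0 ≤ V ∧ ∀ x y, x ≤ y → Icc x y ⊆ U →
    |Real.log (deriv F x) - Real.log (deriv F y)| ≤ V * (y - x)

/-- a group of nice periodic homeomorphisms of the line containing the translation by one -/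
structure Setup (U : Set ℝ) (H : Subgroup (ℝ ≃o ℝ)) : Prop where
  isOpen : IsOpen U
  nice : ∀ F ∈ H, Nice U F
  tr_mem : tr ∈ H

/-- `(p,q)` is a bounded component of the support of `F` -/
structure IsComp (F : ℝ ≃o ℝ) (p q : ℝ) : Prop where
  lt : p < q
  left : F p = p
  right : F q = q
  ne : ∀ x ∈ Ioo p q, F x ≠ x

/-- the relations of the first group (for MP_84d7a8_al, MP_4516ee_al) -/
structure Rel84 {G : Type*} [Group G] (e : ℕ → ℕ) (a b h y f : G) : Prop where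
  r0 : h * y * h⁻¹ = y ^ 2
  ra : ∀ j : ℕ, 1 ≤ j → Commute (a ^ j * b * (a ^ j)⁻¹) h ∧ Commute (a ^ j * b * (a ^ j)⁻¹) y
  rb : ∀ j : ℕ, 1 ≤ j → Commute (b ^ j * a * (b ^ j)⁻¹) h ∧ Commute (b ^ j * a * (b ^ j)⁻¹) y
  wa : ∀ j : ℕ, 1 ≤ j → Commute (a ^ j * y * (a ^ j)⁻¹) h ∧ Commute (a ^ j * y * (a ^ j)⁻¹) y
  wb : ∀ j : ℕ, 1 ≤ j → Commute (b ^ j * y * (b ^ j)⁻¹) h ∧ Commute (b ^ j * y * (b ^ j)⁻¹) y
  wv : ∀ j i : ℕ, 1 ≤ j → 1 ≤ i → ∀ v : G, v = (a ^ (Nat.factorial j) * b ^ (Nat.factorial j)) ^ i →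
    Commute (v * y * v⁻¹) h ∧ Commute (v * y * v⁻¹) y
  rf : ∀ j i : ℕ, 1 ≤ j → 1 ≤ i → ∀ v F : G, v = (a ^ (Nat.factorial j) * b ^ (Nat.factorial j)) ^ i → F = v⁻¹ * f * v →
    Commute (F ^ (2 ^ (e j * i)) * y⁻¹) h ∧ Commute (F ^ (2 ^ (e j * i)) * y⁻¹) y ∧ Commute F y

/-- the relations of the second group (for MP_02cf79_al) -/
structure Rel02 {G : Type*} [Group G] (k : ℕ) (t v h y f : G) : Prop where
  r0 : h * y * h⁻¹ = y ^ 2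
  r1 : v⁻¹ * t * v = t ^ 2
  wt : ∀ j : ℕ, 1 ≤ j → Commute (t ^ j * y * (t ^ j)⁻¹) h ∧ Commute (t ^ j * y * (t ^ j)⁻¹) y
  wv : ∀ i : ℕ, 1 ≤ i → Commute (v ^ i * y * (v ^ i)⁻¹) h ∧ Commute (v ^ i * y * (v ^ i)⁻¹) y
  rf : ∀ i : ℕ, 1 ≤ i → ∀ F : G, F = (v ^ i)⁻¹ * f * v ^ i →
    Commute (F ^ (2 ^ (k * i)) * y⁻¹) h ∧ Commute (F ^ (2 ^ (k * i)) * y⁻¹) y ∧ Commute F y

end Pool.Agent.W331.CR
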