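import Pool.Agent.W331.CR.Defs

/-! Definitions for the existence part: flat pairs, the combinatorial group, models. -/

set_option autoImplicit false

open Set Filter Topology
open scoped ContDiff

namespace Pool.Agent.W331.CR

/-- `g` and its derivatives up to order `k` are bounded by `A` -/
def Bd (k : ℕ) (A : ℝ) (g : ℝ → ℝ) : Prop := ∀ r : ℕ, r ≤ k → ∀ x, |iteratedDeriv r g x| ≤ A

/-- `κ` is a smooth coordinate, a diffeomorphism of the line onto the interval `(α,β)` -/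
structure IsCoord (κ : ℝ → ℝ) (α β : ℝ) : Prop where
  sm : ContDiff ℝ ∞ κ
  pos : ∀ t, 0 < deriv κ t
  rng : range κ = Ioo α β

/-- a flat pair: a scaling `h` and a flow `y`, supported in `[0,1]`, with `h y_s h⁻¹ = y_{2s}` -/
structure FlatPair (h : ℝ ≃o ℝ) (y : ℝ → (ℝ ≃o ℝ)) : Prop where
  h_sm : ContDiff ℝ ∞ h
  h_sm' : ContDiff ℝ ∞ (h⁻¹ : ℝ ≃o ℝ)
  y_sm : ContDiff ℝ ∞ (fun p : ℝ × ℝ => y p.1 p.2)
  h_supp : ∀ x, x ∉ Ioo (0:ℝ) 1 → h x = x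
  y_supp : ∀ s x, x ∉ Ioo (0:ℝ) 1 → y s x = x
  y_add : ∀ s s', y (s + s') = y s * y s'
  y_ne : ∀ s, s ≠ 0 → ∀ x ∈ Ioo (0:ℝ) 1, y s x ≠ x
  rel : ∀ s, h * y s * h⁻¹ = y (2 * s)

/-- indices of the gaps: `inl u` is the gap of the word `u` (`false` is the letter `a`, `true` is
the letter `b`), `inr (inl (i, o))` is `a ^ (-(i+1))` of the gap `o` (`none` the basic gap, `some w`
the gap `b w`), `inr (inr (i, o))` is `b ^ (-(i+1))` of the gap `o` (`none` the basic gap, `some w`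
the gap `a w`) -/
abbrev Ix : Type :=
  List Bool ⊕ ((ℕ × Option (List Bool)) ⊕ (ℕ × Option (List Bool)))

def aFun : Ix → Ix
  | Sum.inl u => Sum.inl (false :: u)
  | Sum.inr (Sum.inl (0, none)) => Sum.inl []
  | Sum.inr (Sum.inl (0, some w)) => Sum.inl (true :: w)
  | Sum.inr (Sum.inl (i + 1, o)) => Sum.inr (Sum.inl (i, o))
  | Sum.inr (Sum.inr x) => Sum.inr (Sum.inr x)

def aInv : Ix → Ix
  | Sum.inl [] => Sum.inr (Sum.inl (0, none))
  | Sum.inl (true :: w) => Sum.inr (Sum.inl (0, some w))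
  | Sum.inl (false :: u) => Sum.inl u
  | Sum.inr (Sum.inl (i, o)) => Sum.inr (Sum.inl (i + 1, o))
  | Sum.inr (Sum.inr x) => Sum.inr (Sum.inr x)

def bFun : Ix → Ix
  | Sum.inl u => Sum.inl (true :: u)
  | Sum.inr (Sum.inr (0, none)) => Sum.inl []
  | Sum.inr (Sum.inr (0, some w)) => Sum.inl (false :: w)
  | Sum.inr (Sum.inr (i + 1, o)) => Sum.inr (Sum.inr (i, o))
  | Sum.inr (Sum.inl x) => Sum.inr (Sum.inl x)

def bInv : Ix → Ix
  | Sum.inl [] => Sum.inr (Sum.inr (0, none))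
  | Sum.inl (false :: w) => Sum.inr (Sum.inr (0, some w))
  | Sum.inl (true :: u) => Sum.inl u
  | Sum.inr (Sum.inr (i, o)) => Sum.inr (Sum.inr (i + 1, o))
  | Sum.inr (Sum.inl x) => Sum.inr (Sum.inl x)

/-- the action of `a` on the gaps -/
def aI : Equiv.Perm Ix where
  toFun := aFun
  invFun := aInv
  left_inv := by
    rintro (u | ⟨_ | i, _ | w⟩ | x) <;> rfl
  right_inv := by
    rintro ((_ | ⟨_ | _, u⟩) | ⟨i, o⟩ | x) <;> rfl

/-- the action of `b` on the gaps -/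
def bI : Equiv.Perm Ix where
  toFun := bFun
  invFun := bInv
  left_inv := by
    rintro (u | x | ⟨_ | i, _ | w⟩) <;> rfl
  right_inv := by
    rintro ((_ | ⟨_ | _, u⟩) | x | ⟨i, o⟩) <;> rfl

/-- the word `(a ^ j! b ^ j!) ^ i` -/
def vw (j i : ℕ) : List Bool :=
  (List.replicate i (List.replicate (Nat.factorial j) false ++
    List.replicate (Nat.factorial j) true)).flatten

/-- a permutation acting fibrewise -/
def fw (τ : Ix → Equiv.Perm ℝ) : Equiv.Perm (Ix × ℝ) := Equiv.prodShear (Equiv.refl Ix) τ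

/-- `F` on the basic fibre -/
def fib (F : Equiv.Perm ℝ) : Equiv.Perm (Ix × ℝ) := fw (fun x => if x = Sum.inl [] then F else 1)

open Classical in
/-- the fibre maps of `f` -/
noncomputable def fTau (y : ℝ → (ℝ ≃o ℝ)) (e : ℕ → ℕ) (x : Ix) : Equiv.Perm ℝ :=
  if hx : ∃ p : ℕ × ℕ, 1 ≤ p.1 ∧ 1 ≤ p.2 ∧ x = Sum.inl (vw p.1 p.2)
  then (y (1 / 2 ^ (e hx.choose.1 * hx.choose.2))).toEquiv else 1

/-- generators of the combinatorial group -/
def gA : Equiv.Perm (Ix × ℝ) := Equiv.prodCongr aI (Equiv.refl ℝ)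
def gB : Equiv.Perm (Ix × ℝ) := Equiv.prodCongr bI (Equiv.refl ℝ)
def gH (h : ℝ ≃o ℝ) : Equiv.Perm (Ix × ℝ) := fib h.toEquiv
noncomputable def gY (y : ℝ → (ℝ ≃o ℝ)) : Equiv.Perm (Ix × ℝ) := fib (y 1).toEquiv
noncomputable def gF (y : ℝ → (ℝ ≃o ℝ)) (e : ℕ → ℕ) : Equiv.Perm (Ix × ℝ) := fw (fTau y e)

/-- the combinatorial group -/
noncomputable def Gam (h : ℝ ≃o ℝ) (y : ℝ → (ℝ ≃o ℝ)) (e : ℕ → ℕ) :
    Subgroup (Equiv.Perm (Ix × ℝ)) :=
  Subgroup.closure {gA, gB, gH h, gY y, gF y e}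

/-- a model: two diffeomorphisms of the line with linked supports `(0,R)` and `(-R,L)`, such that
`[0,L]` is mapped into itself with disjoint images and such that the elements `a ^ m b ^ m` with
`1 ≤ m ≤ M` are affine of slope `lam` near their fixed points -/
structure Model (M : ℕ) (lam : ℝ) (a b : ℝ ≃o ℝ) (L R : ℝ) : Prop where
  L_pos : 0 < L
  L_lt : L < R
  a_sm : ContDiff ℝ ∞ a
  a_sm' : ContDiff ℝ ∞ (a⁻¹ : ℝ ≃o ℝ)
  b_sm : ContDiff ℝ ∞ b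
  b_sm' : ContDiff ℝ ∞ (b⁻¹ : ℝ ≃o ℝ)
  a_left : ∀ x, x ≤ 0 → a x = x
  a_right : ∀ x, R ≤ x → a x = x
  a_lt : ∀ x ∈ Ioo 0 R, a x < x
  b_right : ∀ x, L ≤ x → b x = x
  b_left : ∀ x, x ≤ -R → b x = x
  b_gt : ∀ x ∈ Ioo (-R) L, x < b x
  gap : a L < b 0
  da : ∀ x ∈ Icc 0 L, deriv a x ≤ 1
  db : ∀ x ∈ Icc 0 L, deriv b x ≤ 1
  da' : ∃ ρ < 1, ∀ x ∈ Icc (b 0) L, deriv a x ≤ ρ
  aff : ∀ m : ℕ, 1 ≤ m → m ≤ M → ∃ q ∈ Ioo 0 L, ∃ w > 0, ∀ x, |x - q| ≤ w →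
    (a ^ m * b ^ m) x = q + lam * (x - q)

/-- word maps -/
def kap (a b : ℝ ≃o ℝ) : List Bool → (ℝ ≃o ℝ)
  | [] => 1
  | false :: u => a * kap a b u
  | true :: u => b * kap a b u

/-- the realisation of the gap points on the line -/
def iota (a b : ℝ ≃o ℝ) (κ : ℝ → ℝ) : Ix × ℝ → ℝ
  | (Sum.inl u, t) => kap a b u (κ t)
  | (Sum.inr (Sum.inl (i, none)), t) => (a⁻¹ ^ (i + 1)) (κ t)
  | (Sum.inr (Sum.inl (i, some w)), t) => (a⁻¹ ^ (i + 1)) (kap a b (true :: w) (κ t))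
  | (Sum.inr (Sum.inr (i, none)), t) => (b⁻¹ ^ (i + 1)) (κ t)
  | (Sum.inr (Sum.inr (i, some w)), t) => (b⁻¹ ^ (i + 1)) (kap a b (false :: w) (κ t))

/-- `G` is the homeomorphism `κ ∘ F ∘ κ⁻¹` of `(α,β)`, extended by the identity -/
structure IsConj (κ : ℝ → ℝ) (F G : ℝ ≃o ℝ) : Prop where
  inside : ∀ t, G (κ t) = κ (F t)
  outside : ∀ x, x ∉ range κ → G x = x

end Pool.Agent.W331.CR
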