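import Pool.Agent.W331.CR.Stm

/-! Distortion estimates and orbits in components. -/

set_option autoImplicit false

open Set Filter Topology

namespace Pool.Agent.W331.CR

namespace Dist

lemma pow_succ_apply (F : ℝ ≃o ℝ) (n : ℕ) (x : ℝ) : (F ^ (n + 1)) x = F ((F ^ n) x) := by
  rw [pow_succ', RelIso.mul_apply]

lemma pow_succ_apply' (F : ℝ ≃o ℝ) (n : ℕ) (x : ℝ) : (F ^ (n + 1)) x = (F ^ n) (F x) := by
  rw [pow_succ, RelIso.mul_apply]

lemma pow_add_apply (F : ℝ ≃o ℝ) (n m : ℕ) (x : ℝ) : (F ^ (n + m)) x = (F ^ n) ((F ^ m) x) := by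
  rw [pow_add, RelIso.mul_apply]

lemma pow_fix {F : ℝ ≃o ℝ} {p : ℝ} (h : F p = p) (n : ℕ) : (F ^ n) p = p := by
  induction n with
  | zero => rfl
  | succ n ih => rw [pow_succ_apply, ih, h]

variable {U : Set ℝ} {H : Subgroup (ℝ ≃o ℝ)}

lemma mem_pow (hS : Setup U H) {z : ℝ ≃o ℝ} (hz : z ∈ H) (n : ℕ) (x : ℝ) :
    (z ^ n) x ∈ U ↔ x ∈ U := (hS.nice _ (H.pow_mem hz n)).mem x

/-- images of intervals contained in `U` are contained in `U` -/
lemma Icc_image (hS : Setup U H) {z : ℝ ≃o ℝ} (hz : z ∈ H) {s t : ℝ} (h : Icc s t ⊆ U) :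
    Icc (z s) (z t) ⊆ U := by
  intro u hu
  obtain ⟨v, rfl⟩ := z.surjective u
  rw [(hS.nice z hz).mem]
  exact h ⟨z.le_iff_le.1 hu.1, z.le_iff_le.1 hu.2⟩

lemma Ioo_image (hS : Setup U H) {z : ℝ ≃o ℝ} (hz : z ∈ H) {s t : ℝ} (h : Ioo s t ⊆ U) :
    Ioo (z s) (z t) ⊆ U := by
  intro u hu
  obtain ⟨v, rfl⟩ := z.surjective u
  rw [(hS.nice z hz).mem]
  exact h ⟨z.lt_iff_lt.1 hu.1, z.lt_iff_lt.1 hu.2⟩

lemma deriv_mul (hS : Setup U H) {z w : ℝ ≃o ℝ} (hz : z ∈ H) (hw : w ∈ H) {x : ℝ} (hx : x ∈ U) :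
    deriv (z * w : ℝ ≃o ℝ) x = deriv z (w x) * deriv w x := by
  have h : ((z * w : ℝ ≃o ℝ) : ℝ → ℝ) = (z : ℝ → ℝ) ∘ (w : ℝ → ℝ) :=
    funext (fun x => RelIso.mul_apply z w x)
  rw [h]
  exact deriv_comp x ((hS.nice z hz).diff _ (((hS.nice w hw).mem x).2 hx))
    ((hS.nice w hw).diff x hx)

lemma log_deriv_mul (hS : Setup U H) {z w : ℝ ≃o ℝ} (hz : z ∈ H) (hw : w ∈ H) {x : ℝ}
    (hx : x ∈ U) :
    Real.log (deriv (z * w : ℝ ≃o ℝ) x) = Real.log (deriv z (w x)) + Real.log (deriv w x) := by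
  rw [deriv_mul hS hz hw hx, Real.log_mul]
  · exact ((hS.nice z hz).pos _ (((hS.nice w hw).mem x).2 hx)).ne'
  · exact ((hS.nice w hw).pos x hx).ne'

lemma deriv_one (x : ℝ) : deriv (1 : ℝ ≃o ℝ) x = 1 := by
  have h : ((1 : ℝ ≃o ℝ) : ℝ → ℝ) = id := rfl
  rw [h]; exact deriv_id x

/-- the derivative of a power is a product -/
lemma deriv_pow (hS : Setup U H) {z : ℝ ≃o ℝ} (hz : z ∈ H) (n : ℕ) {x : ℝ} (hx : x ∈ U) :
    deriv (z ^ n : ℝ ≃o ℝ) x = ∏ l ∈ Finset.range n, deriv z ((z ^ l) x) := by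
  induction n with
  | zero => rw [pow_zero, Finset.prod_range_zero]; exact deriv_one x
  | succ n ih => rw [pow_succ', deriv_mul hS hz (H.pow_mem hz n) hx, ih, Finset.prod_range_succ,
      mul_comm]

lemma log_deriv_pow (hS : Setup U H) {z : ℝ ≃o ℝ} (hz : z ∈ H) (n : ℕ) {x : ℝ} (hx : x ∈ U) :
    Real.log (deriv (z ^ n : ℝ ≃o ℝ) x) = ∑ l ∈ Finset.range n, Real.log (deriv z ((z ^ l) x)) := by
  rw [deriv_pow hS hz n hx, Real.log_prod]
  intro l _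
  exact ((hS.nice z hz).pos _ ((mem_pow hS hz l x).2 hx)).ne'

/-- distortion: `V` is any Lipschitz constant of the logarithm of the derivative of `z` -/
lemma distortion (hS : Setup U H) {z : ℝ ≃o ℝ} (hz : z ∈ H) {V : ℝ}
    (hV : ∀ x y, x ≤ y → Icc x y ⊆ U →
      |Real.log (deriv z x) - Real.log (deriv z y)| ≤ V * (y - x))
    {s t : ℝ} (hst : s ≤ t) (hsub : Icc s t ⊆ U) (n : ℕ) :
    |Real.log (deriv (z ^ n : ℝ ≃o ℝ) s) - Real.log (deriv (z ^ n : ℝ ≃o ℝ) t)| ≤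
      V * ∑ l ∈ Finset.range n, ((z ^ l) t - (z ^ l) s) := by
  rw [log_deriv_pow hS hz n (hsub ⟨le_refl _, hst⟩), log_deriv_pow hS hz n (hsub ⟨hst, le_refl _⟩),
    ← Finset.sum_sub_distrib, Finset.mul_sum]
  refine (Finset.abs_sum_le_sum_abs _ _).trans ?_
  apply Finset.sum_le_sum
  intro l _
  apply hV
  · exact (z ^ l).monotone hst
  · exact Icc_image hS (H.pow_mem hz l) hsub

/-- distortion for two points in either order -/
lemma distortion_abs (hS : Setup U H) {z : ℝ ≃o ℝ} (hz : z ∈ H) {V : ℝ} (hV0 : 0 ≤ V)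
    (hV : ∀ x y, x ≤ y → Icc x y ⊆ U →
      |Real.log (deriv z x) - Real.log (deriv z y)| ≤ V * (y - x))
    {c d : ℝ} (hsub : Ioo c d ⊆ U) {s t : ℝ} (hs : s ∈ Ioo c d) (ht : t ∈ Ioo c d) (n : ℕ) {Λ : ℝ}
    (hΛ : ∑ l ∈ Finset.range n, ((z ^ l) d - (z ^ l) c) ≤ Λ) :
    |Real.log (deriv (z ^ n : ℝ ≃o ℝ) s) - Real.log (deriv (z ^ n : ℝ ≃o ℝ) t)| ≤ V * Λ := by
  have key : ∀ s t, s ∈ Ioo c d → t ∈ Ioo c d → s ≤ t →
      |Real.log (deriv (z ^ n : ℝ ≃o ℝ) s) - Real.log (deriv (z ^ n : ℝ ≃o ℝ) t)| ≤ V * Λ := by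
    intro s t hs ht hst
    refine (distortion hS hz hV hst (fun u hu => hsub ⟨lt_of_lt_of_le hs.1 hu.1,
      lt_of_le_of_lt hu.2 ht.2⟩) n).trans ?_
    apply mul_le_mul_of_nonneg_left _ hV0
    refine le_trans (Finset.sum_le_sum (fun l _ => ?_)) hΛ
    have h1 : (z ^ l) t ≤ (z ^ l) d := (z ^ l).monotone ht.2.le
    have h2 : (z ^ l) c ≤ (z ^ l) s := (z ^ l).monotone hs.1.le
    linarith
  rcases le_total s t with h | h
  · exact key s t hs ht h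
  · rw [abs_sub_comm]; exact key t s ht hs h

lemma comp_subset (hS : Setup U H) {y : ℝ ≃o ℝ} (hy : y ∈ H) {p q : ℝ} (h : IsComp y p q) :
    Ioo p q ⊆ U := by
  intro x hx
  by_contra hU
  exact h.ne x hx ((hS.nice y hy).fixE ⟨p, h.left⟩ x hU)

lemma tendsto_zero {a : ℕ → ℝ} (ha : ∀ n, 0 ≤ a n) {Λ : ℝ}
    (h : ∀ N, ∑ n ∈ Finset.range N, a n ≤ Λ) : Tendsto a atTop (𝓝 0) :=
  (summable_of_sum_range_le ha h).tendsto_atTop_zero

lemma comp_mem {y : ℝ ≃o ℝ} {p q : ℝ} (h : IsComp y p q) (n : ℕ) {x : ℝ} (hx : x ∈ Ioo p q) :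
    (y ^ n) x ∈ Ioo p q := by
  have h1 : (y ^ n) p = p := pow_fix h.left n
  have h2 : (y ^ n) q = q := pow_fix h.right n
  constructor
  · rw [← h1]; exact (y ^ n).strictMono hx.1
  · rw [← h2]; exact (y ^ n).strictMono hx.2

/-- an element moves all the points of a component in the same direction -/
lemma dir {y : ℝ ≃o ℝ} {p q : ℝ} (h : IsComp y p q) {x x' : ℝ} (hx : x ∈ Ioo p q)
    (hx' : x' ∈ Ioo p q) (hd : x < y x) : x' < y x' := by
  by_contra hcon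
  have hlt : y x' < x' := lt_of_le_of_ne (not_lt.mp hcon) (h.ne x' hx')
  have hcont : Continuous (fun t : ℝ => y t - t) := y.continuous.sub continuous_id
  have hc : IsPreconnected (Ioo p q) := isPreconnected_Ioo
  obtain ⟨t, ht, h0⟩ := hc.intermediate_value hx' hx hcont.continuousOn
    (show (0:ℝ) ∈ Icc (y x' - x') (y x - x) from ⟨by linarith, by linarith⟩)
  exact h.ne t ht (by simp only at h0; linarith)

lemma dir' {y : ℝ ≃o ℝ} {p q : ℝ} (h : IsComp y p q) {x x' : ℝ} (hx : x ∈ Ioo p q)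
    (hx' : x' ∈ Ioo p q) (hd : y x < x) : y x' < x' := by
  by_contra hcon
  have hlt : x' < y x' := lt_of_le_of_ne (not_lt.mp hcon) (h.ne x' hx').symm
  exact absurd (dir h hx' hx hlt) (not_lt.mpr hd.le)

lemma push_right {y : ℝ ≃o ℝ} {p q : ℝ} (h : IsComp y p q) {x : ℝ} (hx : x ∈ Ioo p q)
    (hd : x < y x) : Tendsto (fun n : ℕ => (y ^ n) x) atTop (𝓝 q) := by
  have hmono : Monotone (fun n : ℕ => (y ^ n) x) := by
    apply monotone_nat_of_le_succ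
    intro n
    rw [pow_succ_apply']
    exact (y ^ n).monotone hd.le
  have hbdd : BddAbove (range (fun n : ℕ => (y ^ n) x)) :=
    ⟨q, by rintro _ ⟨n, rfl⟩; exact (comp_mem h n hx).2.le⟩
  have ht := tendsto_atTop_ciSup hmono hbdd
  set L := ⨆ n : ℕ, (y ^ n) x with hL
  have hLq : L ≤ q := ciSup_le (fun n => (comp_mem h n hx).2.le)
  have hLx : x ≤ L := by
    have := le_ciSup hbdd 0
    simpa using this
  have hfix : y L = L := by
    have h1 : Tendsto (fun n : ℕ => y ((y ^ n) x)) atTop (𝓝 (y L)) :=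
      (y.continuous.tendsto L).comp ht
    have h2 : Tendsto (fun n : ℕ => y ((y ^ n) x)) atTop (𝓝 L) := by
      have h3 := ht.comp (tendsto_add_atTop_nat 1)
      refine h3.congr (fun n => ?_)
      simp only [Function.comp_apply]
      rw [pow_succ_apply]
    exact tendsto_nhds_unique h1 h2
  have hLeq : L = q := by
    by_contra hne
    have hlt : L < q := lt_of_le_of_ne hLq hne
    exact h.ne L ⟨lt_of_lt_of_le hx.1 hLx, hlt⟩ hfix
  rw [hLeq] at ht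
  exact ht

lemma push_left {y : ℝ ≃o ℝ} {p q : ℝ} (h : IsComp y p q) {x : ℝ} (hx : x ∈ Ioo p q)
    (hd : y x < x) : Tendsto (fun n : ℕ => (y ^ n) x) atTop (𝓝 p) := by
  have hmono : Antitone (fun n : ℕ => (y ^ n) x) := by
    apply antitone_nat_of_succ_le
    intro n
    rw [pow_succ_apply']
    exact (y ^ n).monotone hd.le
  have hbdd : BddBelow (range (fun n : ℕ => (y ^ n) x)) :=
    ⟨p, by rintro _ ⟨n, rfl⟩; exact (comp_mem h n hx).1.le⟩
  have ht := tendsto_atTop_ciInf hmono hbdd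
  set L := ⨅ n : ℕ, (y ^ n) x with hL
  have hLp : p ≤ L := le_ciInf (fun n => (comp_mem h n hx).1.le)
  have hLx : L ≤ x := by
    have := ciInf_le hbdd 0
    simpa using this
  have hfix : y L = L := by
    have h1 : Tendsto (fun n : ℕ => y ((y ^ n) x)) atTop (𝓝 (y L)) :=
      (y.continuous.tendsto L).comp ht
    have h2 : Tendsto (fun n : ℕ => y ((y ^ n) x)) atTop (𝓝 L) := by
      have h3 := ht.comp (tendsto_add_atTop_nat 1)
      refine h3.congr (fun n => ?_)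
      simp only [Function.comp_apply]
      rw [pow_succ_apply]
    exact tendsto_nhds_unique h1 h2
  have hLeq : L = p := by
    by_contra hne
    have hlt : p < L := lt_of_le_of_ne hLp (Ne.symm hne)
    exact h.ne L ⟨hlt, lt_of_le_of_lt hLx hx.2⟩ hfix
  rw [hLeq] at ht
  exact ht

/-- all orbits of a component converge to the same end -/
lemma push {y : ℝ ≃o ℝ} {p q : ℝ} (h : IsComp y p q) :
    ∃ e : ℝ, ∀ x ∈ Ioo p q, Tendsto (fun n : ℕ => (y ^ n) x) atTop (𝓝 e) := by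
  have hm : (p + q) / 2 ∈ Ioo p q := ⟨by linarith [h.lt], by linarith [h.lt]⟩
  rcases lt_or_gt_of_ne (h.ne _ hm) with hd | hd
  · exact ⟨p, fun x hx => push_left h hx (dir' h hm hx hd)⟩
  · exact ⟨q, fun x hx => push_right h hx (dir h hm hx hd)⟩

/-- contraction from bounded total length -/
lemma contract (hS : Setup U H) {z : ℝ ≃o ℝ} (hz : z ∈ H) {c d c' d' : ℝ} (hc : c' < c)
    (hcd : c ≤ d) (hd : d < d') (hsub : Ioo c' d' ⊆ U) {Λ : ℝ}
    (hΛ : ∀ N, ∑ n ∈ Finset.range N, ((z ^ n) d' - (z ^ n) c') ≤ Λ) (ε : ℝ) (hε : 0 < ε) :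
    ∃ N : ℕ, ∀ n : ℕ, N ≤ n → ∀ x ∈ Icc c d, deriv (z ^ n : ℝ ≃o ℝ) x ≤ ε := by
  obtain ⟨V, hV0, hV⟩ := (hS.nice z hz).lip
  have hlt : c' < d' := by linarith
  have ht := tendsto_zero (a := fun n => (z ^ n) d' - (z ^ n) c')
    (fun n => sub_nonneg.2 ((z ^ n).monotone hlt.le)) hΛ
  have hpos : 0 < ε * Real.exp (-(V * Λ)) * (d' - c') := by
    have := Real.exp_pos (-(V * Λ))
    have : 0 < d' - c' := by linarith
    positivity
  obtain ⟨N, hN⟩ := eventually_atTop.1 (ht.eventually (gt_mem_nhds hpos))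
  refine ⟨N, fun n hn x hx => ?_⟩
  have hxI : x ∈ Ioo c' d' := ⟨lt_of_lt_of_le hc hx.1, lt_of_le_of_lt hx.2 hd⟩
  have hzn := H.pow_mem hz n
  obtain ⟨t, ht1, ht2⟩ := exists_deriv_eq_slope (z ^ n : ℝ ≃o ℝ) hlt
    ((z ^ n).continuous.continuousOn)
    (fun u hu => ((hS.nice _ hzn).diff u (hsub hu)).differentiableWithinAt)
  have hdist := distortion_abs hS hz hV0 hV hsub hxI ht1 n (hΛ n)
  have hpx := (hS.nice _ hzn).pos x (hsub hxI)
  have hpt := (hS.nice _ hzn).pos t (hsub ht1)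
  have h1 : Real.log (deriv (z ^ n : ℝ ≃o ℝ) x) ≤ Real.log (deriv (z ^ n : ℝ ≃o ℝ) t) + V * Λ := by
    have := (abs_le.1 hdist).2; linarith
  have h2 : deriv (z ^ n : ℝ ≃o ℝ) x ≤ deriv (z ^ n : ℝ ≃o ℝ) t * Real.exp (V * Λ) := by
    have h3 := Real.exp_le_exp.2 h1
    rwa [Real.exp_log hpx, Real.exp_add, Real.exp_log hpt] at h3
  have h4 : deriv (z ^ n : ℝ ≃o ℝ) t ≤ ε * Real.exp (-(V * Λ)) := by
    rw [ht2, div_le_iff₀ (by linarith)]
    exact (hN n hn).le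
  calc deriv (z ^ n : ℝ ≃o ℝ) x ≤ deriv (z ^ n : ℝ ≃o ℝ) t * Real.exp (V * Λ) := h2
    _ ≤ ε * Real.exp (-(V * Λ)) * Real.exp (V * Λ) :=
        mul_le_mul_of_nonneg_right h4 (Real.exp_pos _).le
    _ = ε := by rw [mul_assoc, ← Real.exp_add]; simp

end Dist

end Pool.Agent.W331.CR
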