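import Pool.Agent.W331.CR.Main02

/-! Assembly of the existence part for MP_84d7a8_al. -/

set_option autoImplicit false

open Set Filter Topology Function
open scoped ContDiff

namespace Pool.Agent.W331.CR

lemma Rel84.of_map {G G' : Type*} [Group G] [Group G'] (φ : G →* G') (hφ : Injective φ)
    {e : ℕ → ℕ} {a b h y f : G} (r : Rel84 e (φ a) (φ b) (φ h) (φ y) (φ f)) :
    Rel84 e a b h y f where
  r0 := hφ (by simpa using r.r0)
  ra := fun j hj => by
    have := r.ra j hj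
    exact ⟨hφ (by simpa using this.1.eq), hφ (by simpa using this.2.eq)⟩
  rb := fun j hj => by
    have := r.rb j hj
    exact ⟨hφ (by simpa using this.1.eq), hφ (by simpa using this.2.eq)⟩
  wa := fun j hj => by
    have := r.wa j hj
    exact ⟨hφ (by simpa using this.1.eq), hφ (by simpa using this.2.eq)⟩
  wb := fun j hj => by
    have := r.wb j hj
    exact ⟨hφ (by simpa using this.1.eq), hφ (by simpa using this.2.eq)⟩
  wv := by
    rintro j i hj hi v rfl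
    have := r.wv j i hj hi _ rfl
    exact ⟨hφ (by simpa using this.1.eq), hφ (by simpa using this.2.eq)⟩
  rf := by
    rintro j i hj hi v F rfl rfl
    have := r.rf j i hj hi _ _ rfl rfl
    exact ⟨hφ (by simpa using this.1.eq), hφ (by simpa using this.2.1.eq),
      hφ (by simpa using this.2.2.eq)⟩

lemma IsCoord.affG {κ : ℝ → ℝ} (hκ : IsCoord κ 0 1) (u c : ℝ) (hc : 0 < c) :
    IsCoord (fun t => u + κ t * c) u (u + c) where
  sm := contDiff_const.add (hκ.sm.mul contDiff_const)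
  pos := fun t => by
    have hd : DifferentiableAt ℝ κ t := (hκ.sm.differentiable (by simp)) t
    have : HasDerivAt (fun t => u + κ t * c) (deriv κ t * c) t :=
      (hd.hasDerivAt.mul_const _).const_add _
    rw [this.deriv]
    exact mul_pos (hκ.pos t) hc
  rng := by
    have h := hκ.rng
    ext x
    constructor
    · rintro ⟨t, rfl⟩
      have h1 : κ t ∈ Ioo (0:ℝ) 1 := h ▸ mem_range_self t
      simp only [mem_Ioo]
      constructor <;> nlinarith [h1.1, h1.2]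
    · rintro ⟨h1, h2⟩
      have : (x - u) / c ∈ range κ := by
        rw [h]; constructor
        · exact div_pos (by linarith) hc
        · rw [div_lt_one hc]; linarith
      obtain ⟨t, ht⟩ := this
      refine ⟨t, ?_⟩
      simp only [ht]; field_simp; ring

lemma kap_append (a b : ℝ ≃o ℝ) (u w : List Bool) : kap a b (u ++ w) = kap a b u * kap a b w := by
  induction u with
  | nil => simp [kap]
  | cons c u ih => cases c <;> simp [kap, ih, mul_assoc]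

lemma kap_false (a b : ℝ ≃o ℝ) (n : ℕ) : kap a b (List.replicate n false) = a ^ n := by
  induction n with
  | zero => simp [kap]
  | succ n ih => rw [List.replicate_succ, kap, ih, pow_succ']

lemma kap_true (a b : ℝ ≃o ℝ) (n : ℕ) : kap a b (List.replicate n true) = b ^ n := by
  induction n with
  | zero => simp [kap]
  | succ n ih => rw [List.replicate_succ, kap, ih, pow_succ']

lemma kap_vw (a b : ℝ ≃o ℝ) (j i : ℕ) :
    kap a b (vw j i) = (a ^ (Nat.factorial j) * b ^ (Nat.factorial j)) ^ i := by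
  induction i with
  | zero => simp [vw, kap]
  | succ i ih =>
    have : vw j (i + 1) = (List.replicate (Nat.factorial j) false ++
      List.replicate (Nat.factorial j) true) ++ vw j i := by
      simp [vw, List.replicate_succ]
    rw [this, kap_append, kap_append, kap_false, kap_true, ih, pow_succ']

/-- choice of the slope -/
lemma exists_lam (lam₀ : ℝ) (h : lam₀ < 1) (k : ℕ) :
    ∃ lam, lam₀ < lam ∧ lam < 1 ∧ 0 < lam ∧ 1 / 2 < lam ^ k := by
  have h1 : Tendsto (fun x : ℝ => x ^ k) (𝓝[<] 1) (𝓝 1) := by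
    have : Tendsto (fun x : ℝ => x ^ k) (𝓝 1) (𝓝 (1 ^ k)) := (continuous_pow k).tendsto 1
    rw [one_pow] at this
    exact this.mono_left nhdsWithin_le_nhds
  have h2 : ∀ᶠ x in 𝓝[<] (1:ℝ), 1 / 2 < x ^ k := h1.eventually (lt_mem_nhds (by norm_num))
  have h3 : ∀ᶠ x in 𝓝[<] (1:ℝ), x ∈ Ioo (max lam₀ 0) 1 :=
    Ioo_mem_nhdsLT (max_lt h one_pos)
  obtain ⟨x, hx, hx2⟩ := (h2.and h3).exists
  exact ⟨x, (le_max_left _ _).trans_lt hx2.1, hx2.2, (le_max_right _ _).trans_lt hx2.1, hx⟩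

lemma bd_mono {k : ℕ} {A B : ℝ} {g : ℝ → ℝ} (h : Bd k A g) (hAB : A ≤ B) : Bd k B g :=
  fun r hr x => (h r hr x).trans hAB

/-- summability of the bounds -/
lemma summable_bounds (k : ℕ) (Bj : ℕ → ℕ → ℝ) (hB : ∀ j, j < k → Summable (Bj j)) :
    Summable (fun p : ℕ × ℕ => (if p.1 < k then |Bj p.1 (p.2 + 1)| else 0) +
      (1 / 2 : ℝ) ^ p.1 * (1 / 2) ^ p.2) := by
  apply Summable.add
  · rw [summable_prod_of_nonneg (fun p => by positivity)]
    constructor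
    · intro j
      by_cases hj : j < k
      · simp only [hj, if_true]
        exact ((summable_nat_add_iff 1).2 (hB j hj)).abs
      · simp only [hj, if_false]
        exact summable_zero
    · apply summable_of_finite_support
      refine (Set.finite_lt_nat k).subset (fun j hj => ?_)
      by_contra hn
      apply hj
      have : ¬ j < k := hn
      simp [this]
  · have h1 : Summable (fun n : ℕ => (1 / 2 : ℝ) ^ n) := summable_geometric_two
    exact h1.mul_of_nonneg h1 (fun n => by positivity) (fun n => by positivity)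

lemma coe_inv_apply (F : ℝ ≃o ℝ) (x : ℝ) : F⁻¹ (F x) = x := F.symm_apply_apply x
lemma coe_apply_inv (F : ℝ ≃o ℝ) (x : ℝ) : F (F⁻¹ x) = x := F.apply_symm_apply x

/-- conjugation of a map supported in `(c,d)` -/
lemma conj_supp {v G : ℝ ≃o ℝ} {c d : ℝ} (hG : ∀ x, x ∉ Ioo c d → G x = x) :
    ∀ x, x ∉ Ioo (v c) (v d) → (v * G * v⁻¹) x = x := by
  intro x hx
  obtain ⟨z, rfl⟩ := v.surjective x
  have hz : z ∉ Ioo c d := fun h => hx ⟨v.strictMono h.1, v.strictMono h.2⟩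
  simp only [RelIso.mul_apply]
  rw [coe_inv_apply, hG z hz]

lemma conj_apply' (v G : ℝ ≃o ℝ) (z : ℝ) : (v * G * v⁻¹) (v z) = v (G z) := by
  simp only [RelIso.mul_apply]
  rw [coe_inv_apply]

/-- the smooth realisation of `f` -/
lemma exists_f (hconj : S_conj) (hA : S_growaff) (hglue : S_glue)
    {h : ℝ ≃o ℝ} {y : ℝ → (ℝ ≃o ℝ)} (H : FlatPair h y) {M : ℕ} {lam : ℝ} {a b : ℝ ≃o ℝ} {L R : ℝ}
    (Mo : Model M lam a b L R) {κ : ℝ → ℝ} (hκ : IsCoord κ (a L) (b 0)) (k : ℕ)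
    (hM : ∀ j, j < k → Nat.factorial (j + 1) ≤ M) (hl0 : 0 < lam) (hl1 : lam < 1)
    (hlk : 1 / 2 < lam ^ k)
    (Cc Qc : ℕ → ℝ) (hC1 : ∀ j, 1 ≤ Cc j) (hQ1 : ∀ j, 1 ≤ Qc j)
    (hCQ : ∀ j (i : ℕ) (s : ℝ) (G : ℝ ≃o ℝ), IsConj κ (y s) G → |s| * (Cc j * Qc j ^ i) ≤ 1 →
      Bd k (|s| * (Cc j * Qc j ^ i))
        (fun x => ((a ^ (Nat.factorial j) * b ^ (Nat.factorial j)) ^ i * G *
        ((a ^ (Nat.factorial j) * b ^ (Nat.factorial j)) ^ i)⁻¹) x - x))
    (e : ℕ → ℕ) (he1 : ∀ j, 1 ≤ e j)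
    (he2 : ∀ j, k ≤ j → 2 ^ (j + 1 + 1) * (Cc (j + 1) * Qc (j + 1)) ≤ 2 ^ (e (j + 1)))
    (hdisj : ∀ p q : ℕ × ℕ, p ≠ q → Disjoint
      (Ioo (((a ^ (Nat.factorial (p.1 + 1)) * b ^ (Nat.factorial (p.1 + 1))) ^ (p.2 + 1)) (a L))
        (((a ^ (Nat.factorial (p.1 + 1)) * b ^ (Nat.factorial (p.1 + 1))) ^ (p.2 + 1)) (b 0)))
      (Ioo (((a ^ (Nat.factorial (q.1 + 1)) * b ^ (Nat.factorial (q.1 + 1))) ^ (q.2 + 1)) (a L))
        (((a ^ (Nat.factorial (q.1 + 1)) * b ^ (Nat.factorial (q.1 + 1))) ^ (q.2 + 1)) (b 0))))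
    (sg : ℝ) (hsg : sg = 1 ∨ sg = -1) :
    ∃ f : ℝ ≃o ℝ, ContDiff ℝ k f ∧
      (∀ (p : ℕ × ℕ) (t : ℝ),
        f (((a ^ (Nat.factorial (p.1 + 1)) * b ^ (Nat.factorial (p.1 + 1))) ^ (p.2 + 1)) (κ t)) =
        ((a ^ (Nat.factorial (p.1 + 1)) * b ^ (Nat.factorial (p.1 + 1))) ^ (p.2 + 1))
          (κ (y (sg * (1 / 2 ^ (e (p.1 + 1) * (p.2 + 1)))) t))) ∧
      (∀ x, (∀ p : ℕ × ℕ, x ∉ Ioo
        (((a ^ (Nat.factorial (p.1 + 1)) * b ^ (Nat.factorial (p.1 + 1))) ^ (p.2 + 1)) (a L))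
        (((a ^ (Nat.factorial (p.1 + 1)) * b ^ (Nat.factorial (p.1 + 1))) ^ (p.2 + 1)) (b 0))) →
        f x = x) := by
  set v : ℕ × ℕ → (ℝ ≃o ℝ) := fun p =>
    (a ^ (Nat.factorial (p.1 + 1)) * b ^ (Nat.factorial (p.1 + 1))) ^ (p.2 + 1) with hv
  set s : ℕ × ℕ → ℝ := fun p => sg * (1 / 2 ^ (e (p.1 + 1) * (p.2 + 1))) with hs
  have hsabs : ∀ p, |s p| = 1 / 2 ^ (e (p.1 + 1) * (p.2 + 1)) := by
    intro p
    rw [hs]
    simp only [abs_mul]
    have h1 : |sg| = 1 := by rcases hsg with rfl | rfl <;> simp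
    rw [h1, one_mul, abs_of_nonneg (by positivity)]
  set Gs : ℕ × ℕ → (ℝ ≃o ℝ) := fun p => conjHom hconj hκ (y (s p)) with hGs
  have hGc : ∀ p, IsConj κ (y (s p)) (Gs p) := fun p => conjHom_isConj hconj hκ _
  have hGsupp : ∀ p, ∀ x, x ∉ Ioo (a L) (b 0) → Gs p x = x := by
    intro p x hx
    apply (hGc p).outside
    rw [hκ.rng]; exact hx
  have hysm : ∀ t : ℝ, ContDiff ℝ ∞ (y t) := fun t => (flat_inv_sm H t).1
  have hGsm : ∀ p, ContDiff ℝ ∞ (Gs p) := by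
    intro p
    apply conjHom_sm hconj hκ _ ∞ le_rfl (hysm _)
    exact ⟨0, 1, fun x hx => H.y_supp _ x (fun h => hx ⟨h.1.le, h.2.le⟩)⟩
  have hpow : ∀ (g : ℝ ≃o ℝ) (n : ℕ), ContDiff ℝ ∞ g → ContDiff ℝ ∞ (g ^ n : ℝ ≃o ℝ) := by
    intro g n hg
    induction n with
    | zero => exact contDiff_id
    | succ n ih => rw [pow_succ]; exact ih.comp hg
  have hvsm : ∀ p, ContDiff ℝ ∞ (v p) := fun p =>
    hpow _ _ ((hpow _ _ Mo.a_sm).comp (hpow _ _ Mo.b_sm))
  have hvsm' : ∀ p, ContDiff ℝ ∞ ((v p)⁻¹ : ℝ ≃o ℝ) := by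
    intro p
    have : (v p)⁻¹ = ((b⁻¹) ^ (Nat.factorial (p.1 + 1)) * (a⁻¹) ^ (Nat.factorial (p.1 + 1))) ^
        (p.2 + 1) := by
      rw [hv]; simp only [← inv_pow, mul_inv_rev]
    rw [this]
    exact hpow _ _ ((hpow _ _ Mo.b_sm').comp (hpow _ _ Mo.a_sm'))
  -- bounds for small j
  have hA' : ∀ j, ∃ B : ℕ → ℝ, (j < k → Summable B ∧ ∀ (i : ℕ) (s : ℝ) (G : ℝ ≃o ℝ),
      |s| = 1 / 2 ^ (e (j + 1) * i) → IsConj κ (y s) G →
      Bd k (B i) (fun x => ((a ^ (Nat.factorial (j + 1)) * b ^ (Nat.factorial (j + 1))) ^ i * G *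
        ((a ^ (Nat.factorial (j + 1)) * b ^ (Nat.factorial (j + 1))) ^ i)⁻¹) x - x)) := by
    intro j
    by_cases hj : j < k
    · obtain ⟨B, h1, h2⟩ := hA h y H M lam a b L R Mo hl0 hl1 κ hκ k (Nat.factorial (j + 1))
        (Nat.one_le_iff_ne_zero.2 (Nat.factorial_ne_zero _)) (hM j hj) hlk (e (j + 1)) (he1 _)
      exact ⟨B, fun _ => ⟨h1, h2⟩⟩
    · exact ⟨0, fun h => absurd h hj⟩
  choose Bj hBj using hA'
  set B : ℕ × ℕ → ℝ := fun p => (if p.1 < k then |Bj p.1 (p.2 + 1)| else 0) +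
      (1 / 2 : ℝ) ^ p.1 * (1 / 2) ^ p.2 with hBdef
  have hBsum : Summable B := summable_bounds k Bj (fun j hj => (hBj j hj).1)
  have hbd : ∀ p, Bd k (B p) (fun x => (v p * Gs p * (v p)⁻¹) x - x) := by
    intro p
    by_cases hj : p.1 < k
    · apply bd_mono ((hBj p.1 hj).2 (p.2 + 1) (s p) (Gs p) (hsabs p) (hGc p))
      rw [hBdef]
      simp only [hj, if_true]
      have h1 := le_abs_self (Bj p.1 (p.2 + 1))
      have h2 : (0:ℝ) ≤ (1 / 2 : ℝ) ^ p.1 * (1 / 2) ^ p.2 := by positivity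
      linarith
    · have hj' : k ≤ p.1 := not_lt.1 hj
      -- the bound
      have hC0 := hC1 (p.1 + 1)
      have hQ0 := hQ1 (p.1 + 1)
      have key : |s p| * (Cc (p.1 + 1) * Qc (p.1 + 1) ^ (p.2 + 1)) ≤
          (1 / 2 : ℝ) ^ p.1 * (1 / 2) ^ p.2 := by
        rw [hsabs]
        have e2 := he2 p.1 hj'
        have h1 : ((2:ℝ) ^ (p.1 + 1 + 1) * (Cc (p.1 + 1) * Qc (p.1 + 1))) ^ (p.2 + 1) ≤
            (2 ^ (e (p.1 + 1))) ^ (p.2 + 1) := by
          apply pow_le_pow_left₀ _ e2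
          positivity
        rw [← pow_mul] at h1
        have h2 : Cc (p.1 + 1) * Qc (p.1 + 1) ^ (p.2 + 1) ≤
            (Cc (p.1 + 1) * Qc (p.1 + 1)) ^ (p.2 + 1) := by
          rw [mul_pow]
          apply mul_le_mul_of_nonneg_right _ (by positivity)
          calc Cc (p.1 + 1) = Cc (p.1 + 1) ^ 1 := (pow_one _).symm
            _ ≤ Cc (p.1 + 1) ^ (p.2 + 1) := pow_le_pow_right₀ hC0 (by omega)
        rw [mul_pow] at h1
        have h3 : (2:ℝ) ^ (p.1 + p.2) ≤ ((2:ℝ) ^ (p.1 + 1 + 1)) ^ (p.2 + 1) := by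
          rw [← pow_mul]
          apply pow_le_pow_right₀ (by norm_num)
          nlinarith
        have h4 : (0:ℝ) < 2 ^ (e (p.1 + 1) * (p.2 + 1)) := by positivity
        have h5 : (0:ℝ) < Cc (p.1 + 1) * Qc (p.1 + 1) ^ (p.2 + 1) := by positivity
        rw [← pow_add, one_div_pow, one_div, one_div, inv_mul_eq_div, div_le_iff₀ h4,
          inv_mul_eq_div, le_div_iff₀ (by positivity)]
        calc Cc (p.1 + 1) * Qc (p.1 + 1) ^ (p.2 + 1) * 2 ^ (p.1 + p.2)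
            ≤ (Cc (p.1 + 1) * Qc (p.1 + 1)) ^ (p.2 + 1) * ((2:ℝ) ^ (p.1 + 1 + 1)) ^ (p.2 + 1) :=
              mul_le_mul h2 h3 (by positivity) (by positivity)
          _ = ((2:ℝ) ^ (p.1 + 1 + 1)) ^ (p.2 + 1) * (Cc (p.1 + 1) * Qc (p.1 + 1)) ^ (p.2 + 1) := by
              ring
          _ ≤ _ := h1
      have key2 : (1 / 2 : ℝ) ^ p.1 * (1 / 2) ^ p.2 ≤ 1 := by
        have h1 : (1 / 2 : ℝ) ^ p.1 ≤ 1 := pow_le_one₀ (by norm_num) (by norm_num)
        have h2 : (1 / 2 : ℝ) ^ p.2 ≤ 1 := pow_le_one₀ (by norm_num) (by norm_num)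
        exact mul_le_one₀ h1 (by positivity) h2
      apply bd_mono (hCQ (p.1 + 1) (p.2 + 1) (s p) (Gs p) (hGc p) (key.trans key2))
      refine key.trans ?_
      rw [hBdef]
      simp only [hj, if_false, zero_add, le_refl]
  obtain ⟨f, f1, f2, f3⟩ := hglue k (ℕ × ℕ) (fun p => v p (a L)) (fun p => v p (b 0))
    (fun p => v p * Gs p * (v p)⁻¹) B hdisj (fun p => conj_supp (hGsupp p))
    (fun p => (hvsm p).comp ((hGsm p).comp (hvsm' p))) hBsum hbd
  refine ⟨f, f1, fun p t => ?_, f3⟩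
  have ht : κ t ∈ Ioo (a L) (b 0) := hκ.rng ▸ mem_range_self t
  have h1 := f2 p (v p (κ t)) ⟨(v p).strictMono ht.1, (v p).strictMono ht.2⟩
  have h2 := conj_apply' (v p) (Gs p) (κ t)
  change f (v p (κ t)) = v p (κ (y (s p) t))
  rw [h1, h2, (hGc p).inside]

lemma conjHom_inv_supp {hS : S_conj} {κ : ℝ → ℝ} {α β : ℝ} (hκ : IsCoord κ α β) (F : ℝ ≃o ℝ) :
    ∀ x, x ∉ Ioo α β → conjHom hS hκ F x = x := by
  intro x hx
  apply (conjHom_isConj hS hκ F).outside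
  rw [hκ.rng]; exact hx

theorem s_emb (hflat : S_flataff) (hconj : S_conj) (hgr : S_growth) (hA : S_growaff)
    (hglue : S_glue) (hmod : S_model) (hiota : S_iota) (hdense : S_dense) (hft : S_fTau)
    (hhom : S_hom) : S_emb := by
  intro h y H k
  obtain ⟨lam₀, hlam0, hmodel⟩ := hmod (Nat.factorial k)
  obtain ⟨lam, l1, l2, l3, l4⟩ := exists_lam lam₀ hlam0 k
  obtain ⟨a, b, L, R, Mo⟩ := hmodel lam l1 l2
  have hM : ∀ j, j < k → Nat.factorial (j + 1) ≤ Nat.factorial k := fun j hj =>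
    Nat.factorial_le hj
  obtain ⟨κ0, hκ0, -⟩ := hflat
  have hgap : 0 < b 0 - a L := sub_pos.2 Mo.gap
  have hκ : IsCoord (fun t => a L + κ0 t * (b 0 - a L)) (a L) (b 0) := by
    have := hκ0.affG (a L) (b 0 - a L) hgap
    rwa [add_sub_cancel] at this
  set κ : ℝ → ℝ := fun t => a L + κ0 t * (b 0 - a L) with hκdef
  have hg := fun j => hgr h y H _ lam a b L R Mo κ hκ k j
  choose Cc Qc hC1 hQ1 hCQ using hg
  -- thresholds
  have hthr : ∀ j : ℕ, ∃ n : ℕ, (2:ℝ) ^ (j + 1) * (Cc j * Qc j) ≤ 2 ^ n := by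
    intro j
    obtain ⟨n, hn⟩ := pow_unbounded_of_one_lt ((2:ℝ) ^ (j + 1) * (Cc j * Qc j)) one_lt_two
    exact ⟨n, hn.le⟩
  choose Qn hQn using hthr
  refine ⟨Qn, fun e he1 he2 => ?_⟩
  obtain ⟨ft1, ft2, ft3⟩ := hft y e
  obtain ⟨ioinj, iomem, ioa, iob⟩ := hiota _ lam a b L R Mo κ hκ
  have iod := hdense _ lam a b L R Mo κ hκ
  set v : ℕ × ℕ → (ℝ ≃o ℝ) := fun p =>
    (a ^ (Nat.factorial (p.1 + 1)) * b ^ (Nat.factorial (p.1 + 1))) ^ (p.2 + 1) with hv
  have hiov : ∀ (p : ℕ × ℕ) (t : ℝ),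
      iota a b κ (Sum.inl (vw (p.1 + 1) (p.2 + 1)), t) = v p (κ t) := by
    intro p t
    change kap a b (vw (p.1 + 1) (p.2 + 1)) (κ t) = _
    rw [kap_vw]
  -- intervals
  have himg : ∀ p : ℕ × ℕ, ∀ x ∈ Ioo (v p (a L)) (v p (b 0)), ∃ t, x = v p (κ t) := by
    intro p x hx
    obtain ⟨z, rfl⟩ := (v p).surjective x
    have hz : z ∈ Ioo (a L) (b 0) := ⟨(v p).lt_iff_lt.1 hx.1, (v p).lt_iff_lt.1 hx.2⟩
    rw [← hκ.rng] at hz
    obtain ⟨t, rfl⟩ := hz
    exact ⟨t, rfl⟩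
  have hdisj : ∀ p q : ℕ × ℕ, p ≠ q → Disjoint
      (Ioo (v p (a L)) (v p (b 0))) (Ioo (v q (a L)) (v q (b 0))) := by
    intro p q hpq
    rw [Set.disjoint_left]
    intro x hx hx'
    obtain ⟨t, ht⟩ := himg p x hx
    obtain ⟨t', ht'⟩ := himg q x hx'
    have h1 : iota a b κ (Sum.inl (vw (p.1 + 1) (p.2 + 1)), t) =
        iota a b κ (Sum.inl (vw (q.1 + 1) (q.2 + 1)), t') := by
      rw [hiov, hiov, ← ht, ← ht']
    have h2 := ioinj h1
    simp only [Prod.mk.injEq, Sum.inl.injEq] at h2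
    have h3 := ft3 _ _ _ _ (by omega) (by omega) (by omega) (by omega) h2.1
    apply hpq
    ext
    · omega
    · omega
  have he2' : ∀ j, k ≤ j → (2:ℝ) ^ (j + 1 + 1) * (Cc (j + 1) * Qc (j + 1)) ≤ 2 ^ (e (j + 1)) := by
    intro j hj
    refine (hQn (j + 1)).trans ?_
    apply pow_le_pow_right₀ (by norm_num)
    exact he2 (j + 1) (by omega)
  obtain ⟨f, fs, fv, fo⟩ := exists_f hconj hA hglue H Mo hκ k hM l3 l2 l4 Cc Qc hC1 hQ1
    hCQ e he1 he2' hdisj 1 (Or.inl rfl)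
  obtain ⟨f', fs', fv', fo'⟩ := exists_f hconj hA hglue H Mo hκ k hM l3 l2 l4 Cc Qc hC1 hQ1
    hCQ e he1 he2' hdisj (-1) (Or.inr rfl)
  have hff : f⁻¹ = f' := by
    rw [inv_eq_iff_mul_eq_one, ← RelIso.coe_fn_injective.eq_iff]
    funext x
    rw [RelIso.mul_apply]
    change f (f' x) = x
    by_cases hx : ∃ p : ℕ × ℕ, x ∈ Ioo (v p (a L)) (v p (b 0))
    · obtain ⟨p, hp⟩ := hx
      obtain ⟨t, rfl⟩ := himg p x hp
      have e1 := fv' p t
      have e2 := fv p (y (-1 * (1 / 2 ^ (e (p.1 + 1) * (p.2 + 1)))) t)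
      change f' (v p (κ t)) = _ at e1
      rw [e1]
      refine e2.trans ?_
      have e3 : y (1 * (1 / 2 ^ (e (p.1 + 1) * (p.2 + 1))))
          (y (-1 * (1 / 2 ^ (e (p.1 + 1) * (p.2 + 1)))) t) = t := by
        rw [← RelIso.mul_apply, ← H.y_add]
        have : (1 * (1 / 2 ^ (e (p.1 + 1) * (p.2 + 1))) +
          -1 * (1 / 2 ^ (e (p.1 + 1) * (p.2 + 1))) : ℝ) = 0 := by ring
        rw [this, y_zero H]; rfl
      rw [e3]
    · push Not at hx
      rw [fo' x hx, fo x hx]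
  -- the hypotheses of the abstract lemma
  have hioH : ∀ (u : Ix) (t : ℝ), u ≠ Sum.inl [] → iota a b κ (u, t) ∉ range κ := by
    rintro u t hu ⟨t', ht'⟩
    have h1 : iota a b κ (Sum.inl [], t') = iota a b κ (u, t) := ht'
    have h2 := ioinj h1
    simp only [Prod.mk.injEq] at h2
    exact hu h2.1.symm
  have hfibre : ∀ F : ℝ ≃o ℝ, ∀ x, conjHom hconj hκ F (iota a b κ x) =
      iota a b κ (fib F.toEquiv x) := by
    rintro F ⟨u, t⟩
    by_cases hu : u = Sum.inl []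
    · subst hu
      have h1 := (conjHom_isConj hconj hκ F).inside t
      change conjHom hconj hκ F (κ t) = _
      rw [h1]
      simp [fib, fw, Equiv.prodShear, iota, kap]
    · rw [(conjHom_isConj hconj hκ F).outside _ (hioH u t hu)]
      simp [fib, fw, Equiv.prodShear, hu]
  have hRL : Ioo (a L) (b 0) ⊆ Ioo (-R) R := by
    intro x hx
    rw [← hκ.rng] at hx
    obtain ⟨t, rfl⟩ := hx
    exact iomem (Sum.inl [], t)
  have hcsm : ∀ F : ℝ ≃o ℝ, ContDiff ℝ ∞ F → (∀ x, x ∉ Ioo (0:ℝ) 1 → F x = x) →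
      ContDiff ℝ k (conjHom hconj hκ F) := by
    intro F hF hs
    have le : ((k : ℕ) : WithTop ℕ∞) ≤ ∞ := by exact_mod_cast le_top
    exact conjHom_sm hconj hκ F k le (hF.of_le le)
      ⟨0, 1, fun x hx => hs x (fun h => hx ⟨h.1.le, h.2.le⟩)⟩
  have le : ((k : ℕ) : WithTop ℕ∞) ≤ ∞ := by exact_mod_cast le_top
  have h0s' : ∀ x, x ∉ Ioo (0:ℝ) 1 → h⁻¹ x = x := by
    intro x hx
    apply h.injective
    rw [H.h_supp x hx]
    exact h.apply_symm_apply _
  have hRpos : (0:ℝ) < R := Mo.L_pos.trans Mo.L_lt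
  have hfequiv : ∀ x, f (iota a b κ x) = iota a b κ (gF y e x) := by
    rintro ⟨u, t⟩
    by_cases hu : ∃ p : ℕ × ℕ, u = Sum.inl (vw (p.1 + 1) (p.2 + 1))
    · obtain ⟨p, rfl⟩ := hu
      have e1 : gF y e (Sum.inl (vw (p.1 + 1) (p.2 + 1)), t) =
          (Sum.inl (vw (p.1 + 1) (p.2 + 1)), y (1 / 2 ^ (e (p.1 + 1) * (p.2 + 1))) t) := by
        change (_, fTau y e (Sum.inl (vw (p.1 + 1) (p.2 + 1))) t) = _
        rw [ft1 _ _ (by omega) (by omega)]
        rfl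
      rw [e1, hiov, hiov]
      have := fv p t
      rw [one_mul] at this
      exact this
    · have e1 : gF y e (u, t) = (u, t) := by
        change (_, fTau y e u t) = _
        rw [ft2 u]
        · rfl
        · intro j i hj hi hne
          apply hu
          refine ⟨(j - 1, i - 1), ?_⟩
          rw [hne]
          simp only
          rw [Nat.sub_add_cancel hj, Nat.sub_add_cancel hi]
      rw [e1]
      apply fo
      intro p hp
      obtain ⟨t', ht'⟩ := himg p _ hp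
      rw [← hiov] at ht'
      have h2 := ioinj ht'
      simp only [Prod.mk.injEq] at h2
      exact hu ⟨p, h2.1⟩
  have hfsupp : ∀ g : ℝ ≃o ℝ, (∀ x, (∀ p : ℕ × ℕ, x ∉ Ioo (v p (a L)) (v p (b 0))) → g x = x) →
      ∀ x, x ∉ Ioo (-R) R → g x = x := by
    intro g hg x hx
    apply hg
    intro p hp
    obtain ⟨t, rfl⟩ := himg p x hp
    rw [← hiov] at hx
    exact hx (iomem _)
  apply hhom (Ix × ℝ) (iota a b κ) {gA, gB, gH h, gY y, gF y e} k (-R) R (by linarith) ioinj iod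
  intro g hg
  simp only [mem_insert_iff, mem_singleton_iff] at hg
  rcases hg with rfl | rfl | rfl | rfl | rfl
  · refine ⟨a, Mo.a_sm.of_le le, Mo.a_sm'.of_le le, fun x hx => ?_, ioa⟩
    by_cases h0 : x ≤ 0
    · exact Mo.a_left x h0
    · apply Mo.a_right
      by_contra hn
      push Not at hn h0
      exact hx ⟨by linarith, hn⟩
  · refine ⟨b, Mo.b_sm.of_le le, Mo.b_sm'.of_le le, fun x hx => ?_, iob⟩
    by_cases h0 : L ≤ x
    · exact Mo.b_right x h0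
    · apply Mo.b_left
      by_contra hn
      push Not at hn h0
      exact hx ⟨hn, h0.trans Mo.L_lt⟩
  · refine ⟨conjHom hconj hκ h, hcsm h H.h_sm H.h_supp, ?_, fun x hx => ?_, hfibre h⟩
    · rw [← map_inv]
      exact hcsm _ H.h_sm' h0s'
    · exact conjHom_inv_supp hκ h x (fun h' => hx (hRL h'))
  · refine ⟨conjHom hconj hκ (y 1), hcsm _ (flat_inv_sm H 1).1 (H.y_supp 1), ?_,
      fun x hx => ?_, hfibre (y 1)⟩
    · rw [← map_inv, (flat_inv_sm H 1).2]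
      exact hcsm _ (flat_inv_sm H (-1)).1 (H.y_supp (-1))
    · exact conjHom_inv_supp hκ _ x (fun h' => hx (hRL h'))
  · refine ⟨f, fs, by rw [hff]; exact fs', hfsupp f fo, hfequiv⟩

/-- existence of the group -/
theorem exist84 (hflat : S_flataff) (hrel : S_rel84) (hemb : S_emb) :
    ∃ (e : ℕ → ℕ) (G : Type) (_ : Group G) (a b h y f : G), Rel84 e a b h y f ∧ y ≠ 1 ∧
      Group.FG G ∧ ∀ k : ℕ, ∃ φ : G →* CS k, Injective φ := by
  obtain ⟨-, -, h, y, H, -⟩ := hflat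
  have := fun k => hemb h y H k
  choose Q hQ using this
  set e : ℕ → ℕ := fun j => 1 + ∑ k ∈ Finset.range (j + 1), Q k j with he
  obtain ⟨hr1, hr2⟩ := hrel h y H e
  have mem : ∀ g ∈ ({gA, gB, gH h, gY y, gF y e} : Set (Equiv.Perm (Ix × ℝ))), g ∈ Gam h y e :=
    fun g hg => Subgroup.subset_closure hg
  refine ⟨e, Gam h y e, inferInstance, ⟨gA, mem _ (by simp)⟩, ⟨gB, mem _ (by simp)⟩,
    ⟨gH h, mem _ (by simp)⟩, ⟨gY y, mem _ (by simp)⟩, ⟨gF y e, mem _ (by simp)⟩, ?_, ?_, ?_, ?_⟩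
  · exact Rel84.of_map (Gam h y e).subtype Subtype.coe_injective hr1
  · intro h'
    exact hr2 (congrArg Subtype.val h')
  · rw [Group.fg_iff_subgroup_fg, Subgroup.fg_iff]
    exact ⟨_, rfl, by simp⟩
  · intro k
    refine hQ k e (fun j => by simp [he]) (fun j hj => ?_)
    rw [he]
    have : Q k j ≤ ∑ k ∈ Finset.range (j + 1), Q k j :=
      Finset.single_le_sum (f := fun k => Q k j) (fun _ _ => Nat.zero_le _)
        (Finset.mem_range.2 (by omega))
    simp only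
    omega

end Pool.Agent.W331.CR
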