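import Pool.Agent.W331.CR.Stm2

/-! Assembly of the existence part for MP_02cf79_al. -/

set_option autoImplicit false

open Set Filter Topology Function
open scoped ContDiff

namespace Pool.Agent.W331.CR

lemma Rel02.map {G G' : Type*} [Group G] [Group G'] (φ : G →* G') {k : ℕ} {t v h y f : G}
    (r : Rel02 k t v h y f) : Rel02 k (φ t) (φ v) (φ h) (φ y) (φ f) where
  r0 := by rw [← map_inv, ← map_mul, ← map_mul, ← map_pow, r.r0]
  r1 := by rw [← map_inv, ← map_mul, ← map_mul, ← map_pow, r.r1]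
  wt := fun j hj => by
    have := r.wt j hj
    simp only [← map_inv, ← map_mul, ← map_pow]
    exact ⟨this.1.map φ, this.2.map φ⟩
  wv := fun j hj => by
    have := r.wv j hj
    simp only [← map_inv, ← map_mul, ← map_pow]
    exact ⟨this.1.map φ, this.2.map φ⟩
  rf := by
    rintro i hi F rfl
    have := r.rf i hi _ rfl
    simp only [← map_inv, ← map_mul, ← map_pow]
    exact ⟨this.1.map φ, this.2.1.map φ, this.2.2.map φ⟩

lemma Rel84.map {G G' : Type*} [Group G] [Group G'] (φ : G →* G') {e : ℕ → ℕ} {a b h y f : G}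
    (r : Rel84 e a b h y f) : Rel84 e (φ a) (φ b) (φ h) (φ y) (φ f) where
  r0 := by rw [← map_inv, ← map_mul, ← map_mul, ← map_pow, r.r0]
  ra := fun j hj => by
    have := r.ra j hj
    simp only [← map_inv, ← map_mul, ← map_pow]
    exact ⟨this.1.map φ, this.2.map φ⟩
  rb := fun j hj => by
    have := r.rb j hj
    simp only [← map_inv, ← map_mul, ← map_pow]
    exact ⟨this.1.map φ, this.2.map φ⟩
  wa := fun j hj => by
    have := r.wa j hj
    simp only [← map_inv, ← map_mul, ← map_pow]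
    exact ⟨this.1.map φ, this.2.map φ⟩
  wb := fun j hj => by
    have := r.wb j hj
    simp only [← map_inv, ← map_mul, ← map_pow]
    exact ⟨this.1.map φ, this.2.map φ⟩
  wv := by
    rintro j i hj hi v rfl
    have := r.wv j i hj hi _ rfl
    simp only [← map_inv, ← map_mul, ← map_pow]
    exact ⟨this.1.map φ, this.2.map φ⟩
  rf := by
    rintro j i hj hi v F rfl rfl
    have := r.rf j i hj hi _ _ rfl rfl
    simp only [← map_inv, ← map_mul, ← map_pow]
    exact ⟨this.1.map φ, this.2.1.map φ, this.2.2.map φ⟩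

/-- disjoint supports -/
lemma commute_of_disj {P Q : ℝ ≃o ℝ} (W : Set ℝ) (hP : ∀ x ∈ W, P x = x)
    (hQ : ∀ x, x ∉ W → Q x = x) : Commute P Q := by
  have hQW : ∀ x ∈ W, Q x ∈ W := by
    intro x hx
    by_contra h
    have h1 := hQ _ h
    have h2 := Q.injective h1
    rw [h2] at h
    exact h hx
  have hPW : ∀ x, x ∉ W → P x ∉ W := by
    intro x hx h
    have h1 := hP _ h
    have h2 := P.injective h1
    rw [h2] at h
    exact hx h
  refine RelIso.ext (fun x => ?_)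
  simp only [RelIso.mul_apply]
  by_cases hx : x ∈ W
  · rw [hP x hx, hP _ (hQW x hx)]
  · rw [hQ x hx, hQ _ (hPW x hx)]

/-- uniqueness of conjugates -/
lemma IsConj.unique {κ : ℝ → ℝ} {F G G' : ℝ ≃o ℝ} (h : IsConj κ F G) (h' : IsConj κ F G') :
    G = G' := by
  refine RelIso.ext (fun x => ?_)
  by_cases hx : x ∈ range κ
  · obtain ⟨t, rfl⟩ := hx
    rw [h.inside, h'.inside]
  · rw [h.outside x hx, h'.outside x hx]

lemma IsConj.mul {κ : ℝ → ℝ} {F F' G G' : ℝ ≃o ℝ} (h : IsConj κ F G) (h' : IsConj κ F' G') :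
    IsConj κ (F * F') (G * G') :=
  ⟨fun t => by rw [RelIso.mul_apply, h'.inside, h.inside]; rfl,
   fun x hx => by rw [RelIso.mul_apply, h'.outside x hx, h.outside x hx]⟩

/-- conjugation by a coordinate as a homomorphism -/
noncomputable def conjHom (hS : S_conj) {κ : ℝ → ℝ} {α β : ℝ} (hκ : IsCoord κ α β) :
    (ℝ ≃o ℝ) →* (ℝ ≃o ℝ) where
  toFun F := (hS κ α β hκ F).choose
  map_one' := IsConj.unique (hS κ α β hκ 1).choose_spec.1 ⟨fun _ => rfl, fun _ _ => rfl⟩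
  map_mul' F F' := IsConj.unique (hS κ α β hκ (F * F')).choose_spec.1
    ((hS κ α β hκ F).choose_spec.1.mul (hS κ α β hκ F').choose_spec.1)

lemma conjHom_isConj (hS : S_conj) {κ : ℝ → ℝ} {α β : ℝ} (hκ : IsCoord κ α β) (F : ℝ ≃o ℝ) :
    IsConj κ F (conjHom hS hκ F) := (hS κ α β hκ F).choose_spec.1

lemma conjHom_sm (hS : S_conj) {κ : ℝ → ℝ} {α β : ℝ} (hκ : IsCoord κ α β) (F : ℝ ≃o ℝ)
    (r : WithTop ℕ∞) (hr : r ≤ ∞) (hF : ContDiff ℝ r F)
    (hc : ∃ A B : ℝ, ∀ x, x ∉ Icc A B → F x = x) : ContDiff ℝ r (conjHom hS hκ F) :=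
  (hS κ α β hκ F).choose_spec.2 r hr hF hc

/-- affine order isomorphism `x ↦ u + x * c` -/
noncomputable def affE (u c : ℝ) (hc : 0 < c) : ℝ ≃o ℝ :=
  (OrderIso.mulRight₀ c hc).trans (OrderIso.addLeft u)

lemma affE_apply (u c : ℝ) (hc : 0 < c) (x : ℝ) : affE u c hc x = u + x * c := rfl

lemma affE_symm (u c : ℝ) (hc : 0 < c) (x : ℝ) : (affE u c hc)⁻¹ x = (x - u) / c := by
  apply (affE u c hc).injective
  have : affE u c hc ((affE u c hc)⁻¹ x) = x := (affE u c hc).apply_symm_apply x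
  rw [this, affE_apply]; field_simp; ring

/-- halving -/
noncomputable def hlf : ℝ ≃o ℝ := affE 0 (1/2) (by norm_num)

lemma hlf_pow (i : ℕ) (x : ℝ) : (hlf ^ i) x = x / 2 ^ i := by
  induction i generalizing x with
  | zero => simp
  | succ i ih =>
    rw [pow_succ, RelIso.mul_apply, ih, hlf, affE_apply]
    rw [pow_succ]; field_simp; ring

lemma hlf_pow_inv (i : ℕ) (x : ℝ) : ((hlf ^ i)⁻¹ : ℝ ≃o ℝ) x = 2 ^ i * x := by
  apply (hlf ^ i).injective
  have : (hlf ^ i) (((hlf ^ i)⁻¹ : ℝ ≃o ℝ) x) = x := (hlf ^ i).apply_symm_apply x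
  rw [this, hlf_pow]; field_simp

lemma tr_pow (i : ℕ) (x : ℝ) : (tr ^ i) x = x + i := by
  induction i generalizing x with
  | zero => simp
  | succ i ih =>
    rw [pow_succ, RelIso.mul_apply, ih, tr_apply]
    push_cast; ring

/-- the coordinate of the interval `(5/8,7/8)` -/
noncomputable def rho : ℝ ≃o ℝ := affE (5/8) (1/4) (by norm_num)

lemma rho_apply (x : ℝ) : rho x = 5 / 8 + x / 4 := by rw [rho, affE_apply]; ring

lemma rho_mem (x : ℝ) : rho x ∈ Ioo (5/8 : ℝ) (7/8) ↔ x ∈ Ioo (0:ℝ) 1 := by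
  rw [rho_apply]; constructor <;> rintro ⟨h1, h2⟩ <;> constructor <;> linarith

lemma y_zero {h : ℝ ≃o ℝ} {y : ℝ → (ℝ ≃o ℝ)} (H : FlatPair h y) : y 0 = 1 := by
  have := H.y_add 0 0
  rw [add_zero] at this
  exact (mul_eq_left.1 this.symm)

lemma y_pow {h : ℝ ≃o ℝ} {y : ℝ → (ℝ ≃o ℝ)} (H : FlatPair h y) (s : ℝ) (n : ℕ) :
    y s ^ n = y (n * s) := by
  induction n with
  | zero => simp [y_zero H]
  | succ n ih => rw [pow_succ, ih, ← H.y_add]; congr 1; push_cast; ring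

lemma y_comm {h : ℝ ≃o ℝ} {y : ℝ → (ℝ ≃o ℝ)} (H : FlatPair h y) (s s' : ℝ) :
    Commute (y s) (y s') := by
  rw [Commute, SemiconjBy, ← H.y_add, ← H.y_add, add_comm]

/-- relations on the coordinate line -/
lemma rel02_line {h : ℝ ≃o ℝ} {y : ℝ → (ℝ ≃o ℝ)} (H : FlatPair h y) (k : ℕ) (f : ℝ ≃o ℝ)
    (hf1 : ∀ i : ℕ, 1 ≤ i → ∀ x ∈ Ioo (0:ℝ) 1,
      f ((5 / 8 + x / 4) / 2 ^ i) = (5 / 8 + y (1 / 2 ^ (k * i)) x / 4) / 2 ^ i) :
    Rel02 k tr hlf (rho * h * rho⁻¹) (rho * y 1 * rho⁻¹) f := by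
  set W : Set ℝ := Ioo (5/8 : ℝ) (7/8) with hW
  have cinv : ∀ (F : ℝ ≃o ℝ) (x : ℝ), (rho * F * rho⁻¹) (rho x) = rho (F x) := by
    intro F x
    simp only [RelIso.mul_apply]
    congr 2
    exact rho.symm_apply_apply x
  have supp : ∀ (F : ℝ ≃o ℝ), (∀ x, x ∉ Ioo (0:ℝ) 1 → F x = x) →
      ∀ x, x ∉ W → (rho * F * rho⁻¹) x = x := by
    intro F hF x hx
    obtain ⟨z, rfl⟩ := rho.surjective x
    rw [cinv, hF z (fun h => hx ((rho_mem z).2 h))]
  have hh := supp h H.h_supp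
  have hy := supp (y 1) (H.y_supp 1)
  have hyp : ∀ g : ℝ ≃o ℝ, (∀ x ∈ W, g x ∉ W) →
      Commute (g * (rho * y 1 * rho⁻¹) * g⁻¹) (rho * h * rho⁻¹) ∧
      Commute (g * (rho * y 1 * rho⁻¹) * g⁻¹) (rho * y 1 * rho⁻¹) := by
    intro g hg
    have hP : ∀ x ∈ W, (g * (rho * y 1 * rho⁻¹) * g⁻¹) x = x := by
      intro x hx
      have h1 : g⁻¹ x ∉ W := by
        intro h2
        have h3 := hg _ h2
        have h4 : g (g⁻¹ x) = x := g.apply_symm_apply x
        rw [h4] at h3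
        exact h3 hx
      rw [RelIso.mul_apply, RelIso.mul_apply, hy _ h1]
      exact g.apply_symm_apply x
    exact ⟨commute_of_disj W hP hh, commute_of_disj W hP hy⟩
  refine ⟨?_, ?_, ?_, ?_, ?_⟩
  · have := H.rel 1
    have h2 : y (2 * 1) = y 1 ^ 2 := by rw [y_pow H]; norm_num
    rw [h2] at this
    have e : rho * h * rho⁻¹ * (rho * y 1 * rho⁻¹) * (rho * h * rho⁻¹)⁻¹
      = rho * (h * y 1 * h⁻¹) * rho⁻¹ := by group
    rw [e, this, conj_pow]
  · refine RelIso.ext (fun x => ?_)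
    have h1 := hlf_pow_inv 1
    have h2 := hlf_pow 1
    simp only [pow_one] at h1 h2
    rw [RelIso.mul_apply, RelIso.mul_apply, h2, tr_apply, h1, tr_pow]
    push_cast; ring
  · intro j hj
    apply hyp
    rintro x ⟨h1, h2⟩ ⟨h3, h4⟩
    rw [tr_pow] at h3 h4
    have : (1:ℝ) ≤ j := by exact_mod_cast hj
    linarith
  · intro j hj
    apply hyp
    rintro x ⟨h1, h2⟩ ⟨h3, h4⟩
    rw [hlf_pow] at h3 h4
    have h5 : (2:ℝ) ≤ 2 ^ j := by
      calc (2:ℝ) = 2 ^ 1 := by norm_num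
        _ ≤ 2 ^ j := pow_le_pow_right₀ (by norm_num) hj
    rw [lt_div_iff₀ (by positivity)] at h3
    nlinarith
  · rintro i hi F rfl
    set F := (hlf ^ i)⁻¹ * f * hlf ^ i with hF
    have hFx : ∀ x ∈ Ioo (0:ℝ) 1, F (rho x) = rho (y (1 / 2 ^ (k * i)) x) := by
      intro x hx
      rw [hF, RelIso.mul_apply, RelIso.mul_apply, hlf_pow, hlf_pow_inv, rho_apply, hf1 i hi x hx,
        rho_apply]
      field_simp
    have hmem : ∀ s, ∀ x ∈ Ioo (0:ℝ) 1, y s x ∈ Ioo (0:ℝ) 1 := by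
      intro s x hx
      by_contra hn
      have h1 := H.y_supp s _ hn
      have h2 := (y s).injective h1
      rw [h2] at hn
      exact hn hx
    have hpow : ∀ n : ℕ, ∀ x ∈ Ioo (0:ℝ) 1, (F ^ n) (rho x) = rho ((y (1 / 2 ^ (k * i)) ^ n) x) := by
      intro n
      induction n with
      | zero => intro x _; simp
      | succ n ih =>
        intro x hx
        rw [pow_succ, RelIso.mul_apply, hFx x hx, ih _ (hmem _ x hx), pow_succ, RelIso.mul_apply]
    have hroot : y (1 / 2 ^ (k * i)) ^ (2 ^ (k * i)) = y 1 := by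
      rw [y_pow H]; congr 1; push_cast; field_simp
    have hP : ∀ x ∈ W, (F ^ (2 ^ (k * i)) * (rho * y 1 * rho⁻¹)⁻¹) x = x := by
      intro x hx
      obtain ⟨z, rfl⟩ := rho.surjective x
      have hz := (rho_mem z).1 hx
      obtain ⟨z', rfl⟩ := (y 1).surjective z
      have hz' : z' ∈ Ioo (0:ℝ) 1 := by
        by_contra hn
        have h1 := H.y_supp 1 _ hn
        rw [h1] at hz
        exact hn hz
      have h2 : (rho * y 1 * rho⁻¹)⁻¹ (rho (y 1 z')) = rho z' := by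
        rw [← cinv (y 1) z']
        exact (rho * y 1 * rho⁻¹).symm_apply_apply _
      rw [RelIso.mul_apply, h2, hpow _ _ hz', hroot]
    refine ⟨commute_of_disj W hP hh, commute_of_disj W hP hy, ?_⟩
    refine RelIso.ext (fun x => ?_)
    simp only [RelIso.mul_apply]
    by_cases hx : x ∈ W
    · obtain ⟨z, rfl⟩ := rho.surjective x
      have hz := (rho_mem z).1 hx
      have h3 : rho (y 1 (rho⁻¹ (rho z))) = rho (y 1 z) := by
        congr 2; exact rho.symm_apply_apply z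
      rw [h3, hFx z hz, hFx _ (hmem 1 z hz)]
      have h4 : rho⁻¹ (rho (y (1 / 2 ^ (k * i)) z)) = y (1 / 2 ^ (k * i)) z :=
        rho.symm_apply_apply _
      rw [h4]
      congr 1
      have := y_comm H (1 / 2 ^ (k * i)) 1
      have h5 := congrArg (fun g : ℝ ≃o ℝ => g z) this.eq
      simpa [RelIso.mul_apply] using h5
    · have hFW : F x ∉ W := by
        intro h5
        obtain ⟨z, hz⟩ := rho.surjective (F x)
        rw [← hz] at h5
        have hz1 := (rho_mem z).1 h5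
        obtain ⟨z', hz'⟩ := (y (1 / 2 ^ (k * i))).surjective z
        have hz2 : z' ∈ Ioo (0:ℝ) 1 := by
          by_contra hn
          have h1 := H.y_supp (1 / 2 ^ (k * i)) _ hn
          rw [h1] at hz'
          rw [hz'] at hn
          exact hn hz1
        have h6 := hFx z' hz2
        rw [hz', hz] at h6
        have h7 := F.injective h6
        rw [← h7] at hx
        exact hx ((rho_mem z').2 hz2)
      have h1 := hy x hx
      have h2 := hy _ hFW
      simp only [RelIso.mul_apply] at h1 h2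
      rw [h1, h2]

/-- smooth maps with compact support have Lipschitz derivatives -/
lemma smooth_lip {F : ℝ ≃o ℝ} (hF : ContDiff ℝ ∞ F) (hs : ∀ x, x ∉ Ioo (1/4 : ℝ) (3/4) → F x = x)
    (k : ℕ) (hk : 1 ≤ k) : ∃ K, LipschitzWith K (iteratedDeriv k (F : ℝ → ℝ)) := by
  have hd : Differentiable ℝ (iteratedDeriv k (F : ℝ → ℝ)) :=
    hF.differentiable_iteratedDeriv k (by exact_mod_cast WithTop.coe_lt_top _)
  have hz : ∀ x, x ∉ Icc (1/4 : ℝ) (3/4) → iteratedDeriv (k + 1) (F : ℝ → ℝ) x = 0 := by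
    intro x hx
    have h1 : (F : ℝ → ℝ) =ᶠ[𝓝 x] id := by
      filter_upwards [isClosed_Icc.isOpen_compl.mem_nhds hx] with t ht
      exact hs t (fun h => ht ⟨h.1.le, h.2.le⟩)
    rw [h1.iteratedDeriv_eq]
    have h2 : iteratedDeriv (k + 1) (id : ℝ → ℝ) = fun _ => 0 := by
      obtain ⟨m, rfl⟩ : ∃ m, k = m + 1 := ⟨k - 1, by omega⟩
      rw [iteratedDeriv_succ', iteratedDeriv_succ']
      have : deriv (id : ℝ → ℝ) = fun _ => (1:ℝ) := by funext t; simp
      rw [this]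
      have h3 : deriv (fun _ : ℝ => (1:ℝ)) = fun _ => 0 := by funext t; simp
      rw [h3]
      funext t
      simp
    rw [h2]
  have hc : Continuous (iteratedDeriv (k + 1) (F : ℝ → ℝ)) :=
    hF.continuous_iteratedDeriv (k + 1) (by exact_mod_cast le_top)
  obtain ⟨C, hC⟩ := isCompact_Icc.exists_bound_of_continuousOn (s := Icc (1/4 : ℝ) (3/4))
    hc.continuousOn
  refine ⟨Real.toNNReal C, ?_⟩
  apply lipschitzWith_of_nnnorm_deriv_le hd
  intro x
  rw [← iteratedDeriv_succ]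
  rw [← NNReal.coe_le_coe, coe_nnnorm, Real.coe_toNNReal']
  by_cases hx : x ∈ Icc (1/4 : ℝ) (3/4)
  · exact (hC x hx).trans (le_max_left _ _)
  · rw [hz x hx, norm_zero]; exact le_max_right _ _

/-- the coordinate composed with an affine map -/
lemma IsCoord.aff {κ : ℝ → ℝ} (hκ : IsCoord κ 0 1) :
    IsCoord (fun t => affE (3/8) (1/4) (by norm_num) (κ t)) (3/8) (5/8) where
  sm := by
    simp only [affE_apply]
    exact contDiff_const.add (hκ.sm.mul contDiff_const)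
  pos := fun t => by
    simp only [affE_apply]
    have hd : DifferentiableAt ℝ κ t := (hκ.sm.differentiable (by simp)) t
    have : HasDerivAt (fun t => 3 / 8 + κ t * (1 / 4)) (deriv κ t * (1 / 4)) t :=
      (hd.hasDerivAt.mul_const _).const_add _
    rw [this.deriv]
    exact mul_pos (hκ.pos t) (by norm_num)
  rng := by
    have h := hκ.rng
    ext x
    constructor
    · rintro ⟨t, rfl⟩
      have h1 : κ t ∈ Ioo (0:ℝ) 1 := h ▸ mem_range_self t
      simp only [affE_apply]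
      constructor <;> linarith [h1.1, h1.2]
    · rintro ⟨h1, h2⟩
      have : (x - 3/8) * 4 ∈ range κ := by rw [h]; constructor <;> linarith
      obtain ⟨t, ht⟩ := this
      exact ⟨t, by simp only [affE_apply, ht]; ring⟩

lemma flat_inv_sm {h : ℝ ≃o ℝ} {y : ℝ → (ℝ ≃o ℝ)} (H : FlatPair h y) (s : ℝ) :
    ContDiff ℝ ∞ (y s) ∧ (y s)⁻¹ = y (-s) := by
  refine ⟨H.y_sm.comp (contDiff_const.prodMk contDiff_id), ?_⟩
  rw [inv_eq_iff_mul_eq_one, ← H.y_add, add_neg_cancel, y_zero H]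

theorem s_exist02 (h1 : S_flataff) (h2 : S_conj) (h3 : S_conjlip) (h4 : S_f02) : S_exist02 := by
  intro k hk
  obtain ⟨κ, hκ, h0, y0, H, hh, hy⟩ := h1
  obtain ⟨f, hf1, hf2, hf3, hf4, hf5, hf6⟩ := h4 h0 y0 H k hk
  set A : ℝ ≃o ℝ := affE (3/8) (1/4) (by norm_num) with hA
  have hκ' : IsCoord (fun t => A (κ t)) (3/8) (5/8) := hκ.aff
  set C := conjHom h2 hκ' with hC
  have hCc := conjHom_isConj h2 hκ'
  have R := (rel02_line H k f hf1).map C
  -- all images are supported in (3/8,5/8)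
  have hsupp : ∀ F, ∀ x, x ∉ Ioo (1/4 : ℝ) (3/4) → C F x = x := by
    intro F x hx
    apply (hCc F).outside
    rw [hκ'.rng]
    intro h
    exact hx ⟨by linarith [h.1], by linarith [h.2]⟩
  -- smooth compactly supported maps
  have hcs : ∀ F : ℝ ≃o ℝ, ContDiff ℝ ∞ F → (∃ a b : ℝ, ∀ x, x ∉ Icc a b → F x = x) →
      ContDiff ℝ ∞ (C F) := fun F hF hc => conjHom_sm h2 hκ' F ∞ le_rfl hF hc
  have lip : ∀ F : ℝ ≃o ℝ, ContDiff ℝ ∞ (C F) → ContDiff ℝ ∞ ((C F)⁻¹ : ℝ ≃o ℝ) →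
      C F ∈ LipCS k ∧ (C F)⁻¹ ∈ LipCS k := by
    intro F hF hF'
    have hs' : ∀ x, x ∉ Ioo (1/4 : ℝ) (3/4) → (C F)⁻¹ x = x := by
      intro x hx
      rw [← map_inv]
      exact hsupp _ x hx
    have le : ((k : ℕ) : WithTop ℕ∞) ≤ ∞ := by exact_mod_cast le_top
    refine ⟨⟨⟨hsupp F, hF.of_le le, hF'.of_le le⟩, smooth_lip hF (hsupp F) k hk⟩,
      ⟨⟨hs', hF'.of_le le, by rw [inv_inv]; exact hF.of_le le⟩, smooth_lip hF' hs' k hk⟩⟩
  have hAsm : ContDiff ℝ ∞ A := by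
    have : (A : ℝ → ℝ) = fun x => 3 / 8 + x * (1 / 4) := rfl
    rw [this]; exact contDiff_const.add (contDiff_id.mul contDiff_const)
  have hAsm' : ContDiff ℝ ∞ (A⁻¹ : ℝ ≃o ℝ) := by
    have : ((A⁻¹ : ℝ ≃o ℝ) : ℝ → ℝ) = fun x => (x - 3 / 8) / (1 / 4) :=
      funext fun x => affE_symm _ _ _ x
    rw [this]; exact (contDiff_id.sub contDiff_const).div_const _
  have hAA : ∀ x, A⁻¹ (A x) = x := fun x => A.symm_apply_apply x
  -- t and v
  have ht : C tr = A * y0 1 * A⁻¹ := by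
    refine (hCc tr).unique ⟨fun t => ?_, fun x hx => ?_⟩
    · simp only [RelIso.mul_apply, hAA, hy, tr_apply]
    · obtain ⟨z, rfl⟩ := A.surjective x
      simp only [RelIso.mul_apply, hAA]
      rw [H.y_supp]
      intro hz
      rw [← hκ.rng] at hz
      obtain ⟨t, rfl⟩ := hz
      exact hx ⟨t, rfl⟩
  have hv : C hlf = A * h0⁻¹ * A⁻¹ := by
    refine (hCc hlf).unique ⟨fun t => ?_, fun x hx => ?_⟩
    · simp only [RelIso.mul_apply, hAA]
      congr 1
      apply h0.injective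
      have e1 : h0 (h0⁻¹ (κ t)) = κ t := h0.apply_symm_apply _
      rw [e1, hh]
      have := hlf_pow 1 t
      rw [pow_one] at this
      rw [this]; congr 1; ring
    · obtain ⟨z, rfl⟩ := A.surjective x
      simp only [RelIso.mul_apply, hAA]
      have hz : z ∉ Ioo (0:ℝ) 1 := by
        intro hz
        rw [← hκ.rng] at hz
        obtain ⟨t, rfl⟩ := hz
        exact hx ⟨t, rfl⟩
      congr 1
      apply h0.injective
      rw [H.h_supp z hz]
      exact h0.apply_symm_apply _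
  have hrsm : ContDiff ℝ ∞ rho := by
    have : (rho : ℝ → ℝ) = fun x => 5 / 8 + x / 4 := funext rho_apply
    rw [this]; exact contDiff_const.add (contDiff_id.div_const _)
  have hrsm' : ContDiff ℝ ∞ (rho⁻¹ : ℝ ≃o ℝ) := by
    have : ((rho⁻¹ : ℝ ≃o ℝ) : ℝ → ℝ) = fun x => (x - 5 / 8) / (1 / 4) :=
      funext fun x => affE_symm _ _ _ x
    rw [this]; exact (contDiff_id.sub contDiff_const).div_const _
  have rsup : ∀ F : ℝ ≃o ℝ, (∀ x, x ∉ Ioo (0:ℝ) 1 → F x = x) →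
      ∀ x, x ∉ Icc (5/8 : ℝ) (7/8) → (rho * F * rho⁻¹) x = x := by
    intro F hF x hx
    obtain ⟨z, rfl⟩ := rho.surjective x
    have e : (rho * F * rho⁻¹) (rho z) = rho (F z) := by
      simp only [RelIso.mul_apply]
      congr 2
      exact rho.symm_apply_apply z
    rw [e, hF z]
    intro h
    have := (rho_mem z).2 h
    exact hx ⟨this.1.le, this.2.le⟩
  have rsm : ∀ F : ℝ ≃o ℝ, ContDiff ℝ ∞ F → ContDiff ℝ ∞ (rho * F * rho⁻¹ : ℝ ≃o ℝ) :=
    fun F hF => hrsm.comp (hF.comp hrsm')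
  have h0s' : ∀ x, x ∉ Ioo (0:ℝ) 1 → h0⁻¹ x = x := by
    intro x hx
    apply h0.injective
    rw [H.h_supp x hx]
    exact h0.apply_symm_apply _
  have mh : C (rho * h0 * rho⁻¹) ∈ LipCS k ∧ (C (rho * h0 * rho⁻¹))⁻¹ ∈ LipCS k := by
    apply lip
    · exact hcs _ (rsm _ H.h_sm) ⟨_, _, rsup _ H.h_supp⟩
    · rw [← map_inv]
      have : (rho * h0 * rho⁻¹)⁻¹ = rho * h0⁻¹ * rho⁻¹ := by group
      rw [this]
      exact hcs _ (rsm _ H.h_sm') ⟨_, _, rsup _ h0s'⟩
  have my : C (rho * y0 1 * rho⁻¹) ∈ LipCS k ∧ (C (rho * y0 1 * rho⁻¹))⁻¹ ∈ LipCS k := by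
    apply lip
    · exact hcs _ (rsm _ (flat_inv_sm H 1).1) ⟨_, _, rsup _ (H.y_supp 1)⟩
    · rw [← map_inv]
      have : (rho * y0 1 * rho⁻¹)⁻¹ = rho * y0 (-1) * rho⁻¹ := by
        rw [← (flat_inv_sm H 1).2]; group
      rw [this]
      exact hcs _ (rsm _ (flat_inv_sm H (-1)).1) ⟨_, _, rsup _ (H.y_supp (-1))⟩
  have mt : C tr ∈ LipCS k ∧ (C tr)⁻¹ ∈ LipCS k := by
    apply lip
    · rw [ht]; exact hAsm.comp ((flat_inv_sm H 1).1.comp hAsm')
    · rw [ht]
      have : (A * y0 1 * A⁻¹)⁻¹ = A * y0 (-1) * A⁻¹ := by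
        rw [← (flat_inv_sm H 1).2]; group
      rw [this]; exact hAsm.comp ((flat_inv_sm H (-1)).1.comp hAsm')
  have mv : C hlf ∈ LipCS k ∧ (C hlf)⁻¹ ∈ LipCS k := by
    apply lip
    · rw [hv]; exact hAsm.comp (H.h_sm'.comp hAsm')
    · rw [hv]
      have : (A * h0⁻¹ * A⁻¹)⁻¹ = A * h0 * A⁻¹ := by group
      rw [this]; exact hAsm.comp (H.h_sm.comp hAsm')
  -- f
  have fsup : ∀ x, x ∉ Icc (0:ℝ) 1 → f x = x := by
    intro x hx
    apply hf2
    rintro i hi ⟨h5, h6⟩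
    have h7 : (1:ℝ) ≤ 2 ^ i := one_le_pow₀ (by norm_num)
    apply hx
    constructor
    · by_contra hn
      push Not at hn
      nlinarith
    · by_contra hn
      push Not at hn
      nlinarith
  have fsup' : ∀ x, x ∉ Icc (0:ℝ) 1 → f⁻¹ x = x := by
    intro x hx
    apply f.injective
    rw [fsup x hx]
    exact f.apply_symm_apply _
  have le : ((k : ℕ) : WithTop ℕ∞) ≤ ∞ := by exact_mod_cast le_top
  have mf : C f ∈ LipCS k ∧ (C f)⁻¹ ∈ LipCS k := by
    have s1 := conjHom_sm h2 hκ' f k le hf3 ⟨_, _, fsup⟩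
    have s2 := conjHom_sm h2 hκ' f⁻¹ k le hf4 ⟨_, _, fsup'⟩
    have l1 := h3 _ _ _ hκ' f _ (hCc f) ⟨_, _, fsup⟩ k hk hf3 hf5
    have l2 := h3 _ _ _ hκ' f⁻¹ _ (hCc f⁻¹) ⟨_, _, fsup'⟩ k hk hf4 hf6
    rw [← map_inv]
    refine ⟨⟨⟨hsupp f, s1, ?_⟩, l1⟩, ⟨⟨hsupp _, s2, ?_⟩, l2⟩⟩
    · rw [← map_inv]; exact s2
    · rw [← map_inv, inv_inv]; exact s1
  refine ⟨_, _, _, _, _, R, ?_, ?_⟩
  · -- y ≠ 1
    intro h
    have e1 := (hCc (rho * y0 1 * rho⁻¹)).inside (rho (1/2))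
    rw [h] at e1
    have hinj : Injective (fun t => A (κ t)) :=
      (strictMono_of_deriv_pos hκ'.pos).injective
    have e2 : rho (1/2) = (rho * y0 1 * rho⁻¹) (rho (1/2)) := hinj e1
    have e3 : (rho * y0 1 * rho⁻¹) (rho (1/2)) = rho (y0 1 (1/2)) := by
      simp only [RelIso.mul_apply]
      congr 2
      exact rho.symm_apply_apply _
    rw [e3] at e2
    exact H.y_ne 1 one_ne_zero (1/2) (by norm_num) (rho.injective e2).symm
  · intro F hF
    simp only [mem_insert_iff, mem_singleton_iff] at hF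
    rcases hF with rfl | rfl | rfl | rfl | rfl
    exacts [mt, mv, mh, my, mf]

end Pool.Agent.W331.CR
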