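import Pool.Agent.W331.CR.Nest

/-! The realisation of the gap points on the line. -/

set_option autoImplicit false

open Set Filter Topology Function
open scoped ContDiff

namespace Pool.Agent.W331.CR

namespace Iota

open Nest

variable {M : ℕ} {lam : ℝ} {a b : ℝ ≃o ℝ} {L R : ℝ} {κ : ℝ → ℝ}

lemma κ_mem (hκ : IsCoord κ (a L) (b 0)) (t : ℝ) : κ t ∈ Ioo (a L) (b 0) := by
  rw [← hκ.rng]
  exact ⟨t, rfl⟩

lemma κ_inj {α β : ℝ} (hκ : IsCoord κ α β) : Injective κ :=
  (strictMono_of_deriv_pos hκ.pos).injective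

lemma κ_memJ (h : Model M lam a b L R) (hκ : IsCoord κ (a L) (b 0)) (t : ℝ) :
    κ t ∈ Ioo 0 L :=
  ⟨(a_L_pos h).trans (κ_mem hκ t).1, (κ_mem hκ t).2.trans (b_zero_lt h)⟩

lemma a_memo (h : Model M lam a b L R) {x : ℝ} (hx : x ∈ Ioo 0 L) : a x ∈ Ioo 0 (a L) := by
  refine ⟨?_, a.strictMono hx.2⟩
  have := a.strictMono hx.1
  rwa [a_zero h] at this

lemma b_memo (h : Model M lam a b L R) {x : ℝ} (hx : x ∈ Ioo 0 L) : b x ∈ Ioo (b 0) L := by
  refine ⟨b.strictMono hx.1, ?_⟩
  have := b.strictMono hx.2
  rwa [b_L h] at this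

lemma kap_memo (h : Model M lam a b L R) (u : List Bool) {x : ℝ} (hx : x ∈ Ioo 0 L) :
    kap a b u x ∈ Ioo 0 L := by
  induction u with
  | nil => exact hx
  | cons c u ih =>
    cases c
    · have := a_memo h ih
      exact ⟨this.1, this.2.trans (a_L_lt h)⟩
    · have := b_memo h ih
      exact ⟨(b_zero_pos h).trans this.1, this.2⟩

lemma kap_false (u : List Bool) (x : ℝ) : kap a b (false :: u) x = a (kap a b u x) := rfl
lemma kap_true (u : List Bool) (x : ℝ) : kap a b (true :: u) x = b (kap a b u x) := rfl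

/-- injectivity in the middle part -/
lemma inj_mid (h : Model M lam a b L R) (hκ : IsCoord κ (a L) (b 0)) (u : List Bool) :
    ∀ (u' : List Bool) (t t' : ℝ), kap a b u (κ t) = kap a b u' (κ t') → u = u' ∧ t = t' := by
  have hf : ∀ (w : List Bool) (t : ℝ), kap a b (false :: w) (κ t) < a L := fun w t =>
    (a_memo h (kap_memo h w (κ_memJ h hκ t))).2
  have ht : ∀ (w : List Bool) (t : ℝ), b 0 < kap a b (true :: w) (κ t) := fun w t =>
    (b_memo h (kap_memo h w (κ_memJ h hκ t))).1
  have hg := h.gap
  induction u with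
  | nil =>
    intro u' t t' e
    have h1 := κ_mem hκ t
    cases u' with
    | nil => exact ⟨rfl, κ_inj hκ e⟩
    | cons c w =>
      exfalso
      change κ t = _ at e
      cases c
      · have := hf w t'
        rw [← e] at this
        exact lt_asymm this h1.1
      · have := ht w t'
        rw [← e] at this
        exact lt_asymm this h1.2
  | cons c u ih =>
    intro u' t t' e
    have h1 := κ_mem hκ t'
    cases u' with
    | nil =>
      exfalso
      change _ = κ t' at e
      cases c
      · have := hf u t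
        rw [e] at this
        exact lt_asymm this h1.1
      · have := ht u t
        rw [e] at this
        exact lt_asymm this h1.2
    | cons d w =>
      cases c <;> cases d
      · have := ih w t t' (a.injective e)
        exact ⟨by rw [this.1], this.2⟩
      · exfalso
        have h2 := hf u t
        have h3 := ht w t'
        rw [e] at h2
        linarith
      · exfalso
        have h2 := ht u t
        have h3 := hf w t'
        rw [e] at h2
        linarith
      · have := ih w t t' (b.injective e)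
        exact ⟨by rw [this.1], this.2⟩

lemma a_inv_apply (x : ℝ) : a ((a⁻¹ : ℝ ≃o ℝ) x) = x := a.apply_symm_apply x

lemma inv_apply_a (x : ℝ) : (a⁻¹ : ℝ ≃o ℝ) (a x) = x := a.symm_apply_apply x

lemma a_inv_pow (n : ℕ) (x : ℝ) : a ((a⁻¹ ^ (n + 1) : ℝ ≃o ℝ) x) = (a⁻¹ ^ n : ℝ ≃o ℝ) x := by
  rw [pow_succ', RelIso.mul_apply, a_inv_apply]

/-- the right part -/
lemma right_mem (h : Model M lam a b L R) {x : ℝ} (hx : x ∈ Ioo (a L) L) (n : ℕ) :
    (a⁻¹ ^ (n + 1) : ℝ ≃o ℝ) x ∈ Ioo L R := by
  have hR : (a⁻¹ : ℝ ≃o ℝ) R = R := by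
    apply a.injective
    rw [a_inv_apply, h.a_right R le_rfl]
  have hL0 := h.L_pos
  have hLR := h.L_lt
  induction n with
  | zero =>
    rw [zero_add, pow_one]
    constructor
    · have := (a⁻¹ : ℝ ≃o ℝ).strictMono hx.1
      rwa [inv_apply_a] at this
    · have := (a⁻¹ : ℝ ≃o ℝ).strictMono (hx.2.trans hLR)
      rwa [hR] at this
  | succ n ih =>
    rw [pow_succ', RelIso.mul_apply]
    set y := (a⁻¹ ^ (n + 1) : ℝ ≃o ℝ) x with hy
    have h2 := (a⁻¹ : ℝ ≃o ℝ).strictMono ih.2
    rw [hR] at h2
    refine ⟨?_, h2⟩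
    have h3 : a y < y := h.a_lt y ⟨hL0.trans ih.1, ih.2⟩
    have h4 := (a⁻¹ : ℝ ≃o ℝ).strictMono h3
    rw [inv_apply_a] at h4
    exact ih.1.trans h4

/-- the left part -/
lemma left_mem (h : Model M lam a b L R) {x : ℝ} (hx : x ∈ Ioo 0 (b 0)) (n : ℕ) :
    (b⁻¹ ^ (n + 1) : ℝ ≃o ℝ) x ∈ Ioo (-R) 0 := by
  have hR : (b⁻¹ : ℝ ≃o ℝ) (-R) = -R := by
    apply b.injective
    rw [a_inv_apply, h.b_left (-R) le_rfl]
  have hL0 := h.L_pos
  have hLR := h.L_lt
  induction n with
  | zero =>
    rw [zero_add, pow_one]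
    constructor
    · have := (b⁻¹ : ℝ ≃o ℝ).strictMono (show -R < x by linarith [hx.1])
      rwa [hR] at this
    · have := (b⁻¹ : ℝ ≃o ℝ).strictMono hx.2
      rwa [inv_apply_a] at this
  | succ n ih =>
    rw [pow_succ', RelIso.mul_apply]
    set y := (b⁻¹ ^ (n + 1) : ℝ ≃o ℝ) x with hy
    have h2 := (b⁻¹ : ℝ ≃o ℝ).strictMono ih.1
    rw [hR] at h2
    refine ⟨h2, ?_⟩
    have h3 : y < b y := h.b_gt y ⟨ih.1, ih.2.trans hL0⟩
    have h4 := (b⁻¹ : ℝ ≃o ℝ).strictMono h3
    rw [inv_apply_a] at h4
    exact h4.trans ih.2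

/-- the point of the fundamental domain of `a` -/
lemma baseR (h : Model M lam a b L R) (hκ : IsCoord κ (a L) (b 0)) (o : Option (List Bool))
    (t : ℝ) : (match o with
      | none => κ t
      | some w => kap a b (true :: w) (κ t)) ∈ Ioo (a L) L := by
  cases o with
  | none => exact ⟨(κ_mem hκ t).1, (κ_memJ h hκ t).2⟩
  | some w =>
    have := b_memo h (kap_memo h w (κ_memJ h hκ t))
    exact ⟨h.gap.trans this.1, this.2⟩

lemma baseL (h : Model M lam a b L R) (hκ : IsCoord κ (a L) (b 0)) (o : Option (List Bool))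
    (t : ℝ) : (match o with
      | none => κ t
      | some w => kap a b (false :: w) (κ t)) ∈ Ioo 0 (b 0) := by
  cases o with
  | none => exact ⟨(κ_memJ h hκ t).1, (κ_mem hκ t).2⟩
  | some w =>
    have := a_memo h (kap_memo h w (κ_memJ h hκ t))
    exact ⟨this.1, this.2.trans h.gap⟩

lemma iota_R (i : ℕ) (o : Option (List Bool)) (t : ℝ) :
    iota a b κ (Sum.inr (Sum.inl (i, o)), t) = (a⁻¹ ^ (i + 1) : ℝ ≃o ℝ) (match o with
      | none => κ t
      | some w => kap a b (true :: w) (κ t)) := by
  cases o <;> rfl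

lemma iota_L (i : ℕ) (o : Option (List Bool)) (t : ℝ) :
    iota a b κ (Sum.inr (Sum.inr (i, o)), t) = (b⁻¹ ^ (i + 1) : ℝ ≃o ℝ) (match o with
      | none => κ t
      | some w => kap a b (false :: w) (κ t)) := by
  cases o <;> rfl

lemma mem_mid (h : Model M lam a b L R) (hκ : IsCoord κ (a L) (b 0)) (u : List Bool) (t : ℝ) :
    iota a b κ (Sum.inl u, t) ∈ Ioo 0 L := kap_memo h u (κ_memJ h hκ t)

lemma mem_right (h : Model M lam a b L R) (hκ : IsCoord κ (a L) (b 0))
    (p : ℕ × Option (List Bool)) (t : ℝ) :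
    iota a b κ (Sum.inr (Sum.inl p), t) ∈ Ioo L R := by
  obtain ⟨i, o⟩ := p
  rw [iota_R]
  exact right_mem h (baseR h hκ o t) i

lemma mem_left (h : Model M lam a b L R) (hκ : IsCoord κ (a L) (b 0))
    (p : ℕ × Option (List Bool)) (t : ℝ) :
    iota a b κ (Sum.inr (Sum.inr p), t) ∈ Ioo (-R) 0 := by
  obtain ⟨i, o⟩ := p
  rw [iota_L]
  exact left_mem h (baseL h hκ o t) i

lemma mem_all (h : Model M lam a b L R) (hκ : IsCoord κ (a L) (b 0)) (x : Ix × ℝ) :
    iota a b κ x ∈ Ioo (-R) R := by
  have hL := h.L_pos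
  have hR := h.L_lt
  obtain ⟨u | p | p, t⟩ := x
  · have := mem_mid h hκ u t
    exact ⟨by linarith [this.1], this.2.trans hR⟩
  · have := mem_right h hκ p t
    exact ⟨by linarith [this.1], this.2⟩
  · have := mem_left h hκ p t
    exact ⟨this.1, by linarith [this.2]⟩

lemma equiv_a (h : Model M lam a b L R) (hκ : IsCoord κ (a L) (b 0)) (x : Ix × ℝ) :
    a (iota a b κ x) = iota a b κ (gA x) := by
  obtain ⟨u | ⟨i, o⟩ | p, t⟩ := x
  · rfl
  · rw [iota_R, a_inv_pow]
    cases i with
    | zero => cases o <;> rfl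
    | succ i => cases o <;> rfl
  · have := mem_left h hκ p t
    rw [h.a_left _ this.2.le]
    rfl

lemma equiv_b (h : Model M lam a b L R) (hκ : IsCoord κ (a L) (b 0)) (x : Ix × ℝ) :
    b (iota a b κ x) = iota a b κ (gB x) := by
  obtain ⟨u | p | ⟨i, o⟩, t⟩ := x
  · rfl
  · have := mem_right h hκ p t
    rw [h.b_right _ this.1.le]
    rfl
  · rw [iota_L, a_inv_pow]
    cases i with
    | zero => cases o <;> rfl
    | succ i => cases o <;> rfl

/-- injectivity in the right part -/
lemma inj_right (h : Model M lam a b L R) (hκ : IsCoord κ (a L) (b 0)) (i : ℕ) :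
    ∀ (o : Option (List Bool)) (i' : ℕ) (o' : Option (List Bool)) (t t' : ℝ),
      iota a b κ (Sum.inr (Sum.inl (i, o)), t) = iota a b κ (Sum.inr (Sum.inl (i', o')), t') →
      i = i' ∧ o = o' ∧ t = t' := by
  have hmid : ∀ x : Ix × ℝ, ∀ y : Ix × ℝ, iota a b κ x = iota a b κ y →
      iota a b κ (gA x) = iota a b κ (gA y) := by
    intro x y e
    rw [← equiv_a h hκ, ← equiv_a h hκ, e]
  have hmr : ∀ (u : List Bool) (t : ℝ) (p : ℕ × Option (List Bool)) (t' : ℝ),
      iota a b κ (Sum.inl u, t) = iota a b κ (Sum.inr (Sum.inl p), t') → False := by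
    intro u t p t' e
    have h1 := mem_mid h hκ u t
    have h2 := mem_right h hκ p t'
    rw [e] at h1
    exact lt_asymm h1.2 h2.1
  induction i with
  | zero =>
    intro o i' o' t t' e
    have e1 := hmid _ _ e
    cases i' with
    | zero =>
      have e2 : kap a b (match o with
          | none => []
          | some w => (true :: w)) (κ t) = kap a b (match o' with
          | none => []
          | some w => (true :: w)) (κ t') := by
        cases o <;> cases o' <;> exact e1
      have e3 := inj_mid h hκ _ _ _ _ e2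
      refine ⟨rfl, ?_, e3.2⟩
      have e4 := e3.1
      cases o with
      | none =>
        cases o' with
        | none => rfl
        | some w' => exact absurd e4.symm (List.cons_ne_nil _ _)
      | some w =>
        cases o' with
        | none => exact absurd e4 (List.cons_ne_nil _ _)
        | some w' => exact congrArg some (List.cons.inj e4).2
    | succ k =>
      exfalso
      cases o with
      | none => exact hmr [] t (k, o') t' e1
      | some w => exact hmr (true :: w) t (k, o') t' e1
  | succ k ih =>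
    intro o i' o' t t' e
    have e1 := hmid _ _ e
    cases i' with
    | zero =>
      exfalso
      cases o' with
      | none => exact hmr [] t' (k, o) t e1.symm
      | some w => exact hmr (true :: w) t' (k, o) t e1.symm
    | succ k' =>
      have := ih o k' o' t t' e1
      exact ⟨by rw [this.1], this.2⟩

/-- injectivity in the left part -/
lemma inj_left (h : Model M lam a b L R) (hκ : IsCoord κ (a L) (b 0)) (i : ℕ) :
    ∀ (o : Option (List Bool)) (i' : ℕ) (o' : Option (List Bool)) (t t' : ℝ),
      iota a b κ (Sum.inr (Sum.inr (i, o)), t) = iota a b κ (Sum.inr (Sum.inr (i', o')), t') →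
      i = i' ∧ o = o' ∧ t = t' := by
  have hmid : ∀ x : Ix × ℝ, ∀ y : Ix × ℝ, iota a b κ x = iota a b κ y →
      iota a b κ (gB x) = iota a b κ (gB y) := by
    intro x y e
    rw [← equiv_b h hκ, ← equiv_b h hκ, e]
  have hmr : ∀ (u : List Bool) (t : ℝ) (p : ℕ × Option (List Bool)) (t' : ℝ),
      iota a b κ (Sum.inl u, t) = iota a b κ (Sum.inr (Sum.inr p), t') → False := by
    intro u t p t' e
    have h1 := mem_mid h hκ u t
    have h2 := mem_left h hκ p t'
    rw [e] at h1
    exact lt_asymm h1.1 h2.2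
  induction i with
  | zero =>
    intro o i' o' t t' e
    have e1 := hmid _ _ e
    cases i' with
    | zero =>
      have e2 : kap a b (match o with
          | none => []
          | some w => (false :: w)) (κ t) = kap a b (match o' with
          | none => []
          | some w => (false :: w)) (κ t') := by
        cases o <;> cases o' <;> exact e1
      have e3 := inj_mid h hκ _ _ _ _ e2
      refine ⟨rfl, ?_, e3.2⟩
      have e4 := e3.1
      cases o with
      | none =>
        cases o' with
        | none => rfl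
        | some w' => exact absurd e4.symm (List.cons_ne_nil _ _)
      | some w =>
        cases o' with
        | none => exact absurd e4 (List.cons_ne_nil _ _)
        | some w' => exact congrArg some (List.cons.inj e4).2
    | succ k =>
      exfalso
      cases o with
      | none => exact hmr [] t (k, o') t' e1
      | some w => exact hmr (false :: w) t (k, o') t' e1
  | succ k ih =>
    intro o i' o' t t' e
    have e1 := hmid _ _ e
    cases i' with
    | zero =>
      exfalso
      cases o' with
      | none => exact hmr [] t' (k, o) t e1.symm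
      | some w => exact hmr (false :: w) t' (k, o) t e1.symm
    | succ k' =>
      have := ih o k' o' t t' e1
      exact ⟨by rw [this.1], this.2⟩

lemma inj_all (h : Model M lam a b L R) (hκ : IsCoord κ (a L) (b 0)) :
    Injective (iota a b κ) := by
  have hL := h.L_pos
  rintro ⟨u | ⟨i, o⟩ | ⟨i, o⟩, t⟩ ⟨u' | ⟨i', o'⟩ | ⟨i', o'⟩, t'⟩ e
  · obtain ⟨rfl, rfl⟩ := inj_mid h hκ _ _ _ _ e
    rfl
  · exfalso
    have h1 := mem_mid h hκ u t
    have h2 := mem_right h hκ (i', o') t'
    rw [e] at h1
    linarith [h1.2, h2.1]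
  · exfalso
    have h1 := mem_mid h hκ u t
    have h2 := mem_left h hκ (i', o') t'
    rw [e] at h1
    linarith [h1.1, h2.2]
  · exfalso
    have h1 := mem_mid h hκ u' t'
    have h2 := mem_right h hκ (i, o) t
    rw [← e] at h1
    linarith [h1.2, h2.1]
  · obtain ⟨rfl, rfl, rfl⟩ := inj_right h hκ _ _ _ _ _ _ e
    rfl
  · exfalso
    have h1 := mem_right h hκ (i, o) t
    have h2 := mem_left h hκ (i', o') t'
    rw [e] at h1
    linarith [h1.1, h2.2]
  · exfalso
    have h1 := mem_mid h hκ u' t'
    have h2 := mem_left h hκ (i, o) t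
    rw [← e] at h1
    linarith [h1.1, h2.2]
  · exfalso
    have h1 := mem_left h hκ (i, o) t
    have h2 := mem_right h hκ (i', o') t'
    rw [e] at h1
    linarith [h1.2, h2.1]
  · obtain ⟨rfl, rfl, rfl⟩ := inj_left h hκ _ _ _ _ _ _ e
    rfl

/-- the closure is invariant -/
lemma clos_inv {f : ℝ ≃o ℝ} {g : Equiv.Perm (Ix × ℝ)}
    (hf : ∀ x, f (iota a b κ x) = iota a b κ (g x)) {x : ℝ} :
    f x ∈ closure (range (iota a b κ)) ↔ x ∈ closure (range (iota a b κ)) := by
  have h1 : ∀ x ∈ closure (range (iota a b κ)), f x ∈ closure (range (iota a b κ)) := by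
    intro x hx
    refine map_mem_closure f.continuous hx ?_
    rintro _ ⟨z, rfl⟩
    exact ⟨g z, (hf z).symm⟩
  have h2 : ∀ x ∈ closure (range (iota a b κ)), f.symm x ∈ closure (range (iota a b κ)) := by
    intro x hx
    refine map_mem_closure f.symm.continuous hx ?_
    rintro _ ⟨z, rfl⟩
    refine ⟨g.symm z, ?_⟩
    apply f.injective
    rw [hf]
    simp
  refine ⟨fun hx => ?_, h1 x⟩
  have := h2 _ hx
  simpa using this

lemma clos_pow {f : ℝ ≃o ℝ} {g : Equiv.Perm (Ix × ℝ)}
    (hf : ∀ x, f (iota a b κ x) = iota a b κ (g x)) (n : ℕ) {x : ℝ} :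
    (f ^ n) x ∈ closure (range (iota a b κ)) ↔ x ∈ closure (range (iota a b κ)) := by
  induction n with
  | zero => rfl
  | succ n ih => rw [pow_succ', RelIso.mul_apply, clos_inv hf, ih]

/-- covering by the images of `J` -/
lemma cover (h : Model M lam a b L R) (hκ : IsCoord κ (a L) (b 0)) (n : ℕ) :
    ∀ x ∈ Icc 0 L, x ∈ closure (range (iota a b κ)) ∨
      ∃ u : List Bool, u.length = n ∧ x ∈ Icc (kap a b u 0) (kap a b u L) := by
  induction n with
  | zero =>
    intro x hx
    exact Or.inr ⟨[], rfl, hx⟩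
  | succ n ih =>
    intro x hx
    by_cases c1 : x ≤ a L
    · -- `x = a y`
      set y := a.symm x with hy
      have hay : a y = x := a.apply_symm_apply x
      have hyJ : y ∈ Icc 0 L := by
        constructor
        · have : a 0 ≤ a y := by rw [hay, a_zero h]; exact hx.1
          exact a.le_iff_le.1 this
        · have : a y ≤ a L := by rw [hay]; exact c1
          exact a.le_iff_le.1 this
      rcases ih y hyJ with hc | ⟨u, hu, hm⟩
      · left
        rw [← hay, clos_inv (equiv_a h hκ)]
        exact hc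
      · right
        refine ⟨false :: u, by simp [hu], ?_⟩
        rw [kap_false, kap_false, ← hay]
        exact ⟨a.monotone hm.1, a.monotone hm.2⟩
    · by_cases c2 : b 0 ≤ x
      · set y := b.symm x with hy
        have hay : b y = x := b.apply_symm_apply x
        have hyJ : y ∈ Icc 0 L := by
          constructor
          · have : b 0 ≤ b y := by rw [hay]; exact c2
            exact b.le_iff_le.1 this
          · have : b y ≤ b L := by rw [hay, b_L h]; exact hx.2
            exact b.le_iff_le.1 this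
        rcases ih y hyJ with hc | ⟨u, hu, hm⟩
        · left
          rw [← hay, clos_inv (equiv_b h hκ)]
          exact hc
        · right
          refine ⟨true :: u, by simp [hu], ?_⟩
          rw [kap_true, kap_true, ← hay]
          exact ⟨b.monotone hm.1, b.monotone hm.2⟩
      · left
        push Not at c1 c2
        have : x ∈ range κ := by rw [hκ.rng]; exact ⟨c1, c2⟩
        obtain ⟨t, rfl⟩ := this
        exact subset_closure ⟨(Sum.inl [], t), rfl⟩

lemma mid_dense (hnest : S_nest) (h : Model M lam a b L R) (hκ : IsCoord κ (a L) (b 0)) :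
    Icc 0 L ⊆ closure (range (iota a b κ)) := by
  intro x hx
  by_contra hcon
  apply hcon
  rw [Metric.mem_closure_iff]
  intro ε hε
  obtain ⟨n, hn⟩ := hnest M lam a b L R h (ε / 2) (by linarith)
  rcases cover h hκ n x hx with hc | ⟨u, hu, hm⟩
  · exact absurd hc hcon
  · refine ⟨iota a b κ (Sum.inl u, 0), ⟨_, rfl⟩, ?_⟩
    change dist x (kap a b u (κ 0)) < ε
    have h1 := κ_memJ h hκ 0
    have h2 : kap a b u 0 ≤ kap a b u (κ 0) := (kap a b u).monotone h1.1.le
    have h3 : kap a b u (κ 0) ≤ kap a b u L := (kap a b u).monotone h1.2.le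
    have h4 := hn u hu.ge
    rw [Real.dist_eq, abs_lt]
    constructor <;> linarith [hm.1, hm.2]

end Iota

open Iota Nest

theorem s_iota : S_iota := by
  intro M lam a b L R h κ hκ
  exact ⟨inj_all h hκ, mem_all h hκ, equiv_a h hκ, equiv_b h hκ⟩

theorem s_dense : S_nest → S_dense := by
  intro hnest M lam a b L R h κ hκ
  have hmid := mid_dense hnest h hκ
  have hL := h.L_pos
  have hR := h.L_lt
  -- right part
  have hright : Ioo L R ⊆ closure (range (iota a b κ)) := by
    intro x hx
    obtain ⟨n, hn⟩ := pow_le_eps (f := a) (p := 0) (q := x) (hL.trans hx.1) (a_zero h)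
      (fun z hz => h.a_lt z ⟨hz.1, lt_of_le_of_lt hz.2 hx.2⟩) hL
    rw [zero_add] at hn
    rw [← clos_pow (equiv_a h hκ) n]
    refine hmid ⟨?_, hn⟩
    have h0 : (a ^ n) 0 = 0 := by
      induction n with
      | zero => rfl
      | succ n ih =>
        rw [pow_succ', RelIso.mul_apply]
        have hcl : (a ^ n) 0 = 0 := by
          clear ih hn
          induction n with
          | zero => rfl
          | succ n ih => rw [pow_succ', RelIso.mul_apply, ih, a_zero h]
        rw [hcl, a_zero h]
    have := (a ^ n).monotone (hL.trans hx.1).le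
    rwa [h0] at this
  have hleft : Ioo (-R) 0 ⊆ closure (range (iota a b κ)) := by
    intro x hx
    obtain ⟨n, hn⟩ := pow_ge_eps (f := b) (p := x) (q := L) (hx.2.trans hL) (b_L h)
      (fun z hz => h.b_gt z ⟨lt_of_lt_of_le hx.1 hz.1, hz.2⟩) hL
    rw [sub_self] at hn
    rw [← clos_pow (equiv_b h hκ) n]
    refine hmid ⟨hn, ?_⟩
    have h0 : ∀ n : ℕ, (b ^ n) L = L := by
      intro n
      induction n with
      | zero => rfl
      | succ n ih => rw [pow_succ', RelIso.mul_apply, ih, b_L h]
    have := (b ^ n).monotone (hx.2.trans hL).le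
    rwa [h0] at this
  have hC : IsClosed (closure (range (iota a b κ))) := isClosed_closure
  have hright' : Icc L R ⊆ closure (range (iota a b κ)) := by
    rw [← closure_Ioo hR.ne]
    exact closure_minimal hright hC
  have hleft' : Icc (-R) 0 ⊆ closure (range (iota a b κ)) := by
    rw [← closure_Ioo (by linarith : -R ≠ 0)]
    exact closure_minimal hleft hC
  intro x hx
  by_cases c1 : x ≤ 0
  · exact hleft' ⟨hx.1, c1⟩
  · by_cases c2 : x ≤ L
    · exact hmid ⟨by linarith, c2⟩
    · exact hright' ⟨by linarith, hx.2⟩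

end Pool.Agent.W331.CR
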