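import Pool.Agent.W331.CR.Ex02

/-! Final assembly for MP_02cf79_al from the parts. -/

set_option autoImplicit false

open Set Filter Topology Function
open scoped ContDiff

namespace Pool.Agent.W331.CR

/-- the statement handed in for MP_02cf79_al -/
def Final02 : Prop := ∀ k : ℕ, 1 ≤ k →
  (∃ G : Subgroup (Icc (0:ℝ) 1 ≃o Icc (0:ℝ) 1), G.FG ∧ (G : Set _) ⊆ LipI k ∧
    ¬ ∃ φ : G →* DiffI (k + 1 : ℕ), Injective φ) ∧
  (∃ G : Subgroup (Equiv.Perm (AddCircle (1:ℝ))), G.FG ∧ (G : Set _) ⊆ LipS k ∧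
    ¬ ∃ φ : G →* DiffS (k + 1 : ℕ), Injective φ)

lemma Rel02.of_map {G G' : Type*} [Group G] [Group G'] (φ : G →* G') (hφ : Injective φ) {k : ℕ}
    {t v h y f : G} (r : Rel02 k (φ t) (φ v) (φ h) (φ y) (φ f)) : Rel02 k t v h y f where
  r0 := hφ (by simpa using r.r0)
  r1 := hφ (by simpa using r.r1)
  wt := fun j hj => by
    have := r.wt j hj
    constructor
    · apply hφ; simpa using this.1.eq
    · apply hφ; simpa using this.2.eq
  wv := fun j hj => by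
    have := r.wv j hj
    constructor
    · apply hφ; simpa using this.1.eq
    · apply hφ; simpa using this.2.eq
  rf := by
    rintro i hi F rfl
    have := r.rf i hi _ rfl
    refine ⟨?_, ?_, ?_⟩
    · apply hφ; simpa using this.1.eq
    · apply hφ; simpa using this.2.1.eq
    · apply hφ; simpa using this.2.2.eq

theorem lipcs_closure (hm : S_lipmul) (k : ℕ) (hk : 1 ≤ k) (S : Set (ℝ ≃o ℝ))
    (hS : ∀ F ∈ S, F ∈ LipCS k ∧ F⁻¹ ∈ LipCS k) :
    ∀ F ∈ Subgroup.closure S, F ∈ LipCS k ∧ F⁻¹ ∈ LipCS k := by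
  intro F hF
  induction hF using Subgroup.closure_induction with
  | mem x hx => exact hS x hx
  | one =>
    have h1 : (1 : ℝ ≃o ℝ) ∈ LipCS k := by
      refine ⟨(CS k).one_mem, ?_⟩
      exact smooth_lip contDiff_id (fun _ _ => rfl) k hk
    exact ⟨h1, by rw [inv_one]; exact h1⟩
  | mul x y _ _ hx hy =>
    exact ⟨hm k hk _ _ hx.1 hy.1, by rw [mul_inv_rev]; exact hm k hk _ _ hy.2 hx.2⟩
  | inv x _ hx => exact ⟨hx.2, by rw [inv_inv]; exact hx.1⟩

/-- images of finitely generated groups -/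
lemma fg_map_closure {G G' : Type*} [Group G] [Group G'] (φ : G →* G') (S : Set G) (hS : S.Finite) :
    ((Subgroup.closure S).map φ).FG := by
  rw [Subgroup.fg_iff]
  exact ⟨φ '' S, (MonoidHom.map_closure φ S).symm, hS.image _⟩

/-- common part: a homomorphism from `Sup` and the image group -/
lemma rel02_image {P : Type*} [Group P] (φ : Sup →* P) (hφ : Injective φ) {k : ℕ}
    {T V Hh Y Ff : Sup} (R : Rel02 k (T : ℝ ≃o ℝ) V Hh Y Ff) (hY : (Y : ℝ ≃o ℝ) ≠ 1) :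
    ∃ t v h y f : ((Subgroup.closure ({T, V, Hh, Y, Ff} : Set Sup)).map φ),
      Rel02 k t v h y f ∧ y ≠ 1 := by
  set N := Subgroup.closure ({T, V, Hh, Y, Ff} : Set Sup) with hN
  have R1 : Rel02 k T V Hh Y Ff := Rel02.of_map (Sup.subtype) Subtype.coe_injective R
  have R2 := R1.map φ
  have mem : ∀ F ∈ ({T, V, Hh, Y, Ff} : Set Sup), φ F ∈ N.map φ := fun F hF =>
    Subgroup.mem_map_of_mem φ (Subgroup.subset_closure hF)
  refine ⟨⟨φ T, mem _ (by simp)⟩, ⟨φ V, mem _ (by simp)⟩, ⟨φ Hh, mem _ (by simp)⟩,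
    ⟨φ Y, mem _ (by simp)⟩, ⟨φ Ff, mem _ (by simp)⟩, ?_, ?_⟩
  · exact Rel02.of_map (N.map φ).subtype Subtype.coe_injective R2
  · intro h
    have h1 : φ Y = 1 := congrArg Subtype.val h
    have h2 : Y = 1 := hφ (by rw [h1, map_one])
    apply hY
    rw [h2]; rfl

theorem final02 (h1 : S_exist02) (hm : S_lipmul) (h2 : S_no02S) (h3 : S_no02I) (h4 : S_toI)
    (h5 : S_toS) : Final02 := by
  intro k hk
  obtain ⟨t, v, h, y, f, R, hy1, hS⟩ := h1 k hk
  set S : Set (ℝ ≃o ℝ) := {t, v, h, y, f} with hSdef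
  have hcl := lipcs_closure hm k hk S hS
  have hsub : ∀ F ∈ S, F ∈ Sup := fun F hF => (hS F hF).1.1.1
  set T : Sup := ⟨t, hsub t (by simp [hSdef])⟩
  set V : Sup := ⟨v, hsub v (by simp [hSdef])⟩
  set Hh : Sup := ⟨h, hsub h (by simp [hSdef])⟩
  set Y : Sup := ⟨y, hsub y (by simp [hSdef])⟩
  set Ff : Sup := ⟨f, hsub f (by simp [hSdef])⟩
  set N := Subgroup.closure ({T, V, Hh, Y, Ff} : Set Sup) with hN
  have hNS : ∀ F ∈ N, (F : ℝ ≃o ℝ) ∈ LipCS k ∧ ((F : ℝ ≃o ℝ)⁻¹ : ℝ ≃o ℝ) ∈ LipCS k := by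
    intro F hF
    apply hcl
    have h6 : Sup.subtype F ∈ N.map Sup.subtype := Subgroup.mem_map_of_mem _ hF
    rw [hN, MonoidHom.map_closure] at h6
    refine Subgroup.closure_mono ?_ h6
    rintro _ ⟨Z, hZ, rfl⟩
    simp only [mem_insert_iff, mem_singleton_iff] at hZ
    rcases hZ with rfl | rfl | rfl | rfl | rfl <;> simp [hSdef, T, V, Hh, Y, Ff]
  have hfin : ({T, V, Hh, Y, Ff} : Set Sup).Finite := by
    simp
  constructor
  · obtain ⟨φ, hφ, hφ2⟩ := h4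
    refine ⟨N.map φ, fg_map_closure φ _ hfin, ?_, ?_⟩
    · rintro _ ⟨F, hF, rfl⟩
      have hext : ∀ (F : Sup), ∀ x ∈ Icc (0:ℝ) 1, ext01 (φ F) x = (F : ℝ ≃o ℝ) x := by
        intro F x hx
        rw [← hφ2 F ⟨x, hx⟩]
        exact ext01_coe (φ F) ⟨x, hx⟩
      obtain ⟨⟨⟨g1, g2, g3⟩, K, hK⟩, -⟩ := hNS F hF
      refine ⟨⟨?_, ?_⟩, K, ?_⟩
      · exact g2.contDiffOn.congr (hext F)
      · rw [← map_inv]
        exact ContDiffOn.congr (f := ((F : ℝ ≃o ℝ)⁻¹ : ℝ ≃o ℝ)) g3.contDiffOn (hext F⁻¹)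
      · have e : EqOn (iteratedDerivWithin k (ext01 (φ F)) (Icc 0 1))
            (iteratedDeriv k (F : ℝ ≃o ℝ)) (Icc 0 1) := by
          intro x hx
          rw [iteratedDerivWithin_congr (hext F) hx]
          exact iteratedDerivWithin_eq_iteratedDeriv (uniqueDiffOn_Icc zero_lt_one)
            g2.contDiffAt hx
        intro a ha b hb
        rw [e ha, e hb]
        exact hK a b
    · obtain ⟨t', v', h', y', f', R', hy'⟩ := rel02_image φ hφ (T := T) (V := V) (Hh := Hh)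
        (Y := Y) (Ff := Ff) R hy1
      exact h3 k hk _ t' v' h' y' f' R' hy'
  · obtain ⟨φ, hφ, hφ2⟩ := h5
    refine ⟨N.map φ, fg_map_closure φ _ hfin, ?_, ?_⟩
    · rintro _ ⟨F, hF, rfl⟩
      obtain ⟨P, p1, p2, p3, p4, p5⟩ := hφ2 F
      obtain ⟨⟨⟨g1, g2, g3⟩, hK⟩, -⟩ := hNS F hF
      exact ⟨P, ⟨p1, p3 _ g2, p4 _ g3⟩, p5 k g2 hK, p2⟩
    · obtain ⟨t', v', h', y', f', R', hy'⟩ := rel02_image φ hφ (T := T) (V := V) (Hh := Hh)
        (Y := Y) (Ff := Ff) R hy1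
      exact h2 k hk _ t' v' h' y' f' R' hy'

end Pool.Agent.W331.CR
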