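import Pool.Agent.W331.CR.Emb84

/-! Final assembly for MP_84d7a8_al and MP_4516ee_al from the parts. -/

set_option autoImplicit false

open Set Filter Topology Function
open scoped ContDiff

namespace Pool.Agent.W331.CR

/-- the statement handed in for MP_84d7a8_al -/
def Final84 : Prop := ∃ (G : Type) (_ : Group G), Group.FG G ∧
  (∀ k : ℕ, (∃ φ : G →* DiffI k, Injective φ) ∧ (∃ φ : G →* DiffS k, Injective φ)) ∧
  (¬ ∃ φ : G →* DiffI ∞, Injective φ) ∧ (¬ ∃ φ : G →* DiffS ∞, Injective φ)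

lemma cs_le_sup (r : WithTop ℕ∞) : CS r ≤ Sup := fun _ hF => hF.1

lemma csI (h : S_toI) (r : WithTop ℕ∞) : ∃ φ : CS r →* DiffI r, Injective φ := by
  obtain ⟨φ, hφ, hφ2⟩ := h
  have hext : ∀ (F : Sup), ∀ x ∈ Icc (0:ℝ) 1, ext01 (φ F) x = (F : ℝ ≃o ℝ) x := by
    intro F x hx
    rw [← hφ2 F ⟨x, hx⟩]
    exact ext01_coe (φ F) ⟨x, hx⟩
  have hmem : ∀ F : CS r, φ (Subgroup.inclusion (cs_le_sup r) F) ∈ DiffI r := by
    intro F
    obtain ⟨g1, g2, g3⟩ := F.2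
    refine ⟨?_, ?_⟩
    · exact g2.contDiffOn.congr (hext _)
    · rw [← map_inv, ← map_inv]
      exact ContDiffOn.congr (f := ((F : ℝ ≃o ℝ)⁻¹ : ℝ ≃o ℝ)) g3.contDiffOn (hext _)
  refine ⟨(φ.comp (Subgroup.inclusion (cs_le_sup r))).codRestrict _ hmem, ?_⟩
  intro F F' h
  have h1 : φ (Subgroup.inclusion (cs_le_sup r) F) = φ (Subgroup.inclusion (cs_le_sup r) F') :=
    congrArg Subtype.val h
  exact Subgroup.inclusion_injective (cs_le_sup r) (hφ h1)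

lemma csS (h : S_toS) (r : WithTop ℕ∞) : ∃ φ : CS r →* DiffS r, Injective φ := by
  obtain ⟨φ, hφ, hφ2⟩ := h
  have hmem : ∀ F : CS r, φ (Subgroup.inclusion (cs_le_sup r) F) ∈ DiffS r := by
    intro F
    obtain ⟨g1, g2, g3⟩ := F.2
    obtain ⟨P, p1, p2, p3, p4, -⟩ := hφ2 (Subgroup.inclusion (cs_le_sup r) F)
    exact ⟨P, ⟨p1, p3 r g2, p4 r g3⟩, p2⟩
  refine ⟨(φ.comp (Subgroup.inclusion (cs_le_sup r))).codRestrict _ hmem, ?_⟩
  intro F F' h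
  have h1 : φ (Subgroup.inclusion (cs_le_sup r) F) = φ (Subgroup.inclusion (cs_le_sup r) F') :=
    congrArg Subtype.val h
  exact Subgroup.inclusion_injective (cs_le_sup r) (hφ h1)

theorem final84 (hflat : S_flataff) (hrel : S_rel84) (hemb : S_emb) (h2 : S_no84S) (h3 : S_no84I)
    (h4 : S_toI) (h5 : S_toS) : Final84 := by
  obtain ⟨e, G, hG, a, b, h, y, f, R, hy, hfg, hk⟩ := exist84 hflat hrel hemb
  refine ⟨G, hG, hfg, fun k => ?_, h3 e G a b h y f R hy, h2 e G a b h y f R hy⟩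
  obtain ⟨φ, hφ⟩ := hk k
  obtain ⟨ψ, hψ⟩ := csI h4 k
  obtain ⟨χ, hχ⟩ := csS h5 k
  exact ⟨⟨ψ.comp φ, hψ.comp hφ⟩, ⟨χ.comp φ, hχ.comp hφ⟩⟩

end Pool.Agent.W331.CR
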