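import Pool.Agent.W331.CR.Stm2

set_option autoImplicit false

open Set Filter Topology Function
open scoped ContDiff

namespace Pool.Agent.W331.CR

namespace SetS

theorem apply_inv (F : ℝ ≃o ℝ) (z : ℝ) : F ((F⁻¹ : ℝ ≃o ℝ) z) = z := F.apply_symm_apply z

theorem inv_apply (F : ℝ ≃o ℝ) (z : ℝ) : (F⁻¹ : ℝ ≃o ℝ) (F z) = z := F.symm_apply_apply z

theorem deriv_pos {F : ℝ ≃o ℝ} (h1 : Differentiable ℝ F) (h2 : Differentiable ℝ (F⁻¹ : ℝ ≃o ℝ))
    (x : ℝ) : 0 < deriv F x := by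
  have h3 : 0 ≤ deriv F x := F.monotone.deriv_nonneg
  refine lt_of_le_of_ne h3 fun h4 => ?_
  have h5 : HasDerivAt (fun z => (F⁻¹ : ℝ ≃o ℝ) (F z))
      (deriv (F⁻¹ : ℝ ≃o ℝ) (F x) * deriv F x) x :=
    (h2 (F x)).hasDerivAt.comp x (h1 x).hasDerivAt
  have h6 : (fun z => (F⁻¹ : ℝ ≃o ℝ) (F z)) = fun z => z := funext (inv_apply F)
  rw [h6] at h5
  have h7 := h5.unique (hasDerivAt_id' x)
  rw [← h4, mul_zero] at h7
  exact zero_ne_one h7

theorem tr_lift (r : WithTop ℕ∞) : IsLift r tr := by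
  refine ⟨fun x => rfl, ?_, ?_⟩
  · exact contDiff_id.add contDiff_const
  · have h : ((tr⁻¹ : ℝ ≃o ℝ) : ℝ → ℝ) = fun x => x - 1 := by
      funext x
      apply tr.injective
      rw [apply_inv, tr_apply]
      ring
    rw [h]
    exact contDiff_id.sub contDiff_const

theorem bounded_of_periodic {g : ℝ → ℝ} (hc : Continuous g) (hp : ∀ x, g (x + 1) = g x) :
    ∃ V, 0 ≤ V ∧ ∀ x, |g x| ≤ V := by
  obtain ⟨V, hV⟩ := (isCompact_Icc (a := (0:ℝ)) (b := 1)).exists_bound_of_continuousOn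
    hc.continuousOn
  have hp' : Function.Periodic g 1 := hp
  have h1 : ∀ x, |g x| ≤ V := by
    intro x
    obtain ⟨y, hy, hxy⟩ := hp'.exists_mem_Ico₀ zero_lt_one x
    rw [hxy]
    exact hV y ⟨hy.1, hy.2.le⟩
  exact ⟨V, (abs_nonneg _).trans (h1 0), h1⟩

theorem nice {r : WithTop ℕ∞} (hr : 2 ≤ r) {F : ℝ ≃o ℝ} (hF : IsLift r F) : Nice univ F := by
  have h2 : ContDiff ℝ 2 F := hF.sm.of_le hr
  have h2' : ContDiff ℝ 2 (F⁻¹ : ℝ ≃o ℝ) := hF.sm'.of_le hr
  have hd : Differentiable ℝ F := h2.differentiable (by norm_num)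
  have hd' : Differentiable ℝ (F⁻¹ : ℝ ≃o ℝ) := h2'.differentiable (by norm_num)
  have hpos := deriv_pos hd hd'
  refine ⟨hF.per, fun x => by simp, fun _ x hx => absurd (mem_univ x) hx, fun x _ => hd x,
    fun x _ => hpos x, ?_⟩
  have h1 : ContDiff ℝ 1 (deriv F) := by
    have h3 : ContDiff ℝ (1 + 1) F := by
      have : (1 + 1 : WithTop ℕ∞) = 2 := by norm_num
      rw [this]; exact h2
    exact ((contDiff_succ_iff_deriv (n := 1)).mp h3).2.2
  have hg : ContDiff ℝ 1 (fun x => Real.log (deriv F x)) :=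
    h1.log fun x => (hpos x).ne'
  have hper : ∀ x, deriv F (x + 1) = deriv F x := by
    intro x
    have h3 : (fun z => F (z + 1)) = fun z => F z + 1 := funext hF.per
    have h4 : deriv (fun z => F (z + 1)) x = deriv F (x + 1) := deriv_comp_add_const ..
    rw [← h4, h3, deriv_add_const]
  have hgper : ∀ x, deriv (fun x => Real.log (deriv F x)) (x + 1) =
      deriv (fun x => Real.log (deriv F x)) x := by
    intro x
    have h4 := deriv_comp_add_const (fun x => Real.log (deriv F x)) 1 x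
    rw [← h4]
    congr 1
    funext z
    simp only [hper]
  obtain ⟨V, hV0, hV⟩ := bounded_of_periodic (hg.continuous_deriv le_rfl) hgper
  refine ⟨V, hV0, fun x y hxy _ => ?_⟩
  have h5 := convex_univ.norm_image_sub_le_of_norm_deriv_le (𝕜 := ℝ)
    (f := fun x => Real.log (deriv F x)) (C := V) (x := y) (y := x)
    (fun z _ => (hg.differentiable (by norm_num)) z) (fun z _ => hV z) (mem_univ _) (mem_univ _)
  simp only [Real.norm_eq_abs] at h5
  rwa [abs_sub_comm x y, abs_of_nonneg (sub_nonneg.mpr hxy)] at h5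

end SetS

theorem s_setupS : S_setupS := by
  intro r hr
  exact ⟨isOpen_univ, fun F hF => SetS.nice hr hF, SetS.tr_lift r⟩

end Pool.Agent.W331.CR
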