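import Pool.Agent.W331.CR.Defs

/-! Statements of the parts of the rigidity theorems (proof plans are in the subtask specs). -/

set_option autoImplicit false

open Set Filter Topology Asymptotics
open scoped ContDiff

namespace Pool.Agent.W331.CR

/-- every moved point of a periodic homeomorphism with a fixed point lies in a component -/
def S_comp : Prop := ∀ (F : ℝ ≃o ℝ), (∀ x, F (x + 1) = F x + 1) → (∃ x, F x = x) →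
  ∀ x, F x ≠ x → ∃ p q, IsComp F p q ∧ x ∈ Ioo p q

/-- intervals which are pairwise disjoint modulo one have total length at most two -/
def S_len : Prop := ∀ (c d : ℕ → ℝ), (∀ n, c n ≤ d n) → (∀ n, d n ≤ c n + 1) →
  (∀ n m, n ≠ m → ∀ l : ℤ, Disjoint (Ioo (c n) (d n)) (Ioo (c m + l) (d m + l))) →
  ∀ N : ℕ, ∑ n ∈ Finset.range N, (d n - c n) ≤ 2

/-- the core of Kopell's lemma -/
def S_kopell : Prop := ∀ (U : Set ℝ) (H : Subgroup (ℝ ≃o ℝ)), Setup U H →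
  ∀ z y : ℝ ≃o ℝ, z ∈ H → y ∈ H → Commute z y → ∀ p q, IsComp y p q →
  ∀ Λ : ℝ, (∀ N : ℕ, ∑ n ∈ Finset.range N, ((z ^ n) q - (z ^ n) p) ≤ Λ) → False

/-- components of the support are periodic modulo one under commuting elements -/
def S_kprime : Prop := ∀ (U : Set ℝ) (H : Subgroup (ℝ ≃o ℝ)), Setup U H →
  ∀ z y : ℝ ≃o ℝ, z ∈ H → y ∈ H → Commute z y → ∀ p q, IsComp y p q →
  ∃ n : ℕ, 1 ≤ n ∧ ∃ m : ℤ, (z ^ n) p = p + m ∧ (z ^ n) q = q + m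

/-- in the relation `h y h⁻¹ = y ^ N` on an interval on which `y` is free, `h` has a fixed point -/
def S_bsfix : Prop := ∀ (h y : ℝ ≃o ℝ) (N : ℕ), 2 ≤ N → h * y * h⁻¹ = y ^ N → ∀ p q,
  IsComp y p q → h p = p → h q = q → ∃ x ∈ Ioo p q, h x = x

/-- elements commuting with the Baumslag-Solitar pair `h, y` are of finite order modulo one
on the components of the support of `y` -/
def S_dp : Prop := ∀ (U : Set ℝ) (H : Subgroup (ℝ ≃o ℝ)), Setup U H →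
  ∀ h y z : ℝ ≃o ℝ, h ∈ H → y ∈ H → z ∈ H → h * y * h⁻¹ = y ^ 2 → Commute z h → Commute z y →
  ∀ p q, IsComp y p q → ∃ n : ℕ, 1 ≤ n ∧ ∃ m : ℤ, ∀ x ∈ Icc p q, (z ^ n) x = x + m

/-- translation number of `y` vanishes when `h y h⁻¹ = y ^ 2` -/
def S_fix : Prop := ∀ h y : ℝ ≃o ℝ, (∀ x, h (x + 1) = h x + 1) → (∀ x, y (x + 1) = y x + 1) →
  h * y * h⁻¹ = y ^ 2 → ∃ x, y x = x

/-- lifts of commuting homeomorphisms of the circle commute -/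
def S_liftcomm : Prop := ∀ F G : ℝ ≃o ℝ, (∀ x, F (x + 1) = F x + 1) → (∀ x, G (x + 1) = G x + 1) →
  (∀ x, ∃ n : ℤ, F (G x) = G (F x) + n) → Commute F G

/-- the relation `h y h⁻¹ = y ^ 2` on the circle lifts -/
def S_liftbs : Prop := ∀ h y : ℝ ≃o ℝ, (∀ x, h (x + 1) = h x + 1) → (∀ x, y (x + 1) = y x + 1) →
  (∀ x, ∃ n : ℤ, h (y x) = y (y (h x)) + n) →
  ∃ m : ℤ, h * (tr ^ m * y) * h⁻¹ = (tr ^ m * y) ^ 2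

/-- powers of a nice homeomorphism contract compact subsets of a component of its support -/
def S_contr : Prop := ∀ (U : Set ℝ) (H : Subgroup (ℝ ≃o ℝ)), Setup U H → ∀ z : ℝ ≃o ℝ, z ∈ H →
  ∀ p q, IsComp z p q → ∀ c d, p < c → c ≤ d → d < q → ∀ ε : ℝ, 0 < ε →
  ∃ N : ℕ, ∀ n : ℕ, N ≤ n → ∀ x ∈ Icc c d, deriv (z ^ n : ℝ ≃o ℝ) x ≤ ε

/-- powers of a homeomorphism push points of a component of its support to the ends -/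
def S_push : Prop := ∀ (z : ℝ ≃o ℝ) (p q : ℝ), IsComp z p q → ∀ x ∈ Ioo p q,
  ((x < z x → ∀ c < q, ∃ N : ℕ, ∀ n : ℕ, N ≤ n → c < (z ^ n) x) ∧
   (z x < x → ∀ c > p, ∃ N : ℕ, ∀ n : ℕ, N ≤ n → (z ^ n) x < c))

/-- a function with an accumulation of zeros is flat -/
def S_flat : Prop := ∀ (n : ℕ) (g : ℝ → ℝ) (q : ℝ), ContDiffAt ℝ n g q →
  (∃ᶠ t in 𝓝[≠] q, g t = 0) → g =o[𝓝 q] (fun t => (t - q) ^ n)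

/-- extraction of the element `φ`: a power of `f` (modulo translations) which acts on the
images `v ^ i (p,q)` as small roots of (a power of) `y` -/
def S_phi : Prop := ∀ (U : Set ℝ) (H : Subgroup (ℝ ≃o ℝ)), Setup U H →
  ∀ h y f v : ℝ ≃o ℝ, h ∈ H → y ∈ H → f ∈ H → v ∈ H → h * y * h⁻¹ = y ^ 2 →
  ∀ E : ℕ → ℕ, (∀ i : ℕ, 1 ≤ i → ∀ F : ℝ ≃o ℝ, F = (v ^ i)⁻¹ * f * v ^ i →
    Commute (F ^ (2 ^ (E i)) * y⁻¹) h ∧ Commute (F ^ (2 ^ (E i)) * y⁻¹) y ∧ Commute F y) →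
  ∀ p q x, IsComp y p q → x ∈ Ioo p q →
  ∃ φ ∈ H, ∀ i : ℕ, 1 ≤ i → φ ((v ^ i) p) = (v ^ i) p ∧ φ ((v ^ i) q) = (v ^ i) q ∧
    ∃ t ∈ uIcc ((v ^ i) x) ((v ^ i) (y x)),
      |(v ^ i) (y x) - (v ^ i) x| ≤ (2 ^ (E i) + 1) * |φ t - t|

/-- linked components -/
def S_link : Prop := ∀ (U : Set ℝ) (H : Subgroup (ℝ ≃o ℝ)), Setup U H →
  ∀ a b h y : ℝ ≃o ℝ, a ∈ H → b ∈ H → h ∈ H → y ∈ H → h * y * h⁻¹ = y ^ 2 →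
  (∀ j : ℕ, 1 ≤ j → Commute (a ^ j * b * (a ^ j)⁻¹) h ∧ Commute (a ^ j * b * (a ^ j)⁻¹) y) →
  (∀ j : ℕ, 1 ≤ j → Commute (b ^ j * a * (b ^ j)⁻¹) h ∧ Commute (b ^ j * a * (b ^ j)⁻¹) y) →
  (∀ j : ℕ, 1 ≤ j → Commute (a ^ j * y * (a ^ j)⁻¹) h ∧ Commute (a ^ j * y * (a ^ j)⁻¹) y) →
  (∀ j : ℕ, 1 ≤ j → Commute (b ^ j * y * (b ^ j)⁻¹) h ∧ Commute (b ^ j * y * (b ^ j)⁻¹) y) →
  ∀ p q x, IsComp y p q → x ∈ Ioo p q →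
  ∃ (n₁ n₂ : ℕ) (m₁ m₂ : ℤ) (A₀ A₁ B₀ B₁ : ℝ), 1 ≤ n₁ ∧ 1 ≤ n₂ ∧
    IsComp (tr ^ m₁ * a ^ n₁) A₀ A₁ ∧ IsComp (tr ^ m₂ * b ^ n₂) B₀ B₁ ∧
    ((B₀ < A₀ ∧ A₀ ≤ p ∧ q ≤ B₁ ∧ B₁ < A₁ ∧ (∀ t ∈ Ioo A₀ A₁, (tr ^ m₁ * a ^ n₁) t < t) ∧
        (∀ t ∈ Ioo B₀ B₁, t < (tr ^ m₂ * b ^ n₂) t)) ∨
     (A₀ < B₀ ∧ B₀ ≤ p ∧ q ≤ A₁ ∧ A₁ < B₁ ∧ (∀ t ∈ Ioo A₀ A₁, t < (tr ^ m₁ * a ^ n₁) t) ∧
        (∀ t ∈ Ioo B₀ B₁, (tr ^ m₂ * b ^ n₂) t < t)))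

/-- hyperbolicity: for large `j` the element `a ^ j! * b ^ j!` contracts a neighbourhood -/
def S_hyp : Prop := ∀ (U : Set ℝ) (H : Subgroup (ℝ ≃o ℝ)), Setup U H →
  ∀ a b y : ℝ ≃o ℝ, a ∈ H → b ∈ H → y ∈ H → ∀ p q x, IsComp y p q → x ∈ Ioo p q →
  ∀ (n₁ n₂ : ℕ) (m₁ m₂ : ℤ) (A₀ A₁ B₀ B₁ : ℝ), 1 ≤ n₁ → 1 ≤ n₂ →
    IsComp (tr ^ m₁ * a ^ n₁) A₀ A₁ → IsComp (tr ^ m₂ * b ^ n₂) B₀ B₁ →
    ((B₀ < A₀ ∧ A₀ ≤ p ∧ q ≤ B₁ ∧ B₁ < A₁ ∧ (∀ t ∈ Ioo A₀ A₁, (tr ^ m₁ * a ^ n₁) t < t) ∧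
        (∀ t ∈ Ioo B₀ B₁, t < (tr ^ m₂ * b ^ n₂) t)) ∨
     (A₀ < B₀ ∧ B₀ ≤ p ∧ q ≤ A₁ ∧ A₁ < B₁ ∧ (∀ t ∈ Ioo A₀ A₁, t < (tr ^ m₁ * a ^ n₁) t) ∧
        (∀ t ∈ Ioo B₀ B₁, (tr ^ m₂ * b ^ n₂) t < t))) →
  ∃ (j : ℕ) (l : ℤ) (c d : ℝ), 1 ≤ j ∧ Icc c d ⊆ U ∧ x ∈ Icc c d ∧ y x ∈ Icc c d ∧
    (p ∈ Icc c d ∨ q ∈ Icc c d) ∧
    (∀ t ∈ Icc c d, (tr ^ l * (a ^ (Nat.factorial j) * b ^ (Nat.factorial j))) t ∈ Icc c d) ∧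
    (∀ t ∈ Icc c d,
      deriv (tr ^ l * (a ^ (Nat.factorial j) * b ^ (Nat.factorial j)) : ℝ ≃o ℝ) t ≤ 1 / 2)

/-- the final contradiction of the first rigidity theorem -/
def S_fin84 : Prop := ∀ (U : Set ℝ) (H : Subgroup (ℝ ≃o ℝ)), Setup U H →
  (∀ F ∈ H, ∀ t ∈ U, ∀ M : ℕ, ContDiffAt ℝ M F t) →
  ∀ h y f v : ℝ ≃o ℝ, h ∈ H → y ∈ H → f ∈ H → v ∈ H → h * y * h⁻¹ = y ^ 2 →
  ∀ e : ℕ, (∀ i : ℕ, 1 ≤ i → ∀ F : ℝ ≃o ℝ, F = (v ^ i)⁻¹ * f * v ^ i →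
    Commute (F ^ (2 ^ (e * i)) * y⁻¹) h ∧ Commute (F ^ (2 ^ (e * i)) * y⁻¹) y ∧ Commute F y) →
  (∀ i : ℕ, 1 ≤ i → Commute (v ^ i * y * (v ^ i)⁻¹) h ∧ Commute (v ^ i * y * (v ^ i)⁻¹) y) →
  ∀ p q x, IsComp y p q → x ∈ Ioo p q →
  ∀ c d, Icc c d ⊆ U → x ∈ Icc c d → y x ∈ Icc c d → (p ∈ Icc c d ∨ q ∈ Icc c d) →
  (∀ t ∈ Icc c d, v t ∈ Icc c d) → (∀ t ∈ Icc c d, deriv v t ≤ 1 / 2) → False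

/-- first rigidity theorem -/
def S_rigid84 : Prop := ∀ (U : Set ℝ) (H : Subgroup (ℝ ≃o ℝ)), Setup U H →
  (∀ F ∈ H, ∀ t ∈ U, ∀ M : ℕ, ContDiffAt ℝ M F t) →
  ∀ e : ℕ → ℕ, ∀ a b h y f : ℝ ≃o ℝ, a ∈ H → b ∈ H → h ∈ H → y ∈ H → f ∈ H →
  Rel84 e a b h y f → y = 1

/-- rates for the Baumslag-Solitar pair `t, v` in the second rigidity theorem. `w` is a power of
`v` modulo translations which preserves the component `(l₀,l₁)` of the support of `t`; `s` is its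
fixed point; the images `w ^ i [x, x']` have size comparable with `2 ^ (-n i)`. -/
def S_rate02 : Prop := ∀ (U : Set ℝ) (H : Subgroup (ℝ ≃o ℝ)), Setup U H →
  ∀ t v : ℝ ≃o ℝ, t ∈ H → v ∈ H → v⁻¹ * t * v = t ^ 2 → ∀ l₀ l₁, IsComp t l₀ l₁ →
  ∃ (n : ℕ) (m : ℤ) (s : ℝ), 1 ≤ n ∧ s ∈ Ioo l₀ l₁ ∧ (tr ^ m * v ^ n) s = s ∧
    (tr ^ m * v ^ n) l₀ = l₀ ∧ (tr ^ m * v ^ n) l₁ = l₁ ∧
    ∀ c d, l₀ < c → c < d → d < l₁ → ∃ C : ℝ, 0 < C ∧ ∀ i : ℕ,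
      (∀ x ∈ Icc c d, |((tr ^ m * v ^ n) ^ i) x - s| ≤ C / 2 ^ (n * i)) ∧
      (∀ x ∈ Icc c d, ∀ x' ∈ Icc c d,
        |x - x'| / (C * 2 ^ (n * i)) ≤ |((tr ^ m * v ^ n) ^ i) x - ((tr ^ m * v ^ n) ^ i) x'|)

/-- second rigidity theorem -/
def S_rigid02 : Prop := ∀ k : ℕ, 1 ≤ k → ∀ (U : Set ℝ) (H : Subgroup (ℝ ≃o ℝ)), Setup U H →
  (∀ F ∈ H, ∀ t ∈ U, ContDiffAt ℝ (k + 1 : ℕ) F t) →
  ∀ t v h y f : ℝ ≃o ℝ, t ∈ H → v ∈ H → h ∈ H → y ∈ H → f ∈ H →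
  Rel02 k t v h y f → y = 1

end Pool.Agent.W331.CR
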