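import Pool.Agent.W331.CR.Defs2
import Pool.Agent.W331.CR.Stm

/-! Statements of the parts of the existence theorems and of the passage between the line,
the circle and the interval. -/

set_option autoImplicit false

open Set Filter Topology Function
open scoped ContDiff

namespace Pool.Agent.W331.CR

/-! ### Interval and circle -/

/-- homeomorphisms supported in `(1/4,3/4)` -/
def Sup : Subgroup (ℝ ≃o ℝ) where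
  carrier := {F | ∀ x, x ∉ Ioo (1/4 : ℝ) (3/4) → F x = x}
  mul_mem' := by
    intro F G h1 h4 x hx
    rw [RelIso.mul_apply, h4 x hx, h1 x hx]
  one_mem' := fun _ _ => rfl
  inv_mem' := by
    intro F h1 x hx
    apply F.injective
    rw [h1 x hx]
    exact F.apply_symm_apply x

/-- restriction to the interval -/
def S_toI : Prop := ∃ φ : Sup →* (Icc (0:ℝ) 1 ≃o Icc (0:ℝ) 1), Injective φ ∧
  ∀ (F : Sup) (x : Icc (0:ℝ) 1), ((φ F x : Icc (0:ℝ) 1) : ℝ) = (F : ℝ ≃o ℝ) x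

/-- periodic extension; lifts and their regularity -/
def S_toS : Prop := ∃ φ : Sup →* Equiv.Perm (AddCircle (1:ℝ)), Injective φ ∧
  ∀ F : Sup, ∃ P : ℝ ≃o ℝ, (∀ x, P (x + 1) = P x + 1) ∧
    (∀ x : ℝ, φ F (x : AddCircle (1:ℝ)) = ((P x : ℝ) : AddCircle (1:ℝ))) ∧
    (∀ r : WithTop ℕ∞, ContDiff ℝ r (F : ℝ ≃o ℝ) → ContDiff ℝ r P) ∧
    (∀ r : WithTop ℕ∞, ContDiff ℝ r ((F : ℝ ≃o ℝ)⁻¹ : ℝ ≃o ℝ) → ContDiff ℝ r (P⁻¹ : ℝ ≃o ℝ)) ∧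
    (∀ k : ℕ, ContDiff ℝ k (F : ℝ ≃o ℝ) →
      (∃ K, LipschitzWith K (iteratedDeriv k ((F : ℝ ≃o ℝ) : ℝ → ℝ))) →
      ∃ K, LipschitzWith K (iteratedDeriv k (P : ℝ → ℝ)))

def S_setupS : Prop := ∀ r : WithTop ℕ∞, 2 ≤ r → Setup univ (Lifts r)

def S_setupI : Prop := ∀ r : WithTop ℕ∞, 2 ≤ r →
  ∃ (H : Subgroup (ℝ ≃o ℝ)) (ψ : DiffI r →* H), Injective ψ ∧
    Setup {x : ℝ | ∀ n : ℤ, x ≠ n} H ∧
    ∀ F ∈ H, ∀ t : ℝ, (∀ n : ℤ, t ≠ n) → ContDiffAt ℝ r F t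

def S_no84S : Prop := ∀ (e : ℕ → ℕ) (G : Type) [Group G] (a b h y f : G), Rel84 e a b h y f →
  y ≠ 1 → ¬ ∃ φ : G →* DiffS ∞, Injective φ

def S_no84I : Prop := ∀ (e : ℕ → ℕ) (G : Type) [Group G] (a b h y f : G), Rel84 e a b h y f →
  y ≠ 1 → ¬ ∃ φ : G →* DiffI ∞, Injective φ

def S_no02S : Prop := ∀ (k : ℕ), 1 ≤ k → ∀ (G : Type) [Group G] (t v h y f : G),
  Rel02 k t v h y f → y ≠ 1 → ¬ ∃ φ : G →* DiffS (k + 1 : ℕ), Injective φ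

def S_no02I : Prop := ∀ (k : ℕ), 1 ≤ k → ∀ (G : Type) [Group G] (t v h y f : G),
  Rel02 k t v h y f → y ≠ 1 → ¬ ∃ φ : G →* DiffI (k + 1 : ℕ), Injective φ

/-! ### Flat affine group and coordinates -/

/-- there is a smooth coordinate `κ : ℝ → (0,1)` in which the affine group becomes smooth on the
line (flat at `0` and `1`) -/
def S_flataff : Prop := ∃ κ : ℝ → ℝ, IsCoord κ 0 1 ∧
  ∃ (h : ℝ ≃o ℝ) (y : ℝ → (ℝ ≃o ℝ)), FlatPair h y ∧ (∀ t, h (κ t) = κ (2 * t)) ∧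
    ∀ s t, y s (κ t) = κ (t + s)

/-- conjugates by a coordinate of compactly supported maps: existence -/
def S_conj : Prop := ∀ (κ : ℝ → ℝ) (α β : ℝ), IsCoord κ α β → ∀ F : ℝ ≃o ℝ,
  ∃ G : ℝ ≃o ℝ, IsConj κ F G ∧ (∀ r : WithTop ℕ∞, r ≤ ∞ → ContDiff ℝ r F →
    (∃ A B : ℝ, ∀ x, x ∉ Icc A B → F x = x) → ContDiff ℝ r G)

/-- conjugates by a coordinate of the flow of a flat pair: linear bounds in the time -/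
def S_conjflow : Prop := ∀ (h : ℝ ≃o ℝ) (y : ℝ → (ℝ ≃o ℝ)), FlatPair h y →
  ∀ (κ : ℝ → ℝ) (α β : ℝ), IsCoord κ α β → ∀ k : ℕ, ∃ C : ℝ, 0 < C ∧ ∀ s : ℝ, |s| ≤ 1 →
  ∀ G : ℝ ≃o ℝ, IsConj κ (y s) G → Bd k (C * |s|) (fun x => G x - x)

/-- conjugation by a fixed smooth diffeomorphism is Lipschitz near the identity in the `C^k` norm -/
def S_T : Prop := ∀ v : ℝ ≃o ℝ, ContDiff ℝ ∞ v → ContDiff ℝ ∞ (v⁻¹ : ℝ ≃o ℝ) →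
  (∃ A B : ℝ, ∀ x, x ∉ Icc A B → v x = x) → ∀ k : ℕ, ∃ Q : ℝ, 1 ≤ Q ∧
  ∀ G : ℝ ≃o ℝ, ContDiff ℝ ∞ G → ∀ ε : ℝ, ε ≤ 1 → Bd k ε (fun x => G x - x) →
    Bd k (Q * ε) (fun x => (v * G * v⁻¹) x - x)

/-- gluing infinitely many diffeomorphisms with disjoint supports and summable `C^k` norms -/
def S_glue : Prop := ∀ (k : ℕ) (ι : Type) [Countable ι] (c d : ι → ℝ) (F : ι → (ℝ ≃o ℝ))
  (B : ι → ℝ), (∀ i j, i ≠ j → Disjoint (Ioo (c i) (d i)) (Ioo (c j) (d j))) →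
  (∀ i, ∀ x, x ∉ Ioo (c i) (d i) → F i x = x) → (∀ i, ContDiff ℝ ∞ (F i)) →
  Summable B → (∀ i, Bd k (B i) (fun x => F i x - x)) →
  ∃ G : ℝ ≃o ℝ, ContDiff ℝ k G ∧ (∀ i, ∀ x ∈ Ioo (c i) (d i), G x = F i x) ∧
    ∀ x, (∀ i, x ∉ Ioo (c i) (d i)) → G x = x

/-! ### Combinatorial group and its realisation -/

def S_rel84 : Prop := ∀ (h : ℝ ≃o ℝ) (y : ℝ → (ℝ ≃o ℝ)), FlatPair h y → ∀ e : ℕ → ℕ,
  Rel84 e gA gB (gH h) (gY y) (gF y e) ∧ gY y ≠ 1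

/-- the fibre map of `f` on the gap `(a ^ j! b ^ j!) ^ i` -/
def S_fTau : Prop := ∀ (y : ℝ → (ℝ ≃o ℝ)) (e : ℕ → ℕ),
  (∀ j i : ℕ, 1 ≤ j → 1 ≤ i → fTau y e (Sum.inl (vw j i)) = (y (1 / 2 ^ (e j * i))).toEquiv) ∧
  (∀ x : Ix, (∀ j i : ℕ, 1 ≤ j → 1 ≤ i → x ≠ Sum.inl (vw j i)) → fTau y e x = 1) ∧
  (∀ j i j' i' : ℕ, 1 ≤ j → 1 ≤ i → 1 ≤ j' → 1 ≤ i' → vw j i = vw j' i' → j = j' ∧ i = i')

/-- abstract passage from equivariance to a homomorphism -/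
def S_hom : Prop := ∀ (X : Type) (ι : X → ℝ) (S : Set (Equiv.Perm X)) (r : WithTop ℕ∞)
  (c d : ℝ), c < d → Injective ι → Icc c d ⊆ closure (range ι) →
  (∀ s ∈ S, ∃ F : ℝ ≃o ℝ, ContDiff ℝ r F ∧ ContDiff ℝ r (F⁻¹ : ℝ ≃o ℝ) ∧
    (∀ x, x ∉ Ioo c d → F x = x) ∧ ∀ x, F (ι x) = ι (s x)) →
  ∃ φ : Subgroup.closure S →* CS r, Injective φ

/-- the intervals of words shrink uniformly -/
def S_nest : Prop := ∀ (M : ℕ) (lam : ℝ) (a b : ℝ ≃o ℝ) (L R : ℝ), Model M lam a b L R →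
  ∀ ε : ℝ, 0 < ε → ∃ n : ℕ, ∀ u : List Bool, n ≤ u.length → kap a b u L - kap a b u 0 ≤ ε

def S_iota : Prop := ∀ (M : ℕ) (lam : ℝ) (a b : ℝ ≃o ℝ) (L R : ℝ), Model M lam a b L R →
  ∀ κ : ℝ → ℝ, IsCoord κ (a L) (b 0) →
  Injective (iota a b κ) ∧ (∀ x, iota a b κ x ∈ Ioo (-R) R) ∧
  (∀ x, a (iota a b κ x) = iota a b κ (gA x)) ∧ (∀ x, b (iota a b κ x) = iota a b κ (gB x))

def S_dense : Prop := ∀ (M : ℕ) (lam : ℝ) (a b : ℝ ≃o ℝ) (L R : ℝ), Model M lam a b L R →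
  ∀ κ : ℝ → ℝ, IsCoord κ (a L) (b 0) → Icc (-R) R ⊆ closure (range (iota a b κ))

/-- existence of models -/
def S_model : Prop := ∀ M : ℕ, ∃ lam₀ : ℝ, lam₀ < 1 ∧ ∀ lam : ℝ, lam₀ < lam → lam < 1 →
  ∃ (a b : ℝ ≃o ℝ) (L R : ℝ), Model M lam a b L R

/-- growth of the `C^k` norms of the pieces of `f` for a general index `j` -/
def S_growth : Prop := ∀ (h : ℝ ≃o ℝ) (y : ℝ → (ℝ ≃o ℝ)), FlatPair h y →
  ∀ (M : ℕ) (lam : ℝ) (a b : ℝ ≃o ℝ) (L R : ℝ), Model M lam a b L R →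
  ∀ κ : ℝ → ℝ, IsCoord κ (a L) (b 0) → ∀ (k j : ℕ), ∃ C Q : ℝ, 1 ≤ C ∧ 1 ≤ Q ∧
  ∀ (i : ℕ) (s : ℝ) (G : ℝ ≃o ℝ), IsConj κ (y s) G → |s| * (C * Q ^ i) ≤ 1 →
    Bd k (|s| * (C * Q ^ i)) (fun x => ((a ^ (Nat.factorial j) * b ^ (Nat.factorial j)) ^ i * G *
      ((a ^ (Nat.factorial j) * b ^ (Nat.factorial j)) ^ i)⁻¹) x - x)

/-- growth of the `C^k` norms of the pieces of `f` when `a ^ m b ^ m` is affine near its fixed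
point -/
def S_growaff : Prop := ∀ (h : ℝ ≃o ℝ) (y : ℝ → (ℝ ≃o ℝ)), FlatPair h y →
  ∀ (M : ℕ) (lam : ℝ) (a b : ℝ ≃o ℝ) (L R : ℝ), Model M lam a b L R → 0 < lam → lam < 1 →
  ∀ κ : ℝ → ℝ, IsCoord κ (a L) (b 0) → ∀ (k m : ℕ), 1 ≤ m → m ≤ M → 1 / 2 < lam ^ k →
  ∀ E : ℕ, 1 ≤ E →
  ∃ B : ℕ → ℝ, Summable B ∧ ∀ (i : ℕ) (s : ℝ) (G : ℝ ≃o ℝ), |s| = 1 / 2 ^ (E * i) →
    IsConj κ (y s) G →
    Bd k (B i) (fun x => ((a ^ m * b ^ m) ^ i * G * ((a ^ m * b ^ m) ^ i)⁻¹) x - x)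

/-- realisation of the combinatorial group by `C^k` diffeomorphisms -/
def S_emb : Prop := ∀ (h : ℝ ≃o ℝ) (y : ℝ → (ℝ ≃o ℝ)), FlatPair h y → ∀ k : ℕ,
  ∃ Q : ℕ → ℕ, ∀ e : ℕ → ℕ, (∀ j, 1 ≤ e j) → (∀ j, k ≤ j → Q j ≤ e j) →
  ∃ φ : Gam h y e →* CS k, Injective φ

def S_exist84 : Prop := ∃ (e : ℕ → ℕ) (G : Type) (_ : Group G) (a b h y f : G),
  Rel84 e a b h y f ∧ y ≠ 1 ∧ Subgroup.closure {a, b, h, y, f} = ⊤ ∧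
  ∀ k : ℕ, ∃ φ : G →* CS k, Injective φ

/-! ### The `C^{k,Lip}` group -/

/-- `C^k` with Lipschitz `k`-th derivative, identity outside `(1/4,3/4)` -/
def LipCS (k : ℕ) : Set (ℝ ≃o ℝ) :=
  {F | F ∈ CS k ∧ ∃ K, LipschitzWith K (iteratedDeriv k (F : ℝ → ℝ))}

def S_lipmul : Prop := ∀ k : ℕ, 1 ≤ k → ∀ F G : ℝ ≃o ℝ, F ∈ LipCS k → G ∈ LipCS k →
  F * G ∈ LipCS k

/-- conjugation by a coordinate preserves the class `C^{k,Lip}` -/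
def S_conjlip : Prop := ∀ (κ : ℝ → ℝ) (α β : ℝ), IsCoord κ α β → ∀ F G : ℝ ≃o ℝ,
  IsConj κ F G → (∃ A B : ℝ, ∀ x, x ∉ Icc A B → F x = x) → ∀ k : ℕ, 1 ≤ k → ContDiff ℝ k F →
  (∃ K, LipschitzWith K (iteratedDeriv k (F : ℝ → ℝ))) →
  ∃ K, LipschitzWith K (iteratedDeriv k (G : ℝ → ℝ))

/-- the element `f` of the second group, in the coordinate in which `v` is `x ↦ x / 2` -/
def S_f02 : Prop := ∀ (h : ℝ ≃o ℝ) (y : ℝ → (ℝ ≃o ℝ)), FlatPair h y → ∀ k : ℕ, 1 ≤ k →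
  ∃ f : ℝ ≃o ℝ, (∀ i : ℕ, 1 ≤ i → ∀ x ∈ Ioo (0:ℝ) 1,
      f ((5 / 8 + x / 4) / 2 ^ i) = (5 / 8 + y (1 / 2 ^ (k * i)) x / 4) / 2 ^ i) ∧
    (∀ x, (∀ i : ℕ, 1 ≤ i → 2 ^ i * x ∉ Ioo (5 / 8 : ℝ) (7 / 8)) → f x = x) ∧
    ContDiff ℝ k f ∧ ContDiff ℝ k (f⁻¹ : ℝ ≃o ℝ) ∧
    (∃ K, LipschitzWith K (iteratedDeriv k (f : ℝ → ℝ))) ∧
    (∃ K, LipschitzWith K (iteratedDeriv k ((f⁻¹ : ℝ ≃o ℝ) : ℝ → ℝ)))

/-- existence of the second group: every element of the group generated by `t v h y f` is of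
class `C^{k,Lip}` and the relations hold -/
def S_exist02 : Prop := ∀ k : ℕ, 1 ≤ k → ∃ t v h y f : ℝ ≃o ℝ, Rel02 k t v h y f ∧ y ≠ 1 ∧
  (∀ F ∈ ({t, v, h, y, f} : Set (ℝ ≃o ℝ)), F ∈ LipCS k ∧ F⁻¹ ∈ LipCS k)

/-- orientation preserving `C^{k,Lip}` diffeomorphisms of the interval -/
def LipI (k : ℕ) : Set (Icc (0:ℝ) 1 ≃o Icc (0:ℝ) 1) :=
  {φ | φ ∈ DiffI k ∧
    ∃ K, LipschitzOnWith K (iteratedDerivWithin k (ext01 φ) (Icc 0 1)) (Icc 0 1)}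

/-- orientation preserving `C^{k,Lip}` diffeomorphisms of the circle -/
def LipS (k : ℕ) : Set (Equiv.Perm (AddCircle (1:ℝ))) :=
  {σ | ∃ F : ℝ ≃o ℝ, IsLift k F ∧ (∃ K, LipschitzWith K (iteratedDeriv k (F : ℝ → ℝ))) ∧
    ∀ x : ℝ, σ (x : AddCircle (1:ℝ)) = ((F x : ℝ) : AddCircle (1:ℝ))}

end Pool.Agent.W331.CR
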